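import Pool.Agent.A856.HW.LFam
import Pool.Agent.Y772.HG.Sgn

/-!
# Cosets of ray class characters

Owner helper856 (Hecke L-functions with powerful conductor).
-/

set_option autoImplicit false
set_option linter.unusedSectionVars false
set_option linter.unusedVariables false
set_option maxHeartbeats 4000000

open NumberField Complex Filter Topology Set MeasureTheory

namespace Pool.Agent.A856.HW

open Pool.Agent.Y773 (TPos LI sg_TPos)
open Pool.Agent.Y773.G
open Pool.Agent.Y772.G (rl_real rl_cpx isReal_or rl_pos_cpx tpos_iff t_sig)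

variable {K : Type} [Field K] [NumberField K]

/-- totally positive representatives of the classes modulo an ideal -/
lemma exists_tpos_add {𝔣 : Ideal (𝓞 K)} (hf : 𝔣 ≠ ⊥) (a : 𝓞 K) :
    ∃ c : 𝓞 K, c ≠ 0 ∧ c - a ∈ 𝔣 ∧ TPos K c := by
  classical
  set N : ℕ := Ideal.absNorm 𝔣 with hN
  have hN0 : 1 ≤ N := Nat.one_le_iff_ne_zero.2 (by rwa [hN, Ne, Ideal.absNorm_eq_zero_iff])
  have hN1 : (1 : ℝ) ≤ N := by exact_mod_cast hN0
  obtain ⟨k, hk⟩ := exists_nat_gt (∑ w : InfinitePlace K, w (a : K))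
  have hw : ∀ w : InfinitePlace K, w (a : K) < (k : ℝ) * N := by
    intro w
    have h1 : w (a : K) ≤ ∑ w : InfinitePlace K, w (a : K) :=
      Finset.single_le_sum (f := fun w : InfinitePlace K => w (a : K))
        (fun w _ => apply_nonneg _ _) (Finset.mem_univ w)
    have h2 : (k : ℝ) ≤ (k : ℝ) * N := le_mul_of_one_le_right (Nat.cast_nonneg k) hN1
    linarith
  have hcast : ((a + (k * N : ℕ) : 𝓞 K) : K) = (a : K) + ((k * N : ℕ) : K) := by
    have h1 : algebraMap (𝓞 K) K (a + ((k * N : ℕ) : 𝓞 K)) =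
      algebraMap (𝓞 K) K a + algebraMap (𝓞 K) K ((k * N : ℕ) : 𝓞 K) := map_add _ _ _
    rw [map_natCast] at h1
    exact h1
  have hpos : ∀ w : InfinitePlace K, 0 < w ((a + (k * N : ℕ) : 𝓞 K) : K) := by
    intro w
    rw [hcast]
    have h1 : w ((k * N : ℕ) : K) ≤ w ((a : K) + ((k * N : ℕ) : K)) + w (a : K) := by
      have h2 := w.1.add_le ((a : K) + ((k * N : ℕ) : K)) (-(a : K))
      have h3 : (a : K) + ((k * N : ℕ) : K) + -(a : K) = ((k * N : ℕ) : K) := by ring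
      rw [h3, AbsoluteValue.map_neg] at h2
      exact h2
    have h4 : w ((k * N : ℕ) : K) = (k : ℝ) * N := by
      rw [← InfinitePlace.norm_embedding_eq, map_natCast, Complex.norm_natCast, Nat.cast_mul]
    have := hw w
    linarith
  have hne : (a + (k * N : ℕ) : 𝓞 K) ≠ 0 := by
    intro h
    obtain ⟨w⟩ : Nonempty (InfinitePlace K) := inferInstance
    have h1 := hpos w
    rw [h] at h1
    simp at h1
  refine ⟨a + (k * N : ℕ), hne, ?_, ?_⟩
  · rw [add_sub_cancel_left, Nat.cast_mul]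
    exact Ideal.mul_mem_left _ _ (Ideal.absNorm_mem 𝔣)
  · rw [tpos_iff hne]
    intro w
    rcases isReal_or w with hwr | hwc
    · rw [hcast, rl_real hwr, map_add, map_natCast, ← rl_real hwr]
      have h1 : |rl w (a : K)| < (k : ℝ) * N := by
        rw [Pool.Agent.Y772.G.abs_rl]
        exact hw w
      have := (abs_lt.mp h1).1
      push_cast
      linarith
    · exact rl_pos_cpx hwc (RingOfIntegers.coe_ne_zero_iff.2 hne)

/-- a primitive character of conductor `≠ 1` is a character modulo its conductor -/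
lemma prim_mod {𝔣 : Ideal (𝓞 K)} {ψ : Ideal (𝓞 K) →*₀ ℂ} (h : IsPrimChar K 𝔣 ψ)
    (htop : 𝔣 ≠ ⊤) : ∃ e : InfinitePlace K → ℕ, IsModChar 𝔣 e ψ := by
  obtain ⟨e, he, hc, hsig⟩ := t_sig K 𝔣 ψ h.ne_bot h.ray
  refine ⟨e, h.ne_bot, htop, he, hc, fun 𝔞 => ?_, hsig⟩
  by_cases h0 : 𝔞 = ⊥
  · subst h0
    have h1 : ψ (⊥ : Ideal (𝓞 K)) = 0 := map_zero ψ
    constructor
    · intro h2
      exact absurd h1 h2
    · intro h2
      exfalso
      rw [Ideal.isCoprime_iff_sup_eq, bot_sup_eq] at h2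
      exact htop h2
  · exact h.supp 𝔞 h0

/-- **families in a coset** -/
theorem coset_mean (K : Type) [Field K] [NumberField K] : ∃ C : ℝ, 0 < C ∧
    ∀ (𝔣 𝔡 : Ideal (𝓞 K)), 𝔣 ≠ ⊤ → 𝔡 ∣ 𝔣 → 𝔣 ∣ 𝔡 ^ 3 → ∀ (I : Type) [Fintype I]
      (ψ : I → Ideal (𝓞 K) →*₀ ℂ), (∀ i, IsPrimChar K 𝔣 (ψ i)) → Function.Injective ψ →
      (∀ i j, ∀ a : 𝓞 K, a ≠ 0 → a - 1 ∈ 𝔡 → TPos K a →
        ψ i (Ideal.span {a}) = ψ j (Ideal.span {a})) →
      ∃ F : I → ℂ → ℂ, (∀ i, Differentiable ℂ (F i)) ∧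
        (∀ i, ∀ s : ℂ, 1 < s.re → F i s = LI (ψ i) s) ∧ ∀ t : ℝ,
      ∑ i, ‖F i (1 / 2 + t * Complex.I)‖ ^ 2 ≤
        C * (1 + |t|) ^ (6 * Module.finrank ℚ K) * (tau 𝔣 : ℝ) ^ 2 *
          (Ideal.absNorm 𝔡 : ℝ) * Real.log (2 * (Ideal.absNorm 𝔣 : ℝ)) ^ 2 := by
  classical
  obtain ⟨C, hC, hL⟩ := L_fam K
  refine ⟨Fintype.card (InfinitePlace K → Fin 2) * C, by positivity, ?_⟩
  intro 𝔣 𝔡 htop hd1 hd3 I hI ψ hp hinj hcong
  rw [Ideal.dvd_iff_le] at hd1 hd3
  choose e he using fun i => prim_mod (hp i) htop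
  have hent : ∀ i, ∃ F : ℂ → ℂ, Differentiable ℂ F ∧ ∀ s : ℂ, 1 < s.re → F s = LI (ψ i) s := by
    intro i
    have hne : (⊤ : Ideal (𝓞 K)) ≠ 𝔣 := fun h1 => htop h1.symm
    obtain ⟨x, -, -, hx, hx2⟩ := (hp i).prim ⊤ (by rw [← Ideal.one_eq_top]; exact one_dvd _) hne
    exact LI_entire (he i) ⟨_, hx, hx2⟩
  choose F hF hFL using hent
  refine ⟨F, hF, hFL, fun t => ?_⟩
  set R : ℝ := C * (1 + |t|) ^ (6 * Module.finrank ℚ K) * (tau 𝔣 : ℝ) ^ 2 *
          (Ideal.absNorm 𝔡 : ℝ) * Real.log (2 * (Ideal.absNorm 𝔣 : ℝ)) ^ 2 with hR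
  let σ : I → (InfinitePlace K → Fin 2) := fun i w => ⟨e i w, Nat.lt_succ_of_le ((he i).sig_le w)⟩
  have hσ : ∀ i j, σ i = σ j → e i = e j := by
    intro i j hij
    funext w
    have := congrFun hij w
    exact congrArg Fin.val this
  have hcls : ∀ s : InfinitePlace K → Fin 2,
      ∑ i ∈ Finset.univ.filter (fun i => σ i = s), ‖F i (1 / 2 + t * Complex.I)‖ ^ 2 ≤ R := by
    intro s
    rw [← Finset.sum_subtype_eq_sum_filter]
    have hfin : Finset.subtype (fun i => σ i = s) Finset.univ = Finset.univ := by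
      ext i; simp
    rw [hfin]
    by_cases hemp : IsEmpty {i // σ i = s}
    · rw [Finset.univ_eq_empty, Finset.sum_empty]
      positivity
    · rw [not_isEmpty_iff] at hemp
      obtain ⟨i₀⟩ := hemp
      have hee : ∀ i : {i // σ i = s}, e i.1 = e i₀.1 := fun i => hσ _ _ (i.2.trans i₀.2.symm)
      have hfam : Fam 𝔣 𝔡 (e i₀.1) (fun i : {i // σ i = s} => ψ i.1) := by
        refine ⟨fun i => hp i.1, fun i => ?_, fun i j hij => Subtype.ext (hinj hij), ?_⟩
        · rw [← hee i]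
          exact he i.1
        · intro i j a ha
          obtain ⟨c, hc0, hca, hcp⟩ := exists_tpos_add (hp i₀.1).ne_bot a
          have hmi : IsModChar 𝔣 (e i₀.1) (ψ i.1) := by rw [← hee i]; exact he i.1
          have hmj : IsModChar 𝔣 (e i₀.1) (ψ j.1) := by rw [← hee j]; exact he j.1
          have h1 := (chr_chi (hp i.1) hmi).per c a hca
          have h2 := (chr_chi (hp j.1) hmj).per c a hca
          change chi (ψ i.1) (e i₀.1) a = chi (ψ j.1) (e i₀.1) a
          rw [← h1, ← h2]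
          unfold chi
          have h3 : c - 1 ∈ 𝔡 := by
            have h4 := 𝔡.add_mem (hd1 hca) ha
            have h5 : c - a + (a - 1) = c - 1 := by ring
            rwa [h5] at h4
          rw [hcong i.1 j.1 c hc0 h3 hcp]
      exact hL 𝔣 𝔡 (e i₀.1) {i // σ i = s} (fun i => ψ i.1) hfam (hp i₀.1).ne_bot hd1 hd3
        (fun i => F i.1) (fun i => hF i.1) (fun i => hFL i.1) t
  calc ∑ i, ‖F i (1 / 2 + t * Complex.I)‖ ^ 2
      = ∑ s : InfinitePlace K → Fin 2,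
        ∑ i ∈ Finset.univ.filter (fun i => σ i = s), ‖F i (1 / 2 + t * Complex.I)‖ ^ 2 := by
        rw [Finset.sum_fiberwise]
    _ ≤ ∑ s : InfinitePlace K → Fin 2, R := Finset.sum_le_sum fun s _ => hcls s
    _ = _ := by
        rw [Finset.sum_const, Finset.card_univ, nsmul_eq_mul, hR]
        ring

end Pool.Agent.A856.HW
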