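import Pool.Agent.A856.HW.SumB

/-!
# Families of characters: Bessel's inequality

Owner helper856 (Hecke L-functions with powerful conductor).
-/

set_option autoImplicit false
set_option linter.unusedSectionVars false
set_option linter.unusedVariables false
set_option maxHeartbeats 4000000

open NumberField Complex Filter Topology UniqueFactorizationMonoid

namespace Pool.Agent.A856.HW

open Pool.Agent.Y773 (Idx db lp PerI SQ mk_out out_mk SQ_bij SQ_mono SQ_const_mul SQ_congr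
  exists_unique_class Reps rp rp_ne_bot reps_rp)
open Pool.Agent.Y773.G

/-- Bombieri's form of Bessel's inequality -/
lemma bessel {I Q : Type} [Fintype I] [Fintype Q] (ω : I → Q → ℂ) (A : Q → ℂ) {M : ℝ}
    (hM0 : 0 ≤ M) (hM : ∀ i, ∑ j, ‖∑ q, ω i q * (starRingEnd ℂ) (ω j q)‖ ≤ M) :
    ∑ i, ‖∑ q, ω i q * A q‖ ^ 2 ≤ M * ∑ q, ‖A q‖ ^ 2 := by
  classical
  set S : I → ℂ := fun i => ∑ q, ω i q * A q with hS
  set T : ℝ := ∑ i, ‖S i‖ ^ 2 with hT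
  have hT0 : 0 ≤ T := Finset.sum_nonneg fun _ _ => by positivity
  set N : ℝ := ∑ q, ‖A q‖ ^ 2 with hN
  have hN0 : 0 ≤ N := Finset.sum_nonneg fun _ _ => by positivity
  set v : Q → ℂ := fun q => ∑ i, (starRingEnd ℂ) (S i) * ω i q with hv
  have h1 : (T : ℂ) = ∑ q, v q * A q := by
    rw [hT, hv]
    push_cast
    simp_rw [Finset.sum_mul]
    rw [Finset.sum_comm]
    refine Finset.sum_congr rfl fun i _ => ?_
    have : ((‖S i‖ : ℝ) : ℂ) ^ 2 = (starRingEnd ℂ) (S i) * S i := by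
      rw [mul_comm, Complex.mul_conj, Complex.normSq_eq_norm_sq]
      push_cast
      rfl
    rw [this]
    conv_lhs => rw [hS]
    simp only
    rw [Finset.mul_sum]
    exact Finset.sum_congr rfl fun q _ => by ring
  -- the norm of `v`
  have h2 : ∑ q, ‖v q‖ ^ 2 ≤ M * T := by
    have e1 : ((∑ q, ‖v q‖ ^ 2 : ℝ) : ℂ) = ∑ i, ∑ j, ((starRingEnd ℂ) (S i) * S j) *
        ∑ q, ω i q * (starRingEnd ℂ) (ω j q) := by
      push_cast
      have e2 : ∀ q, ((‖v q‖ : ℝ) : ℂ) ^ 2 = ∑ i, ∑ j, ((starRingEnd ℂ) (S i) * S j) *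
          (ω i q * (starRingEnd ℂ) (ω j q)) := by
        intro q
        have : ((‖v q‖ : ℝ) : ℂ) ^ 2 = v q * (starRingEnd ℂ) (v q) := by
          rw [Complex.mul_conj, Complex.normSq_eq_norm_sq]
          push_cast
          rfl
        rw [this, hv]
        simp only
        rw [map_sum, Finset.sum_mul_sum]
        refine Finset.sum_congr rfl fun i _ => Finset.sum_congr rfl fun j _ => ?_
        rw [map_mul, Complex.conj_conj]
        ring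
      simp_rw [e2]
      rw [Finset.sum_comm]
      refine Finset.sum_congr rfl fun i _ => ?_
      rw [Finset.sum_comm]
      refine Finset.sum_congr rfl fun j _ => ?_
      exact (Finset.mul_sum _ _ _).symm
    have e3 : ∑ q, ‖v q‖ ^ 2 = ‖((∑ q, ‖v q‖ ^ 2 : ℝ) : ℂ)‖ := by
      rw [Complex.norm_real, Real.norm_of_nonneg (Finset.sum_nonneg fun _ _ => by positivity)]
    rw [e3, e1]
    set G : I → I → ℝ := fun i j => ‖∑ q, ω i q * (starRingEnd ℂ) (ω j q)‖ with hG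
    have hGs : ∀ i j, G i j = G j i := by
      intro i j
      rw [hG]
      simp only
      rw [← Complex.norm_conj, map_sum]
      congr 1
      refine Finset.sum_congr rfl fun q _ => ?_
      rw [map_mul, Complex.conj_conj]
      ring
    have e4 : ‖∑ i, ∑ j, ((starRingEnd ℂ) (S i) * S j) * ∑ q, ω i q * (starRingEnd ℂ) (ω j q)‖ ≤
        ∑ i, ∑ j, (‖S i‖ ^ 2 / 2 * G i j + ‖S j‖ ^ 2 / 2 * G i j) := by
      refine (norm_sum_le _ _).trans (Finset.sum_le_sum fun i _ => ?_)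
      refine (norm_sum_le _ _).trans (Finset.sum_le_sum fun j _ => ?_)
      rw [norm_mul, norm_mul, RCLike.norm_conj, ← add_mul]
      refine mul_le_mul_of_nonneg_right ?_ (norm_nonneg _)
      nlinarith [sq_nonneg (‖S i‖ - ‖S j‖)]
    refine e4.trans ?_
    simp_rw [Finset.sum_add_distrib]
    have e5 : ∑ i, ∑ j, ‖S i‖ ^ 2 / 2 * G i j ≤ M * T / 2 := by
      calc ∑ i, ∑ j, ‖S i‖ ^ 2 / 2 * G i j = ∑ i, ‖S i‖ ^ 2 / 2 * ∑ j, G i j := by
            refine Finset.sum_congr rfl fun i _ => ?_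
            rw [Finset.mul_sum]
        _ ≤ ∑ i, ‖S i‖ ^ 2 / 2 * M := Finset.sum_le_sum fun i _ =>
            mul_le_mul_of_nonneg_left (hM i) (by positivity)
        _ = M * T / 2 := by
            rw [← Finset.sum_mul, ← Finset.sum_div, hT]
            ring
    have e6 : ∑ i, ∑ j, ‖S j‖ ^ 2 / 2 * G i j ≤ M * T / 2 := by
      rw [Finset.sum_comm]
      refine le_trans (le_of_eq ?_) e5
      refine Finset.sum_congr rfl fun i _ => Finset.sum_congr rfl fun j _ => ?_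
      rw [hGs]
    linarith
  have h3 : T ^ 2 ≤ (M * T) * N := by
    have e1 : T ≤ ∑ q, ‖v q‖ * ‖A q‖ := by
      have : T = ‖(T : ℂ)‖ := by rw [Complex.norm_real, Real.norm_of_nonneg hT0]
      rw [this, h1]
      refine (norm_sum_le _ _).trans (le_of_eq ?_)
      exact Finset.sum_congr rfl fun q _ => norm_mul _ _
    have e2 := Finset.sum_mul_sq_le_sq_mul_sq Finset.univ (fun q => ‖v q‖) (fun q => ‖A q‖)
    calc T ^ 2 ≤ (∑ q, ‖v q‖ * ‖A q‖) ^ 2 := by gcongr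
      _ ≤ (∑ q, ‖v q‖ ^ 2) * ∑ q, ‖A q‖ ^ 2 := e2
      _ ≤ (M * T) * N := mul_le_mul_of_nonneg_right h2 hN0
  rcases hT0.eq_or_lt with h4 | h4
  · rw [← h4]
    positivity
  · have h5 : T * T ≤ (M * N) * T := by nlinarith
    exact le_of_mul_le_mul_right h5 h4

variable {K : Type} [Field K] [NumberField K]

/-- a family of primitive characters modulo `𝔣` of the same signature, which are congruent
modulo `𝔡` -/
structure Fam (𝔣 𝔡 : Ideal (𝓞 K)) (e : InfinitePlace K → ℕ) {I : Type}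
    (ψ : I → Ideal (𝓞 K) →*₀ ℂ) : Prop where
  prim : ∀ i, IsPrimChar K 𝔣 (ψ i)
  mod : ∀ i, IsModChar 𝔣 e (ψ i)
  inj : Function.Injective ψ
  cong : ∀ i j, ∀ a : 𝓞 K, a - 1 ∈ 𝔡 → chi (ψ i) e a = chi (ψ j) e a

section

variable {𝔣 𝔡 𝔟 : Ideal (𝓞 K)} {e : InfinitePlace K → ℕ} {I : Type} {ψ : I → Ideal (𝓞 K) →*₀ ℂ}
  {χ Ψ : 𝓞 K → ℂ}

/-- the multiplier -/
noncomputable def om (ψ : I → Ideal (𝓞 K) →*₀ ℂ) (e : InfinitePlace K → ℕ) (𝔟 : Ideal (𝓞 K))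
    (i₀ i : I) (x : 𝓞 K) : ℂ := Ps (ψ i) e 𝔟 x * (starRingEnd ℂ) (Ps (ψ i₀) e 𝔟 x)

lemma PsT.norm_one (P : PsT 𝔣 𝔟 χ Ψ) (H : Chr 𝔣 χ) {x : 𝓞 K} (hx : Ψ x ≠ 0) : ‖Ψ x‖ = 1 := by
  have hxb : x ∈ 𝔟 := by
    by_contra h
    exact hx (P.zero x h)
  obtain ⟨b, hb⟩ := IsDedekindDomain.exists_sup_span_eq (I := 𝔟 * 𝔣) (J := 𝔟)
    Ideal.mul_le_left (mul_ne_zero P.ne H.ne)
  rw [sup_comm] at hb
  have hb1 : b ∈ 𝔟 := by
    rw [← hb]
    exact Ideal.mem_sup_left (Ideal.mem_span_singleton_self b)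
  obtain ⟨a, ha⟩ := coord hb hxb
  rw [P.per _ _ ha, P.mul a b hb1] at hx ⊢
  rw [norm_mul, P.gen b hb, mul_one]
  exact H.nrm a (left_ne_zero_of_mul hx)

/-- the value at `x` in coordinates -/
lemma PsT.val (P : PsT 𝔣 𝔟 χ Ψ) {b x a : 𝓞 K} (hb : Ideal.span {b} ⊔ 𝔟 * 𝔣 = 𝔟)
    (ha : x - a * b ∈ 𝔟 * 𝔣) : Ψ x = χ a * Ψ b := by
  have hb1 : b ∈ 𝔟 := by
    rw [← hb]
    exact Ideal.mem_sup_left (Ideal.mem_span_singleton_self b)
  rw [P.per _ _ ha, P.mul a b hb1]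

lemma exists_gen (hb0 : 𝔟 ≠ ⊥) (hf0 : 𝔣 ≠ ⊥) : ∃ b : 𝓞 K, Ideal.span {b} ⊔ 𝔟 * 𝔣 = 𝔟 := by
  obtain ⟨b, hb⟩ := IsDedekindDomain.exists_sup_span_eq (I := 𝔟 * 𝔣) (J := 𝔟)
    Ideal.mul_le_left (mul_ne_zero hb0 hf0)
  rw [sup_comm] at hb
  exact ⟨b, hb⟩

lemma Fam.psT (h : Fam 𝔣 𝔡 e ψ) (hb : 𝔟 ≠ ⊥) (i : I) :
    PsT 𝔣 𝔟 (chi (ψ i) e) (Ps (ψ i) e 𝔟) := psT_Ps (h.mod i) hb

lemma Fam.chr (h : Fam 𝔣 𝔡 e ψ) (i : I) : Chr 𝔣 (chi (ψ i) e) := chr_chi (h.prim i) (h.mod i)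

lemma Fam.zero_iff (h : Fam 𝔣 𝔡 e ψ) (i j : I) (a : 𝓞 K) :
    chi (ψ i) e a = 0 ↔ chi (ψ j) e a = 0 := by
  have h1 := (h.chr i).supp a
  have h2 := (h.chr j).supp a
  constructor
  · intro h3
    by_contra h4
    exact (h1.mpr (h2.mp h4)) h3
  · intro h3
    by_contra h4
    exact (h2.mpr (h1.mp h4)) h3

/-- the multiplier is periodic modulo `𝔟 * 𝔡` -/
lemma Fam.om_per (h : Fam 𝔣 𝔡 e ψ) (h1 : 𝔣 ≤ 𝔡) (h3 : 𝔡 ^ 3 ≤ 𝔣) (hb0 : 𝔟 ≠ ⊥) (i₀ i : I) :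
    PerI (𝔟 * 𝔡) (om ψ e 𝔟 i₀ i) := by
  have hf0 := (h.chr i).ne
  obtain ⟨b, hb⟩ := exists_gen hb0 hf0
  intro x y hxy
  have hxy' : x - y ∈ 𝔟 := Ideal.mul_le_left hxy
  by_cases hx : x ∈ 𝔟
  · obtain ⟨a, ha⟩ := coord hb hx
    have hyx : y - x ∈ 𝔟 * 𝔡 := by
      have := Submodule.neg_mem _ hxy
      rwa [neg_sub] at this
    obtain ⟨c, hc⟩ := coord hb (Ideal.mul_le_left hyx)
    have hcd : c ∈ 𝔡 := by
      refine mem_mul_of_coord hb0 hb h1 ?_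
      have : c * b = (y - x) - ((y - x) - c * b) := by ring
      rw [this]
      exact Submodule.sub_mem _ hyx (Ideal.mul_mono_right h1 hc)
    have ha2 : y - (a + c) * b ∈ 𝔟 * 𝔣 := by
      have : y - (a + c) * b = (x - a * b) + ((y - x) - c * b) := by ring
      rw [this]
      exact Submodule.add_mem _ ha hc
    unfold om
    rw [(h.psT hb0 i).val hb ha, (h.psT hb0 i).val hb ha2, (h.psT hb0 i₀).val hb ha,
      (h.psT hb0 i₀).val hb ha2]
    by_cases h0 : chi (ψ i₀) e a = 0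
    · have e1 := (h.chr i₀).add_eq_zero h1 h3 h0 hcd
      have e2 := (h.zero_iff i₀ i a).mp h0
      rw [h0, e1, e2]
      simp
    · have h0' := (h.chr i₀).add_ne h1 h3 h0 hcd
      obtain ⟨u, hu⟩ := (h.chr i₀).inv h0
      have hv : (1 + u * c) - 1 ∈ 𝔡 := by
        rw [add_sub_cancel_left]
        exact 𝔡.mul_mem_left _ hcd
      have hmod : (a + c) - a * (1 + u * c) ∈ 𝔣 := by
        have : (a + c) - a * (1 + u * c) = -(c * (u * a - 1)) := by ring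
        rw [this]
        exact 𝔣.neg_mem (𝔣.mul_mem_left _ hu)
      have e1 : ∀ j, chi (ψ j) e (a + c) = chi (ψ j) e a * chi (ψ j) e (1 + u * c) := by
        intro j
        rw [(h.chr j).per _ _ hmod, (h.chr j).mul]
      have e2 := h.cong i i₀ _ hv
      rw [e1 i₀] at h0'
      have e3 := (h.chr i₀).mul_conj (right_ne_zero_of_mul h0')
      rw [e1 i, e1 i₀, e2]
      simp only [map_mul]
      calc _ = (chi (ψ i) e a * Ps (ψ i) e 𝔟 b * ((starRingEnd ℂ) (chi (ψ i₀) e a) *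
            (starRingEnd ℂ) (Ps (ψ i₀) e 𝔟 b))) * 1 := by ring
        _ = _ := by rw [← e3]; ring
  · have hy : y ∉ 𝔟 := fun hy => hx (by
      have : x = y + (x - y) := by ring
      rw [this]
      exact 𝔟.add_mem hy hxy')
    unfold om
    rw [Ps_of_notMem hx, Ps_of_notMem hy, zero_mul, zero_mul]

lemma Fam.Ps_eq (h : Fam 𝔣 𝔡 e ψ) (hb0 : 𝔟 ≠ ⊥) (i₀ i : I) (x : 𝓞 K) :
    Ps (ψ i) e 𝔟 x = om ψ e 𝔟 i₀ i x * Ps (ψ i₀) e 𝔟 x := by
  unfold om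
  by_cases h0 : Ps (ψ i₀) e 𝔟 x = 0
  · rw [h0, mul_zero]
    by_cases hx : x ∈ 𝔟
    · obtain ⟨b, hb⟩ := exists_gen hb0 (h.chr i).ne
      obtain ⟨a, ha⟩ := coord hb hx
      have e1 := (h.psT hb0 i₀).val hb ha
      rw [h0] at e1
      have e2 : chi (ψ i₀) e a = 0 := by
        rcases mul_eq_zero.mp e1.symm with h5 | h5
        · exact h5
        · have := (h.psT hb0 i₀).gen b hb
          rw [h5, norm_zero] at this
          exact absurd this zero_ne_one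
      rw [(h.psT hb0 i).val hb ha, (h.zero_iff i₀ i a).mp e2, zero_mul]
    · exact Ps_of_notMem hx
  · have h1 := (h.psT hb0 i₀).norm_one (h.chr i₀) h0
    have h2 : (starRingEnd ℂ) (Ps (ψ i₀) e 𝔟 x) * Ps (ψ i₀) e 𝔟 x = 1 := by
      rw [mul_comm, Complex.mul_conj, Complex.normSq_eq_norm_sq, h1]
      simp
    rw [mul_assoc, h2, mul_one]

lemma Fam.norm_om (h : Fam 𝔣 𝔡 e ψ) (hb0 : 𝔟 ≠ ⊥) (i₀ i : I) (x : 𝓞 K) :
    ‖om ψ e 𝔟 i₀ i x‖ ≤ 1 := by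
  unfold om
  rw [norm_mul, RCLike.norm_conj]
  exact mul_le_one₀ ((h.psT hb0 i).norm_le (h.chr i) _) (norm_nonneg _)
    ((h.psT hb0 i₀).norm_le (h.chr i₀) _)

/-- the product of two multipliers -/
noncomputable def oo (ψ : I → Ideal (𝓞 K) →*₀ ℂ) (e : InfinitePlace K → ℕ) (𝔟 : Ideal (𝓞 K))
    (i₀ i j : I) (x : 𝓞 K) : ℂ := om ψ e 𝔟 i₀ i x * (starRingEnd ℂ) (om ψ e 𝔟 i₀ j x)

lemma Fam.oo_orth (h : Fam 𝔣 𝔡 e ψ) (h1 : 𝔣 ≤ 𝔡) (h3 : 𝔡 ^ 3 ≤ 𝔣) (hb0 : 𝔟 ≠ ⊥) (i₀ i j : I)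
    {a : 𝓞 K} (ha : chi (ψ i) e a ≠ chi (ψ j) e a) : SQ (𝔟 * 𝔡) (oo ψ e 𝔟 i₀ i j) = 0 := by
  have hf0 := (h.chr i).ne
  have hd0 : 𝔡 ≠ ⊥ := fun h5 => hf0 (by rw [h5] at h1; exact le_bot_iff.mp h1)
  have hai : chi (ψ i) e a ≠ 0 := by
    intro h0
    apply ha
    rw [h0, (h.zero_iff i j a).mp h0]
  have haj : chi (ψ j) e a ≠ 0 := fun h0 => hai ((h.zero_iff i j a).mpr h0)
  have ha0 : chi (ψ i₀) e a ≠ 0 := fun h0 => hai ((h.zero_iff i i₀ a).mpr h0)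
  set c : ℂ := chi (ψ i) e a * (starRingEnd ℂ) (chi (ψ j) e a) with hc
  have hc1 : c ≠ 1 := by
    intro h5
    apply ha
    have h6 := (h.chr j).mul_conj haj
    rw [hc] at h5
    have h7 : (starRingEnd ℂ) (chi (ψ j) e a) ≠ 0 := by
      rw [Ne, map_eq_zero]; exact haj
    exact mul_right_cancel₀ h7 (h5.trans h6.symm)
  have hc0 : c ≠ 0 := mul_ne_zero hai (by rw [Ne, map_eq_zero]; exact haj)
  have hper : PerI (𝔟 * 𝔡) (oo ψ e 𝔟 i₀ i j) := by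
    intro x y hxy
    unfold oo
    rw [h.om_per h1 h3 hb0 i₀ i x y hxy, h.om_per h1 h3 hb0 i₀ j x y hxy]
  have hmem : ∀ x, oo ψ e 𝔟 i₀ i j x ≠ 0 → x ∈ 𝔟 := by
    intro x hx
    by_contra h5
    apply hx
    unfold oo om
    rw [Ps_of_notMem h5, zero_mul, zero_mul]
  have hscale : ∀ (z x : 𝓞 K), x ∈ 𝔟 → oo ψ e 𝔟 i₀ i j (z * x) =
      (chi (ψ i) e z * (starRingEnd ℂ) (chi (ψ i₀) e z) *
        (starRingEnd ℂ) (chi (ψ j) e z * (starRingEnd ℂ) (chi (ψ i₀) e z))) *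
        oo ψ e 𝔟 i₀ i j x := by
    intro z x hx
    unfold oo om
    rw [(h.psT hb0 i).mul z x hx, (h.psT hb0 j).mul z x hx, (h.psT hb0 i₀).mul z x hx]
    simp only [map_mul, Complex.conj_conj]
    ring
  have hscale_a : ∀ x, x ∈ 𝔟 → oo ψ e 𝔟 i₀ i j (a * x) = c * oo ψ e 𝔟 i₀ i j x := by
    intro x hx
    rw [hscale a x hx]
    congr 1
    have h6 := (h.chr i₀).mul_conj ha0
    rw [map_mul, Complex.conj_conj, hc]
    calc _ = (chi (ψ i) e a * (starRingEnd ℂ) (chi (ψ j) e a)) *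
          (chi (ψ i₀) e a * (starRingEnd ℂ) (chi (ψ i₀) e a)) := by ring
      _ = _ := by rw [h6, mul_one]
  obtain ⟨u, hu⟩ := (h.chr i).inv hai
  have hunz : ∀ k : I, chi (ψ k) e u ≠ 0 := by
    intro k h0
    have h5 : chi (ψ k) e (u * a) = 1 := by
      rw [← (h.chr k).one]
      exact (h.chr k).per _ _ hu
    rw [(h.chr k).mul, h0, zero_mul] at h5
    exact zero_ne_one h5
  have hle : 𝔟 * 𝔣 ≤ 𝔟 * 𝔡 := Ideal.mul_mono_right h1
  have hbij : SQ (𝔟 * 𝔡) (fun x => c * oo ψ e 𝔟 i₀ i j x) = SQ (𝔟 * 𝔡) (oo ψ e 𝔟 i₀ i j) := by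
    refine SQ_bij (f₁ := fun x => c * oo ψ e 𝔟 i₀ i j x) ?_ hper (fun x => a * x) ?_ ?_ ?_
    · intro x y hxy
      simp only
      rw [hper x y hxy]
    · intro x hx
      exact hscale_a x (hmem x (right_ne_zero_of_mul hx))
    · intro x x' hx hx'
      have m1 := hmem x (right_ne_zero_of_mul hx)
      have m2 := hmem x' (right_ne_zero_of_mul hx')
      constructor
      · intro h5
        rw [← mul_sub]
        exact Ideal.mul_mem_left _ _ h5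
      · intro h5
        rw [← mul_sub] at h5
        have e1 : x - x' = u * (a * (x - x')) - (x - x') * (u * a - 1) := by ring
        rw [e1]
        exact Submodule.sub_mem _ (Ideal.mul_mem_left _ _ h5)
          (hle (Ideal.mul_mem_mul (𝔟.sub_mem m1 m2) hu))
    · intro y hy
      have m1 := hmem y hy
      refine ⟨u * y, ?_, ?_⟩
      · refine mul_ne_zero hc0 ?_
        rw [hscale u y m1]
        refine mul_ne_zero (mul_ne_zero (mul_ne_zero (hunz i) ?_) ?_) hy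
        · rw [Ne, map_eq_zero]; exact hunz i₀
        · rw [Ne, map_eq_zero]
          exact mul_ne_zero (hunz j) (by rw [Ne, map_eq_zero]; exact hunz i₀)
      · have e1 : a * (u * y) - y = y * (u * a - 1) := by ring
        rw [e1]
        exact hle (Ideal.mul_mem_mul m1 hu)
  rw [SQ_const_mul (mul_ne_zero hb0 hd0)] at hbij
  have h5 : (c - 1) * SQ (𝔟 * 𝔡) (oo ψ e 𝔟 i₀ i j) = 0 := by rw [sub_mul, hbij, one_mul, sub_self]
  rcases mul_eq_zero.mp h5 with h6 | h6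
  · exact absurd (sub_eq_zero.mp h6) hc1
  · exact h6

/-- a bound for the multiplicities -/
noncomputable def mu (K : Type) [Field K] [NumberField K] : ℕ :=
  (2 * Fintype.card (ClassGroup (𝓞 K))) ^ Fintype.card (ClassGroup (𝓞 K))

lemma Fam.mult (h : Fam 𝔣 𝔡 e ψ) (i : I) :
    Finite {j : I // ∀ a, chi (ψ j) e a = chi (ψ i) e a} ∧
    Nat.card {j : I // ∀ a, chi (ψ j) e a = chi (ψ i) e a} ≤ mu K := by
  classical
  have hf0 := (h.chr i).ne
  set hh := Fintype.card (ClassGroup (𝓞 K)) with hhh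
  have hh0 : 0 < hh := Fintype.card_pos
  choose b hb using fun c : ClassGroup (𝓞 K) => exists_gen (𝔣 := 𝔣) (rp_ne_bot c) hf0
  have hbm : ∀ c, b c ∈ rp K c := by
    intro c
    have h5 : b c ∈ Ideal.span {b c} ⊔ rp K c * 𝔣 :=
      Ideal.mem_sup_left (Ideal.mem_span_singleton_self _)
    rwa [hb c] at h5
  choose 𝔞 h𝔞 using fun c => mem_iff_exists_mul.mp (hbm c)
  have hb0 : ∀ c, b c ≠ 0 := by
    intro c h0
    have h5 := (h.psT (rp_ne_bot c) i).gen (b c) (hb c)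
    rw [h0, ((h.mod i).nice (rp_ne_bot c)).zero, norm_zero] at h5
    exact zero_ne_one h5
  have h𝔞0 : ∀ c, 𝔞 c ≠ ⊥ := by
    intro c h0
    have h5 := h𝔞 c
    rw [h0, Ideal.bot_mul] at h5
    exact hb0 c (Ideal.span_singleton_eq_bot.mp h5.symm)
  have hpr : ∀ c, ∃ y : 𝓞 K, (𝔞 c) ^ hh = Ideal.span {y} := by
    intro c
    have h5 : (ClassGroup.mk0 ⟨𝔞 c, mem_nonZeroDivisors_of_ne_zero (h𝔞0 c)⟩) ^ hh = 1 :=
      pow_card_eq_one
    rw [← map_pow] at h5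
    have h6 := (ClassGroup.mk0_eq_one_iff (I := (𝔞 c) ^ hh)
      (mem_nonZeroDivisors_of_ne_zero (pow_ne_zero _ (h𝔞0 c)))).mp h5
    obtain ⟨y, hy⟩ := h6
    exact ⟨y, hy⟩
  choose y hy using hpr
  have hy0 : ∀ c, y c ≠ 0 := by
    intro c h0
    have h5 := hy c
    rw [h0, Ideal.span_singleton_eq_bot.mpr rfl] at h5
    exact pow_ne_zero _ (h𝔞0 c) h5
  set v : ClassGroup (𝓞 K) → ℂ := fun c => (chi (ψ i) e (y c)) ^ 2 with hv
  set J := {j : I // ∀ a, chi (ψ j) e a = chi (ψ i) e a} with hJ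
  set Φ : J → ClassGroup (𝓞 K) → ℂ := fun j c => Ps (ψ j.1) e (rp K c) (b c) with hΦ
  have hΦv : ∀ j c, Φ j c ^ (2 * hh) = v c := by
    intro j c
    have e1 : Φ j c = ψ j.1 (𝔞 c) * sg e (b c : K) := Ps_of_eq (rp_ne_bot c) (h𝔞 c)
    have e2 : (sg e (b c : K)) ^ 2 = 1 := by
      rw [sq]
      exact sg_sq e (RingOfIntegers.coe_ne_zero_iff.mpr (hb0 c))
    have e3 : (sg e (y c : K)) ^ 2 = 1 := by
      rw [sq]
      exact sg_sq e (RingOfIntegers.coe_ne_zero_iff.mpr (hy0 c))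
    have e4 : chi (ψ j.1) e (y c) = (ψ j.1 (𝔞 c)) ^ hh * sg e (y c : K) := by
      unfold chi
      rw [← hy c, map_pow]
    rw [hv]
    simp only
    rw [← j.2 (y c), e4, e1, mul_pow, mul_pow, e3, mul_one, pow_mul, pow_mul, e2, one_pow, mul_one,
      ← pow_mul, ← pow_mul, mul_comm 2 hh]
  have hinj : Function.Injective Φ := by
    intro j j' hjj
    apply Subtype.ext
    apply h.inj
    ext 𝔤
    by_cases h0 : 𝔤 = ⊥
    · rw [h0, ← Ideal.zero_eq_bot, map_zero, map_zero]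
    · obtain ⟨c, hc, -⟩ := exists_unique_class reps_rp h0
      obtain ⟨-, x, hx⟩ := hc
      have hx' : 𝔤 * rp K c = Ideal.span {x} := hx
      have hxm : x ∈ rp K c := mem_iff_exists_mul.mpr ⟨𝔤, hx'⟩
      have hx0 : x ≠ 0 := by
        rintro rfl
        rw [Ideal.span_singleton_eq_bot.mpr rfl] at hx'
        exact (mul_ne_zero h0 (rp_ne_bot c)) hx'
      obtain ⟨a, ha⟩ := coord (hb c) hxm
      have e1 := (h.psT (rp_ne_bot c) j.1).val (hb c) ha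
      have e2 := (h.psT (rp_ne_bot c) j'.1).val (hb c) ha
      have e3 : Ps (ψ j.1) e (rp K c) (b c) = Ps (ψ j'.1) e (rp K c) (b c) := congrFun hjj c
      rw [j.2 a, e3] at e1
      rw [j'.2 a, ← e1, Ps_of_eq (rp_ne_bot c) hx', Ps_of_eq (rp_ne_bot c) hx'] at e2
      exact (mul_right_cancel₀ (sg_ne_zero (RingOfIntegers.coe_ne_zero_iff.mpr hx0)) e2).symm
  set R : ClassGroup (𝓞 K) → Finset ℂ := fun c => (Polynomial.nthRoots (2 * hh) (v c)).toFinset with hR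
  have hmemR : ∀ j c, Φ j c ∈ R c := by
    intro j c
    rw [hR]
    simp only
    rw [Multiset.mem_toFinset, Polynomial.mem_nthRoots (by positivity)]
    exact hΦv j c
  set Φ' : J → Fintype.piFinset R := fun j => ⟨Φ j, Fintype.mem_piFinset.mpr (hmemR j)⟩ with hΦ'
  have hinj' : Function.Injective Φ' := fun j j' hjj => hinj (congrArg Subtype.val hjj)
  have hfinJ : Finite J := Finite.of_injective Φ' hinj'
  refine ⟨hfinJ, ?_⟩
  refine (Nat.card_le_card_of_injective Φ' hinj').trans ?_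
  rw [Nat.card_eq_fintype_card, Fintype.card_coe, Fintype.card_piFinset]
  unfold mu
  rw [← hhh]
  calc ∏ c, (R c).card ≤ ∏ _c : ClassGroup (𝓞 K), (2 * hh) :=
        Finset.prod_le_prod (fun _ _ => Nat.zero_le _) fun c _ => by
          rw [hR]
          exact (Multiset.toFinset_card_le _).trans (Polynomial.card_nthRoots _ _)
    _ = (2 * hh) ^ hh := by rw [Finset.prod_const, Finset.card_univ]

end

/-- **Bessel's inequality for a family** -/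
theorem fam_bessel {𝔣 𝔡 𝔟 : Ideal (𝓞 K)} {e : InfinitePlace K → ℕ} {I : Type} [Fintype I]
    {ψ : I → Ideal (𝓞 K) →*₀ ℂ} (h : Fam 𝔣 𝔡 e ψ) (hb0 : 𝔟 ≠ ⊥) (h1 : 𝔣 ≤ 𝔡) (h3 : 𝔡 ^ 3 ≤ 𝔣)
    (i₀ : I) {g : 𝓞 K → ℂ} (hg : Summable fun x => ‖g x‖) {𝔠 : Ideal (𝓞 K)}
    (h𝔠 : 𝔠 = Ideal.span {(2 : 𝓞 K)} * (𝔟 * 𝔡)) [Fintype (𝓞 K ⧸ 𝔠)] :
    ∑ i, ‖∑' x : 𝓞 K, Ps (ψ i) e 𝔟 x * g x‖ ^ 2 ≤
      (mu K : ℝ) * (2 ^ (Module.finrank ℚ K) * (Ideal.absNorm 𝔡 : ℝ)) *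
      ∑ q : 𝓞 K ⧸ 𝔠, ‖Acl 𝔠 (fun x => Ps (ψ i₀) e 𝔟 x * g x) (Quotient.out q)‖ ^ 2 := by
  classical
  set n := Module.finrank ℚ K with hn
  have hNb := absNorm_pos0 hb0
  have he := (h.mod i₀).sig_le
  have hf0 := (h.chr i₀).ne
  have hd0 : 𝔡 ≠ ⊥ := fun h5 => hf0 (by rw [h5] at h1; exact le_bot_iff.mp h1)
  have h20 : Ideal.span {(2 : 𝓞 K)} ≠ ⊥ := by
    rw [Ne, Ideal.span_singleton_eq_bot]
    exact two_ne_zero
  have hc0 : 𝔠 ≠ ⊥ := by
    rw [h𝔠]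
    exact mul_ne_zero h20 (mul_ne_zero hb0 hd0)
  have hle : 𝔠 ≤ 𝔟 * 𝔡 := by
    rw [h𝔠]
    exact Ideal.mul_le_right
  have hle2 : 𝔠 ≤ 𝔟 := hle.trans Ideal.mul_le_left
  set F : 𝓞 K → ℂ := fun x => Ps (ψ i₀) e 𝔟 x * g x with hF
  set A : 𝓞 K ⧸ 𝔠 → ℂ := fun q => Acl 𝔠 F (Quotient.out q) with hAdef
  set ω : I → 𝓞 K ⧸ 𝔠 → ℂ := fun i q => om ψ e 𝔟 i₀ i (Quotient.out q) with hω
  have hS : ∀ i, ∑' x : 𝓞 K, Ps (ψ i) e 𝔟 x * g x = ∑ q, ω i q * A q := by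
    intro i
    have hs : Summable fun x => Ps (ψ i) e 𝔟 x * g x := by
      refine Summable.of_norm_bounded hg fun x => ?_
      rw [norm_mul]
      calc _ ≤ 1 * ‖g x‖ := mul_le_mul_of_nonneg_right ((h.psT hb0 i).norm_le (h.chr i) x)
            (norm_nonneg _)
        _ = _ := one_mul _
    rw [tsum_classes (𝔠 := 𝔠) hs]
    refine Finset.sum_congr rfl fun q _ => ?_
    rw [hω, hAdef]
    simp only
    unfold Acl
    rw [← tsum_mul_left]
    refine tsum_congr fun y => ?_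
    have e1 : om ψ e 𝔟 i₀ i (Quotient.out q) = om ψ e 𝔟 i₀ i (Quotient.out q + (y : 𝓞 K)) := by
      refine h.om_per h1 h3 hb0 i₀ i _ _ ?_
      have : Quotient.out q - (Quotient.out q + (y : 𝓞 K)) = -(y : 𝓞 K) := by ring
      rw [this]
      exact Submodule.neg_mem _ (hle y.2)
    rw [e1, hF]
    simp only
    rw [h.Ps_eq hb0 i₀ i]
    ring
  simp_rw [hS]
  have hNd := absNorm_pos0 hd0
  -- the inner products
  have hcard : (Nat.card {q : 𝓞 K ⧸ 𝔠 // Quotient.out q - 0 ∈ 𝔟} : ℝ) =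
      2 ^ n * (Ideal.absNorm 𝔡 : ℝ) := by
    have h5 := card_class hc0 hle2 0
    have h6 : Ideal.absNorm 𝔠 = 2 ^ n * (Ideal.absNorm 𝔟 * Ideal.absNorm 𝔡) := by
      rw [h𝔠, map_mul, map_mul]
      have e2 : Ideal.absNorm (Ideal.span {((2 : ℕ) : 𝓞 K)}) = 2 ^ (Module.finrank ℚ K) :=
        Pool.Agent.Y773.absNorm_span_nat 2
      rw [Nat.cast_ofNat] at e2
      rw [e2]
    rw [h6] at h5
    have h7 : Nat.card {q : 𝓞 K ⧸ 𝔠 // Quotient.out q - 0 ∈ 𝔟} = 2 ^ n * Ideal.absNorm 𝔡 := by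
      have h8 : 0 < Ideal.absNorm 𝔟 := by exact_mod_cast hNb
      refine Nat.eq_of_mul_eq_mul_right h8 ?_
      rw [h5]
      ring
    rw [h7]
    push_cast
    rfl
  have hip : ∀ i j, ∑ q, ω i q * (starRingEnd ℂ) (ω j q) = SQ 𝔠 (oo ψ e 𝔟 i₀ i j) := by
    intro i j
    unfold SQ
    rw [finsum_eq_sum_of_fintype]
    rfl
  have hipb : ∀ i j, ‖∑ q, ω i q * (starRingEnd ℂ) (ω j q)‖ ≤ 2 ^ n * (Ideal.absNorm 𝔡 : ℝ) := by
    intro i j
    rw [← hcard]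
    refine (norm_sum_le _ _).trans ?_
    have h5 : ∀ q : 𝓞 K ⧸ 𝔠, ‖ω i q * (starRingEnd ℂ) (ω j q)‖ ≤
        if Quotient.out q - 0 ∈ 𝔟 then 1 else 0 := by
      intro q
      split_ifs with hq
      · rw [norm_mul, RCLike.norm_conj]
        exact mul_le_one₀ (h.norm_om hb0 i₀ i _) (norm_nonneg _) (h.norm_om hb0 i₀ j _)
      · have : ω i q = 0 := by
          rw [hω]
          simp only
          unfold om
          rw [Ps_of_notMem (by rwa [sub_zero] at hq), zero_mul]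
        rw [this, zero_mul, norm_zero]
    refine (Finset.sum_le_sum fun q _ => h5 q).trans (le_of_eq ?_)
    rw [Finset.sum_ite, Finset.sum_const_zero, add_zero, Finset.sum_const, nsmul_eq_mul, mul_one,
      Nat.card_eq_fintype_card, Fintype.card_subtype]
  have hM : ∀ i, ∑ j, ‖∑ q, ω i q * (starRingEnd ℂ) (ω j q)‖ ≤
      (mu K : ℝ) * (2 ^ n * (Ideal.absNorm 𝔡 : ℝ)) := by
    intro i
    have h5 : ∀ j, ‖∑ q, ω i q * (starRingEnd ℂ) (ω j q)‖ ≤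
        if (∀ a, chi (ψ j) e a = chi (ψ i) e a) then 2 ^ n * (Ideal.absNorm 𝔡 : ℝ) else 0 := by
      intro j
      split_ifs with hj
      · exact hipb i j
      · push Not at hj
        obtain ⟨z, hz⟩ := hj
        have h6 := h.oo_orth h1 h3 hb0 i₀ i j (a := z) (Ne.symm hz)
        have hper : PerI (𝔟 * 𝔡) (oo ψ e 𝔟 i₀ i j) := by
          intro x y hxy
          unfold oo
          rw [h.om_per h1 h3 hb0 i₀ i x y hxy, h.om_per h1 h3 hb0 i₀ j x y hxy]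
        have h7 := SQ_mono hc0 hle hper
        rw [h6, mul_zero] at h7
        have h8 : ((Ideal.absNorm (𝔟 * 𝔡) : ℕ) : ℂ) ≠ 0 := by
          have := absNorm_pos0 (mul_ne_zero hb0 hd0)
          exact_mod_cast this.ne'
        rw [hip, (mul_eq_zero.mp h7).resolve_left h8, norm_zero]
    refine (Finset.sum_le_sum fun j _ => h5 j).trans ?_
    rw [Finset.sum_ite, Finset.sum_const_zero, add_zero, Finset.sum_const, nsmul_eq_mul]
    refine mul_le_mul_of_nonneg_right ?_ (by positivity)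
    have h6 := (h.mult i).2
    rw [Nat.card_eq_fintype_card, Fintype.card_subtype] at h6
    exact_mod_cast h6
  exact bessel ω A (by positivity) hM

end Pool.Agent.A856.HW
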