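import Pool.Agent.A856.HW.PoiW
import Pool.Agent.Y773.HG.FeK

/-!
# Finite Fourier transforms of correlations of characters, part 1: averaging and counting

Owner helper856 (Hecke L-functions with powerful conductor).
-/

set_option autoImplicit false
set_option linter.unusedSectionVars false

open NumberField Complex Filter Topology

namespace Pool.Agent.A856.HW

open Pool.Agent.Y773 (Idx db lp PerI SQ mk_out out_mk SQ_translate SQ_const_mul)
open Pool.Agent.Y773.G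

variable {K : Type} [Field K] [NumberField K]

/-- the sum of a periodic function which is multiplicative along the cosets of `𝔥` -/
theorem avg_bound {𝔪 𝔥 : Ideal (𝓞 K)} (h0 : 𝔪 ≠ ⊥) {g : 𝓞 K → ℂ} (hg : PerI 𝔪 g)
    (hM : ∀ x : 𝓞 K, ∀ γ ∈ 𝔥, ∀ γ' ∈ 𝔥, g (x + γ + γ') * g x = g (x + γ) * g (x + γ'))
    (hB : ∀ x, ‖g x‖ ≤ 1) :
    ‖SQ 𝔪 g‖ ≤ (Nat.card {q : 𝓞 K ⧸ 𝔪 // g (Quotient.out q) ≠ 0 ∧
      ∀ γ ∈ 𝔥, g (Quotient.out q + γ) = g (Quotient.out q)} : ℝ) := by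
  classical
  have hfin : Finite (𝓞 K ⧸ 𝔪) := Ideal.finiteQuotientOfFreeOfNeBot _ h0
  have := Fintype.ofFinite (𝓞 K ⧸ 𝔪)
  set G := 𝓞 K ⧸ 𝔪 with hG
  set H : AddSubgroup G := (Submodule.toAddSubgroup 𝔥).map
    (Ideal.Quotient.mk 𝔪 : 𝓞 K →+* 𝓞 K ⧸ 𝔪).toAddMonoidHom with hH
  have hHmem : ∀ q : G, q ∈ H ↔ ∃ γ ∈ 𝔥, Ideal.Quotient.mk 𝔪 γ = q := by
    intro q
    rw [hH, AddSubgroup.mem_map]
    rfl
  set gt : G → ℂ := fun q => g (Quotient.out q) with hgt
  have hgt1 : ∀ x : 𝓞 K, gt (Ideal.Quotient.mk 𝔪 x) = g x := fun x => hg.out x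
  have hS : SQ 𝔪 g = ∑ q : G, gt q := by
    unfold SQ
    rw [finsum_eq_sum_of_fintype]
  -- average
  have hcardH : (Fintype.card H : ℂ) ≠ 0 := by
    have : 0 < Fintype.card H := Fintype.card_pos
    exact_mod_cast this.ne'
  have h1 : (Fintype.card H : ℂ) * ∑ q : G, gt q = ∑ q : G, ∑ η : H, gt (q + η) := by
    rw [Finset.sum_comm]
    have : ∀ η : H, ∑ q : G, gt (q + η) = ∑ q : G, gt q := fun η =>
      Equiv.sum_comp (Equiv.addRight (η : G)) gt
    rw [Finset.sum_congr rfl fun η _ => this η, Finset.sum_const, Finset.card_univ, nsmul_eq_mul]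
  -- the inner sums
  set good : G → Prop := fun q => gt q ≠ 0 ∧ ∀ γ ∈ 𝔥, g (Quotient.out q + γ) = gt q with hgood
  have hmulG : ∀ (q : G) (η η' : H), gt (q + η + η') * gt q = gt (q + η) * gt (q + η') := by
    intro q η η'
    obtain ⟨γ, hγ, hγ2⟩ := (hHmem _).mp η.2
    obtain ⟨γ', hγ', hγ2'⟩ := (hHmem _).mp η'.2
    obtain ⟨x, rfl⟩ := Ideal.Quotient.mk_surjective q
    rw [← hγ2, ← hγ2', ← map_add, ← map_add, ← map_add, hgt1, hgt1, hgt1, hgt1]
    exact hM x γ hγ γ' hγ'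
  have h2 : ∀ q : G, ∑ η : H, gt (q + η) = if good q then (Fintype.card H : ℂ) * gt q else 0 := by
    intro q
    split_ifs with hq
    · have : ∀ η : H, gt (q + η) = gt q := by
        intro η
        obtain ⟨γ, hγ, hγ2⟩ := (hHmem _).mp η.2
        have e1 : q + (η : G) = Ideal.Quotient.mk 𝔪 (Quotient.out q + γ) := by
          rw [map_add, mk_out, hγ2]
        rw [e1, hgt1]
        exact hq.2 γ hγ
      rw [Finset.sum_congr rfl fun η _ => this η, Finset.sum_const, Finset.card_univ, nsmul_eq_mul]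
    · by_cases hq0 : gt q = 0
      · -- all values vanish
        refine Finset.sum_eq_zero fun η _ => ?_
        by_contra hne
        have h3 := hmulG (q + η) (-η) η
        have e1 : q + (η : G) + ((-η : H) : G) = q := by
          rw [AddSubgroup.coe_neg, add_assoc, add_neg_cancel, add_zero]
        have e2 : q + (η : G) + ((-η : H) : G) + (η : G) = q + η := by rw [e1]
        rw [e2, e1, hq0, zero_mul] at h3
        exact hne (mul_self_eq_zero.mp h3)
      · have hex : ∃ γ ∈ 𝔥, g (Quotient.out q + γ) ≠ gt q := by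
          by_contra hcon
          push Not at hcon
          exact hq ⟨hq0, hcon⟩
        obtain ⟨γ, hγ, hne⟩ := hex
        set η₀ : H := ⟨Ideal.Quotient.mk 𝔪 γ, (hHmem _).mpr ⟨γ, hγ, rfl⟩⟩ with hη₀
        have e1 : gt (q + η₀) = g (Quotient.out q + γ) := by
          have : q + (η₀ : G) = Ideal.Quotient.mk 𝔪 (Quotient.out q + γ) := by
            rw [map_add, mk_out]
          rw [this, hgt1]
        have h3 : (∑ η : H, gt (q + η)) * gt q = (∑ η : H, gt (q + η)) * gt (q + η₀) := by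
          have e2 : ∑ η : H, gt (q + η) = ∑ η : H, gt (q + ((η + η₀ : H) : G)) :=
            (Equiv.sum_comp (Equiv.addRight η₀) (fun η : H => gt (q + η))).symm
          conv_lhs => rw [e2]
          rw [Finset.sum_mul, Finset.sum_mul]
          refine Finset.sum_congr rfl fun η _ => ?_
          rw [AddSubgroup.coe_add, ← add_assoc]
          exact hmulG q η η₀
        have h4 : (∑ η : H, gt (q + η)) * (gt q - gt (q + η₀)) = 0 := by
          rw [mul_sub, h3, sub_self]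
        rcases mul_eq_zero.mp h4 with h5 | h5
        · exact h5
        · exact absurd ((sub_eq_zero.mp h5).symm.trans rfl) (by rw [e1]; exact hne)
  rw [Finset.sum_congr rfl fun q _ => h2 q, ← Finset.sum_filter, ← Finset.mul_sum] at h1
  have h3 := mul_left_cancel₀ hcardH h1
  rw [hS, h3]
  refine (norm_sum_le _ _).trans ?_
  have h4 : ∀ q ∈ Finset.univ.filter good, ‖gt q‖ ≤ 1 := fun q _ => hB _
  refine (Finset.sum_le_card_nsmul _ _ _ h4).trans (le_of_eq ?_)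
  rw [nsmul_eq_mul, mul_one]
  congr 1
  rw [Nat.card_eq_fintype_card, Fintype.card_subtype]

/-- counting the residues in a class -/
lemma card_class {𝔪 𝔠 : Ideal (𝓞 K)} (h0 : 𝔪 ≠ ⊥) (hle : 𝔪 ≤ 𝔠) (x₀ : 𝓞 K) :
    (Nat.card {q : 𝓞 K ⧸ 𝔪 // Quotient.out q - x₀ ∈ 𝔠}) * Ideal.absNorm 𝔠 = Ideal.absNorm 𝔪 := by
  classical
  have hc0 : 𝔠 ≠ ⊥ := fun h => h0 (by rw [h] at hle; exact le_bot_iff.mp hle)
  have hfin : Finite (𝓞 K ⧸ 𝔪) := Ideal.finiteQuotientOfFreeOfNeBot _ h0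
  have hfin' : Finite (𝓞 K ⧸ 𝔠) := Ideal.finiteQuotientOfFreeOfNeBot _ hc0
  have := Fintype.ofFinite (𝓞 K ⧸ 𝔪)
  have := Fintype.ofFinite (𝓞 K ⧸ 𝔠)
  set π : 𝓞 K ⧸ 𝔪 →+* 𝓞 K ⧸ 𝔠 := Ideal.Quotient.factor hle with hπ
  have hsurj : Function.Surjective π := Ideal.Quotient.factor_surjective hle
  have hmk : ∀ x : 𝓞 K, π (Ideal.Quotient.mk 𝔪 x) = Ideal.Quotient.mk 𝔠 x := fun x => rfl
  have hcard : ∀ s : 𝓞 K ⧸ 𝔠, (Finset.univ.filter fun r => π r = s).card =
      (Finset.univ.filter fun r => π r = Ideal.Quotient.mk 𝔠 x₀).card := fun s =>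
    AddMonoidHom.card_fiber_eq_of_mem_range π.toAddMonoidHom (hsurj s) (hsurj _)
  have h1 : Nat.card {q : 𝓞 K ⧸ 𝔪 // Quotient.out q - x₀ ∈ 𝔠} =
      (Finset.univ.filter fun r => π r = Ideal.Quotient.mk 𝔠 x₀).card := by
    rw [Nat.card_eq_fintype_card, Fintype.card_subtype]
    congr 1
    ext q
    simp only [Finset.mem_filter, Finset.mem_univ, true_and]
    rw [← Ideal.Quotient.eq, ← hmk (Quotient.out q), mk_out]
  have h4 := Finset.card_eq_sum_card_fiberwise (f := π) (s := Finset.univ) (t := Finset.univ)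
    (fun _ _ => Finset.mem_coe.mpr (Finset.mem_univ _))
  rw [Finset.card_univ, Finset.sum_congr rfl (fun s _ => hcard s), Finset.sum_const,
    Finset.card_univ, smul_eq_mul] at h4
  rw [h1, Ideal.absNorm_apply, Submodule.cardQuot_apply, Nat.card_eq_fintype_card,
    Ideal.absNorm_apply, Submodule.cardQuot_apply, Nat.card_eq_fintype_card, h4]
  ring

/-- valuations of two factors whose difference is small -/
lemma val_dich {𝔭 : Ideal (𝓞 K)} (hp : Prime 𝔭) {k : ℕ} {X Y c : 𝓞 K} (h : X * Y ∈ 𝔭 ^ k)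
    (hc : Y - X = 2 * c) (hc' : c ∉ 𝔭) : 2 * X ∈ 𝔭 ^ k ∨ 2 * Y ∈ 𝔭 ^ k := by
  set E : 𝓞 K → ℕ∞ := fun x => emultiplicity 𝔭 (Ideal.span {x}) with hE
  have hmem : ∀ (x : 𝓞 K) (i : ℕ), x ∈ 𝔭 ^ i ↔ (i : ℕ∞) ≤ E x := by
    intro x i
    rw [hE]
    simp only
    rw [← pow_dvd_iff_le_emultiplicity, Ideal.dvd_span_singleton]
  have hmul : ∀ x y : 𝓞 K, E (x * y) = E x + E y := by
    intro x y
    rw [hE]
    simp only
    rw [← Ideal.span_singleton_mul_span_singleton, emultiplicity_mul hp]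
  have hc0 : E c = 0 := by
    by_contra hne
    have : (1 : ℕ∞) ≤ E c := Order.one_le_iff_pos.mpr (pos_iff_ne_zero.mpr hne)
    have h1 := (hmem c 1).mpr (by exact_mod_cast this)
    rw [pow_one] at h1
    exact hc' h1
  by_contra hcon
  push Not at hcon
  obtain ⟨h1, h2⟩ := hcon
  rw [hmem, hmul, not_le] at h1 h2
  rw [hmem, hmul] at h
  have h3 : E 2 + E X < E X + E Y := lt_of_lt_of_le h1 h
  have h4 : E 2 + E Y < E X + E Y := lt_of_lt_of_le h2 h
  have hX : E X ≠ ⊤ := by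
    intro h5
    rw [h5] at h1
    simp at h1
  have hY : E Y ≠ ⊤ := by
    intro h5
    rw [h5] at h2
    simp at h2
  have hE2 : E 2 ≠ ⊤ := by
    intro h5
    rw [h5] at h1
    simp at h1
  obtain ⟨x, hx⟩ := ENat.ne_top_iff_exists.mp hX
  obtain ⟨y, hy⟩ := ENat.ne_top_iff_exists.mp hY
  obtain ⟨t, ht⟩ := ENat.ne_top_iff_exists.mp hE2
  rw [← hx, ← hy, ← ht] at h3 h4
  norm_cast at h3 h4
  have h6 : X ∈ 𝔭 ^ (t + 1) := by
    rw [hmem, ← hx]
    exact_mod_cast (by omega : t + 1 ≤ x)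
  have h7 : Y ∈ 𝔭 ^ (t + 1) := by
    rw [hmem, ← hy]
    exact_mod_cast (by omega : t + 1 ≤ y)
  have h8 : 2 * c ∈ 𝔭 ^ (t + 1) := by
    rw [← hc]
    exact Submodule.sub_mem _ h7 h6
  rw [hmem, hmul, hc0, add_zero, ← ht] at h8
  norm_cast at h8
  omega

end Pool.Agent.A856.HW
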