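import Pool.Agent.A856.HW.FinA

/-!
# Finite Fourier transforms of correlations of characters, part 2: characters modulo `𝔣`

Owner helper856 (Hecke L-functions with powerful conductor).
-/

set_option autoImplicit false
set_option linter.unusedSectionVars false

open NumberField Complex Filter Topology

namespace Pool.Agent.A856.HW

open Pool.Agent.Y773 (Idx db lp PerI SQ mk_out out_mk SQ_translate SQ_const_mul TPos)
open Pool.Agent.Y773.G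

variable {K : Type} [Field K] [NumberField K]

/-- primitive characters modulo `𝔣`, as functions on the ring of integers -/
structure Chr (𝔣 : Ideal (𝓞 K)) (χ : 𝓞 K → ℂ) : Prop where
  ne : 𝔣 ≠ ⊥
  mul : ∀ a b, χ (a * b) = χ a * χ b
  per : ∀ a b, a - b ∈ 𝔣 → χ a = χ b
  supp : ∀ a, χ a ≠ 0 ↔ IsCoprime (Ideal.span {a}) 𝔣
  nrm : ∀ a, χ a ≠ 0 → ‖χ a‖ = 1
  prim : ∀ 𝔤 : Ideal (𝓞 K), 𝔤 ∣ 𝔣 → 𝔤 ≠ 𝔣 → ∃ x, x - 1 ∈ 𝔤 ∧ χ x ≠ 0 ∧ χ x ≠ 1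

/-- the character on the ring of integers -/
noncomputable def chi (ψ : Ideal (𝓞 K) →*₀ ℂ) (e : InfinitePlace K → ℕ) (a : 𝓞 K) : ℂ :=
  ψ (Ideal.span {a}) * sg e (a : K)

lemma chi_eq_Ps (ψ : Ideal (𝓞 K) →*₀ ℂ) (e : InfinitePlace K → ℕ) (a : 𝓞 K) :
    chi ψ e a = Ps ψ e ⊤ a := by
  rw [Ps_of_eq (𝔞 := Ideal.span {a}) top_ne_bot (by rw [Ideal.mul_top])]
  rfl

lemma chr_chi {𝔣 : Ideal (𝓞 K)} {ψ : Ideal (𝓞 K) →*₀ ℂ} {e : InfinitePlace K → ℕ}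
    (hp : IsPrimChar K 𝔣 ψ) (h : IsModChar 𝔣 e ψ) : Chr 𝔣 (chi ψ e) := by
  have hbot : ¬ IsCoprime (⊥ : Ideal (𝓞 K)) 𝔣 := by
    rw [← h.supp]
    push Not
    exact map_zero ψ
  have hne : ∀ a : 𝓞 K, IsCoprime (Ideal.span {a}) 𝔣 → a ≠ 0 := by
    rintro a ha rfl
    rw [Ideal.span_singleton_eq_bot.mpr rfl] at ha
    exact hbot ha
  have hsupp : ∀ a, chi ψ e a ≠ 0 ↔ IsCoprime (Ideal.span {a}) 𝔣 := by
    intro a
    constructor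
    · intro h1
      exact (h.supp _).mp (left_ne_zero_of_mul h1)
    · intro h1
      refine mul_ne_zero ((h.supp _).mpr h1) (sg_ne_zero ?_)
      exact RingOfIntegers.coe_ne_zero_iff.mpr (hne a h1)
  refine ⟨h.ne_bot, ?_, ?_, hsupp, ?_, ?_⟩
  · intro a b
    unfold chi
    rw [← Ideal.span_singleton_mul_span_singleton, map_mul]
    have : ((a * b : 𝓞 K) : K) = (a : K) * (b : K) := map_mul (algebraMap (𝓞 K) K) _ _
    rw [this, sg_mul]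
    ring
  · intro a b hab
    rw [chi_eq_Ps, chi_eq_Ps]
    refine h.per top_ne_bot ?_
    rw [Ideal.top_mul]
    exact hab
  · intro a ha
    have h1 := (hsupp a).mp ha
    unfold chi
    rw [norm_mul, h.norm_eq_one h1, norm_sg (RingOfIntegers.coe_ne_zero_iff.mpr (hne a h1)), one_mul]
  · intro 𝔤 h𝔤 hne𝔤
    obtain ⟨x, hx1, hx2, hx3, hx4⟩ := hp.prim 𝔤 h𝔤 hne𝔤
    have hx0 := hne x hx3
    have e1 : chi ψ e x = ψ (Ideal.span {x}) := by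
      unfold chi
      rw [sg_TPos e hx0 hx2, mul_one]
    exact ⟨x, hx1, (hsupp x).mpr hx3, by rw [e1]; exact hx4⟩

section local_

variable {𝔣 𝔡 : Ideal (𝓞 K)} {χ : 𝓞 K → ℂ}

lemma Chr.one (H : Chr 𝔣 χ) : χ 1 = 1 := by
  have h1 : χ 1 ≠ 0 := by
    rw [H.supp, Ideal.span_singleton_one, ← Ideal.one_eq_top]
    exact isCoprime_one_left
  have h2 := H.mul 1 1
  rw [mul_one] at h2
  exact (mul_left_cancel₀ h1 (by rw [mul_one]; exact h2)).symm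

lemma Chr.norm_le (H : Chr 𝔣 χ) (a : 𝓞 K) : ‖χ a‖ ≤ 1 := by
  by_cases h : χ a = 0
  · rw [h, norm_zero]; norm_num
  · exact (H.nrm a h).le

lemma Chr.mul_conj (H : Chr 𝔣 χ) {a : 𝓞 K} (h : χ a ≠ 0) : χ a * (starRingEnd ℂ) (χ a) = 1 := by
  rw [Complex.mul_conj, Complex.normSq_eq_norm_sq, H.nrm a h]
  simp

/-- translation by elements of `𝔡` preserves the units -/
lemma Chr.add_ne (H : Chr 𝔣 χ) (h1 : 𝔣 ≤ 𝔡) (h3 : 𝔡 ^ 3 ≤ 𝔣) {a t : 𝓞 K} (ha : χ a ≠ 0)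
    (ht : t ∈ 𝔡) : χ (a + t) ≠ 0 := by
  rw [H.supp] at ha ⊢
  have h4 : IsCoprime (Ideal.span {a}) 𝔡 := by
    rw [Ideal.isCoprime_iff_sup_eq] at ha ⊢
    refine le_antisymm le_top ?_
    rw [← ha]
    exact sup_le_sup_left h1 _
  have h5 : IsCoprime (Ideal.span {a + t}) 𝔡 := by
    rw [Ideal.isCoprime_iff_sup_eq] at h4 ⊢
    rw [← h4]
    refine le_antisymm (sup_le ?_ le_sup_right) (sup_le ?_ le_sup_right)
    · rw [Ideal.span_singleton_le_iff_mem]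
      exact Submodule.add_mem _ (Ideal.mem_sup_left (Ideal.mem_span_singleton_self a))
        (Ideal.mem_sup_right ht)
    · rw [Ideal.span_singleton_le_iff_mem]
      have h6 : (a + t) - t ∈ Ideal.span {a + t} ⊔ 𝔡 :=
        Submodule.sub_mem _ (Ideal.mem_sup_left (Ideal.mem_span_singleton_self _))
        (Ideal.mem_sup_right ht)
      rwa [add_sub_cancel_right] at h6
  have h6 : IsCoprime (Ideal.span {a + t}) (𝔡 ^ 3) := IsCoprime.pow_right h5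
  rw [Ideal.isCoprime_iff_sup_eq] at h6 ⊢
  refine le_antisymm le_top ?_
  rw [← h6]
  exact sup_le_sup_left h3 _

lemma Chr.add_eq_zero (H : Chr 𝔣 χ) (h1 : 𝔣 ≤ 𝔡) (h3 : 𝔡 ^ 3 ≤ 𝔣) {a t : 𝓞 K} (ha : χ a = 0)
    (ht : t ∈ 𝔡) : χ (a + t) = 0 := by
  by_contra h
  have := H.add_ne h1 h3 h (𝔡.neg_mem ht)
  rw [add_neg_cancel_right] at this
  exact this ha

lemma Chr.inv (H : Chr 𝔣 χ) {a : 𝓞 K} (ha : χ a ≠ 0) : ∃ u : 𝓞 K, u * a - 1 ∈ 𝔣 := by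
  rw [H.supp, Ideal.isCoprime_iff_exists] at ha
  obtain ⟨i, hi, j, hj, hij⟩ := ha
  obtain ⟨u, hu⟩ := Ideal.mem_span_singleton'.mp hi
  refine ⟨u, ?_⟩
  have : u * a - 1 = -j := by rw [hu, ← hij]; ring
  rw [this]
  exact 𝔣.neg_mem hj

lemma sq_mem (ht : 𝔡 ^ 3 ≤ 𝔣) {s s' : 𝓞 K} (hs : s ∈ 𝔡 ^ 2) (hs' : s' ∈ 𝔡 ^ 2) :
    s * s' ∈ 𝔣 := by
  apply ht
  have h1 : s * s' ∈ 𝔡 ^ 2 * 𝔡 ^ 2 := Ideal.mul_mem_mul hs hs'
  rw [← pow_add] at h1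
  exact Ideal.pow_le_pow_right (by norm_num) h1

/-- additivity -/
lemma Chr.additive (H : Chr 𝔣 χ) (h3 : 𝔡 ^ 3 ≤ 𝔣) {s s' : 𝓞 K} (hs : s ∈ 𝔡 ^ 2)
    (hs' : s' ∈ 𝔡 ^ 2) : χ (1 - (s + s')) = χ (1 - s) * χ (1 - s') := by
  rw [← H.mul]
  refine H.per _ _ ?_
  have : 1 - (s + s') - (1 - s) * (1 - s') = -(s * s') := by ring
  rw [this]
  exact 𝔣.neg_mem (sq_mem h3 hs hs')

/-- the correlation of the character -/
noncomputable def gg (χ : 𝓞 K → ℂ) (η a : 𝓞 K) : ℂ := χ (a + η) * (starRingEnd ℂ) (χ a)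

lemma norm_gg_le (H : Chr 𝔣 χ) (η a : 𝓞 K) : ‖gg χ η a‖ ≤ 1 := by
  unfold gg
  rw [norm_mul, RCLike.norm_conj]
  exact mul_le_one₀ (H.norm_le _) (norm_nonneg _) (H.norm_le _)

/-- the local form of the correlation -/
lemma Chr.gg_add (H : Chr 𝔣 χ) (h1 : 𝔣 ≤ 𝔡) (h3 : 𝔡 ^ 3 ≤ 𝔣) {a η c u : 𝓞 K} (ha : χ a ≠ 0)
    (hη : η ∈ 𝔡) (hc : c ∈ 𝔡) (hu : u * (a * (a + η)) - 1 ∈ 𝔣) :
    gg χ η (a + c) = gg χ η a * χ (1 - c * η * u) := by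
  have hac := H.add_ne h1 h3 ha hc
  have e1 : χ a * χ (a + c + η) = χ (1 - c * η * u) * (χ (a + c) * χ (a + η)) := by
    rw [← H.mul, ← H.mul, ← H.mul]
    refine H.per _ _ ?_
    have e2 : a * (a + c + η) - (1 - c * η * u) * ((a + c) * (a + η)) =
        (c * η) * (u * (a * (a + η)) - 1) + (c ^ 2 * η) * (u * (a + η)) := by ring
    rw [e2]
    refine 𝔣.add_mem (𝔣.mul_mem_left _ hu) (𝔣.mul_mem_right _ (h3 ?_))
    have : c ^ 2 * η ∈ 𝔡 ^ 2 * 𝔡 := Ideal.mul_mem_mul (Ideal.pow_mem_pow hc 2) hη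
    rwa [← pow_succ] at this
  have e3 := H.mul_conj ha
  have e4 := H.mul_conj hac
  unfold gg
  calc χ (a + c + η) * (starRingEnd ℂ) (χ (a + c))
      = (χ a * (starRingEnd ℂ) (χ a)) * χ (a + c + η) * (starRingEnd ℂ) (χ (a + c)) := by
        rw [e3, one_mul]
    _ = (χ a * χ (a + c + η)) * (starRingEnd ℂ) (χ a) * (starRingEnd ℂ) (χ (a + c)) := by ring
    _ = (χ (1 - c * η * u) * (χ (a + c) * χ (a + η))) * (starRingEnd ℂ) (χ a) *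
        (starRingEnd ℂ) (χ (a + c)) := by rw [e1]
    _ = χ (a + η) * (starRingEnd ℂ) (χ a) * χ (1 - c * η * u) *
        (χ (a + c) * (starRingEnd ℂ) (χ (a + c))) := by ring
    _ = _ := by rw [e4, mul_one]

lemma cmem {c η u : 𝓞 K} (hη : η ∈ 𝔡) (hc : c ∈ 𝔡) : c * η * u ∈ 𝔡 ^ 2 := by
  have : c * η ∈ 𝔡 * 𝔡 := Ideal.mul_mem_mul hc hη
  rw [← sq] at this
  exact Ideal.mul_mem_right _ _ this

lemma Chr.exists_u (H : Chr 𝔣 χ) (h1 : 𝔣 ≤ 𝔡) (h3 : 𝔡 ^ 3 ≤ 𝔣) {a η : 𝓞 K} (ha : χ a ≠ 0)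
    (hη : η ∈ 𝔡) : ∃ u : 𝓞 K, u * (a * (a + η)) - 1 ∈ 𝔣 :=
  H.inv (by rw [H.mul]; exact mul_ne_zero ha (H.add_ne h1 h3 ha hη))

/-- multiplicativity along the cosets of `𝔡` -/
lemma Chr.gg_mul (H : Chr 𝔣 χ) (h1 : 𝔣 ≤ 𝔡) (h3 : 𝔡 ^ 3 ≤ 𝔣) {a η c c' : 𝓞 K}
    (hη : η ∈ 𝔡) (hc : c ∈ 𝔡) (hc' : c' ∈ 𝔡) :
    gg χ η (a + c + c') * gg χ η a = gg χ η (a + c) * gg χ η (a + c') := by
  by_cases ha : χ a = 0
  · have e1 : χ (a + c) = 0 := H.add_eq_zero h1 h3 ha hc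
    unfold gg
    rw [ha, e1]
    simp
  · obtain ⟨u, hu⟩ := H.exists_u h1 h3 ha hη
    have e1 := H.gg_add h1 h3 ha hη hc hu
    have e2 := H.gg_add h1 h3 ha hη hc' hu
    have e3 := H.gg_add h1 h3 ha hη (𝔡.add_mem hc hc') hu
    have e4 : χ (1 - (c + c') * η * u) = χ (1 - c * η * u) * χ (1 - c' * η * u) := by
      have : (c + c') * η * u = c * η * u + c' * η * u := by ring
      rw [this]
      exact H.additive h3 (cmem hη hc) (cmem hη hc')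
    rw [add_assoc, e1, e2, e3, e4]
    ring

/-- consequence of primitivity -/
lemma Chr.prim_mem (H : Chr 𝔣 χ) {η δ : 𝓞 K}
    (h : ∀ c ∈ 𝔡, χ (1 - c * η * δ) = 1) : ∀ c ∈ 𝔡, δ * η * c ∈ 𝔣 := by
  set 𝔤 : Ideal (𝓞 K) := Ideal.span {δ * η} * 𝔡 ⊔ 𝔣 with h𝔤
  have hle : 𝔣 ≤ 𝔤 := le_sup_right
  have heq : 𝔤 = 𝔣 := by
    by_contra hne
    obtain ⟨x, hx1, -, hx3⟩ := H.prim 𝔤 (Ideal.dvd_iff_le.mpr hle) hne
    apply hx3
    obtain ⟨y, hy, z, hz, hyz⟩ := Submodule.mem_sup.mp hx1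
    obtain ⟨c, hc, rfl⟩ := Ideal.mem_span_singleton_mul.mp hy
    rw [← h (-c) (𝔡.neg_mem hc)]
    refine H.per _ _ ?_
    have : x - (1 - -c * η * δ) = z := by linear_combination -hyz
    rw [this]
    exact hz
  intro c hc
  rw [← heq]
  exact Ideal.mem_sup_left (Ideal.mem_span_singleton_mul.mpr ⟨c, hc, rfl⟩)

end local_

end Pool.Agent.A856.HW
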