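import Pool.Agent.A856.HW.FinB

/-!
# Finite Fourier transforms of correlations of characters, part 3: the main counting argument

Owner helper856 (Hecke L-functions with powerful conductor).
-/

set_option autoImplicit false
set_option linter.unusedSectionVars false

open NumberField Complex Filter Topology UniqueFactorizationMonoid

namespace Pool.Agent.A856.HW

open Pool.Agent.Y773 (Idx db lp PerI SQ mk_out out_mk SQ_translate SQ_const_mul SQ_congr TPos)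
open Pool.Agent.Y773.G

variable {K : Type} [Field K] [NumberField K]

lemma dvd_of_pp {I J : Ideal (𝓞 K)} (hI : I ≠ ⊥)
    (h : ∀ P : Ideal (𝓞 K), Prime P → ∀ k : ℕ, P ^ k ∣ I → P ^ k ∣ J) : I ∣ J := by
  classical
  by_cases hJ : J = ⊥
  · rw [hJ]; exact dvd_zero _
  rw [dvd_iff_normalizedFactors_le_normalizedFactors hI hJ, Multiset.le_iff_count]
  intro P
  by_cases hP : P ∈ normalizedFactors I
  · have hp := prime_of_normalized_factor P hP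
    have e1 := emultiplicity_eq_count_normalizedFactors hp.irreducible hI
    have e2 := emultiplicity_eq_count_normalizedFactors hp.irreducible hJ
    rw [normalize_eq] at e1 e2
    have h1 : P ^ (Multiset.count P (normalizedFactors I)) ∣ I :=
      pow_dvd_of_le_emultiplicity (by rw [e1])
    have h2 := le_emultiplicity_of_pow_dvd (h P hp _ h1)
    rw [e2] at h2
    exact_mod_cast h2
  · rw [Multiset.count_eq_zero_of_notMem hP]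
    exact Nat.zero_le _

/-- functions such as `Ps ψ e 𝔟` -/
structure PsT (𝔣 𝔟 : Ideal (𝓞 K)) (χ Ψ : 𝓞 K → ℂ) : Prop where
  ne : 𝔟 ≠ ⊥
  zero : ∀ x, x ∉ 𝔟 → Ψ x = 0
  mul : ∀ a x, x ∈ 𝔟 → Ψ (a * x) = χ a * Ψ x
  per : ∀ x y, x - y ∈ 𝔟 * 𝔣 → Ψ x = Ψ y
  gen : ∀ b, Ideal.span {b} ⊔ 𝔟 * 𝔣 = 𝔟 → ‖Ψ b‖ = 1

lemma psT_Ps {𝔣 𝔟 : Ideal (𝓞 K)} {ψ : Ideal (𝓞 K) →*₀ ℂ} {e : InfinitePlace K → ℕ}
    (h : IsModChar 𝔣 e ψ) (hb : 𝔟 ≠ ⊥) : PsT 𝔣 𝔟 (chi ψ e) (Ps ψ e 𝔟) := by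
  refine ⟨hb, fun x hx => Ps_of_notMem hx, ?_, fun x y hxy => h.per hb hxy, ?_⟩
  · intro a x hx
    obtain ⟨𝔞, h𝔞⟩ := mem_iff_exists_mul.mp hx
    have h1 : (Ideal.span {a} * 𝔞) * 𝔟 = Ideal.span {a * x} := by
      rw [mul_assoc, h𝔞, Ideal.span_singleton_mul_span_singleton]
    rw [Ps_of_eq hb h𝔞, Ps_of_eq hb h1, map_mul]
    unfold chi
    have h2 : ((a * x : 𝓞 K) : K) = (a : K) * (x : K) := map_mul (algebraMap (𝓞 K) K) _ _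
    rw [h2, sg_mul]
    ring
  · intro b hbb
    have hb1 : b ∈ 𝔟 := by
      rw [← hbb]
      exact Ideal.mem_sup_left (Ideal.mem_span_singleton_self b)
    obtain ⟨𝔞, h𝔞⟩ := mem_iff_exists_mul.mp hb1
    have hcop : IsCoprime 𝔞 𝔣 := by
      rw [Ideal.isCoprime_iff_sup_eq]
      have h1 : 𝔟 * (𝔞 ⊔ 𝔣) = 𝔟 * ⊤ := by
        rw [Ideal.mul_sup, mul_comm 𝔟 𝔞, h𝔞, hbb, Ideal.mul_top]
      exact mul_left_cancel₀ hb h1
    have hb0 : b ≠ 0 := by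
      rintro rfl
      rw [Ideal.span_singleton_eq_bot.mpr rfl] at h𝔞
      exact (mul_ne_zero (h.ne_bot_of_coprime hcop) hb) h𝔞
    rw [Ps_of_eq hb h𝔞, norm_mul, h.norm_eq_one hcop,
      norm_sg (RingOfIntegers.coe_ne_zero_iff.mpr hb0), one_mul]

/-- the number of ideals dividing `𝔣` -/
noncomputable def tau (𝔣 : Ideal (𝓞 K)) : ℕ := Nat.card {𝔢 : Ideal (𝓞 K) // 𝔢 ∣ 𝔣}

lemma finite_dvd {𝔣 : Ideal (𝓞 K)} (h : 𝔣 ≠ ⊥) : Finite {𝔢 : Ideal (𝓞 K) // 𝔢 ∣ 𝔣} := by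
  have := fintypeSubtypeDvd 𝔣 h
  exact Finite.of_fintype _

lemma one_le_tau {𝔣 : Ideal (𝓞 K)} (h : 𝔣 ≠ ⊥) : 1 ≤ tau 𝔣 := by
  have := finite_dvd h
  have : Nonempty {𝔢 : Ideal (𝓞 K) // 𝔢 ∣ 𝔣} := ⟨⟨𝔣, dvd_refl _⟩⟩
  exact Nat.card_pos

lemma mem_mul_of_coord {𝔣 𝔟 𝔞 : Ideal (𝓞 K)} {b a : 𝓞 K} (hb0 : 𝔟 ≠ ⊥)
    (hb : Ideal.span {b} ⊔ 𝔟 * 𝔣 = 𝔟) (h : 𝔣 ≤ 𝔞) (hab : a * b ∈ 𝔟 * 𝔞) : a ∈ 𝔞 := by
  have h1 : 𝔟 * Ideal.span {a} ≤ 𝔟 * 𝔞 := by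
    conv_lhs => rw [← hb]
    rw [Ideal.sup_mul]
    refine sup_le ?_ ?_
    · rw [Ideal.span_singleton_mul_span_singleton, mul_comm b a, Ideal.span_singleton_le_iff_mem]
      exact hab
    · exact (Ideal.mul_le_left).trans (Ideal.mul_mono_right h)
  have h2 : 𝔞 ∣ Ideal.span {a} := by
    rw [← mul_dvd_mul_iff_left (a := 𝔟) hb0]
    exact Ideal.dvd_iff_le.mpr h1
  exact (Ideal.dvd_span_singleton).mp h2

lemma coord {𝔣 𝔟 : Ideal (𝓞 K)} {b x : 𝓞 K} (hb : Ideal.span {b} ⊔ 𝔟 * 𝔣 = 𝔟) (hx : x ∈ 𝔟) :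
    ∃ a : 𝓞 K, x - a * b ∈ 𝔟 * 𝔣 := by
  rw [← hb] at hx
  obtain ⟨y, hy, z, hz, rfl⟩ := Submodule.mem_sup.mp hx
  obtain ⟨a, rfl⟩ := Ideal.mem_span_singleton'.mp hy
  exact ⟨a, by rwa [add_sub_cancel_left]⟩

section local_

variable {𝔣 𝔡 : Ideal (𝓞 K)} {χ : 𝓞 K → ℂ}

/-- two good residues -/
lemma pair_mem (H : Chr 𝔣 χ) (h3 : 𝔡 ^ 3 ≤ 𝔣) {η a a' u u' : 𝓞 K} (hη : η ∈ 𝔡)
    (hu : u * (a * (a + η)) - 1 ∈ 𝔣) (hu' : u' * (a' * (a' + η)) - 1 ∈ 𝔣)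
    (hh : ∀ c ∈ 𝔡, χ (1 - c * η * u) = χ (1 - c * η * u')) {𝔨 : Ideal (𝓞 K)}
    (hk : (Ideal.span {η} * 𝔡 ⊔ 𝔣) * 𝔨 = 𝔣) : a * (a + η) - a' * (a' + η) ∈ 𝔨 := by
  have h4 : ∀ c ∈ 𝔡, χ (1 - c * η * (u - u')) = 1 := by
    intro c hc
    have e1 : χ (1 - (c * η * u + -(c * η * u'))) = χ (1 - c * η * u) * χ (1 - -(c * η * u')) :=
      H.additive h3 (cmem hη hc) (neg_mem (cmem hη hc))
    have e2 : χ (1 - (c * η * u' + -(c * η * u'))) = χ (1 - c * η * u') * χ (1 - -(c * η * u')) :=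
      H.additive h3 (cmem hη hc) (neg_mem (cmem hη hc))
    rw [add_neg_cancel, sub_zero, H.one] at e2
    rw [hh c hc, ← e2] at e1
    rw [← e1]
    congr 1
    ring
  have h5 := H.prim_mem h4
  have hs0 : Ideal.span {η} * 𝔡 ⊔ 𝔣 ≠ ⊥ := fun h => H.ne (by rw [← hk, h, Ideal.bot_mul])
  have h6 : u - u' ∈ 𝔨 := by
    have h7 : (Ideal.span {η} * 𝔡 ⊔ 𝔣) * 𝔨 ∣ (Ideal.span {η} * 𝔡 ⊔ 𝔣) * Ideal.span {u - u'} := by
      rw [hk, Ideal.dvd_iff_le, Ideal.sup_mul]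
      refine sup_le ?_ Ideal.mul_le_left
      rw [mul_assoc, Ideal.span_singleton_mul_le_iff]
      intro z hz
      obtain ⟨c, hc, rfl⟩ := Ideal.mem_mul_span_singleton.mp hz
      have := h5 c hc
      have e1 : η * (c * (u - u')) = (u - u') * η * c := by ring
      rw [e1]
      exact this
    rw [mul_dvd_mul_iff_left hs0] at h7
    exact Ideal.dvd_span_singleton.mp h7
  have hle : 𝔣 ≤ 𝔨 := by rw [← hk]; exact Ideal.mul_le_right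
  have e1 : a * (a + η) - a' * (a' + η) =
      -(a * (a + η) * (a' * (a' + η))) * (u - u') +
      (a' * (a' + η)) * (u * (a * (a + η)) - 1) - (a * (a + η)) * (u' * (a' * (a' + η)) - 1) := by
    ring
  rw [e1]
  exact 𝔨.sub_mem (𝔨.add_mem (𝔨.mul_mem_left _ h6) (𝔨.mul_mem_left _ (hle hu)))
    (𝔨.mul_mem_left _ (hle hu'))

/-- the fibres -/
lemma fibre_mem {𝔨 : Ideal (𝓞 K)} (hk0 : 𝔨 ≠ ⊥) {η₁ a₀ a a' : 𝓞 K}
    (hunit : ∀ P : Ideal (𝓞 K), Prime P → P ∣ 𝔨 → a₀ + η₁ ∉ P)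
    (h1 : a * (a + 2 * η₁) - a₀ * (a₀ + 2 * η₁) ∈ 𝔨)
    (h2 : a' * (a' + 2 * η₁) - a₀ * (a₀ + 2 * η₁) ∈ 𝔨)
    (h3 : 𝔨 ⊔ Ideal.span {2 * (a - a₀)} = 𝔨 ⊔ Ideal.span {2 * (a' - a₀)}) :
    2 * (a - a') ∈ 𝔨 := by
  have key : ∀ z : 𝓞 K, z * (z + 2 * η₁) - a₀ * (a₀ + 2 * η₁) ∈ 𝔨 → ∀ P : Ideal (𝓞 K), Prime P →
      ∀ k : ℕ, 1 ≤ k → P ^ k ∣ 𝔨 → 2 * (z - a₀) ∈ P ^ k ∨ 2 * (z + a₀ + 2 * η₁) ∈ P ^ k := by
    intro z hz P hP k hk1 hk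
    refine val_dich hP (c := a₀ + η₁) ?_ ?_ ?_
    · have : (z - a₀) * (z + a₀ + 2 * η₁) = z * (z + 2 * η₁) - a₀ * (a₀ + 2 * η₁) := by ring
      rw [this]
      exact (Ideal.dvd_iff_le.mp hk) hz
    · ring
    · exact hunit P hP ((dvd_pow_self P (by omega)).trans hk)
  have hsup : ∀ z : 𝓞 K, ∀ P : Ideal (𝓞 K), ∀ k : ℕ, P ^ k ∣ 𝔨 →
      (2 * (z - a₀) ∈ P ^ k ↔ 𝔨 ⊔ Ideal.span {2 * (z - a₀)} ≤ P ^ k) := by
    intro z P k hk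
    rw [sup_le_iff, Ideal.span_singleton_le_iff_mem]
    exact ⟨fun h => ⟨Ideal.dvd_iff_le.mp hk, h⟩, fun h => h.2⟩
  have h4 : 𝔨 ∣ Ideal.span {2 * (a - a')} := by
    refine dvd_of_pp hk0 fun P hP k hk => ?_
    rcases Nat.eq_zero_or_pos k with rfl | hk1
    · rw [pow_zero]; exact one_dvd _
    rw [Ideal.dvd_span_singleton]
    by_cases hx : 2 * (a - a₀) ∈ P ^ k
    · have hx' : 2 * (a' - a₀) ∈ P ^ k := by
        rw [hsup _ P k hk, ← h3, ← hsup _ P k hk]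
        exact hx
      have e1 : 2 * (a - a') = 2 * (a - a₀) - 2 * (a' - a₀) := by ring
      rw [e1]
      exact Submodule.sub_mem _ hx hx'
    · have hx' : 2 * (a' - a₀) ∉ P ^ k := by
        rw [hsup _ P k hk, ← h3, ← hsup _ P k hk]
        exact hx
      have hy := (key a h1 P hP k hk1 hk).resolve_left hx
      have hy' := (key a' h2 P hP k hk1 hk).resolve_left hx'
      have e1 : 2 * (a - a') = 2 * (a + a₀ + 2 * η₁) - 2 * (a' + a₀ + 2 * η₁) := by ring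
      rw [e1]
      exact Submodule.sub_mem _ hy hy'
  exact Ideal.dvd_span_singleton.mp h4

end local_

/-- the additive characters -/
noncomputable def EE (m : ℕ) (k : Idx K → ℤ) (x : 𝓞 K) : ℂ :=
  cexp (2 * Real.pi * I * ((∑ j, k j * co x j : ℤ) : ℂ) / m)

lemma EE_add (m : ℕ) (k : Idx K → ℤ) (x y : 𝓞 K) : EE m k (x + y) = EE m k x * EE m k y := by
  unfold EE
  rw [← Complex.exp_add]
  congr 1
  have : (∑ j, k j * co (x + y) j : ℤ) = (∑ j, k j * co x j) + ∑ j, k j * co y j := by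
    rw [← Finset.sum_add_distrib]
    refine Finset.sum_congr rfl fun j _ => ?_
    have : co (x + y) j = co x j + co y j := by
      unfold co
      simp
    rw [this]
    ring
  rw [this]
  push_cast
  ring

lemma norm_EE (m : ℕ) (k : Idx K → ℤ) (x : 𝓞 K) : ‖EE m k x‖ = 1 := by
  unfold EE
  have : (2 * Real.pi * I * ((∑ j, k j * co x j : ℤ) : ℂ) / m) =
      ((2 * Real.pi * ((∑ j, k j * co x j : ℤ) : ℝ) / m : ℝ) : ℂ) * I := by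
    push_cast
    ring
  rw [this, Complex.norm_exp_ofReal_mul_I]

lemma EE_eq_one_iff {m : ℕ} (hm : 0 < m) (k : Idx K → ℤ) (x : 𝓞 K) :
    EE m k x = 1 ↔ (m : ℤ) ∣ ∑ j, k j * co x j := by
  unfold EE
  have hm' : (m : ℂ) ≠ 0 := by exact_mod_cast hm.ne'
  rw [Complex.exp_eq_one_iff]
  constructor
  · rintro ⟨n, hn⟩
    refine ⟨n, ?_⟩
    have h2 : (2 * Real.pi * I : ℂ) ≠ 0 := Complex.two_pi_I_ne_zero
    have h3 : ((∑ j, k j * co x j : ℤ) : ℂ) = m * n := by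
      field_simp at hn
      linear_combination hn
    exact_mod_cast h3
  · rintro ⟨n, hn⟩
    refine ⟨n, ?_⟩
    rw [hn]
    push_cast
    field_simp

lemma EE_zero (m : ℕ) (k : Idx K → ℤ) : EE m k (0 : 𝓞 K) = 1 := by
  have h := EE_add m k (0 : 𝓞 K) 0
  rw [add_zero] at h
  have h0 : EE m k (0 : 𝓞 K) ≠ 0 := by
    rw [← norm_ne_zero_iff, norm_EE]
    exact one_ne_zero
  exact (mul_left_cancel₀ h0 (by rw [mul_one]; exact h)).symm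

lemma EE_mul_nat {m : ℕ} (hm : 0 < m) (k : Idx K → ℤ) (z : 𝓞 K) : EE m k (m * z) = 1 := by
  rw [EE_eq_one_iff hm]
  refine Finset.dvd_sum fun j _ => ?_
  have : co ((m : 𝓞 K) * z) j = m * co z j := by
    unfold co
    have : (m : 𝓞 K) * z = (m : ℤ) • z := by
      rw [zsmul_eq_mul]; push_cast; rfl
    rw [this, map_smul]
    simp
  rw [this]
  exact ⟨k j * co z j, by ring⟩

end Pool.Agent.A856.HW
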