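import Pool.Agent.A856.HW.FinC

/-!
# Finite Fourier transforms of correlations of characters, part 4: the bound

Owner helper856 (Hecke L-functions with powerful conductor).
-/

set_option autoImplicit false
set_option linter.unusedSectionVars false

open NumberField Complex Filter Topology UniqueFactorizationMonoid

namespace Pool.Agent.A856.HW

open Pool.Agent.Y773 (Idx db lp PerI SQ mk_out out_mk SQ_translate SQ_const_mul SQ_congr TPos
  absNorm_span_nat)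
open Pool.Agent.Y773.G

variable {K : Type} [Field K] [NumberField K]

/-- the correlation -/
noncomputable def cor (Ψ : 𝓞 K → ℂ) (h x : 𝓞 K) : ℂ := Ψ (x + h) * (starRingEnd ℂ) (Ψ x)

variable {𝔣 𝔡 𝔟 : Ideal (𝓞 K)} {χ Ψ : 𝓞 K → ℂ}

lemma PsT.norm_le (P : PsT 𝔣 𝔟 χ Ψ) (H : Chr 𝔣 χ) (x : 𝓞 K) : ‖Ψ x‖ ≤ 1 := by
  by_cases hx : x ∈ 𝔟
  · obtain ⟨b, hb⟩ := IsDedekindDomain.exists_sup_span_eq (I := 𝔟 * 𝔣) (J := 𝔟)
      Ideal.mul_le_left (mul_ne_zero P.ne H.ne)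
    rw [sup_comm] at hb
    have hb1 : b ∈ 𝔟 := by
      rw [← hb]
      exact Ideal.mem_sup_left (Ideal.mem_span_singleton_self b)
    obtain ⟨a, ha⟩ := coord hb hx
    rw [P.per _ _ ha, P.mul a b hb1, norm_mul, P.gen b hb, mul_one]
    exact H.norm_le a
  · rw [P.zero x hx, norm_zero]
    norm_num

lemma PsT.cor_eq (P : PsT 𝔣 𝔟 χ Ψ) {b : 𝓞 K} (hb : Ideal.span {b} ⊔ 𝔟 * 𝔣 = 𝔟) {x a h η : 𝓞 K}
    (hx : x - a * b ∈ 𝔟 * 𝔣) (hh : h - η * b ∈ 𝔟 * 𝔣) : cor Ψ h x = gg χ η a := by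
  have hb1 : b ∈ 𝔟 := by
    rw [← hb]
    exact Ideal.mem_sup_left (Ideal.mem_span_singleton_self b)
  have e1 : Ψ x = χ a * Ψ b := by rw [P.per _ _ hx, P.mul a b hb1]
  have e2 : Ψ (x + h) = χ (a + η) * Ψ b := by
    have h1 : (x + h) - (a + η) * b ∈ 𝔟 * 𝔣 := by
      have : (x + h) - (a + η) * b = (x - a * b) + (h - η * b) := by ring
      rw [this]
      exact Submodule.add_mem _ hx hh
    rw [P.per _ _ h1, P.mul _ b hb1]
  have e3 : Ψ b * (starRingEnd ℂ) (Ψ b) = 1 := by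
    rw [Complex.mul_conj, Complex.normSq_eq_norm_sq, P.gen b hb]
    simp
  unfold cor gg
  rw [e1, e2, map_mul]
  calc _ = χ (a + η) * (starRingEnd ℂ) (χ a) * (Ψ b * (starRingEnd ℂ) (Ψ b)) := by ring
    _ = _ := by rw [e3, mul_one]

lemma PsT.cor_zero (P : PsT 𝔣 𝔟 χ Ψ) {h x : 𝓞 K} (hx : x ∉ 𝔟) : cor Ψ h x = 0 := by
  unfold cor
  rw [P.zero x hx, map_zero, mul_zero]

lemma PsT.cor_per (P : PsT 𝔣 𝔟 χ Ψ) (h : 𝓞 K) : PerI (𝔟 * 𝔣) (cor Ψ h) := by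
  intro x y hxy
  unfold cor
  rw [P.per _ _ hxy, P.per (x + h) (y + h) (by rwa [add_sub_add_right_eq_sub])]

lemma PsT.norm_cor (P : PsT 𝔣 𝔟 χ Ψ) (H : Chr 𝔣 χ) (h x : 𝓞 K) : ‖cor Ψ h x‖ ≤ 1 := by
  unfold cor
  rw [norm_mul, RCLike.norm_conj]
  exact mul_le_one₀ (P.norm_le H _) (norm_nonneg _) (P.norm_le H _)

/-- multiplicativity along the cosets of `𝔟 * 𝔡` -/
lemma PsT.cor_mul (P : PsT 𝔣 𝔟 χ Ψ) (H : Chr 𝔣 χ) (h1 : 𝔣 ≤ 𝔡) (h3 : 𝔡 ^ 3 ≤ 𝔣) {b : 𝓞 K}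
    (hb : Ideal.span {b} ⊔ 𝔟 * 𝔣 = 𝔟) {h η : 𝓞 K} (hη : η ∈ 𝔡) (hh : h - η * b ∈ 𝔟 * 𝔣)
    (x : 𝓞 K) {γ γ' : 𝓞 K} (hγ : γ ∈ 𝔟 * 𝔡) (hγ' : γ' ∈ 𝔟 * 𝔡) :
    cor Ψ h (x + γ + γ') * cor Ψ h x = cor Ψ h (x + γ) * cor Ψ h (x + γ') := by
  have hle : 𝔟 * 𝔣 ≤ 𝔟 * 𝔡 := Ideal.mul_mono_right h1
  have hγb : γ ∈ 𝔟 := Ideal.mul_le_left hγ
  have hγb' : γ' ∈ 𝔟 := Ideal.mul_le_left hγ'
  by_cases hx : x ∈ 𝔟
  · obtain ⟨a, ha⟩ := coord hb hx
    have hc : ∀ δ ∈ 𝔟 * 𝔡, ∃ c ∈ 𝔡, δ - c * b ∈ 𝔟 * 𝔣 := by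
      intro δ hδ
      obtain ⟨c, hc⟩ := coord hb (Ideal.mul_le_left hδ)
      refine ⟨c, mem_mul_of_coord P.ne hb h1 ?_, hc⟩
      have : c * b = δ - (δ - c * b) := by ring
      rw [this]
      exact Submodule.sub_mem _ hδ (hle hc)
    obtain ⟨c, hc1, hc2⟩ := hc γ hγ
    obtain ⟨c', hc1', hc2'⟩ := hc γ' hγ'
    have m1 : x + γ - (a + c) * b ∈ 𝔟 * 𝔣 := by
      have : x + γ - (a + c) * b = (x - a * b) + (γ - c * b) := by ring
      rw [this]
      exact Submodule.add_mem _ ha hc2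
    have m2 : x + γ' - (a + c') * b ∈ 𝔟 * 𝔣 := by
      have : x + γ' - (a + c') * b = (x - a * b) + (γ' - c' * b) := by ring
      rw [this]
      exact Submodule.add_mem _ ha hc2'
    have m3 : x + γ + γ' - (a + c + c') * b ∈ 𝔟 * 𝔣 := by
      have : x + γ + γ' - (a + c + c') * b = (x + γ - (a + c) * b) + (γ' - c' * b) := by ring
      rw [this]
      exact Submodule.add_mem _ m1 hc2'
    rw [P.cor_eq hb ha hh, P.cor_eq hb m1 hh, P.cor_eq hb m2 hh, P.cor_eq hb m3 hh]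
    exact H.gg_mul h1 h3 hη hc1 hc1'
  · have h4 : x + γ ∉ 𝔟 := by
      intro h5
      apply hx
      have := 𝔟.sub_mem h5 hγb
      rwa [add_sub_cancel_right] at this
    rw [P.cor_zero hx, P.cor_zero h4, mul_zero, zero_mul]

/-- **the main bound for the finite Fourier transforms** -/
theorem fin_main (H : Chr 𝔣 χ) (P : PsT 𝔣 𝔟 χ Ψ) (h1 : 𝔣 ≤ 𝔡) (h3 : 𝔡 ^ 3 ≤ 𝔣) {m : ℕ}
    (hm : 0 < m) (hmf : (m : 𝓞 K) ∈ 𝔟 * 𝔣) {h' : 𝓞 K} (hh' : h' ∈ 𝔟 * 𝔡) :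
    ∃ 𝔧 𝔨 : Ideal (𝓞 K), 𝔧 ∣ 𝔣 ∧ 𝔧 ≤ 𝔡 ∧ 2 * h' ∈ 𝔟 * 𝔧 ∧ 𝔨 ≠ ⊥ ∧
      Ideal.absNorm 𝔣 ≤ Ideal.absNorm 𝔡 * Ideal.absNorm 𝔧 * Ideal.absNorm 𝔨 ∧
      (∀ k, ‖Fk m (cor Ψ (2 * h')) k‖ ≤ (tau 𝔣 : ℝ) * 2 ^ (Module.finrank ℚ K) *
        (m : ℝ) ^ (Module.finrank ℚ K) / ((Ideal.absNorm 𝔟 : ℝ) * (Ideal.absNorm 𝔨 : ℝ))) ∧
      (∀ k, Fk m (cor Ψ (2 * h')) k ≠ 0 → ∀ γ ∈ 𝔟 * (𝔡 * 𝔨), (m : ℤ) ∣ ∑ j, k j * co γ j) := by
  classical
  have hf0 : 𝔣 ≠ ⊥ := H.ne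
  have hb0 : 𝔟 ≠ ⊥ := P.ne
  have hd0 : 𝔡 ≠ ⊥ := fun h => hf0 (by rw [h] at h1; exact le_bot_iff.mp h1)
  have hbf0 : 𝔟 * 𝔣 ≠ ⊥ := mul_ne_zero hb0 hf0
  have hle : 𝔟 * 𝔣 ≤ 𝔟 * 𝔡 := Ideal.mul_mono_right h1
  obtain ⟨b, hb⟩ := IsDedekindDomain.exists_sup_span_eq (I := 𝔟 * 𝔣) (J := 𝔟) Ideal.mul_le_left hbf0
  rw [sup_comm] at hb
  have hb1 : b ∈ 𝔟 := by
    rw [← hb]
    exact Ideal.mem_sup_left (Ideal.mem_span_singleton_self b)
  obtain ⟨η₁, hη₁⟩ := coord hb (Ideal.mul_le_left hh')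
  have hη₁d : η₁ ∈ 𝔡 := by
    refine mem_mul_of_coord hb0 hb h1 ?_
    have : η₁ * b = h' - (h' - η₁ * b) := by ring
    rw [this]
    exact Submodule.sub_mem _ hh' (hle hη₁)
  set η := 2 * η₁ with hη
  have hηd : η ∈ 𝔡 := 𝔡.mul_mem_left _ hη₁d
  have hhη : 2 * h' - η * b ∈ 𝔟 * 𝔣 := by
    have : 2 * h' - η * b = 2 * (h' - η₁ * b) := by rw [hη]; ring
    rw [this]
    exact Ideal.mul_mem_left _ _ hη₁
  set 𝔧 := Ideal.span {η} ⊔ 𝔣 with h𝔧
  have hjle : 𝔣 ≤ 𝔧 := le_sup_right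
  set 𝔰 := Ideal.span {η} * 𝔡 ⊔ 𝔣 with h𝔰
  have hsle : 𝔣 ≤ 𝔰 := le_sup_right
  obtain ⟨𝔨, hk⟩ := Ideal.dvd_iff_le.mpr hsle
  have hk0 : 𝔨 ≠ ⊥ := by
    rintro rfl
    rw [Ideal.mul_bot] at hk
    exact hf0 hk
  have hs0 : 𝔰 ≠ ⊥ := by
    intro h
    rw [h, Ideal.bot_mul] at hk
    exact hf0 hk
  have hsd : 𝔰 ≤ 𝔡 := sup_le Ideal.mul_le_right h1
  have hkf : 𝔨 ∣ 𝔣 := ⟨𝔰, by rw [mul_comm, ← hk]⟩
  have hfk : 𝔣 ≤ 𝔨 := Ideal.dvd_iff_le.mp hkf
  refine ⟨𝔧, 𝔨, Ideal.dvd_iff_le.mpr hjle, ?_, ?_, hk0, ?_, ?_, ?_⟩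
  · exact sup_le ((Ideal.span_singleton_le_iff_mem _).mpr hηd) h1
  · have e1 : 2 * h' = η * b + (2 * h' - η * b) := by ring
    rw [e1]
    refine Submodule.add_mem _ ?_ (Ideal.mul_mono_right hjle hhη)
    rw [mul_comm η b]
    exact Ideal.mul_mem_mul hb1 (Ideal.mem_sup_left (Ideal.mem_span_singleton_self η))
  · -- norms
    have e1 : Ideal.absNorm 𝔣 = Ideal.absNorm 𝔰 * Ideal.absNorm 𝔨 := by rw [← map_mul, ← hk]
    have e2 : 𝔡 * 𝔧 ≤ 𝔰 := by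
      rw [h𝔧, Ideal.mul_sup, h𝔰]
      refine sup_le ?_ ?_
      · rw [mul_comm]; exact le_sup_left
      · exact (Ideal.mul_le_right : 𝔡 * 𝔣 ≤ 𝔣).trans le_sup_right
    have hj0 : 𝔧 ≠ ⊥ := fun h => hf0 (by rw [h] at hjle; exact le_bot_iff.mp hjle)
    have e3 : Ideal.absNorm 𝔰 ≤ Ideal.absNorm 𝔡 * Ideal.absNorm 𝔧 := by
      rw [← map_mul]
      refine Nat.le_of_dvd (Nat.pos_of_ne_zero ?_) (Ideal.absNorm_dvd_absNorm_of_le e2)
      rw [Ne, Ideal.absNorm_eq_zero_iff]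
      exact mul_ne_zero hd0 hj0
    rw [e1]
    exact Nat.mul_le_mul_right _ e3
  · -- the bound
    intro k
    set 𝔪 : Ideal (𝓞 K) := Ideal.span {(m : 𝓞 K)} with h𝔪
    have h𝔪0 : 𝔪 ≠ ⊥ := span_m_ne_bot hm
    have hmle : 𝔪 ≤ 𝔟 * 𝔣 := by
      rw [h𝔪, Ideal.span_singleton_le_iff_mem]
      exact hmf
    set g : 𝓞 K → ℂ := fun x => cor Ψ (2 * h') x * EE m k x with hg
    have hFk : Fk m (cor Ψ (2 * h')) k = SQ 𝔪 g := rfl
    have hEm : ∀ x y : 𝓞 K, x - y ∈ 𝔪 → EE m k x = EE m k y := by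
      intro x y hxy
      obtain ⟨z, hz⟩ := Ideal.mem_span_singleton'.mp hxy
      have : x = y + m * z := by rw [mul_comm, hz]; ring
      rw [this, EE_add, EE_mul_nat hm, mul_one]
    have hgper : PerI 𝔪 g := by
      intro x y hxy
      rw [hg]
      simp only
      rw [P.cor_per _ x y (hmle hxy), hEm x y hxy]
    have hgM : ∀ x : 𝓞 K, ∀ γ ∈ 𝔟 * 𝔡, ∀ γ' ∈ 𝔟 * 𝔡,
        g (x + γ + γ') * g x = g (x + γ) * g (x + γ') := by
      intro x γ hγ γ' hγ'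
      have e1 := P.cor_mul H h1 h3 hb hηd hhη x hγ hγ'
      rw [hg]
      simp only
      rw [EE_add, EE_add, EE_add]
      calc _ = (cor Ψ (2 * h') (x + γ + γ') * cor Ψ (2 * h') x) *
            (EE m k x * EE m k γ * EE m k γ' * EE m k x) := by ring
        _ = _ := by rw [e1]; ring
    have hgB : ∀ x, ‖g x‖ ≤ 1 := by
      intro x
      rw [hg]
      simp only
      rw [norm_mul, norm_EE, mul_one]
      exact P.norm_cor H _ _
    have h4 := avg_bound h𝔪0 hgper hgM hgB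
    rw [hFk]
    refine h4.trans ?_
    set S := {q : 𝓞 K ⧸ 𝔪 // g (Quotient.out q) ≠ 0 ∧
      ∀ γ ∈ 𝔟 * 𝔡, g (Quotient.out q + γ) = g (Quotient.out q)} with hS
    -- coordinates
    have hcoord : ∀ q : S, ∃ a u : 𝓞 K, Quotient.out q.1 - a * b ∈ 𝔟 * 𝔣 ∧ χ a ≠ 0 ∧
        u * (a * (a + η)) - 1 ∈ 𝔣 ∧ ∀ c ∈ 𝔡, χ (1 - c * η * u) * EE m k (c * b) = 1 := by
      rintro ⟨q, hq1, hq2⟩
      have hx : Quotient.out q ∈ 𝔟 := by
        by_contra hx
        apply hq1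
        rw [hg]
        simp only
        rw [P.cor_zero hx, zero_mul]
      obtain ⟨a, ha⟩ := coord hb hx
      have e0 := P.cor_eq hb ha hhη
      have ha0 : χ a ≠ 0 := by
        intro h0
        apply hq1
        rw [hg]
        simp only
        rw [e0]
        unfold gg
        rw [h0, map_zero, mul_zero, zero_mul]
      obtain ⟨u, hu⟩ := H.exists_u h1 h3 ha0 hηd
      refine ⟨a, u, ha, ha0, hu, fun c hc => ?_⟩
      have hcb : c * b ∈ 𝔟 * 𝔡 := by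
        rw [mul_comm c b]
        exact Ideal.mul_mem_mul hb1 hc
      have e1 := hq2 _ hcb
      have m1 : Quotient.out q + c * b - (a + c) * b ∈ 𝔟 * 𝔣 := by
        have : Quotient.out q + c * b - (a + c) * b = Quotient.out q - a * b := by ring
        rw [this]
        exact ha
      rw [hg] at e1 hq1
      simp only at e1 hq1
      rw [P.cor_eq hb m1 hhη, e0, H.gg_add h1 h3 ha0 hηd hc hu, EE_add] at e1
      rw [e0] at hq1
      have e2 : (gg χ η a * EE m k (Quotient.out q)) * (χ (1 - c * η * u) * EE m k (c * b)) =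
          (gg χ η a * EE m k (Quotient.out q)) * 1 := by
        rw [mul_one]
        refine Eq.trans ?_ e1
        ring
      exact mul_left_cancel₀ hq1 e2
    choose A U hA1 hA2 hA3 hA4 using hcoord
    -- pairs
    have hpair : ∀ q q' : S, A q * (A q + η) - A q' * (A q' + η) ∈ 𝔨 := by
      intro q q'
      refine pair_mem H h3 hηd (hA3 q) (hA3 q') (fun c hc => ?_) hk.symm
      have e1 := hA4 q c hc
      have e2 := hA4 q' c hc
      have e3 : EE m k (c * b) ≠ 0 := by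
        rw [← norm_ne_zero_iff, norm_EE]
        exact one_ne_zero
      exact mul_right_cancel₀ e3 (e1.trans e2.symm)
    have hfinQ : Finite (𝓞 K ⧸ 𝔪) := Ideal.finiteQuotientOfFreeOfNeBot _ h𝔪0
    have hfinS : Finite S := Subtype.finite
    have := Fintype.ofFinite S
    have hfD : Finite {𝔢 : Ideal (𝓞 K) // 𝔢 ∣ 𝔣} := finite_dvd hf0
    have := Fintype.ofFinite {𝔢 : Ideal (𝓞 K) // 𝔢 ∣ 𝔣}
    -- the second factorisation
    obtain ⟨𝔨₂, hk₂⟩ := Ideal.dvd_iff_le.mpr (le_sup_left : 𝔨 ≤ 𝔨 ⊔ Ideal.span {(2 : 𝓞 K)})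
    have hk₂0 : 𝔨₂ ≠ ⊥ := by
      rintro rfl
      rw [Ideal.mul_bot] at hk₂
      exact hk0 hk₂
    have hk2s0 : 𝔨 ⊔ Ideal.span {(2 : 𝓞 K)} ≠ ⊥ := by
      intro h
      rw [h, Ideal.bot_mul] at hk₂
      exact hk0 hk₂
    have hfk₂ : 𝔣 ≤ 𝔨₂ := by
      refine hfk.trans ?_
      rw [hk₂]
      exact Ideal.mul_le_right
    have hNk : Ideal.absNorm 𝔨 ≤ 2 ^ (Module.finrank ℚ K) * Ideal.absNorm 𝔨₂ := by
      have e1 : Ideal.absNorm 𝔨 = Ideal.absNorm (𝔨 ⊔ Ideal.span {(2 : 𝓞 K)}) * Ideal.absNorm 𝔨₂ := by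
        rw [← map_mul, ← hk₂]
      rw [e1]
      refine Nat.mul_le_mul_right _ ?_
      have e2 : Ideal.absNorm (Ideal.span {((2 : ℕ) : 𝓞 K)}) = 2 ^ (Module.finrank ℚ K) :=
        absNorm_span_nat 2
      have e3 := Ideal.absNorm_dvd_absNorm_of_le
        (le_sup_right : Ideal.span {(2 : 𝓞 K)} ≤ 𝔨 ⊔ Ideal.span {(2 : 𝓞 K)})
      rw [Nat.cast_ofNat] at e2
      rw [e2] at e3
      exact Nat.le_of_dvd (by positivity) e3
    have hcong : ∀ q q' q₀ : S, 𝔨 ⊔ Ideal.span {2 * (A q - A q₀)} = 𝔨 ⊔ Ideal.span {2 * (A q' - A q₀)} →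
        Quotient.out q.1 - Quotient.out q'.1 ∈ 𝔟 * 𝔨₂ := by
      intro q q' q₀ hqq
      have e1 : 2 * (A q - A q') ∈ 𝔨 := by
        refine fibre_mem hk0 (η₁ := η₁) (a₀ := A q₀) (fun p hp hpk hmem => ?_) ?_ ?_ hqq
        · -- `A q₀ + η₁` is a unit
          have h5 := H.add_ne h1 h3 (hA2 q₀) hη₁d
          rw [H.supp, Ideal.isCoprime_iff_sup_eq] at h5
          have h6 : Ideal.span {A q₀ + η₁} ⊔ 𝔣 ≤ p := by
            refine sup_le ((Ideal.span_singleton_le_iff_mem _).mpr hmem) ?_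
            exact hfk.trans (Ideal.dvd_iff_le.mp hpk)
          rw [h5] at h6
          exact (Ideal.isPrime_of_prime hp).ne_top (top_le_iff.mp h6)
        · exact hpair q q₀
        · exact hpair q' q₀
      have e2 : A q - A q' ∈ 𝔨₂ := by
        have h5 : (𝔨 ⊔ Ideal.span {(2 : 𝓞 K)}) * 𝔨₂ ∣
            (𝔨 ⊔ Ideal.span {(2 : 𝓞 K)}) * Ideal.span {A q - A q'} := by
          rw [← hk₂, Ideal.dvd_iff_le, Ideal.sup_mul]
          refine sup_le Ideal.mul_le_left ?_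
          rw [Ideal.span_singleton_mul_span_singleton, Ideal.span_singleton_le_iff_mem]
          exact e1
        rw [mul_dvd_mul_iff_left hk2s0] at h5
        exact Ideal.dvd_span_singleton.mp h5
      have e3 : Quotient.out q.1 - Quotient.out q'.1 = (Quotient.out q.1 - A q * b) -
          (Quotient.out q'.1 - A q' * b) + b * (A q - A q') := by ring
      rw [e3]
      refine Submodule.add_mem _ (Submodule.sub_mem _ ?_ ?_) (Ideal.mul_mem_mul hb1 e2)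
      · exact Ideal.mul_mono_right hfk₂ (hA1 q)
      · exact Ideal.mul_mono_right hfk₂ (hA1 q')
    -- counting
    have hcls : 𝔪 ≤ 𝔟 * 𝔨₂ := hmle.trans (Ideal.mul_mono_right hfk₂)
    have hcount : Fintype.card S * Ideal.absNorm (𝔟 * 𝔨₂) ≤ tau 𝔣 * m ^ (Module.finrank ℚ K) := by
      rcases isEmpty_or_nonempty S with hemp | hne
      · rw [Fintype.card_eq_zero, zero_mul]
        exact Nat.zero_le _
      · obtain ⟨q₀⟩ := hne
        set δ : S → {𝔢 : Ideal (𝓞 K) // 𝔢 ∣ 𝔣} := fun q =>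
          ⟨𝔨 ⊔ Ideal.span {2 * (A q - A q₀)},
            (Ideal.dvd_iff_le.mpr (le_sup_left : 𝔨 ≤ 𝔨 ⊔ Ideal.span {2 * (A q - A q₀)})).trans hkf⟩
          with hδ
        have h5 := Finset.card_eq_sum_card_fiberwise (f := δ) (s := Finset.univ) (t := Finset.univ)
          (fun _ _ => Finset.mem_coe.mpr (Finset.mem_univ _))
        rw [Finset.card_univ] at h5
        have h6 : ∀ 𝔢 : {𝔢 : Ideal (𝓞 K) // 𝔢 ∣ 𝔣},
            (Finset.univ.filter fun q => δ q = 𝔢).card * Ideal.absNorm (𝔟 * 𝔨₂) ≤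
              m ^ (Module.finrank ℚ K) := by
          intro 𝔢
          rcases (Finset.univ.filter fun q => δ q = 𝔢).eq_empty_or_nonempty with he | ⟨q₁, hq₁⟩
          · rw [he, Finset.card_empty, zero_mul]
            exact Nat.zero_le _
          · have hq₁' : δ q₁ = 𝔢 := (Finset.mem_filter.mp hq₁).2
            have h7 := card_class h𝔪0 hcls (Quotient.out q₁.1)
            rw [absNorm_span_nat] at h7
            rw [← h7]
            refine Nat.mul_le_mul_right _ ?_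
            have h8 : (Finset.univ.filter fun q => δ q = 𝔢).card =
                Nat.card {q : S // δ q = 𝔢} := by
              rw [Nat.card_eq_fintype_card, Fintype.card_subtype]
            rw [h8]
            refine Nat.card_le_card_of_injective (fun q : {q : S // δ q = 𝔢} =>
              (⟨q.1.1, ?_⟩ : {q : 𝓞 K ⧸ 𝔪 // Quotient.out q - Quotient.out q₁.1 ∈ 𝔟 * 𝔨₂})) ?_
            · refine hcong q.1 q₁ q₀ ?_
              have := q.2.trans hq₁'.symm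
              exact congrArg Subtype.val this
            · intro q q' hqq
              have := congrArg Subtype.val hqq
              exact Subtype.ext (Subtype.ext this)
        rw [h5, Finset.sum_mul]
        refine (Finset.sum_le_sum fun 𝔢 _ => h6 𝔢).trans ?_
        rw [Finset.sum_const, Finset.card_univ, smul_eq_mul, ← Nat.card_eq_fintype_card]
        exact le_of_eq rfl
    have hNb : (0 : ℝ) < (Ideal.absNorm 𝔟 : ℝ) := by
      have : Ideal.absNorm 𝔟 ≠ 0 := by rw [Ne, Ideal.absNorm_eq_zero_iff]; exact hb0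
      exact_mod_cast Nat.pos_of_ne_zero this
    have hNkp : (0 : ℝ) < (Ideal.absNorm 𝔨 : ℝ) := by
      have : Ideal.absNorm 𝔨 ≠ 0 := by rw [Ne, Ideal.absNorm_eq_zero_iff]; exact hk0
      exact_mod_cast Nat.pos_of_ne_zero this
    rw [le_div_iff₀ (by positivity), Nat.card_eq_fintype_card]
    rw [map_mul] at hcount
    have h5 : Fintype.card S * (Ideal.absNorm 𝔟 * Ideal.absNorm 𝔨) ≤
        tau 𝔣 * 2 ^ (Module.finrank ℚ K) * m ^ (Module.finrank ℚ K) := by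
      calc Fintype.card S * (Ideal.absNorm 𝔟 * Ideal.absNorm 𝔨)
          ≤ Fintype.card S * (Ideal.absNorm 𝔟 * (2 ^ (Module.finrank ℚ K) * Ideal.absNorm 𝔨₂)) := by
            gcongr
        _ = 2 ^ (Module.finrank ℚ K) * (Fintype.card S * (Ideal.absNorm 𝔟 * Ideal.absNorm 𝔨₂)) := by
            ring
        _ ≤ 2 ^ (Module.finrank ℚ K) * (tau 𝔣 * m ^ (Module.finrank ℚ K)) := by gcongr
        _ = _ := by ring
    exact_mod_cast h5
  · -- the support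
    intro k hne γ hγ
    rw [← EE_eq_one_iff hm]
    set 𝔪 : Ideal (𝓞 K) := Ideal.span {(m : 𝓞 K)} with h𝔪
    have h𝔪0 : 𝔪 ≠ ⊥ := span_m_ne_bot hm
    have hmle : 𝔪 ≤ 𝔟 * 𝔣 := by
      rw [h𝔪, Ideal.span_singleton_le_iff_mem]
      exact hmf
    set g : 𝓞 K → ℂ := fun x => cor Ψ (2 * h') x * EE m k x with hg
    have hFk : Fk m (cor Ψ (2 * h')) k = SQ 𝔪 g := rfl
    have hEm : ∀ x y : 𝓞 K, x - y ∈ 𝔪 → EE m k x = EE m k y := by
      intro x y hxy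
      obtain ⟨z, hz⟩ := Ideal.mem_span_singleton'.mp hxy
      have : x = y + m * z := by rw [mul_comm, hz]; ring
      rw [this, EE_add, EE_mul_nat hm, mul_one]
    have hgper : PerI 𝔪 g := by
      intro x y hxy
      rw [hg]
      simp only
      rw [P.cor_per _ x y (hmle hxy), hEm x y hxy]
    -- the periods
    have hfdk : 𝔣 ≤ 𝔡 * 𝔨 := by
      rw [hk]
      exact Ideal.mul_mono_left hsd
    have hγb : γ ∈ 𝔟 := Ideal.mul_le_left hγ
    have hcorγ : ∀ x, cor Ψ (2 * h') (x + γ) = cor Ψ (2 * h') x := by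
      intro x
      by_cases hx : x ∈ 𝔟
      · obtain ⟨a, ha⟩ := coord hb hx
        obtain ⟨c, hc⟩ := coord hb hγb
        have hcdk : c ∈ 𝔡 * 𝔨 := by
          refine mem_mul_of_coord hb0 hb hfdk ?_
          have : c * b = γ - (γ - c * b) := by ring
          rw [this]
          exact Submodule.sub_mem _ hγ (Ideal.mul_mono_right hfdk hc)
        have hcd : c ∈ 𝔡 := Ideal.mul_le_left hcdk
        have m1 : x + γ - (a + c) * b ∈ 𝔟 * 𝔣 := by
          have : x + γ - (a + c) * b = (x - a * b) + (γ - c * b) := by ring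
          rw [this]
          exact Submodule.add_mem _ ha hc
        rw [P.cor_eq hb ha hhη, P.cor_eq hb m1 hhη]
        by_cases ha0 : χ a = 0
        · have ha1 : χ (a + c) = 0 := H.add_eq_zero h1 h3 ha0 hcd
          unfold gg
          rw [ha0, ha1, map_zero, mul_zero, mul_zero]
        · obtain ⟨u, hu⟩ := H.exists_u h1 h3 ha0 hηd
          rw [H.gg_add h1 h3 ha0 hηd hcd hu]
          have e1 : χ (1 - c * η * u) = 1 := by
            rw [← H.one]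
            refine H.per _ _ ?_
            have e2 : 1 - c * η * u - 1 = -(η * c * u) := by ring
            rw [e2]
            refine 𝔣.neg_mem (𝔣.mul_mem_right _ ?_)
            rw [hk]
            have e3 : η * c ∈ Ideal.span {η} * (𝔡 * 𝔨) :=
              Ideal.mul_mem_mul (Ideal.mem_span_singleton_self η) hcdk
            rw [← mul_assoc] at e3
            exact Ideal.mul_mono_left le_sup_left e3
          rw [e1, mul_one]
      · have h4 : x + γ ∉ 𝔟 := by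
          intro h5
          apply hx
          have := 𝔟.sub_mem h5 hγb
          rwa [add_sub_cancel_right] at this
        rw [P.cor_zero hx, P.cor_zero h4]
    have h5 := SQ_translate hgper γ
    have h6 : SQ 𝔪 (fun x => g (x + γ)) = EE m k γ * SQ 𝔪 g := by
      rw [← SQ_const_mul h𝔪0]
      refine SQ_congr fun x => ?_
      rw [hg]
      simp only
      rw [hcorγ, EE_add]
      ring
    rw [h6] at h5
    rw [hFk] at hne
    have h7 : EE m k γ * SQ 𝔪 g = 1 * SQ 𝔪 g := by rw [one_mul]; exact h5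
    exact mul_right_cancel₀ hne h7

end Pool.Agent.A856.HW
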