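import Mathlib

/-!
# Complex Gaussians

Owner helper856 (Hecke L-functions with powerful conductor).  `gc e ζ = ζ^e exp(-π ζ²)` and the
Fourier transform of the product of two translates.
-/

set_option autoImplicit false

open Complex MeasureTheory Filter Topology

namespace Pool.Agent.A856.HW

/-- `ζ^e exp(-π ζ²)` -/
noncomputable def gc (e : ℕ) (ζ : ℂ) : ℂ := ζ ^ e * cexp (-Real.pi * ζ ^ 2)

lemma continuous_gc (e : ℕ) : Continuous (gc e) := by unfold gc; fun_prop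

section quad

variable {b : ℝ} (hb : 0 < b) (c d : ℂ)

/-- the exponential of a quadratic polynomial -/
noncomputable def Eq (b : ℝ) (c d : ℂ) (x : ℝ) : ℂ := cexp (-(b : ℂ) * x ^ 2 + c * x + d)

include hb in
lemma integrable_Eq : Integrable (Eq b c d) := by
  unfold Eq
  exact integrable_cexp_quadratic (b := (b : ℂ)) (by simpa using hb) c d

include hb in
lemma integrable_pow_Eq {k : ℕ} (hk : k ≤ 2) :
    Integrable fun x : ℝ => (x : ℂ) ^ k * Eq b c d x := by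
  have h1 := ((integrable_Eq (b := b / 2) (by positivity) c d).norm).const_mul (1 + 2 / b)
  refine Integrable.mono' h1 ?_ (Eventually.of_forall fun x => ?_)
  · have : Continuous fun x : ℝ => (x : ℂ) ^ k * Eq b c d x := by unfold Eq; fun_prop
    exact this.aestronglyMeasurable
  · have e1 : Eq b c d x = (Real.exp (-(b / 2) * x ^ 2) : ℂ) * Eq (b / 2) c d x := by
      unfold Eq
      rw [Complex.ofReal_exp, ← Complex.exp_add]
      congr 1
      push_cast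
      ring
    rw [e1, norm_mul, norm_mul, norm_pow, Complex.norm_real, Complex.norm_real, Real.norm_eq_abs,
      Real.norm_eq_abs, abs_of_pos (Real.exp_pos _), ← mul_assoc]
    refine mul_le_mul_of_nonneg_right ?_ (norm_nonneg _)
    have h2 : |x| ^ k ≤ 1 + x ^ 2 := by
      interval_cases k
      · rw [pow_zero]
        nlinarith [sq_nonneg x]
      · rw [pow_one]
        nlinarith [sq_abs x, sq_nonneg (|x| - 1), abs_nonneg x]
      · rw [sq_abs]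
        linarith
    have h3 : b / 2 * x ^ 2 + 1 ≤ Real.exp (b / 2 * x ^ 2) := Real.add_one_le_exp _
    have h4 : 1 + x ^ 2 ≤ (1 + 2 / b) * Real.exp (b / 2 * x ^ 2) := by
      have h5 : (1 : ℝ) ≤ Real.exp (b / 2 * x ^ 2) := Real.one_le_exp (by positivity)
      have h6 : x ^ 2 ≤ 2 / b * Real.exp (b / 2 * x ^ 2) := by
        have h7 : x ^ 2 = 2 / b * (b / 2 * x ^ 2) := by field_simp
        have h8 : 2 / b * (b / 2 * x ^ 2) ≤ 2 / b * Real.exp (b / 2 * x ^ 2) :=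
          mul_le_mul_of_nonneg_left (by linarith) (by positivity)
        linarith
      linarith
    calc |x| ^ k * Real.exp (-(b / 2) * x ^ 2)
        ≤ ((1 + 2 / b) * Real.exp (b / 2 * x ^ 2)) * Real.exp (-(b / 2) * x ^ 2) := by
          gcongr
          exact h2.trans h4
      _ = (1 + 2 / b) := by
          rw [mul_assoc, ← Real.exp_add]
          have : b / 2 * x ^ 2 + -(b / 2) * x ^ 2 = 0 := by ring
          rw [this, Real.exp_zero, mul_one]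

lemma hasDerivAt_Eq (x : ℝ) :
    HasDerivAt (Eq b c d) ((c - 2 * b * x) * Eq b c d x) x := by
  have hx : HasDerivAt (fun x : ℝ => (x : ℂ)) 1 x := Complex.ofRealCLM.hasDerivAt
  have h2 : HasDerivAt (fun x : ℝ => cexp (-(b : ℂ) * (x : ℂ) ^ 2 + c * x + d))
      (cexp (-(b : ℂ) * (x : ℂ) ^ 2 + c * x + d) *
        (-(b : ℂ) * (((2 : ℕ) : ℂ) * (x : ℂ) ^ (2 - 1) * 1) + c * 1)) x :=
    ((((hx.pow 2).const_mul (-(b : ℂ))).add (hx.const_mul c)).add_const d).cexp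
  refine h2.congr_deriv ?_
  unfold Eq
  push_cast
  ring

include hb in
lemma int_Eq : ∫ x : ℝ, Eq b c d x = (Real.sqrt (Real.pi / b) : ℂ) * cexp (d + c ^ 2 / (4 * b)) := by
  have h := integral_cexp_quadratic (b := -(b : ℂ)) (by simpa using hb) c d
  unfold Eq
  rw [h]
  congr 1
  · rw [neg_neg, Real.sqrt_eq_rpow, Complex.ofReal_cpow (by positivity)]
    push_cast
    rfl
  · congr 1
    have hbc : (b : ℂ) ≠ 0 := by exact_mod_cast hb.ne'
    field_simp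
    ring

include hb in
lemma int_x_Eq : ∫ x : ℝ, (x : ℂ) * Eq b c d x = c / (2 * b) * ∫ x : ℝ, Eq b c d x := by
  have hbc : (b : ℂ) ≠ 0 := by exact_mod_cast hb.ne'
  have i0 := integrable_Eq hb c d
  have i1 : Integrable fun x : ℝ => (x : ℂ) * Eq b c d x := by
    simpa using integrable_pow_Eq hb c d (k := 1) (by norm_num)
  have e0 : (fun x : ℝ => (c - 2 * b * x) * Eq b c d x) =
      fun x : ℝ => c * Eq b c d x - 2 * b * ((x : ℂ) * Eq b c d x) := by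
    funext x
    ring
  have h0 := integral_eq_zero_of_hasDerivAt_of_integrable (f' := fun x : ℝ => (c - 2 * b * x) * Eq b c d x)
    (hasDerivAt_Eq c d) (by
      rw [e0]
      exact (i0.const_mul _).sub (i1.const_mul _)) i0
  rw [e0, integral_sub (i0.const_mul _) (i1.const_mul _), integral_const_mul,
    integral_const_mul] at h0
  have h1 : (2 * (b : ℂ)) * ∫ x : ℝ, (x : ℂ) * Eq b c d x = c * ∫ x : ℝ, Eq b c d x :=
    (sub_eq_zero.mp h0).symm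
  field_simp
  linear_combination h1

include hb in
lemma int_x2_Eq : ∫ x : ℝ, (x : ℂ) ^ 2 * Eq b c d x =
    (1 / (2 * b) + (c / (2 * b)) ^ 2) * ∫ x : ℝ, Eq b c d x := by
  have hbc : (b : ℂ) ≠ 0 := by exact_mod_cast hb.ne'
  have i0 := integrable_Eq hb c d
  have i1 : Integrable fun x : ℝ => (x : ℂ) * Eq b c d x := by
    simpa using integrable_pow_Eq hb c d (k := 1) (by norm_num)
  have i2 := integrable_pow_Eq hb c d (k := 2) le_rfl
  have e0 : (fun x : ℝ => Eq b c d x + (x : ℂ) * ((c - 2 * b * x) * Eq b c d x)) =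
      fun x : ℝ => Eq b c d x + (c * ((x : ℂ) * Eq b c d x) - 2 * b * ((x : ℂ) ^ 2 * Eq b c d x)) := by
    funext x
    ring
  have hd : ∀ x : ℝ, HasDerivAt (fun x : ℝ => (x : ℂ) * Eq b c d x)
      (Eq b c d x + (x : ℂ) * ((c - 2 * b * x) * Eq b c d x)) x := by
    intro x
    have hx : HasDerivAt (fun x : ℝ => (x : ℂ)) 1 x := Complex.ofRealCLM.hasDerivAt
    exact (hx.mul (hasDerivAt_Eq c d x)).congr_deriv (by ring)
  have h0 := integral_eq_zero_of_hasDerivAt_of_integrable hd (by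
      rw [e0]
      exact i0.add ((i1.const_mul _).sub (i2.const_mul _))) i1
  have i3 : Integrable fun x : ℝ => c * ((x : ℂ) * Eq b c d x) -
      2 * b * ((x : ℂ) ^ 2 * Eq b c d x) := (i1.const_mul _).sub (i2.const_mul _)
  rw [e0, integral_add i0 i3,
    integral_sub (i1.const_mul _) (i2.const_mul _), integral_const_mul,
    integral_const_mul, int_x_Eq hb] at h0
  set J := ∫ x : ℝ, Eq b c d x with hJ
  set X := ∫ x : ℝ, (x : ℂ) ^ 2 * Eq b c d x with hX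
  have h1 : 2 * (b : ℂ) * X = J + c * (c / (2 * b) * J) := by linear_combination -h0
  calc X = 1 / (2 * (b : ℂ)) * (2 * (b : ℂ) * X) := by field_simp
    _ = 1 / (2 * (b : ℂ)) * (J + c * (c / (2 * b) * J)) := by rw [h1]
    _ = _ := by ring

end quad

/-- the quadratic form in the exponent -/
noncomputable def TT (ρ σ h ξ : ℝ) : ℝ := ρ * h ^ 2 + (σ * h + ξ) ^ 2 / ρ

lemma norm_int_Eq {ρ : ℝ} (hρ : 0 < ρ) (σ h ξ : ℝ) :
    ‖∫ x : ℝ, Eq (2 * Real.pi * ρ) (-2 * Real.pi * ((ρ : ℂ) + σ * I) * h - 2 * Real.pi * I * ξ)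
      (-Real.pi * ((ρ : ℂ) + σ * I) * h ^ 2) x‖ =
      (Real.sqrt (2 * ρ))⁻¹ * Real.exp (-(Real.pi / 2) * TT ρ σ h ξ) := by
  have hb : 0 < 2 * Real.pi * ρ := by positivity
  rw [int_Eq hb, norm_mul, Complex.norm_real, Complex.norm_exp, Real.norm_eq_abs,
    abs_of_nonneg (Real.sqrt_nonneg _)]
  congr 1
  · rw [← Real.sqrt_inv]
    congr 1
    field_simp
  · congr 1
    have e1 : (-Real.pi * ((ρ : ℂ) + σ * I) * h ^ 2 +
        (-2 * Real.pi * ((ρ : ℂ) + σ * I) * h - 2 * Real.pi * I * ξ) ^ 2 /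
          (4 * ((2 * Real.pi * ρ : ℝ) : ℂ))) =
        ((-(Real.pi / 2) * TT ρ σ h ξ : ℝ) : ℂ) + ((Real.pi * h * ξ : ℝ) : ℂ) * I := by
      unfold TT
      have hρc : (ρ : ℂ) ≠ 0 := by exact_mod_cast hρ.ne'
      have hpc : (Real.pi : ℂ) ≠ 0 := by exact_mod_cast Real.pi_ne_zero
      push_cast
      field_simp
      ring_nf
      rw [Complex.I_sq]
      ring
    rw [e1]
    simp

/-- the product of two translates of the gaussian -/
noncomputable def wc (e : ℕ) (α : ℂ) (h x : ℝ) : ℂ :=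
  gc e (α * ((x + h : ℝ) : ℂ)) * (starRingEnd ℂ) (gc e (α * (x : ℂ)))

lemma wc_zero {α : ℂ} (h ξ x : ℝ) :
    cexp (-(2 * Real.pi * I * (ξ * x))) * wc 0 α h x =
      Eq (2 * Real.pi * (α ^ 2).re)
        (-2 * Real.pi * (((α ^ 2).re : ℂ) + (α ^ 2).im * I) * h - 2 * Real.pi * I * ξ)
        (-Real.pi * (((α ^ 2).re : ℂ) + (α ^ 2).im * I) * h ^ 2) x := by
  unfold wc gc Eq
  rw [pow_zero, pow_zero, one_mul, one_mul, ← Complex.exp_conj, ← Complex.exp_add,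
    ← Complex.exp_add, Complex.re_add_im]
  congr 1
  have h1 : (starRingEnd ℂ) (-(Real.pi : ℂ) * (α * (x : ℂ)) ^ 2) =
      -(Real.pi : ℂ) * ((starRingEnd ℂ) (α ^ 2) * (x : ℂ) ^ 2) := by
    simp only [map_mul, map_neg, map_pow, Complex.conj_ofReal]
    ring
  have h2 : (starRingEnd ℂ) (α ^ 2) = 2 * ((α ^ 2).re : ℂ) - α ^ 2 := by
    have := Complex.add_conj (α ^ 2)
    push_cast at this
    linear_combination this
  rw [h1, h2]
  push_cast
  ring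

lemma wc_one {α : ℂ} (h ξ x : ℝ) :
    cexp (-(2 * Real.pi * I * (ξ * x))) * wc 1 α h x =
      ((‖α‖ ^ 2 : ℝ) : ℂ) * ((x : ℂ) ^ 2 * Eq (2 * Real.pi * (α ^ 2).re)
        (-2 * Real.pi * (((α ^ 2).re : ℂ) + (α ^ 2).im * I) * h - 2 * Real.pi * I * ξ)
        (-Real.pi * (((α ^ 2).re : ℂ) + (α ^ 2).im * I) * h ^ 2) x + h * ((x : ℂ) *
      Eq (2 * Real.pi * (α ^ 2).re)
        (-2 * Real.pi * (((α ^ 2).re : ℂ) + (α ^ 2).im * I) * h - 2 * Real.pi * I * ξ)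
        (-Real.pi * (((α ^ 2).re : ℂ) + (α ^ 2).im * I) * h ^ 2) x)) := by
  rw [← wc_zero]
  unfold wc gc
  have h3 : α * (starRingEnd ℂ) α = ((‖α‖ ^ 2 : ℝ) : ℂ) := by
    rw [Complex.mul_conj, Complex.normSq_eq_norm_sq]
  rw [← h3]
  simp only [pow_zero, pow_one, one_mul, map_mul, Complex.conj_ofReal]
  push_cast
  ring

lemma TT_nonneg {ρ : ℝ} (hρ : 0 < ρ) (σ h ξ : ℝ) : 0 ≤ TT ρ σ h ξ := by
  unfold TT; positivity

lemma TT_ge {ρ κ A : ℝ} (hκ : 0 < κ) (hκ1 : κ ≤ 1) (hA : 0 < A) (hρ : κ * A ≤ ρ) (hρ2 : ρ ≤ A)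
    {σ : ℝ} (hσ : |σ| ≤ A) (h ξ : ℝ) :
    κ ^ 2 / 8 * (A * h ^ 2 + ξ ^ 2 / A) ≤ Real.pi / 4 * TT ρ σ h ξ := by
  have hρ0 : 0 < ρ := lt_of_lt_of_le (by positivity) hρ
  have h1 : ρ * h ^ 2 ≤ TT ρ σ h ξ := by
    unfold TT
    have : 0 ≤ (σ * h + ξ) ^ 2 / ρ := by positivity
    linarith
  have h2 : κ ^ 2 * ξ ^ 2 / ρ ≤ 2 * TT ρ σ h ξ := by
    have h3 : σ ^ 2 ≤ A ^ 2 := by
      rw [← sq_abs σ]
      exact pow_le_pow_left₀ (abs_nonneg _) hσ 2
    have h4 : κ ^ 2 * σ ^ 2 ≤ ρ ^ 2 := by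
      calc κ ^ 2 * σ ^ 2 ≤ κ ^ 2 * A ^ 2 := by gcongr
        _ = (κ * A) ^ 2 := by ring
        _ ≤ ρ ^ 2 := pow_le_pow_left₀ (by positivity) hρ 2
    have h5 : κ ^ 2 * ξ ^ 2 ≤ 2 * (σ * h + ξ) ^ 2 + 2 * (ρ ^ 2 * h ^ 2) := by
      have h6 : κ ^ 2 * (σ * h + ξ) ^ 2 ≤ (σ * h + ξ) ^ 2 := by
        have : κ ^ 2 ≤ 1 := pow_le_one₀ hκ.le hκ1
        nlinarith [sq_nonneg (σ * h + ξ)]
      have h7 : κ ^ 2 * σ ^ 2 * h ^ 2 ≤ ρ ^ 2 * h ^ 2 := by gcongr
      nlinarith [mul_nonneg (sq_nonneg κ) (sq_nonneg (2 * σ * h + ξ))]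
    rw [div_le_iff₀ hρ0]
    have h8 : 2 * TT ρ σ h ξ * ρ = 2 * (ρ ^ 2 * h ^ 2) + 2 * (σ * h + ξ) ^ 2 := by
      unfold TT
      field_simp
    rw [h8]
    linarith
  have h9 : κ ^ 2 * (A * h ^ 2) ≤ TT ρ σ h ξ := by
    refine le_trans ?_ h1
    have : κ ^ 2 * A ≤ ρ := by
      calc κ ^ 2 * A = κ * (κ * A) := by ring
        _ ≤ 1 * (κ * A) := by gcongr
        _ ≤ ρ := by linarith
    nlinarith [sq_nonneg h]
  have h10 : κ ^ 2 * (ξ ^ 2 / A) ≤ 2 * TT ρ σ h ξ := by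
    refine le_trans ?_ h2
    rw [mul_div_assoc]
    gcongr
  have h11 := TT_nonneg hρ0 σ h ξ
  have hpi := Real.pi_gt_three
  nlinarith

/-- the Fourier transform of the product of two translates, one variable -/
lemma norm_ft_wc {e : ℕ} (he : e ≤ 1) {α : ℂ} {κ : ℝ} (hα : α ≠ 0) (hκ : 0 < κ) (hκ1 : κ ≤ 1)
    (hr : κ * ‖α‖ ^ 2 ≤ (α ^ 2).re) (h ξ : ℝ) :
    ‖∫ x : ℝ, cexp (-(2 * Real.pi * I * (ξ * x))) * wc e α h x‖ ≤
      κ⁻¹ ^ 2 * ‖α‖⁻¹ * Real.exp (-(κ ^ 2 / 8) * (‖α‖ ^ 2 * h ^ 2 + ξ ^ 2 / ‖α‖ ^ 2)) := by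
  have hα0 : 0 < ‖α‖ := norm_pos_iff.mpr hα
  have hA : 0 < ‖α‖ ^ 2 := by positivity
  set ρ := (α ^ 2).re with hρdef
  set σ := (α ^ 2).im with hσdef
  have hρ0 : 0 < ρ := lt_of_lt_of_le (by positivity) hr
  have hρ2 : ρ ≤ ‖α‖ ^ 2 := by
    rw [← norm_pow]
    exact Complex.re_le_norm _
  have hσ : |σ| ≤ ‖α‖ ^ 2 := by
    rw [← norm_pow]
    exact Complex.abs_im_le_norm _
  have hb : 0 < 2 * Real.pi * ρ := by positivity
  have hT := TT_ge hκ hκ1 hA hr hρ2 hσ h ξ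
  have hT0 := TT_nonneg hρ0 σ h ξ
  set c : ℂ := -2 * Real.pi * ((ρ : ℂ) + σ * I) * h - 2 * Real.pi * I * ξ with hc
  set d : ℂ := -Real.pi * ((ρ : ℂ) + σ * I) * h ^ 2 with hd
  have hI0 := norm_int_Eq hρ0 σ h ξ
  rw [← hc, ← hd] at hI0
  have hkey : ‖∫ x : ℝ, cexp (-(2 * Real.pi * I * (ξ * x))) * wc e α h x‖ ≤
      (‖α‖ ^ 2 / ρ) * (Real.sqrt (2 * ρ))⁻¹ * Real.exp (-(Real.pi / 4) * TT ρ σ h ξ) := by
    have hone : 1 ≤ ‖α‖ ^ 2 / ρ := by
      rw [le_div_iff₀ hρ0]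
      linarith
    interval_cases e
    · simp_rw [wc_zero]
      rw [hI0]
      calc (Real.sqrt (2 * ρ))⁻¹ * Real.exp (-(Real.pi / 2) * TT ρ σ h ξ)
          ≤ (Real.sqrt (2 * ρ))⁻¹ * Real.exp (-(Real.pi / 4) * TT ρ σ h ξ) := by
            refine mul_le_mul_of_nonneg_left (Real.exp_le_exp.mpr ?_) (by positivity)
            nlinarith [Real.pi_pos]
        _ = 1 * ((Real.sqrt (2 * ρ))⁻¹ * Real.exp (-(Real.pi / 4) * TT ρ σ h ξ)) := by
            rw [one_mul]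
        _ ≤ (‖α‖ ^ 2 / ρ) * ((Real.sqrt (2 * ρ))⁻¹ * Real.exp (-(Real.pi / 4) * TT ρ σ h ξ)) :=
            mul_le_mul_of_nonneg_right hone (by positivity)
        _ = _ := by ring
    · simp_rw [wc_one]
      rw [integral_const_mul]
      have i2 := integrable_pow_Eq hb c d (k := 2) le_rfl
      have i1 : Integrable fun x : ℝ => (x : ℂ) * Eq (2 * Real.pi * ρ) c d x := by
        simpa using integrable_pow_Eq hb c d (k := 1) (by norm_num)
      rw [integral_add i2 (i1.const_mul _), integral_const_mul, int_x2_Eq hb, int_x_Eq hb]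
      set J := ∫ x : ℝ, Eq (2 * Real.pi * ρ) c d x with hJ
      have e1 : (1 / (2 * ((2 * Real.pi * ρ : ℝ) : ℂ)) + (c / (2 * ((2 * Real.pi * ρ : ℝ) : ℂ))) ^ 2) * J +
          h * (c / (2 * ((2 * Real.pi * ρ : ℝ) : ℂ)) * J) =
          ((1 / (4 * Real.pi * ρ) - h ^ 2 / 4 - (σ * h + ξ) ^ 2 / (4 * ρ ^ 2) : ℝ) : ℂ) * J := by
        have hρc : (ρ : ℂ) ≠ 0 := by exact_mod_cast hρ0.ne'
        have hpc : (Real.pi : ℂ) ≠ 0 := by exact_mod_cast Real.pi_ne_zero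
        rw [hc]
        push_cast
        field_simp
        ring_nf
        rw [Complex.I_sq]
        ring
      rw [e1, norm_mul, norm_mul, Complex.norm_real, Complex.norm_real, hI0]
      have h1 : ‖(1 / (4 * Real.pi * ρ) - h ^ 2 / 4 - (σ * h + ξ) ^ 2 / (4 * ρ ^ 2) : ℝ)‖ ≤
          1 / ρ * Real.exp (Real.pi / 4 * TT ρ σ h ξ) := by
        have h2 : 1 + Real.pi / 4 * TT ρ σ h ξ ≤ Real.exp (Real.pi / 4 * TT ρ σ h ξ) := by
          have := Real.add_one_le_exp (Real.pi / 4 * TT ρ σ h ξ)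
          linarith
        have h3 : ‖(1 / (4 * Real.pi * ρ) - h ^ 2 / 4 - (σ * h + ξ) ^ 2 / (4 * ρ ^ 2) : ℝ)‖ ≤
            1 / ρ * (1 + Real.pi / 4 * TT ρ σ h ξ) := by
          have e2 : 1 / ρ * (1 + Real.pi / 4 * TT ρ σ h ξ) =
              1 / ρ + Real.pi / 4 * h ^ 2 + Real.pi / 4 * ((σ * h + ξ) ^ 2 / ρ ^ 2) := by
            unfold TT
            field_simp
            ring
          rw [e2, Real.norm_eq_abs, abs_le]
          have e3 : (σ * h + ξ) ^ 2 / (4 * ρ ^ 2) = (1 / 4) * ((σ * h + ξ) ^ 2 / ρ ^ 2) := by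
            field_simp
          have e4 : 1 / (4 * Real.pi * ρ) = (1 / (4 * Real.pi)) * (1 / ρ) := by
            field_simp
          rw [e3, e4]
          have hpi := Real.pi_gt_three
          have h5 : 0 ≤ (σ * h + ξ) ^ 2 / ρ ^ 2 := by positivity
          have h6 : 0 ≤ h ^ 2 := sq_nonneg h
          have h7 : 0 < 1 / ρ := by positivity
          have h8 : 1 / (4 * Real.pi) ≤ 1 := by
            rw [div_le_one (by positivity)]
            linarith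
          have h9 : 0 ≤ 1 / (4 * Real.pi) := by positivity
          have h10 : 1 / (4 * Real.pi) * (1 / ρ) ≤ 1 * (1 / ρ) := by gcongr
          have h11 : 0 ≤ 1 / (4 * Real.pi) * (1 / ρ) := by positivity
          constructor
          · nlinarith
          · nlinarith
        exact h3.trans (mul_le_mul_of_nonneg_left h2 (by positivity))
      have h4 : ‖(‖α‖ ^ 2 : ℝ)‖ = ‖α‖ ^ 2 := by
        rw [Real.norm_eq_abs, abs_of_pos hA]
      rw [h4]
      calc ‖α‖ ^ 2 * (‖(1 / (4 * Real.pi * ρ) - h ^ 2 / 4 - (σ * h + ξ) ^ 2 / (4 * ρ ^ 2) : ℝ)‖ *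
            ((Real.sqrt (2 * ρ))⁻¹ * Real.exp (-(Real.pi / 2) * TT ρ σ h ξ)))
          ≤ ‖α‖ ^ 2 * ((1 / ρ * Real.exp (Real.pi / 4 * TT ρ σ h ξ)) *
            ((Real.sqrt (2 * ρ))⁻¹ * Real.exp (-(Real.pi / 2) * TT ρ σ h ξ))) := by
            gcongr
        _ = (‖α‖ ^ 2 / ρ) * (Real.sqrt (2 * ρ))⁻¹ * (Real.exp (Real.pi / 4 * TT ρ σ h ξ) *
            Real.exp (-(Real.pi / 2) * TT ρ σ h ξ)) := by ring
        _ = _ := by
            rw [← Real.exp_add]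
            congr 2
            ring
  refine hkey.trans ?_
  have h1 : ‖α‖ ^ 2 / ρ ≤ κ⁻¹ := by
    rw [div_le_iff₀ hρ0, inv_mul_eq_div, le_div_iff₀ hκ]
    linarith
  have h2 : (Real.sqrt (2 * ρ))⁻¹ ≤ κ⁻¹ * ‖α‖⁻¹ := by
    rw [← mul_inv]
    refine inv_anti₀ (by positivity) ?_
    apply Real.le_sqrt_of_sq_le
    calc (κ * ‖α‖) ^ 2 = κ * (κ * ‖α‖ ^ 2) := by ring
      _ ≤ 1 * ρ := mul_le_mul hκ1 hr (by positivity) (by norm_num)
      _ ≤ 2 * ρ := by linarith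
  have h3 : Real.exp (-(Real.pi / 4) * TT ρ σ h ξ) ≤
      Real.exp (-(κ ^ 2 / 8) * (‖α‖ ^ 2 * h ^ 2 + ξ ^ 2 / ‖α‖ ^ 2)) := by
    apply Real.exp_le_exp.mpr
    linarith
  calc (‖α‖ ^ 2 / ρ) * (Real.sqrt (2 * ρ))⁻¹ * Real.exp (-(Real.pi / 4) * TT ρ σ h ξ)
      ≤ κ⁻¹ * (κ⁻¹ * ‖α‖⁻¹) *
        Real.exp (-(κ ^ 2 / 8) * (‖α‖ ^ 2 * h ^ 2 + ξ ^ 2 / ‖α‖ ^ 2)) := by gcongr
    _ = _ := by ring

end Pool.Agent.A856.HW
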