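import Pool.Agent.A856.HW.ThC

/-!
# The absolute value of the Gauss sum

Owner helper856 (Hecke L-functions with powerful conductor).
The proof follows `Pool.Agent.Y773.G.fe_prim`.
-/

set_option autoImplicit false
set_option linter.unusedSectionVars false
set_option linter.unusedVariables false
set_option maxHeartbeats 4000000

open NumberField Complex Filter Topology Set MeasureTheory

namespace Pool.Agent.A856.HW

open Pool.Agent.Y773 (entire_eq mellin_conj Reps rp rp_ne_bot reps_rp mm mm_pos mm_mem Dd Dd_pos Dd_mem FT absNorm_span_nat)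
open Pool.Agent.Y773.G

variable {K : Type} [Field K] [NumberField K]

/-- **Gauss sums**: the formula and the absolute value -/
theorem gauss_norm (K : Type) [Field K] [NumberField K] : ∃ V : ℝ, 0 < V ∧
    ∀ (𝔣 : Ideal (𝓞 K)) (ψ : Ideal (𝓞 K) →*₀ ℂ) (e : InfinitePlace K → ℕ),
      IsPrimChar K 𝔣 ψ → IsModChar 𝔣 e ψ → ∃ τ : ℂ,
      ‖τ‖ * √((Ideal.absNorm 𝔣 * Ideal.absNorm (differentIdeal ℤ (𝓞 K)) : ℕ) : ℝ) =
        V * (Ideal.absNorm 𝔣 : ℝ) ∧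
      ∀ (𝔟 𝔟' : Ideal (𝓞 K)) (m D : ℕ), 0 < m → 0 < D →
        𝔟' * (𝔟 * 𝔣 * differentIdeal ℤ (𝓞 K)) = Ideal.span {((m * D : ℕ) : 𝓞 K)} →
        (m : 𝓞 K) ∈ 𝔟 * 𝔣 → (D : 𝓞 K) ∈ differentIdeal ℤ (𝓞 K) → ∀ x : 𝓞 K,
        FT D m (Ps ψ e 𝔟) x = τ * ((m : ℂ) ^ (Module.finrank ℚ K) /
          ((Ideal.absNorm 𝔟 : ℂ) * (Ideal.absNorm 𝔣 : ℂ))) * (starRingEnd ℂ) (Ps ψ e 𝔟' x) := by
  classical
  obtain ⟨V, hV, hfe⟩ := fam_fe K
  obtain ⟨C, hC, hmel⟩ := mellin_Ftot K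
  refine ⟨V, hV, fun 𝔣 ψ e hp h => ?_⟩
  have h𝔡 : differentIdeal ℤ (𝓞 K) ≠ ⊥ := differentIdeal_ne_bot
  -- the character is not trivial
  have hn : ∃ 𝔞, IsCoprime 𝔞 𝔣 ∧ ψ 𝔞 ≠ 1 := by
    have hne : (⊤ : Ideal (𝓞 K)) ≠ 𝔣 := fun h1 => h.ne_top h1.symm
    obtain ⟨x, -, -, hx, hx2⟩ := hp.prim ⊤ (by rw [← Ideal.one_eq_top]; exact one_dvd _) hne
    exact ⟨_, hx, hx2⟩
  obtain ⟨τ, hτ⟩ := gauss_main 𝔣 ψ e hp h
  refine ⟨τ, ?_, hτ⟩
  set m := mm (rp K) 𝔣 with hm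
  set D := Dd K with hD
  have hm0 : 0 < m := mm_pos rp_ne_bot h.ne_bot
  have hD0 : 0 < D := Dd_pos
  have hN : ∀ c, Nice e (Ps ψ e (rp K c)) := fun c => h.nice (rp_ne_bot c)
  obtain ⟨h1, h2, h3⟩ := hfe (rp K) reps_rp e ψ hN m D hm0
    hD0 Dd_mem (fun c => h.per_m (rp_ne_bot c) (mm_mem _ _ c)) (h.const_zero hn)
  choose 𝔟' h𝔟' using fun c => exists_compl (𝔣 := 𝔣) (𝔟 := rp K c) (m := m) (D := D)
    (mm_mem _ _ c) Dd_mem
  have hR' : Reps 𝔟' := reps_compl h.ne_bot reps_rp (Nat.mul_pos hm0 hD0) h𝔟'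
  have hN' : ∀ c, Nice e (Ps ψ e (𝔟' c)) := fun c => h.nice (hR'.ne_bot c)
  set R : ℝ := ((Ideal.absNorm 𝔣 * Ideal.absNorm (differentIdeal ℤ (𝓞 K)) : ℕ) : ℝ) with hRdef
  have hR1 : 1 ≤ R := by
    rw [hRdef]
    have h4 : Ideal.absNorm 𝔣 * Ideal.absNorm (differentIdeal ℤ (𝓞 K)) ≠ 0 :=
      mul_ne_zero (fun h1 => h.ne_bot (Ideal.absNorm_eq_zero_iff.mp h1))
        (fun h1 => h𝔡 (Ideal.absNorm_eq_zero_iff.mp h1))
    exact_mod_cast Nat.one_le_iff_ne_zero.mpr h4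
  have hR0 : 0 < R := by linarith
  have hRc : (R : ℂ) ≠ 0 := by exact_mod_cast hR0.ne'
  set M := mellin (Ftot ψ e (rp K)) with hM
  -- the mellin transform for the complementary representatives
  have hdM' : Differentiable ℂ (mellin (Ftot ψ e 𝔟')) := by
    have hz : G00 e *
        (∑ c, (Ideal.absNorm (𝔟' c) : ℂ) * FT D (mm 𝔟' 𝔣) (Ps ψ e (𝔟' c)) 0) = 0 := by
      by_cases he : ∀ w, e w = 0
      · have : ∀ c, FT D (mm 𝔟' 𝔣) (Ps ψ e (𝔟' c)) 0 = 0 := by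
          intro c
          obtain ⟨𝔟'', h𝔟''⟩ := exists_compl (𝔣 := 𝔣) (𝔟 := 𝔟' c) (m := mm 𝔟' 𝔣) (D := D)
            (mm_mem _ _ c) Dd_mem
          rw [hτ (𝔟' c) 𝔟'' (mm 𝔟' 𝔣) D (mm_pos hR'.ne_bot h.ne_bot) hD0 h𝔟'' (mm_mem _ _ c) Dd_mem]
          have h5 : 𝔟'' ≠ ⊥ := by
            rintro rfl
            rw [Ideal.bot_mul] at h𝔟''
            exact span_m_ne_bot (Nat.mul_pos (mm_pos hR'.ne_bot h.ne_bot) hD0) h𝔟''.symm
          rw [(h.nice h5).zero, map_zero, mul_zero]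
        simp_rw [this]
        simp
      · push Not at he
        obtain ⟨w, hw⟩ := he
        rw [G00_of_ne hw, zero_mul]
    exact (hfe 𝔟' hR' e ψ hN' (mm 𝔟' 𝔣) D (mm_pos hR'.ne_bot h.ne_bot) hD0 Dd_mem
      (fun c => h.per_m (hR'.ne_bot c) (mm_mem _ _ c)) hz).2.1
  have hMM : mellin (Ftot ψ e 𝔟') = M := by
    refine entire_eq hdM' h2 fun s hs => ?_
    rw [hM, (hmel 𝔟' hR' e ψ h.norm_le_one hN' s hs).2,
      (hmel (rp K) reps_rp e ψ h.norm_le_one hN s hs).2]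
  -- the functional equation
  set κ : ℂ := ((V⁻¹ : ℝ) : ℂ) * ((m : ℂ) ^ (Module.finrank ℚ K))⁻¹ * (-I) ^ (∑ φ : K →+* ℂ, eM e φ) with hκ
  set A : ℂ := τ * ((m : ℂ) ^ (Module.finrank ℚ K) / (Ideal.absNorm 𝔣 : ℂ)) with hA
  have hG : ∀ s, mellin (Gtot ψ e (rp K) m D) s =
      A * ((R : ℂ) ^ s * (starRingEnd ℂ) (M ((starRingEnd ℂ) s))) := by
    intro s
    have h5 : Gtot ψ e (rp K) m D = fun t => A • (starRingEnd ℂ) (Ftot ψ e 𝔟' (R⁻¹ * t)) := by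
      funext t
      rw [smul_eq_mul]
      exact Gtot_eq h reps_rp hR' h𝔟' (fun c x => hτ (rp K c) (𝔟' c) m D hm0 hD0 (h𝔟' c)
        (mm_mem _ _ c) Dd_mem x) t
    rw [h5, mellin_const_smul, smul_eq_mul, mellin_conj (fun t => Ftot ψ e 𝔟' (R⁻¹ * t)),
      mellin_comp_mul_left _ _ (inv_pos.mpr hR0), hMM, smul_eq_mul, map_mul]
    congr 2
    have h6 : (((R⁻¹ : ℝ) : ℂ)) ^ (-(starRingEnd ℂ) s) = (R : ℂ) ^ ((starRingEnd ℂ) s) := by
      rw [Complex.cpow_def_of_ne_zero (by exact_mod_cast (inv_pos.mpr hR0).ne'),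
        ← Complex.ofReal_log (inv_pos.mpr hR0).le, Real.log_inv,
        Complex.cpow_def_of_ne_zero hRc, ← Complex.ofReal_log hR0.le]
      congr 1
      push_cast
      ring
    rw [h6]
    have h7 : ((R : ℝ) : ℂ).arg ≠ Real.pi := by
      rw [Complex.arg_ofReal_of_nonneg hR0.le]
      exact Real.pi_ne_zero.symm
    have h8 := Complex.conj_cpow (R : ℂ) s h7
    rw [Complex.conj_ofReal] at h8
    exact h8.symm
  set L : ℂ → ℂ := fun s => (R : ℂ) ^ (s / 2) * M s with hL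
  set w : ℂ := κ * A * (R : ℂ) ^ (1 / 2 : ℂ) with hw
  have hconjR : ∀ z : ℂ, (starRingEnd ℂ) ((R : ℂ) ^ z) = (R : ℂ) ^ ((starRingEnd ℂ) z) := by
    intro z
    have h7 : ((R : ℝ) : ℂ).arg ≠ Real.pi := by
      rw [Complex.arg_ofReal_of_nonneg hR0.le]
      exact Real.pi_ne_zero.symm
    have h8 := Complex.conj_cpow (R : ℂ) ((starRingEnd ℂ) z) h7
    rw [Complex.conj_ofReal, Complex.conj_conj] at h8
    exact h8.symm
  have hLfe : ∀ s, L s = w * (starRingEnd ℂ) (L (1 - (starRingEnd ℂ) s)) := by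
    intro s
    have h5 := h3 (1 - s)
    rw [sub_sub_cancel, hG, map_sub, map_one] at h5
    rw [hL]
    simp only
    rw [h5, map_mul, hconjR, hw]
    have h6 : (starRingEnd ℂ) ((1 - (starRingEnd ℂ) s) / 2) = (1 - s) / 2 := by
      have h20 : (starRingEnd ℂ) (2 : ℂ) = 2 := map_ofNat (starRingEnd ℂ) 2
      rw [map_div₀, map_sub, map_one, Complex.conj_conj, h20]
    rw [h6]
    have h7 : (R : ℂ) ^ (s / 2) * (R : ℂ) ^ (1 - s) = (R : ℂ) ^ (1 / 2 : ℂ) * (R : ℂ) ^ ((1 - s) / 2) := by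
      rw [← Complex.cpow_add _ _ hRc, ← Complex.cpow_add _ _ hRc]
      congr 1
      ring
    linear_combination (κ * A * (starRingEnd ℂ) (M (1 - (starRingEnd ℂ) s))) * h7
  have hL2 : L 2 ≠ 0 := by
    rw [hL]
    simp only
    have h5 : (1 : ℝ) < (2 : ℂ).re := by norm_num
    rw [hM, (hmel (rp K) reps_rp e ψ h.norm_le_one hN 2 h5).2]
    obtain ⟨A', -, hd⟩ := Pool.Agent.Y772.DK.t_dirK K
    have h6 := (hd ψ h.norm_le_one).2.2.1 2 h5
    refine mul_ne_zero ?_ (mul_ne_zero (by exact_mod_cast hC.ne') (mul_ne_zero (gam_ne_zero (ex e) (by norm_num)) h6))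
    rw [Ne, Complex.cpow_eq_zero_iff]
    exact fun h => hRc h.1
  have hw1 : ‖w‖ = 1 := by
    have h5 := hLfe 2
    have h6 := hLfe (1 - (starRingEnd ℂ) 2)
    rw [h6, map_mul] at h5
    have h7 : 1 - (starRingEnd ℂ) (1 - (starRingEnd ℂ) (2 : ℂ)) = 2 := by
      rw [map_sub, map_one, Complex.conj_conj]
      ring
    rw [h7, Complex.conj_conj] at h5
    have h8 : w * (starRingEnd ℂ) w = 1 := by
      have : (w * (starRingEnd ℂ) w) * L 2 = 1 * L 2 := by linear_combination -h5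
      exact mul_right_cancel₀ hL2 this
    rw [Complex.mul_conj, Complex.normSq_eq_norm_sq] at h8
    have h9 : ‖w‖ ^ 2 = 1 := by exact_mod_cast h8
    have := norm_nonneg w
    nlinarith
  have hNf := absNorm_pos0 h.ne_bot
  have hmR : (0 : ℝ) < (m : ℝ) ^ (Module.finrank ℚ K) := by
    have : (0 : ℝ) < m := by exact_mod_cast hm0
    positivity
  have hI : ‖(-I : ℂ) ^ (∑ φ : K →+* ℂ, eM e φ)‖ = 1 := by
    rw [norm_pow, norm_neg, Complex.norm_I, one_pow]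
  have hRs : ‖(R : ℂ) ^ (1 / 2 : ℂ)‖ = √R := by
    rw [Complex.norm_cpow_eq_rpow_re_of_pos hR0, Real.sqrt_eq_rpow]
    congr 1
    norm_num
  have hκn : ‖κ‖ = V⁻¹ * ((m : ℝ) ^ (Module.finrank ℚ K))⁻¹ := by
    rw [hκ, norm_mul, norm_mul, hI, mul_one, Complex.norm_real,
      Real.norm_of_nonneg (inv_pos.mpr hV).le, norm_inv, norm_pow, Complex.norm_natCast]
  have hAn : ‖A‖ = ‖τ‖ * ((m : ℝ) ^ (Module.finrank ℚ K) / (Ideal.absNorm 𝔣 : ℝ)) := by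
    rw [hA, norm_mul, norm_div, norm_pow, Complex.norm_natCast, Complex.norm_natCast]
  rw [hw, norm_mul, norm_mul, hκn, hAn, hRs] at hw1
  have hVne := hV.ne'
  have hmne := hmR.ne'
  have hfne := hNf.ne'
  field_simp at hw1
  linarith

end Pool.Agent.A856.HW
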