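import Pool.Agent.A856.HW.MelF
import Pool.Agent.H336R4.PF.TaskP

/-!
# A lower bound for the gamma factors on the critical line

Owner helper856 (Hecke L-functions with powerful conductor).
-/

set_option autoImplicit false
set_option linter.unusedSectionVars false
set_option linter.unusedVariables false
set_option maxHeartbeats 4000000

open NumberField Complex Filter Topology Set MeasureTheory

namespace Pool.Agent.A856.HW

open Pool.Agent.Y773.G

/-- lower bound at `1/2` -/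
lemma gamma_half (u : ℝ) : Real.exp (-(Real.pi / 2 * |u|)) ≤
    ‖Complex.Gamma (((1 / 2 : ℝ) : ℂ) + u * Complex.I)‖ := by
  have hp2 := Pool.Agent.H336R4.PF.taskP2 u
  have h5 : Real.exp (-(Real.pi / 2 * |u|)) ^ 2 ≤
      ‖Complex.Gamma (((1 / 2 : ℝ) : ℂ) + u * Complex.I)‖ ^ 2 := by
    have e : ‖Complex.Gamma (((1 / 2 : ℝ) : ℂ) + u * Complex.I)‖ ^ 2 =
        Real.pi / Real.cosh (Real.pi * u) := by
      simpa using hp2
    rw [e, ← Real.exp_nat_mul, le_div_iff₀ (Real.cosh_pos _)]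
    have h6 : Real.cosh (Real.pi * u) ≤ Real.exp (Real.pi * |u|) := by
      rw [← Real.cosh_abs, abs_mul, abs_of_pos Real.pi_pos, Real.cosh_eq]
      have : Real.exp (-(Real.pi * |u|)) ≤ Real.exp (Real.pi * |u|) := by
        apply Real.exp_le_exp.2
        have : 0 ≤ Real.pi * |u| := by positivity
        linarith
      linarith
    calc _ ≤ Real.exp (((2 : ℕ) : ℝ) * -(Real.pi / 2 * |u|)) * Real.exp (Real.pi * |u|) := by
          gcongr
      _ = 1 := by rw [← Real.exp_add]; push_cast; ring_nf; exact Real.exp_zero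
      _ ≤ Real.pi := by linarith [Real.pi_gt_three]
  exact le_of_sq_le_sq h5 (norm_nonneg _)

/-- lower bound on the lines to the right of `1/2` -/
lemma gamma_low_re {x : ℝ} (hx : 1 / 2 ≤ x) : ∃ c : ℝ, 0 < c ∧ ∀ u : ℝ,
    c * Real.exp (-(Real.pi / 2 * |u|)) ≤ ‖Complex.Gamma ((x : ℂ) + u * Complex.I)‖ := by
  have hG1 : 0 < Real.Gamma x := Real.Gamma_pos_of_pos (by linarith)
  have hG2 : 0 < Real.Gamma (1 / 2) := Real.Gamma_pos_of_pos (by norm_num)
  refine ⟨Real.Gamma x / Real.Gamma (1 / 2), by positivity, fun u => ?_⟩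
  have hp1 := Pool.Agent.H336R4.PF.taskP1 (1 / 2) x u (by norm_num) hx
  have h4 := gamma_half u
  rw [div_mul_eq_mul_div, div_le_iff₀ hG2]
  calc Real.Gamma x * Real.exp (-(Real.pi / 2 * |u|))
      ≤ Real.Gamma x * ‖Complex.Gamma (((1 / 2 : ℝ) : ℂ) + u * Complex.I)‖ := by
        gcongr
    _ = ‖Complex.Gamma (((1 / 2 : ℝ) : ℂ) + u * Complex.I)‖ * Real.Gamma x := mul_comm _ _
    _ ≤ _ := hp1

/-- lower bound for `Γ(1/4 + iu)` and `Γ(3/4 + iu)` -/
lemma gamma_quarter (e : ℕ) (he : e ≤ 1) : ∃ c : ℝ, 0 < c ∧ ∀ u : ℝ,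
    c * Real.exp (-(Real.pi / 2 * |u|)) * (1 + |u|)⁻¹ ≤
      ‖Complex.Gamma (((1 / 4 + e / 2 : ℝ) : ℂ) + u * Complex.I)‖ := by
  obtain rfl | rfl : e = 0 ∨ e = 1 := by omega
  · obtain ⟨c, hc, h⟩ := gamma_low_re (x := 5 / 4) (by norm_num)
    refine ⟨c, hc, fun u => ?_⟩
    have h1 := h u
    have hne : ((1 / 4 + (0 : ℕ) / 2 : ℝ) : ℂ) + u * Complex.I ≠ 0 := by
      intro h2
      have h3 := congrArg Complex.re h2
      simp at h3
    have h2 := Complex.Gamma_add_one _ hne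
    have h3 : ((1 / 4 + (0 : ℕ) / 2 : ℝ) : ℂ) + u * Complex.I + 1 =
        ((5 / 4 : ℝ) : ℂ) + u * Complex.I := by
      push_cast
      ring
    rw [h3] at h2
    rw [h2, norm_mul] at h1
    have h4 : ‖((1 / 4 + (0 : ℕ) / 2 : ℝ) : ℂ) + u * Complex.I‖ ≤ 1 + |u| := by
      refine (norm_add_le _ _).trans ?_
      rw [norm_mul, Complex.norm_I, Complex.norm_real, Complex.norm_real, Real.norm_eq_abs,
        Real.norm_eq_abs, mul_one]
      have : |(1 / 4 + ((0 : ℕ) : ℝ) / 2 : ℝ)| ≤ 1 := by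
        rw [abs_le]; constructor <;> norm_num
      linarith
    have h5 : 0 < 1 + |u| := by positivity
    rw [← div_eq_mul_inv, div_le_iff₀ h5]
    refine h1.trans ?_
    rw [mul_comm]
    exact mul_le_mul_of_nonneg_left h4 (norm_nonneg _)
  · obtain ⟨c, hc, h⟩ := gamma_low_re (x := 3 / 4) (by norm_num)
    refine ⟨c, hc, fun u => ?_⟩
    have h1 := h u
    have h3 : ((1 / 4 + (1 : ℕ) / 2 : ℝ) : ℂ) = ((3 / 4 : ℝ) : ℂ) := by
      push_cast
      norm_num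
    rw [h3]
    refine le_trans ?_ h1
    have h5 : (1 + |u|)⁻¹ ≤ 1 := inv_le_one_of_one_le₀ (by linarith [abs_nonneg u])
    exact mul_le_of_le_one_right (by positivity) h5

/-- lower bound for `Γ_ℝ(1/2 + it + e)` -/
lemma gammaR_low (e : ℕ) (he : e ≤ 1) : ∃ c : ℝ, 0 < c ∧ ∀ t : ℝ,
    c * Real.exp (-(Real.pi / 4 * |t|)) * (1 + |t|)⁻¹ ≤
      ‖Complex.Gammaℝ (1 / 2 + t * Complex.I + e)‖ := by
  obtain ⟨c, hc, h⟩ := gamma_quarter e he
  refine ⟨Real.pi⁻¹ * c, by positivity, fun t => ?_⟩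
  have h1 := h (t / 2)
  rw [Complex.Gammaℝ_def, norm_mul]
  have h2 : (1 / 2 + (t : ℂ) * Complex.I + e) / 2 =
      ((1 / 4 + e / 2 : ℝ) : ℂ) + ((t / 2 : ℝ) : ℂ) * Complex.I := by
    push_cast
    ring
  rw [h2]
  have h3 : Real.pi⁻¹ ≤ ‖(Real.pi : ℂ) ^ (-(1 / 2 + (t : ℂ) * Complex.I + e) / 2)‖ := by
    rw [Complex.norm_cpow_eq_rpow_re_of_pos Real.pi_pos]
    have h4 : (-(1 / 2 + (t : ℂ) * Complex.I + e) / 2).re = -(1 / 4 + (e : ℝ) / 2) := by
      have : (-(1 / 2 + (t : ℂ) * Complex.I + e) / 2) =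
        ((-(1 / 4 + (e : ℝ) / 2) : ℝ) : ℂ) + ((-(t / 2) : ℝ) : ℂ) * Complex.I := by
        push_cast
        ring
      rw [this]
      simp
    rw [h4, ← Real.rpow_neg_one]
    refine Real.rpow_le_rpow_of_exponent_le (by linarith [Real.pi_gt_three]) ?_
    have : (e : ℝ) ≤ 1 := by exact_mod_cast he
    linarith
  have h5 : c * Real.exp (-(Real.pi / 4 * |t|)) * (1 + |t|)⁻¹ ≤
      c * Real.exp (-(Real.pi / 2 * |t / 2|)) * (1 + |t / 2|)⁻¹ := by
    have h6 : |t / 2| = |t| / 2 := by rw [abs_div]; norm_num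
    rw [h6]
    have h7 : -(Real.pi / 2 * (|t| / 2)) = -(Real.pi / 4 * |t|) := by ring
    rw [h7]
    have h8 : (1 + |t|)⁻¹ ≤ (1 + |t| / 2)⁻¹ := by
      apply inv_anti₀ (by positivity)
      linarith [abs_nonneg t]
    gcongr
  calc Real.pi⁻¹ * c * Real.exp (-(Real.pi / 4 * |t|)) * (1 + |t|)⁻¹
      = Real.pi⁻¹ * (c * Real.exp (-(Real.pi / 4 * |t|)) * (1 + |t|)⁻¹) := by ring
    _ ≤ _ := mul_le_mul h3 (h5.trans h1) (by positivity) (norm_nonneg _)

/-- **lower bound for the gamma factors on the critical line** -/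
theorem gam_low (K : Type) [Field K] [NumberField K] : ∃ c : ℝ, 0 < c ∧
    ∀ (e : InfinitePlace K → ℕ), (∀ w, e w ≤ 1) → ∀ t : ℝ,
      c * Real.exp (-((Module.finrank ℚ K : ℝ) * (Real.pi / 4 * |t|))) *
        (1 + |t|)⁻¹ ^ (Module.finrank ℚ K) ≤
      ‖∏ φ : K →+* ℂ, Complex.Gammaℝ (1 / 2 + t * Complex.I + ex e φ)‖ := by
  obtain ⟨c₀, hc₀, h0⟩ := gammaR_low 0 (by norm_num)
  obtain ⟨c₁, hc₁, h1⟩ := gammaR_low 1 (by norm_num)
  refine ⟨(min c₀ c₁) ^ (Module.finrank ℚ K), by positivity, fun e he t => ?_⟩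
  rw [norm_prod]
  have h2 : ∀ φ : K →+* ℂ, min c₀ c₁ * Real.exp (-(Real.pi / 4 * |t|)) * (1 + |t|)⁻¹ ≤
      ‖Complex.Gammaℝ (1 / 2 + t * Complex.I + ex e φ)‖ := by
    intro φ
    have h3 := ex_le he φ
    have h4 : (0 : ℝ) ≤ Real.exp (-(Real.pi / 4 * |t|)) * (1 + |t|)⁻¹ := by positivity
    obtain h5 | h5 : ex e φ = 0 ∨ ex e φ = 1 := by omega
    · rw [h5]
      refine le_trans ?_ (h0 t)
      rw [mul_assoc, mul_assoc]
      exact mul_le_mul_of_nonneg_right (min_le_left _ _) h4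
    · rw [h5]
      refine le_trans ?_ (h1 t)
      rw [mul_assoc, mul_assoc]
      exact mul_le_mul_of_nonneg_right (min_le_right _ _) h4
  calc (min c₀ c₁) ^ (Module.finrank ℚ K) *
        Real.exp (-((Module.finrank ℚ K : ℝ) * (Real.pi / 4 * |t|))) *
        (1 + |t|)⁻¹ ^ (Module.finrank ℚ K)
      = ∏ φ : K →+* ℂ, (min c₀ c₁ * Real.exp (-(Real.pi / 4 * |t|)) * (1 + |t|)⁻¹) := by
        rw [Finset.prod_const, Finset.card_univ, card_emb, mul_pow, mul_pow, ← Real.exp_nat_mul]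
        congr 3
        ring
    _ ≤ _ := Finset.prod_le_prod (fun φ _ => by positivity) fun φ _ => h2 φ

end Pool.Agent.A856.HW
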