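import Pool.Agent.A856.HW.Gam

/-!
# The mean square of a family of Hecke L-functions on the critical line

Owner helper856 (Hecke L-functions with powerful conductor).
-/

set_option autoImplicit false
set_option linter.unusedSectionVars false
set_option linter.unusedVariables false
set_option maxHeartbeats 4000000

open NumberField Complex Filter Topology Set MeasureTheory
open NumberField.Units NumberField.Units.dirichletUnitTheorem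

namespace Pool.Agent.A856.HW

open Pool.Agent.Y773 (Reps rp rp_ne_bot reps_rp FT absNorm_span_nat LI mm mm_pos mm_mem entire_eq Dd Dd_pos Dd_mem)
open Pool.Agent.Y773.G

variable {K : Type} [Field K] [NumberField K]

/-- the choice of the angle -/
lemma angle (t : ℝ) : ∃ φ : ℝ, |φ| < Real.pi / 2 ∧ (Real.cos φ)⁻¹ ≤ 2 * (1 + |t|) ∧
    |t| * (Real.pi / 2) - 1 ≤ t * φ := by
  have h1 : 0 < 1 + |t| := by positivity
  set x : ℝ := (1 + |t|)⁻¹ with hx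
  have hx0 : 0 < x := by positivity
  have hx1 : x ≤ 1 := inv_le_one_of_one_le₀ (by linarith [abs_nonneg t])
  have hpi := Real.pi_gt_three
  have hcos : Real.cos (Real.pi / 2 - x) = Real.sin x := Real.cos_pi_div_two_sub x
  have hsin : 2 / Real.pi * x ≤ Real.sin x := Real.mul_le_sin hx0.le (by linarith)
  have hinv : (Real.sin x)⁻¹ ≤ 2 * (1 + |t|) := by
    have h2 : 0 < 2 / Real.pi * x := by positivity
    refine (inv_anti₀ h2 hsin).trans ?_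
    rw [mul_inv, hx, inv_inv, inv_div]
    have : Real.pi / 2 ≤ 2 := by linarith [Real.pi_le_four]
    exact mul_le_mul_of_nonneg_right this h1.le
  have habs : |Real.pi / 2 - x| < Real.pi / 2 := by
    rw [abs_lt]
    constructor <;> linarith
  have htx : |t| * x ≤ 1 := by
    rw [hx, ← div_eq_mul_inv, div_le_one h1]
    linarith
  rcases le_total 0 t with ht | ht
  · refine ⟨Real.pi / 2 - x, habs, by rw [hcos]; exact hinv, ?_⟩
    rw [abs_of_nonneg ht] at htx ⊢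
    linarith
  · refine ⟨-(Real.pi / 2 - x), by rw [abs_neg]; exact habs, by rw [Real.cos_neg, hcos]; exact hinv, ?_⟩
    rw [abs_of_nonpos ht] at htx ⊢
    linarith

/-- the L-function in terms of the Mellin transform -/
theorem L_eq (K : Type) [Field K] [NumberField K] : ∃ C₀ : ℝ, 0 < C₀ ∧
    ∀ (𝔣 : Ideal (𝓞 K)) (e : InfinitePlace K → ℕ) (ψ : Ideal (𝓞 K) →*₀ ℂ), IsPrimChar K 𝔣 ψ →
      IsModChar 𝔣 e ψ → ∀ F : ℂ → ℂ, Differentiable ℂ F → (∀ s : ℂ, 1 < s.re → F s = LI ψ s) →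
      ∀ s : ℂ, F s = (C₀ : ℂ)⁻¹ * (mellin (Ftot ψ e (rp K)) s *
        ∏ φ : K →+* ℂ, (Complex.Gammaℝ (s + ex e φ))⁻¹) := by
  obtain ⟨V, hV, hfe⟩ := fam_fe K
  obtain ⟨C, hC, hmel⟩ := mellin_Ftot K
  refine ⟨C, hC, fun 𝔣 e ψ hp h F hF hFL => ?_⟩
  have hn : ∃ 𝔞, IsCoprime 𝔞 𝔣 ∧ ψ 𝔞 ≠ 1 := by
    have hne : (⊤ : Ideal (𝓞 K)) ≠ 𝔣 := fun h1 => h.ne_top h1.symm
    obtain ⟨x, -, -, hx, hx2⟩ := hp.prim ⊤ (by rw [← Ideal.one_eq_top]; exact one_dvd _) hne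
    exact ⟨_, hx, hx2⟩
  have hN : ∀ c, Nice e (Ps ψ e (rp K c)) := fun c => h.nice (rp_ne_bot c)
  obtain ⟨h1, h2, -⟩ := hfe (rp K) reps_rp e ψ hN (mm (rp K) 𝔣) (Dd K) (mm_pos rp_ne_bot h.ne_bot)
    Dd_pos Dd_mem (fun c => h.per_m (rp_ne_bot c) (mm_mem _ _ c)) (h.const_zero hn)
  have h4 : F = fun s => (C : ℂ)⁻¹ * (mellin (Ftot ψ e (rp K)) s *
        ∏ φ : K →+* ℂ, (Complex.Gammaℝ (s + ex e φ))⁻¹) := by
    refine entire_eq hF ((h2.mul (differentiable_gam (ex e))).const_mul _) fun s hs => ?_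
    rw [hFL s hs]
    rw [(hmel (rp K) reps_rp e ψ h.norm_le_one hN s hs).2, Finset.prod_inv_distrib]
    have h3 := gam_ne_zero (ex e) (s := s) (by linarith)
    have hC' : (C : ℂ) ≠ 0 := by exact_mod_cast hC.ne'
    field_simp
  intro s
  rw [h4]

/-- the logarithm of the conductor -/
lemma log_RR (K : Type) [Field K] [NumberField K] : ∃ C : ℝ, 0 < C ∧ ∀ 𝔣 : Ideal (𝓞 K), 𝔣 ≠ ⊥ →
    Real.log (RR 𝔣) + 8 ≤ C * Real.log (2 * (Ideal.absNorm 𝔣 : ℝ)) := by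
  have h𝔡 : differentIdeal ℤ (𝓞 K) ≠ ⊥ := differentIdeal_ne_bot
  have hD := absNorm_pos0 h𝔡
  have hl2 : 0 < Real.log 2 := Real.log_pos (by norm_num)
  have hlD : 0 ≤ Real.log (Ideal.absNorm (differentIdeal ℤ (𝓞 K)) : ℝ) := by
    apply Real.log_nonneg
    have : 0 < Ideal.absNorm (differentIdeal ℤ (𝓞 K)) := by exact_mod_cast hD
    exact_mod_cast this
  refine ⟨1 + (Real.log (Ideal.absNorm (differentIdeal ℤ (𝓞 K)) : ℝ) + 8) / Real.log 2,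
    by positivity, fun 𝔣 hf => ?_⟩
  have hN := absNorm_pos0 hf
  have hlN : 0 ≤ Real.log (Ideal.absNorm 𝔣 : ℝ) := by
    apply Real.log_nonneg
    have : 0 < Ideal.absNorm 𝔣 := by exact_mod_cast hN
    exact_mod_cast this
  unfold RR
  rw [Nat.cast_mul, Real.log_mul hN.ne' hD.ne', Real.log_mul (by norm_num) hN.ne', add_mul, one_mul]
  have h1 : Real.log (Ideal.absNorm (differentIdeal ℤ (𝓞 K)) : ℝ) + 8 ≤
      (Real.log (Ideal.absNorm (differentIdeal ℤ (𝓞 K)) : ℝ) + 8) / Real.log 2 *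
        (Real.log 2 + Real.log (Ideal.absNorm 𝔣 : ℝ)) := by
    rw [div_mul_eq_mul_div, le_div_iff₀ hl2]
    apply mul_le_mul_of_nonneg_left _ (by positivity)
    linarith
  linarith

/-- **the mean square of a family of L-functions on the critical line** -/
theorem L_fam (K : Type) [Field K] [NumberField K] : ∃ C : ℝ, 0 < C ∧
    ∀ (𝔣 𝔡 : Ideal (𝓞 K)) (e : InfinitePlace K → ℕ) (I : Type) [Fintype I]
      (ψ : I → Ideal (𝓞 K) →*₀ ℂ), Fam 𝔣 𝔡 e ψ → 𝔣 ≠ ⊥ → 𝔣 ≤ 𝔡 → 𝔡 ^ 3 ≤ 𝔣 →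
      ∀ F : I → ℂ → ℂ, (∀ i, Differentiable ℂ (F i)) →
        (∀ i, ∀ s : ℂ, 1 < s.re → F i s = LI (ψ i) s) → ∀ t : ℝ,
      ∑ i, ‖F i (1 / 2 + t * Complex.I)‖ ^ 2 ≤
        C * (1 + |t|) ^ (6 * Module.finrank ℚ K) * (tau 𝔣 : ℝ) ^ 2 *
          (Ideal.absNorm 𝔡 : ℝ) * Real.log (2 * (Ideal.absNorm 𝔣 : ℝ)) ^ 2 := by
  classical
  obtain ⟨C₁, hC₁, hmel⟩ := mel_fam K
  obtain ⟨C₀, hC₀, hL⟩ := L_eq K
  obtain ⟨c, hc, hgam⟩ := gam_low K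
  obtain ⟨C₂, hC₂, hlog⟩ := log_RR K
  set n : ℕ := Module.finrank ℚ K with hn
  refine ⟨C₀⁻¹ ^ 2 * c⁻¹ ^ 2 * C₁ * 2 ^ (4 * n) * Real.exp n * C₂ ^ 2, by positivity, ?_⟩
  intro 𝔣 𝔡 e I hI ψ hF hf0 h1 h3 F hFd hFL t
  rcases isEmpty_or_nonempty I with hemp | ⟨⟨i₀⟩⟩
  · rw [Finset.univ_eq_empty, Finset.sum_empty]
    positivity
  have he := (hF.mod i₀).sig_le
  obtain ⟨φ, hφ, hcos, htφ⟩ := angle t
  have hφ' := abs_lt.mp hφ
  have hcosφ : 0 < Real.cos φ := Real.cos_pos_of_mem_Ioo ⟨hφ'.1, hφ'.2⟩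
  have hN := absNorm_pos0 hf0
  have hlN : 0 ≤ Real.log (2 * (Ideal.absNorm 𝔣 : ℝ)) := by
    apply Real.log_nonneg
    have : 0 < Ideal.absNorm 𝔣 := by exact_mod_cast hN
    have : (1 : ℝ) ≤ Ideal.absNorm 𝔣 := by exact_mod_cast this
    linarith
  have hlR : 0 ≤ Real.log (RR 𝔣) := Real.log_nonneg (one_le_RR hf0)
  have ht1 : 0 < 1 + |t| := by positivity
  -- one L-function
  set s : ℂ := 1 / 2 + t * Complex.I with hs
  have hone : ∀ i, ‖F i s‖ ^ 2 ≤ C₀⁻¹ ^ 2 * c⁻¹ ^ 2 *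
      (Real.exp (n * (Real.pi / 2 * |t|)) * (1 + |t|) ^ (2 * n)) *
        ‖mellin (Ftot (ψ i) e (rp K)) s‖ ^ 2 := by
    intro i
    rw [hL 𝔣 e (ψ i) (hF.prim i) (hF.mod i) (F i) (hFd i) (hFL i) s, norm_mul, norm_mul,
      norm_inv, Complex.norm_real, Real.norm_eq_abs, abs_of_pos hC₀, Finset.prod_inv_distrib,
      norm_inv]
    have h5 := hgam e he t
    have h6 : ‖∏ φ : K →+* ℂ, Complex.Gammaℝ (s + ex e φ)‖⁻¹ ≤
        c⁻¹ * (Real.exp (n * (Real.pi / 4 * |t|)) * (1 + |t|) ^ n) := by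
      refine (inv_anti₀ (by positivity) h5).trans (le_of_eq ?_)
      rw [mul_inv, mul_inv, ← Real.exp_neg, neg_neg, inv_pow, inv_inv]
      ring
    calc (C₀⁻¹ * (‖mellin (Ftot (ψ i) e (rp K)) s‖ *
          ‖∏ φ : K →+* ℂ, Complex.Gammaℝ (s + ex e φ)‖⁻¹)) ^ 2
        ≤ (C₀⁻¹ * (‖mellin (Ftot (ψ i) e (rp K)) s‖ *
          (c⁻¹ * (Real.exp (n * (Real.pi / 4 * |t|)) * (1 + |t|) ^ n)))) ^ 2 := by
          gcongr
      _ = C₀⁻¹ ^ 2 * c⁻¹ ^ 2 * (Real.exp (n * (Real.pi / 4 * |t|)) ^ 2 * ((1 + |t|) ^ n) ^ 2) *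
          ‖mellin (Ftot (ψ i) e (rp K)) s‖ ^ 2 := by ring
      _ = _ := by
          rw [← Real.exp_nat_mul, ← pow_mul]
          congr 3
          · congr 1
            push_cast
            ring
          · congr 1
            ring
  have hsum := hmel 𝔣 𝔡 e I ψ hF hf0 h1 h3 t φ hφ
  calc ∑ i, ‖F i s‖ ^ 2
      ≤ ∑ i, C₀⁻¹ ^ 2 * c⁻¹ ^ 2 *
        (Real.exp (n * (Real.pi / 2 * |t|)) * (1 + |t|) ^ (2 * n)) *
        ‖mellin (Ftot (ψ i) e (rp K)) s‖ ^ 2 := Finset.sum_le_sum fun i _ => hone i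
    _ = C₀⁻¹ ^ 2 * c⁻¹ ^ 2 *
        (Real.exp (n * (Real.pi / 2 * |t|)) * (1 + |t|) ^ (2 * n)) *
        ∑ i, ‖mellin (Ftot (ψ i) e (rp K)) s‖ ^ 2 := by rw [Finset.mul_sum]
    _ ≤ C₀⁻¹ ^ 2 * c⁻¹ ^ 2 *
        (Real.exp (n * (Real.pi / 2 * |t|)) * (1 + |t|) ^ (2 * n)) *
        (C₁ * (Real.cos φ)⁻¹ ^ (4 * n) * (tau 𝔣 : ℝ) ^ 2 *
          (Ideal.absNorm 𝔡 : ℝ) * Real.exp (-((n : ℝ) * t * φ)) *
          (Real.log (RR 𝔣) + 8) ^ 2) := mul_le_mul_of_nonneg_left hsum (by positivity)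
    _ ≤ C₀⁻¹ ^ 2 * c⁻¹ ^ 2 *
        (Real.exp (n * (Real.pi / 2 * |t|)) * (1 + |t|) ^ (2 * n)) *
        (C₁ * (2 * (1 + |t|)) ^ (4 * n) * (tau 𝔣 : ℝ) ^ 2 *
          (Ideal.absNorm 𝔡 : ℝ) * (Real.exp (-(n * (Real.pi / 2 * |t|))) * Real.exp n) *
          (C₂ * Real.log (2 * (Ideal.absNorm 𝔣 : ℝ))) ^ 2) := by
        have h7 : Real.exp (-((n : ℝ) * t * φ)) ≤
            Real.exp (-(n * (Real.pi / 2 * |t|))) * Real.exp n := by
          rw [← Real.exp_add, Real.exp_le_exp]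
          have h8 : (n : ℝ) * (|t| * (Real.pi / 2) - 1) ≤ n * (t * φ) :=
            mul_le_mul_of_nonneg_left htφ (Nat.cast_nonneg n)
          nlinarith
        have h9 := hlog 𝔣 hf0
        have hcos0 : 0 ≤ (Real.cos φ)⁻¹ := inv_nonneg.mpr hcosφ.le
        gcongr
    _ = C₀⁻¹ ^ 2 * c⁻¹ ^ 2 * C₁ * 2 ^ (4 * n) * Real.exp n * C₂ ^ 2 *
        ((1 + |t|) ^ (2 * n) * (1 + |t|) ^ (4 * n)) * (tau 𝔣 : ℝ) ^ 2 *
          (Ideal.absNorm 𝔡 : ℝ) * Real.log (2 * (Ideal.absNorm 𝔣 : ℝ)) ^ 2 *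
          (Real.exp (n * (Real.pi / 2 * |t|)) * Real.exp (-(n * (Real.pi / 2 * |t|)))) := by
        rw [mul_pow 2, mul_pow C₂]
        ring
    _ = _ := by
        rw [← Real.exp_add, add_neg_cancel, Real.exp_zero, ← pow_add, mul_one]
        congr 5
        ring

end Pool.Agent.A856.HW
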