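import Pool.Agent.Y773.HG.Cty
import Pool.Agent.TeamU.GMink

/-!
# Gaussian sums over ideals

Owner helper856 (Hecke L-functions with powerful conductor).
-/

set_option autoImplicit false

open NumberField Complex Filter Topology MeasureTheory
open scoped NNReal

namespace Pool.Agent.A856.HW

open Pool.Agent.Y773 (Idx db lp FT)
open Pool.Agent.Y773.G

variable {K : Type} [Field K] [NumberField K]

/-- the quadratic form -/
noncomputable def QQ (x : K) : ℝ := ∑ φ : K →+* ℂ, (rr φ x) ^ 2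

lemma QQ_nonneg (x : K) : 0 ≤ QQ x := Finset.sum_nonneg fun _ _ => sq_nonneg _

lemma QQ_eq (x : K) : QQ x = ∑ w : InfinitePlace K, (w.mult : ℝ) * (w x) ^ 2 := sumsq_eq x

lemma one_le_QQ {x : 𝓞 K} (hx : x ≠ 0) : 1 ≤ QQ (x : K) := one_le_sumsq hx

lemma summable_QQ {B : ℝ} (hB : 0 < B) : Summable fun x : 𝓞 K => Real.exp (-B * QQ (x : K)) :=
  summable_gauss hB

variable (K) in
/-- the degree -/
noncomputable def dg : ℝ := (Module.finrank ℚ K : ℝ)

lemma dg_pos : 0 < dg K := by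
  unfold dg
  exact_mod_cast Module.finrank_pos (R := ℚ) (M := K)

lemma one_le_dg : 1 ≤ dg K := by
  unfold dg
  exact_mod_cast Module.finrank_pos (R := ℚ) (M := K)

/-- sum over all integers -/
theorem sum_gauss (K : Type) [Field K] [NumberField K] : ∃ C : ℝ, 0 < C ∧ ∀ B : ℝ, 0 < B →
    ∑' x : 𝓞 K, Real.exp (-B * QQ (x : K)) ≤ C * (1 + B ^ (-(dg K) / 2)) := by
  obtain ⟨V, hV0, hV⟩ := th_poisson K
  set D : ℕ := Ideal.absNorm (differentIdeal ℤ (𝓞 K)) with hD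
  have hD0 : 0 < D := Nat.pos_of_ne_zero fun h =>
    differentIdeal_ne_bot (Ideal.absNorm_eq_zero_iff.mp h)
  have hDm : (D : 𝓞 K) ∈ differentIdeal ℤ (𝓞 K) := Ideal.absNorm_mem _
  have hDr : (0 : ℝ) < D := by exact_mod_cast hD0
  have hC0 := C0_nonneg (K := K)
  set A : ℝ := ((Nat.card (𝓞 K ⧸ Ideal.span {((1 : ℕ) : 𝓞 K)}) : ℕ) : ℝ) with hA
  have hA0 : 0 ≤ A := Nat.cast_nonneg _
  have hpi := Real.pi_pos
  set B0 : ℝ := Real.pi * Real.pi / D ^ 2 with hB0
  have hB0p : 0 < B0 := by positivity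
  -- large B
  have hbig : ∀ B : ℝ, B0 ≤ B → ∑' x : 𝓞 K, Real.exp (-B * QQ (x : K)) ≤
      ∑' x : 𝓞 K, Real.exp (-B0 * QQ (x : K)) := by
    intro B hB
    refine (summable_QQ (lt_of_lt_of_le hB0p hB)).tsum_le_tsum (fun x => ?_) (summable_QQ hB0p)
    apply Real.exp_le_exp.mpr
    have := QQ_nonneg (x : K)
    nlinarith
  -- small B
  have hsmall : ∀ B : ℝ, 0 < B → B ≤ B0 → ∑' x : 𝓞 K, Real.exp (-B * QQ (x : K)) ≤
      V⁻¹ * Real.pi ^ (dg K / 2) * (A * ∑' x : 𝓞 K, Real.exp (-1 * QQ (x : K))) *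
        B ^ (-(dg K) / 2) := by
    intro B hB hB1
    set y : InfinitePlace K → ℝ := fun _ => Real.log (B / Real.pi) with hy
    have h1 := hV (fun _ => 0) (fun _ => Nat.zero_le _) (fun _ => 1) 1 (fun _ => by simp) 1 D
      one_pos hD0 hDm (fun _ _ => rfl) y
    have hth : ∀ (Ψ : 𝓞 K → ℂ) (z : ℝ), th (fun _ => 0) Ψ (fun _ => z) =
        ∑' x : 𝓞 K, Ψ x * ((Real.exp (-(Real.pi * Real.exp z) * QQ (x : K)) : ℝ) : ℂ) := by
      intro Ψ z
      unfold th GM Pool.Agent.Y773.G0 Pool.Agent.Y773.g0 eM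
      refine tsum_congr fun x => ?_
      congr 2
      simp only [pow_zero, one_mul]
      rw [← Real.exp_sum]
      congr 1
      unfold QQ
      rw [Finset.mul_sum]
      refine Finset.sum_congr rfl fun φ _ => ?_
      rw [mul_pow, ← Real.exp_nat_mul]
      have : ((2 : ℕ) : ℝ) * (z / 2) = z := by push_cast; ring
      rw [this]
      ring
    rw [hy, hth] at h1
    have e1 : -(Real.pi * Real.exp (Real.log (B / Real.pi))) = -B := by
      rw [Real.exp_log (by positivity)]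
      field_simp
    rw [e1] at h1
    have e2 : ∑' x : 𝓞 K, (1 : ℂ) * ((Real.exp (-B * QQ (x : K)) : ℝ) : ℂ) =
        ((∑' x : 𝓞 K, Real.exp (-B * QQ (x : K)) : ℝ) : ℂ) := by
      rw [Complex.ofReal_tsum]
      exact tsum_congr fun x => one_mul _
    rw [e2] at h1
    have h2 := congrArg norm h1
    rw [Complex.norm_real, Real.norm_of_nonneg (tsum_nonneg fun _ => (Real.exp_pos _).le)] at h2
    rw [h2]
    have e3 : (fun w : InfinitePlace K => -(Real.log (B / Real.pi)) - 2 * Real.log (((1 : ℕ) : ℝ) * D)) =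
        fun _ => -(Real.log (B / Real.pi)) - 2 * Real.log (((1 : ℕ) : ℝ) * D) := rfl
    rw [hth]
    have h3 : ‖∑' x : 𝓞 K, FT D 1 (fun _ => 1) x * ((Real.exp (-(Real.pi *
        Real.exp (-(Real.log (B / Real.pi)) - 2 * Real.log (((1 : ℕ) : ℝ) * D))) *
          QQ (x : K)) : ℝ) : ℂ)‖ ≤ A * ∑' x : 𝓞 K, Real.exp (-1 * QQ (x : K)) := by
      rw [← tsum_mul_left]
      refine tsum_of_norm_bounded ((summable_QQ one_pos).mul_left A).hasSum fun x => ?_
      rw [norm_mul, Complex.norm_real, Real.norm_eq_abs, abs_of_pos (Real.exp_pos _)]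
      have h4 := norm_FT_le (D := D) (m := 1) (Ψ := fun _ : 𝓞 K => (1 : ℂ)) one_pos
        (B := 1) zero_le_one (fun _ => by simp) x
      rw [mul_one] at h4
      refine mul_le_mul h4 (Real.exp_le_exp.mpr ?_) (Real.exp_pos _).le hA0
      have h5 := QQ_nonneg (x : K)
      have h6 : 1 ≤ Real.pi *
        Real.exp (-(Real.log (B / Real.pi)) - 2 * Real.log (((1 : ℕ) : ℝ) * D)) := by
        rw [Nat.cast_one, one_mul, Real.exp_sub, Real.exp_neg, Real.exp_log (by positivity),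
          mul_comm (2 : ℝ), Real.exp_mul, Real.exp_log hDr]
        rw [show (D : ℝ) ^ (2 : ℝ) = (D : ℝ) ^ 2 by norm_cast]
        rw [inv_div, ← mul_div_assoc, ← mul_div_assoc, div_div, le_div_iff₀ (by positivity), one_mul]
        calc B * (D : ℝ) ^ 2 ≤ B0 * (D : ℝ) ^ 2 := by gcongr
          _ = Real.pi * Real.pi := by
            rw [hB0]
            field_simp
      nlinarith
    rw [norm_mul, norm_mul, norm_mul, norm_mul]
    have e4 : ‖((V⁻¹ : ℝ) : ℂ)‖ = V⁻¹ := by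
      rw [Complex.norm_real, Real.norm_of_nonneg (inv_pos.mpr hV0).le]
    have e5 : ‖(((1 : ℕ) : ℂ) ^ Module.finrank ℚ K)⁻¹‖ = 1 := by simp
    have e6 : ‖(-I : ℂ) ^ (∑ φ : K →+* ℂ, eM (fun _ : InfinitePlace K => 0) φ)‖ = 1 := by
      rw [norm_pow, norm_neg, Complex.norm_I, one_pow]
    have e7 : ‖((Real.exp (-(∑ w : InfinitePlace K, (w.mult : ℝ) *
        Real.log (B / Real.pi)) / 2) : ℝ) : ℂ)‖ = Real.pi ^ (dg K / 2) * B ^ (-(dg K) / 2) := by
      rw [Complex.norm_real, Real.norm_of_nonneg (Real.exp_pos _).le, ← Finset.sum_mul,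
        ← Nat.cast_sum, InfinitePlace.sum_mult_eq, Real.rpow_def_of_pos hpi,
        Real.rpow_def_of_pos hB, ← Real.exp_add, Real.log_div hB.ne' hpi.ne']
      congr 1
      unfold dg
      ring
    rw [e4, e5, e6, e7, mul_one, mul_one]
    have h7 : 0 ≤ V⁻¹ * (Real.pi ^ (dg K / 2) * B ^ (-(dg K) / 2)) := by positivity
    refine (mul_le_mul_of_nonneg_left h3 h7).trans (le_of_eq (by ring))
  -- conclusion
  set S1 := ∑' x : 𝓞 K, Real.exp (-B0 * QQ (x : K)) with hS1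
  have hS1n : 0 ≤ S1 := tsum_nonneg fun _ => (Real.exp_pos _).le
  set S2 := V⁻¹ * Real.pi ^ (dg K / 2) * (A * ∑' x : 𝓞 K, Real.exp (-1 * QQ (x : K))) with hS2
  have hS2n : 0 ≤ S2 := by
    have : 0 ≤ ∑' x : 𝓞 K, Real.exp (-1 * QQ (x : K)) := tsum_nonneg fun _ => (Real.exp_pos _).le
    positivity
  refine ⟨S1 + S2 + 1, by positivity, fun B hB => ?_⟩
  have hp : 0 ≤ B ^ (-(dg K) / 2) := by positivity
  rcases le_total B B0 with h | h
  · refine (hsmall B hB h).trans ?_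
    nlinarith
  · refine (hbig B h).trans ?_
    nlinarith

/-- sum over the non-zero integers -/
theorem sum_ne (K : Type) [Field K] [NumberField K] : ∃ C : ℝ, 0 < C ∧ ∀ B : ℝ, 0 < B →
    ∑' x : {x : 𝓞 K // x ≠ 0}, Real.exp (-B * QQ (x.1 : K)) ≤ C * B ^ (-(dg K) / 2) := by
  obtain ⟨C, hC, h⟩ := sum_gauss K
  set S := ∑' x : 𝓞 K, Real.exp (-1 * QQ (x : K)) with hS
  have hSn : 0 ≤ S := tsum_nonneg fun _ => (Real.exp_pos _).le
  -- exponential against power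
  obtain ⟨C', hC', hexp⟩ : ∃ C' : ℝ, 0 < C' ∧ ∀ B : ℝ, 1 ≤ B →
      Real.exp (-(B - 1)) ≤ C' * B ^ (-(dg K) / 2) := by
    have h1 := (isLittleO_exp_neg_mul_rpow_atTop one_pos (-(dg K) / 2)).isBigO
    obtain ⟨c, hc⟩ := h1.bound
    obtain ⟨N, hN⟩ := eventually_atTop.mp hc
    set M : ℝ := max N 1 with hM
    refine ⟨|c| * Real.exp 1 + M ^ (dg K / 2), by positivity, fun B hB => ?_⟩
    have hB0 : 0 < B := by linarith
    have hpw : 0 < B ^ (-(dg K) / 2) := by positivity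
    rcases le_total M B with hMB | hMB
    · have h2 := hN B ((le_max_left _ _).trans hMB)
      rw [Real.norm_of_nonneg (Real.exp_pos _).le, Real.norm_of_nonneg hpw.le] at h2
      have h3 : Real.exp (-(B - 1)) = Real.exp 1 * Real.exp (-1 * B) := by
        rw [← Real.exp_add]
        congr 1
        ring
      rw [h3]
      calc Real.exp 1 * Real.exp (-1 * B) ≤ Real.exp 1 * (c * B ^ (-(dg K) / 2)) := by gcongr
        _ ≤ Real.exp 1 * (|c| * B ^ (-(dg K) / 2)) := by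
            gcongr
            exact le_abs_self c
        _ ≤ _ := by
            have : 0 ≤ M ^ (dg K / 2) := by positivity
            nlinarith
    · have h2 : Real.exp (-(B - 1)) ≤ 1 := Real.exp_le_one_iff.mpr (by linarith)
      refine h2.trans ?_
      have h3 : 1 ≤ M ^ (dg K / 2) * B ^ (-(dg K) / 2) := by
        have h4 : B ^ (dg K / 2) ≤ M ^ (dg K / 2) :=
          Real.rpow_le_rpow hB0.le hMB (by have := dg_pos (K := K); positivity)
        calc (1 : ℝ) = B ^ (dg K / 2) * B ^ (-(dg K) / 2) := by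
              rw [← Real.rpow_add hB0]
              have : dg K / 2 + -(dg K) / 2 = 0 := by ring
              rw [this, Real.rpow_zero]
          _ ≤ _ := by gcongr
      have : 0 ≤ |c| * Real.exp 1 := by positivity
      nlinarith
  refine ⟨2 * C + S * C' + 1, by positivity, fun B hB => ?_⟩
  have hpw : 0 < B ^ (-(dg K) / 2) := by positivity
  have hsub : Summable fun x : {x : 𝓞 K // x ≠ 0} => Real.exp (-B * QQ (x.1 : K)) :=
    (summable_QQ hB).comp_injective Subtype.val_injective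
  rcases le_total B 1 with hB1 | hB1
  · have h1 : ∑' x : {x : 𝓞 K // x ≠ 0}, Real.exp (-B * QQ (x.1 : K)) ≤
        ∑' x : 𝓞 K, Real.exp (-B * QQ (x : K)) :=
      (summable_QQ hB).tsum_subtype_le _ _ (fun _ => (Real.exp_pos _).le)
    refine h1.trans ((h B hB).trans ?_)
    have h2 : 1 ≤ B ^ (-(dg K) / 2) := by
      refine Real.one_le_rpow_of_pos_of_le_one_of_nonpos hB hB1 ?_
      have := dg_pos (K := K)
      linarith
    have h3 : 0 ≤ S * C' := by positivity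
    nlinarith
  · have hsub1 : Summable fun x : {x : 𝓞 K // x ≠ 0} => Real.exp (-1 * QQ (x.1 : K)) :=
      (summable_QQ one_pos).comp_injective Subtype.val_injective
    have h1 : ∑' x : {x : 𝓞 K // x ≠ 0}, Real.exp (-B * QQ (x.1 : K)) ≤
        ∑' x : {x : 𝓞 K // x ≠ 0}, Real.exp (-(B - 1)) * Real.exp (-1 * QQ (x.1 : K)) := by
      refine hsub.tsum_le_tsum (fun x => ?_) (hsub1.mul_left _)
      rw [← Real.exp_add]
      apply Real.exp_le_exp.mpr
      have := one_le_QQ x.2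
      nlinarith
    rw [tsum_mul_left] at h1
    have h2 : ∑' x : {x : 𝓞 K // x ≠ 0}, Real.exp (-1 * QQ (x.1 : K)) ≤ S :=
      (summable_QQ one_pos).tsum_subtype_le _ _ (fun _ => (Real.exp_pos _).le)
    have h3 := hexp B hB1
    calc _ ≤ Real.exp (-(B - 1)) * ∑' x : {x : 𝓞 K // x ≠ 0}, Real.exp (-1 * QQ (x.1 : K)) := h1
      _ ≤ (C' * B ^ (-(dg K) / 2)) * S := by
          refine mul_le_mul h3 h2 (tsum_nonneg fun _ => (Real.exp_pos _).le) (by positivity)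
      _ ≤ _ := by nlinarith

/-- a balanced element of an ideal -/
theorem exists_bal (K : Type) [Field K] [NumberField K] : ∃ C : ℝ, 1 ≤ C ∧
    ∀ 𝔞 : Ideal (𝓞 K), 𝔞 ≠ ⊥ → ∃ α ∈ 𝔞, α ≠ 0 ∧ ∀ w : InfinitePlace K,
      C⁻¹ * (Ideal.absNorm 𝔞 : ℝ) ^ (1 / dg K) ≤ w (α : K) ∧
      w (α : K) ≤ C * (Ideal.absNorm 𝔞 : ℝ) ^ (1 / dg K) := by
  have hn := dg_pos (K := K)
  set n := Module.finrank ℚ K with hndef
  have hdg : dg K = (n : ℝ) := rfl
  have hn0 : 0 < n := Module.finrank_pos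
  set Δ : ℝ := √|(discr K : ℝ)| with hΔ
  have hΔ1 : 1 ≤ Δ := by
    rw [hΔ]
    apply Real.one_le_sqrt.mpr
    have : discr K ≠ 0 := discr_ne_zero K
    exact_mod_cast Int.one_le_abs this
  set A : ℝ := 2 * Δ ^ (1 / dg K) with hA
  have hΔp : 1 ≤ Δ ^ (1 / dg K) := Real.one_le_rpow hΔ1 (by positivity)
  have hA1 : 1 ≤ A := by rw [hA]; linarith
  refine ⟨A ^ n, one_le_pow₀ hA1, fun 𝔞 h𝔞 => ?_⟩
  have hN0 : 0 < Ideal.absNorm 𝔞 := Nat.pos_of_ne_zero fun h =>
    h𝔞 (Ideal.absNorm_eq_zero_iff.mp h)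
  set N : ℝ := (Ideal.absNorm 𝔞 : ℝ) with hN
  have hNp : 1 ≤ N := by rw [hN]; exact_mod_cast hN0
  have hNp0 : 0 < N := by linarith
  set c : ℝ := A * N ^ (1 / dg K) with hc
  have hc0 : 0 < c := by positivity
  have hpw : ∀ x : ℝ, 0 ≤ x → (x ^ (1 / dg K)) ^ n = x := by
    intro x hx
    rw [← Real.rpow_natCast, ← Real.rpow_mul hx, ← hdg, one_div, inv_mul_cancel₀ hn.ne',
      Real.rpow_one]
  have hcn : N * Δ < c ^ n := by
    rw [hc, hA, mul_pow, mul_pow, hpw Δ (by linarith), hpw N hNp0.le]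
    have h2 : (1 : ℝ) < 2 ^ n := one_lt_pow₀ (by norm_num) hn0.ne'
    have h3 : 0 < N * Δ := by positivity
    nlinarith
  have hcA : c ^ n = A ^ n * N := by rw [hc, mul_pow, hpw N hNp0.le]
  obtain ⟨α, hα, hα0, hw⟩ := Pool.Agent.TeamU.exists_small_mem_ideal K 𝔞 h𝔞 ⟨c, hc0.le⟩ hcn
  have hw' : ∀ w : InfinitePlace K, w (α : K) < c := hw
  refine ⟨α, hα, hα0, fun w => ⟨?_, ?_⟩⟩
  · -- lower bound
    have hnorm : N ≤ ∏ v : InfinitePlace K, (v (α : K)) ^ v.mult := by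
      rw [InfinitePlace.prod_eq_abs_norm]
      have h3 : (Algebra.norm ℚ (α : K)) = ((Algebra.norm ℤ α : ℤ) : ℚ) :=
        (Algebra.coe_norm_int α).symm
      rw [h3]
      have h4 : Ideal.span {α} ≤ 𝔞 := (Ideal.span_singleton_le_iff_mem _).mpr hα
      have h5 : Ideal.absNorm 𝔞 ∣ Ideal.absNorm (Ideal.span {α}) := Ideal.absNorm_dvd_absNorm_of_le h4
      rw [Ideal.absNorm_span_singleton] at h5
      have h6 : (Algebra.norm ℤ α).natAbs ≠ 0 := by
        rw [Ne, Int.natAbs_eq_zero]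
        exact Algebra.norm_ne_zero_iff.mpr hα0
      have h7 := Nat.le_of_dvd (Nat.pos_of_ne_zero h6) h5
      have h8 : (Ideal.absNorm 𝔞 : ℝ) ≤ (((Algebra.norm ℤ α).natAbs : ℕ) : ℝ) := by
        exact_mod_cast h7
      refine h8.trans (le_of_eq ?_)
      rw [Nat.cast_natAbs]
      push_cast
      rfl
    by_contra hcon
    push Not at hcon
    have hwpos : 0 < w (α : K) := by
      rw [InfinitePlace.pos_iff]
      exact RingOfIntegers.coe_ne_zero_iff.mpr hα0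
    have hlt : ∏ v : InfinitePlace K, (v (α : K)) ^ v.mult < N := by
      classical
      rw [← Finset.mul_prod_erase _ _ (Finset.mem_univ w)]
      have h1 : ∏ v ∈ Finset.univ.erase w, (v (α : K)) ^ v.mult ≤
          ∏ v ∈ Finset.univ.erase w, c ^ v.mult := by
        refine Finset.prod_le_prod (fun v _ => pow_nonneg (apply_nonneg v _) _) fun v _ => ?_
        exact pow_le_pow_left₀ (apply_nonneg v _) (hw' v).le _
      have h2 : (∏ v ∈ Finset.univ.erase w, c ^ v.mult) * c ^ w.mult = c ^ n := by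
        rw [mul_comm, Finset.mul_prod_erase _ (fun v : InfinitePlace K => c ^ v.mult)
          (Finset.mem_univ w), Finset.prod_pow_eq_pow_sum, InfinitePlace.sum_mult_eq]
      have h3 : 1 ≤ w.mult := Nat.one_le_iff_ne_zero.mpr InfinitePlace.mult_ne_zero
      have h4 : (w (α : K)) ^ w.mult ≤ (A ^ n)⁻¹ * N ^ (1 / dg K) *
          ((w (α : K)) ^ (w.mult - 1)) := by
        conv_lhs => rw [← Nat.sub_add_cancel h3, pow_succ', ]
        gcongr
      have h5 : (w (α : K)) ^ (w.mult - 1) ≤ c ^ (w.mult - 1) :=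
        pow_le_pow_left₀ (apply_nonneg w _) (hw' w).le _
      have h6 : (w (α : K)) ^ w.mult < (A ^ n)⁻¹ * N ^ (1 / dg K) * c ^ (w.mult - 1) := by
        conv_lhs => rw [← Nat.sub_add_cancel h3, pow_succ']
        calc w (α : K) * w (α : K) ^ (w.mult - 1) < (A ^ n)⁻¹ * N ^ (1 / dg K) *
              w (α : K) ^ (w.mult - 1) := by gcongr
          _ ≤ _ := by gcongr
      have h7 : 0 < ∏ v ∈ Finset.univ.erase w, c ^ v.mult := Finset.prod_pos fun v _ => by positivity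
      calc (w (α : K)) ^ w.mult * ∏ v ∈ Finset.univ.erase w, (v (α : K)) ^ v.mult
          ≤ (w (α : K)) ^ w.mult * ∏ v ∈ Finset.univ.erase w, c ^ v.mult := by gcongr
        _ < ((A ^ n)⁻¹ * N ^ (1 / dg K) * c ^ (w.mult - 1)) *
            ∏ v ∈ Finset.univ.erase w, c ^ v.mult := by gcongr
        _ = (A ^ n)⁻¹ * A⁻¹ * ((A * N ^ (1 / dg K)) * c ^ (w.mult - 1) *
            ∏ v ∈ Finset.univ.erase w, c ^ v.mult) := by field_simp
        _ = (A ^ n)⁻¹ * A⁻¹ * ((∏ v ∈ Finset.univ.erase w, c ^ v.mult) * c ^ w.mult) := by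
            rw [← hc, ← pow_succ', Nat.sub_add_cancel h3]
            ring
        _ = (A ^ n)⁻¹ * A⁻¹ * (A ^ n * N) := by
            rw [h2, hcA]
        _ = A⁻¹ * N := by field_simp
        _ ≤ 1 * N := by
            gcongr
            exact inv_le_one_of_one_le₀ hA1
        _ = N := one_mul N
    linarith
  · refine (hw' w).le.trans ?_
    rw [hc]
    gcongr
    exact le_self_pow₀ hA1 hn0.ne'

lemma mem_mul_iff {𝔟 : Ideal (𝓞 K)} {x : 𝓞 K} :
    x ∈ 𝔟 ↔ ∃ 𝔞 : Ideal (𝓞 K), 𝔞 * 𝔟 = Ideal.span {x} := by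
  constructor
  · intro hx
    have h1 : 𝔟 ∣ Ideal.span {x} := by
      rw [Ideal.dvd_span_singleton]; exact hx
    obtain ⟨𝔞, h𝔞⟩ := h1
    exact ⟨𝔞, by rw [h𝔞, mul_comm]⟩
  · rintro ⟨𝔞, h𝔞⟩
    rw [← Ideal.span_singleton_le_iff_mem, ← h𝔞]
    exact Ideal.mul_le_right

lemma sum_comp {S T : Type} {f : S → ℝ} {g : T → ℝ} (i : S → T) (hi : Function.Injective i)
    (hf0 : ∀ s, 0 ≤ f s) (hg0 : ∀ t, 0 ≤ g t) (hfg : ∀ s, f s ≤ g (i s)) (hg : Summable g) :
    Summable f ∧ ∑' s, f s ≤ ∑' t, g t := by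
  have h1 : Summable (g ∘ i) := hg.comp_injective hi
  have h2 : Summable f := Summable.of_nonneg_of_le hf0 hfg h1
  refine ⟨h2, (h2.tsum_le_tsum hfg h1).trans ?_⟩
  exact tsum_comp_le_tsum_of_inj hg hg0 hi

/-- Gaussian sums over the non-zero elements of an ideal -/
theorem sum_ideal (K : Type) [Field K] [NumberField K] : ∃ C : ℝ, 0 < C ∧
    ∀ 𝔞 : Ideal (𝓞 K), 𝔞 ≠ ⊥ → ∀ B : ℝ, 0 < B →
      Summable (fun x : {x : 𝓞 K // x ∈ 𝔞 ∧ x ≠ 0} => Real.exp (-B * QQ (x.1 : K))) ∧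
      ∑' x : {x : 𝓞 K // x ∈ 𝔞 ∧ x ≠ 0}, Real.exp (-B * QQ (x.1 : K)) ≤
        C * (B ^ (-(dg K) / 2) / (Ideal.absNorm 𝔞 : ℝ)) := by
  obtain ⟨C₁, hC₁, hbal⟩ := exists_bal K
  obtain ⟨C₂, hC₂, hne⟩ := sum_ne K
  have hn := dg_pos (K := K)
  set n := Module.finrank ℚ K with hndef
  have hdg : dg K = (n : ℝ) := rfl
  have hC₁0 : 0 < C₁ := by linarith
  set c : ℝ := C₁⁻¹ * (C₁ ^ n)⁻¹ with hc
  have hc0 : 0 < c := by positivity
  refine ⟨C₂ * c ^ (-(dg K)), by positivity, fun 𝔞 h𝔞 B hB => ?_⟩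
  obtain ⟨α, hα, hα0, hw⟩ := hbal 𝔞 h𝔞
  have hN0 : 0 < Ideal.absNorm 𝔞 := Nat.pos_of_ne_zero fun h =>
    h𝔞 (Ideal.absNorm_eq_zero_iff.mp h)
  set N : ℝ := (Ideal.absNorm 𝔞 : ℝ) with hN
  have hNp : 0 < N := by rw [hN]; exact_mod_cast hN0
  obtain ⟨𝔢, h𝔢⟩ := mem_mul_iff.mp hα
  have hpw : ∀ x : ℝ, 0 ≤ x → (x ^ (1 / dg K)) ^ n = x := by
    intro x hx
    rw [← Real.rpow_natCast, ← Real.rpow_mul hx, ← hdg, one_div, inv_mul_cancel₀ hn.ne',
      Real.rpow_one]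
  -- the norm of `𝔢`
  set d := Ideal.absNorm 𝔢 with hd
  have h𝔢0 : 𝔢 ≠ ⊥ := by
    rintro rfl
    rw [Ideal.bot_mul] at h𝔢
    exact hα0 (Ideal.span_singleton_eq_bot.mp h𝔢.symm)
  have hd0 : 0 < d := Nat.pos_of_ne_zero fun h => h𝔢0 (Ideal.absNorm_eq_zero_iff.mp h)
  have hdr : (0 : ℝ) < d := by exact_mod_cast hd0
  have hdN : (d : ℝ) * N ≤ C₁ ^ n * N := by
    have h1 := congrArg Ideal.absNorm h𝔢
    rw [map_mul, Ideal.absNorm_span_singleton] at h1
    have h2 : (d : ℝ) * N = (((Algebra.norm ℤ α).natAbs : ℕ) : ℝ) := by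
      rw [hd, hN]
      exact_mod_cast h1
    rw [h2]
    have h3 : (((Algebra.norm ℤ α).natAbs : ℕ) : ℝ) = ∏ v : InfinitePlace K, (v (α : K)) ^ v.mult := by
      rw [InfinitePlace.prod_eq_abs_norm]
      have h3 : (Algebra.norm ℚ (α : K)) = ((Algebra.norm ℤ α : ℤ) : ℚ) :=
        (Algebra.coe_norm_int α).symm
      rw [h3, Nat.cast_natAbs]
      push_cast
      rfl
    rw [h3]
    calc ∏ v : InfinitePlace K, (v (α : K)) ^ v.mult
        ≤ ∏ v : InfinitePlace K, (C₁ * N ^ (1 / dg K)) ^ v.mult :=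
          Finset.prod_le_prod (fun v _ => pow_nonneg (apply_nonneg v _) _) fun v _ =>
            pow_le_pow_left₀ (apply_nonneg v _) (hw v).2 _
      _ = C₁ ^ n * N := by
          rw [Finset.prod_pow_eq_pow_sum, InfinitePlace.sum_mult_eq, mul_pow, hpw N hNp.le]
  have hdC : (d : ℝ) ≤ C₁ ^ n := le_of_mul_le_mul_right hdN hNp
  have hdm : (d : 𝓞 K) ∈ 𝔢 := Ideal.absNorm_mem _
  have hex : ∀ x : {x : 𝓞 K // x ∈ 𝔞 ∧ x ≠ 0}, ∃ z : 𝓞 K, α * z = d * x.1 := by
    intro x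
    have h1 : (d : 𝓞 K) * x.1 ∈ 𝔢 * 𝔞 := Ideal.mul_mem_mul hdm x.2.1
    rw [h𝔢, Ideal.mem_span_singleton] at h1
    obtain ⟨z, hz⟩ := h1
    exact ⟨z, hz.symm⟩
  choose z hz using hex
  have hdc : (d : 𝓞 K) ≠ 0 := by exact_mod_cast hd0.ne'
  have hz0 : ∀ x, z x ≠ 0 := by
    intro x h
    have h1 := hz x
    rw [h, mul_zero] at h1
    exact mul_ne_zero hdc x.2.2 h1.symm
  have hzi : Function.Injective fun x => (⟨z x, hz0 x⟩ : {x : 𝓞 K // x ≠ 0}) := by
    intro x y hxy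
    have h1 : z x = z y := congrArg Subtype.val hxy
    have h2 := hz x
    rw [h1, hz y] at h2
    exact Subtype.ext (mul_left_cancel₀ hdc h2).symm
  have hval : ∀ x (w : InfinitePlace K), c * N ^ (1 / dg K) * w (z x : K) ≤ w (x.1 : K) := by
    intro x w
    have h1 : w (α : K) * w (z x : K) = d * w (x.1 : K) := by
      rw [← map_mul]
      have h2 : (α : K) * (z x : K) = (d : K) * (x.1 : K) := by
        have := congrArg (algebraMap (𝓞 K) K) (hz x)
        rw [map_mul, map_mul, map_natCast] at this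
        exact this
      rw [h2, map_mul, InfinitePlace.map_natCast]
    have h2 : w (x.1 : K) = w (α : K) * w (z x : K) / d := by
      rw [h1]; field_simp
    rw [h2, hc, le_div_iff₀ hdr]
    have h3 := (hw w).1
    have h4 : 0 ≤ w (z x : K) := apply_nonneg w _
    calc C₁⁻¹ * (C₁ ^ n)⁻¹ * N ^ (1 / dg K) * w (z x : K) * d
        = (C₁⁻¹ * N ^ (1 / dg K)) * w (z x : K) * (d * (C₁ ^ n)⁻¹) := by ring
      _ ≤ w (α : K) * w (z x : K) * 1 := by
          refine mul_le_mul (mul_le_mul_of_nonneg_right h3 h4) ?_ (by positivity)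
            (mul_nonneg (apply_nonneg w _) h4)
          rw [← div_eq_mul_inv, div_le_one (by positivity)]
          exact hdC
      _ = _ := mul_one _
  have hQ : ∀ x, (c * N ^ (1 / dg K)) ^ 2 * QQ (z x : K) ≤ QQ (x.1 : K) := by
    intro x
    rw [QQ_eq, QQ_eq, Finset.mul_sum]
    refine Finset.sum_le_sum fun w _ => ?_
    have h1 := hval x w
    have h2 : (c * N ^ (1 / dg K) * w (z x : K)) ^ 2 ≤ (w (x.1 : K)) ^ 2 :=
      pow_le_pow_left₀ (mul_nonneg (by positivity) (apply_nonneg w _)) h1 2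
    have h3 : (0 : ℝ) ≤ w.mult := Nat.cast_nonneg _
    nlinarith
  set B' : ℝ := B * (c * N ^ (1 / dg K)) ^ 2 with hB'
  have hB'0 : 0 < B' := by positivity
  have hsub : Summable fun x : {x : 𝓞 K // x ≠ 0} => Real.exp (-B' * QQ (x.1 : K)) :=
    (summable_QQ hB'0).comp_injective Subtype.val_injective
  obtain ⟨h1, h2⟩ := sum_comp (f := fun x : {x : 𝓞 K // x ∈ 𝔞 ∧ x ≠ 0} => Real.exp (-B * QQ (x.1 : K)))
    (g := fun x : {x : 𝓞 K // x ≠ 0} => Real.exp (-B' * QQ (x.1 : K))) _ hzi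
    (fun _ => (Real.exp_pos _).le) (fun _ => (Real.exp_pos _).le) (fun x => by
      apply Real.exp_le_exp.mpr
      have := hQ x
      rw [hB']
      simp only
      nlinarith) hsub
  refine ⟨h1, h2.trans ((hne B' hB'0).trans (le_of_eq ?_))⟩
  rw [hB', Real.mul_rpow hB.le (by positivity), ← Real.rpow_natCast (c * N ^ (1 / dg K)) 2,
    ← Real.rpow_mul (by positivity), Real.mul_rpow hc0.le (by positivity),
    ← Real.rpow_mul hNp.le]
  have e1 : ((2 : ℕ) : ℝ) * (-(dg K) / 2) = -(dg K) := by push_cast; ring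
  rw [e1]
  have e2 : 1 / dg K * -(dg K) = -1 := by field_simp
  rw [e2, Real.rpow_neg_one]
  field_simp

lemma xi_injective : Function.Injective (xi (K := K)) := by
  intro k l h
  funext j
  have h1 := trace_xi_basis k j
  rw [h, trace_xi_basis] at h1
  exact_mod_cast h1.symm

/-- Gaussian sums over the dual of an ideal -/
theorem sum_dual (K : Type) [Field K] [NumberField K] : ∃ C : ℝ, 0 < C ∧
    ∀ 𝔠 : Ideal (𝓞 K), 𝔠 ≠ ⊥ → ∀ m : ℕ, 0 < m → ∀ B : ℝ, 0 < B →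
      Summable (fun k : {k : Idx K → ℤ // ∀ γ ∈ 𝔠, (m : ℤ) ∣ ∑ j, k j * co γ j} =>
        Real.exp (-B * (QQ (xi k.1 : K) / (m : ℝ) ^ 2))) ∧
      ∑' k : {k : Idx K → ℤ // ∀ γ ∈ 𝔠, (m : ℤ) ∣ ∑ j, k j * co γ j},
        Real.exp (-B * (QQ (xi k.1 : K) / (m : ℝ) ^ 2)) ≤
        C * (1 + B ^ (-(dg K) / 2) * (Ideal.absNorm 𝔠 : ℝ)) := by
  obtain ⟨C₁, hC₁, hbal⟩ := exists_bal K
  obtain ⟨C₂, hC₂, hsum⟩ := sum_gauss K
  have hn := dg_pos (K := K)
  set n := Module.finrank ℚ K with hndef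
  have hdg : dg K = (n : ℝ) := rfl
  have hC₁0 : 0 < C₁ := by linarith
  set D : ℕ := Ideal.absNorm (differentIdeal ℤ (𝓞 K)) with hD
  have hD0 : 0 < D := Nat.pos_of_ne_zero fun h =>
    differentIdeal_ne_bot (Ideal.absNorm_eq_zero_iff.mp h)
  have hDm : (D : 𝓞 K) ∈ differentIdeal ℤ (𝓞 K) := Ideal.absNorm_mem _
  have hDr : (0 : ℝ) < D := by exact_mod_cast hD0
  set c : ℝ := D * C₁ with hc
  have hc0 : 0 < c := by positivity
  refine ⟨C₂ * (1 + c ^ dg K), by positivity, fun 𝔠 h𝔠 m hm B hB => ?_⟩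
  obtain ⟨α, hα, hα0, hw⟩ := hbal 𝔠 h𝔠
  have hN0 : 0 < Ideal.absNorm 𝔠 := Nat.pos_of_ne_zero fun h =>
    h𝔠 (Ideal.absNorm_eq_zero_iff.mp h)
  set N : ℝ := (Ideal.absNorm 𝔠 : ℝ) with hN
  have hNp : 0 < N := by rw [hN]; exact_mod_cast hN0
  have hmr : (0 : ℝ) < m := by exact_mod_cast hm
  have hmK : (m : K) ≠ 0 := by exact_mod_cast hm.ne'
  have hex : ∀ k : {k : Idx K → ℤ // ∀ γ ∈ 𝔠, (m : ℤ) ∣ ∑ j, k j * co γ j},
      ∃ z : 𝓞 K, (z : K) = D * (xi k.1 * α / m) := by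
    intro k
    have h1 := dual_int hDm (xi k.1 * α / m) (fun a => by
      obtain ⟨t, ht⟩ := k.2 (α * a) (𝔠.mul_mem_right a hα)
      refine ⟨t, ?_⟩
      have h2 := trace_xi k.1 (α * a)
      have h3 : (xi k.1 : K) * α / m * a = (1 / (m : ℚ)) • (xi k.1 * ((α * a : 𝓞 K) : K)) := by
        rw [Algebra.smul_def]
        push_cast
        simp
        field_simp
      rw [h3, map_smul, h2, ht, smul_eq_mul]
      push_cast
      have : (m : ℚ) ≠ 0 := by exact_mod_cast hm.ne'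
      field_simp)
    obtain ⟨z, hz⟩ := h1
    exact ⟨z, by rw [hz]; push_cast; rfl⟩
  choose z hz using hex
  have hαK : (α : K) ≠ 0 := RingOfIntegers.coe_ne_zero_iff.mpr hα0
  have hDK : (D : K) ≠ 0 := by exact_mod_cast hD0.ne'
  have hzi : Function.Injective z := by
    intro k l hkl
    have h1 := hz k
    rw [hkl, hz l] at h1
    have h2 : xi l.1 = xi k.1 := by
      have h3 := mul_left_cancel₀ hDK h1
      rw [div_left_inj' hmK] at h3
      exact mul_right_cancel₀ hαK h3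
    exact Subtype.ext (xi_injective h2).symm
  have hQ : ∀ k, (c * N ^ (1 / dg K))⁻¹ ^ 2 * QQ (z k : K) ≤ QQ (xi k.1 : K) / (m : ℝ) ^ 2 := by
    intro k
    rw [QQ_eq, QQ_eq, Finset.mul_sum, Finset.sum_div]
    refine Finset.sum_le_sum fun w _ => ?_
    have h1 : w (z k : K) ≤ c * N ^ (1 / dg K) * (w (xi k.1 : K) / m) := by
      rw [hz k, map_mul, map_div₀, map_mul, InfinitePlace.map_natCast, InfinitePlace.map_natCast]
      have h4 : 0 ≤ w (xi k.1 : K) := apply_nonneg w _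
      calc (D : ℝ) * (w (xi k.1) * w (α : K) / m) = w (α : K) * (D * (w (xi k.1) / m)) := by ring
        _ ≤ (C₁ * N ^ (1 / dg K)) * (D * (w (xi k.1) / m)) :=
            mul_le_mul_of_nonneg_right (hw w).2 (by positivity)
        _ = _ := by rw [hc]; ring
    have h2 : (w (z k : K)) ^ 2 ≤ (c * N ^ (1 / dg K) * (w (xi k.1 : K) / m)) ^ 2 :=
      pow_le_pow_left₀ (apply_nonneg w _) h1 2
    have h3 : (0 : ℝ) ≤ w.mult := Nat.cast_nonneg _
    have hp : 0 < c * N ^ (1 / dg K) := by positivity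
    calc (c * N ^ (1 / dg K))⁻¹ ^ 2 * ((w.mult : ℝ) * (w (z k : K)) ^ 2)
        ≤ (c * N ^ (1 / dg K))⁻¹ ^ 2 * ((w.mult : ℝ) *
          (c * N ^ (1 / dg K) * (w (xi k.1 : K) / m)) ^ 2) := by gcongr
      _ = _ := by
          field_simp
  set B' : ℝ := B * (c * N ^ (1 / dg K))⁻¹ ^ 2 with hB'
  have hB'0 : 0 < B' := by positivity
  obtain ⟨h1, h2⟩ := sum_comp (f := fun k : {k : Idx K → ℤ // ∀ γ ∈ 𝔠, (m : ℤ) ∣ ∑ j, k j * co γ j} =>
        Real.exp (-B * (QQ (xi k.1 : K) / (m : ℝ) ^ 2)))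
    (g := fun x : 𝓞 K => Real.exp (-B' * QQ (x : K))) _ hzi
    (fun _ => (Real.exp_pos _).le) (fun _ => (Real.exp_pos _).le) (fun x => by
      apply Real.exp_le_exp.mpr
      have := hQ x
      rw [hB']
      nlinarith) (summable_QQ hB'0)
  refine ⟨h1, h2.trans ((hsum B' hB'0).trans ?_)⟩
  have e0 : B' ^ (-(dg K) / 2) = c ^ dg K * (B ^ (-(dg K) / 2) * N) := by
    rw [hB', Real.mul_rpow hB.le (by positivity), ← Real.rpow_natCast ((c * N ^ (1 / dg K))⁻¹) 2,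
      ← Real.rpow_mul (by positivity)]
    have e1 : ((2 : ℕ) : ℝ) * (-(dg K) / 2) = -(dg K) := by push_cast; ring
    rw [e1, Real.rpow_neg (by positivity), Real.inv_rpow (by positivity), inv_inv,
      Real.mul_rpow hc0.le (by positivity), ← Real.rpow_mul hNp.le]
    have e2 : 1 / dg K * dg K = 1 := by field_simp
    rw [e2, Real.rpow_one]
    ring
  rw [e0]
  have h3 : 0 ≤ B ^ (-(dg K) / 2) * N := by positivity
  have h4 : 0 ≤ c ^ dg K := by positivity
  nlinarith [mul_nonneg hC₂.le h3, mul_nonneg hC₂.le h4]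

end Pool.Agent.A856.HW
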