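import Pool.Agent.A856.HW.Mell

/-!
# The Mellin transforms of a family on the critical line

Owner helper856 (Hecke L-functions with powerful conductor).
-/

set_option autoImplicit false
set_option linter.unusedSectionVars false
set_option linter.unusedVariables false
set_option maxHeartbeats 4000000

open NumberField Complex Filter Topology Set MeasureTheory
open NumberField.Units NumberField.Units.dirichletUnitTheorem

namespace Pool.Agent.A856.HW

open Pool.Agent.Y773 (Reps rp rp_ne_bot reps_rp FT absNorm_span_nat integral_exp_sub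
  integrable_exp_sub volume_cube)
open Pool.Agent.Y773.G

variable {K : Type} [Field K] [NumberField K]

/-- Mellin transform of a finite sum of scaled functions -/
lemma mellin_sum_scaled {ι : Type} [Fintype ι] {f : ι → ℝ → ℂ} {a : ι → ℝ} (ha : ∀ c, 0 < a c)
    {s : ℂ} (h : ∀ c, MellinConvergent (f c) s) :
    mellin (fun t => ∑ c, f c ((a c)⁻¹ * t)) s = ∑ c, (a c : ℂ) ^ s * mellin (f c) s := by
  classical
  have h1 : ∀ c, MellinConvergent (fun t => f c ((a c)⁻¹ * t)) s := by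
    intro c
    rw [MellinConvergent.comp_mul_left (inv_pos.mpr (ha c))]
    exact h c
  have h2 : ∀ c, mellin (fun t => f c ((a c)⁻¹ * t)) s = (a c : ℂ) ^ s * mellin (f c) s := by
    intro c
    rw [mellin_comp_mul_left _ _ (inv_pos.mpr (ha c)), smul_eq_mul]
    congr 1
    rw [Complex.cpow_def_of_ne_zero (by exact_mod_cast (inv_pos.mpr (ha c)).ne'),
      ← Complex.ofReal_log (inv_pos.mpr (ha c)).le, Real.log_inv,
      Complex.cpow_def_of_ne_zero (by exact_mod_cast (ha c).ne'), ← Complex.ofReal_log (ha c).le]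
    congr 1
    push_cast
    ring
  have h5 : ∀ S : Finset ι, MellinConvergent (fun t => ∑ c ∈ S, f c ((a c)⁻¹ * t)) s ∧
      mellin (fun t => ∑ c ∈ S, f c ((a c)⁻¹ * t)) s =
      ∑ c ∈ S, mellin (fun t => f c ((a c)⁻¹ * t)) s := by
    intro S
    induction S using Finset.induction_on with
    | empty =>
      simp only [Finset.sum_empty]
      constructor
      · unfold MellinConvergent
        simp
      · simp [mellin]
    | insert c S hc ih =>
      simp only [Finset.sum_insert hc]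
      constructor
      · exact (hasMellin_add (h1 c) ih.1).1
      · rw [← ih.2]
        exact (hasMellin_add (h1 c) ih.1).2
  rw [(h5 Finset.univ).2]
  exact Finset.sum_congr rfl fun c _ => h2 c

/-- integrability on the shifted lines -/
lemma Gz_int {e : InfinitePlace K → ℕ} (he : ∀ w, e w ≤ 1) {Ψ : 𝓞 K → ℂ} {B₀ : ℝ}
    (hB₀ : ∀ x, ‖Ψ x‖ ≤ B₀) (s : ℂ) (θ : Fin (rank K) → ℝ) {φ : ℝ} (hφ : |φ| < Real.pi / 2)
    {B : ℝ → ℝ} (hB : Integrable B)
    (hbd : ∀ x : ℝ, ‖Gz e Ψ s θ (x + φ * Complex.I)‖ ≤ B x) :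
    Integrable fun x : ℝ => Gz e Ψ s θ (x + φ * Complex.I) := by
  refine hB.mono' ?_ (Eventually.of_forall hbd)
  have : Continuous fun x : ℝ => Gz e Ψ s θ (x + φ * Complex.I) := by
    rw [continuous_iff_continuousAt]
    intro x
    have hz : ((x : ℂ) + φ * Complex.I) ∈ Str (Real.pi / 2) := by
      change |((x : ℂ) + φ * Complex.I).im| < Real.pi / 2
      have : ((x : ℂ) + φ * Complex.I).im = φ := by simp
      rw [this]
      exact hφ
    have h1 : DifferentiableAt ℂ (Gz e Ψ s θ) (x + φ * Complex.I) := by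
      unfold Gz
      refine DifferentiableAt.mul ?_ (by fun_prop)
      exact ((differentiableOn_thc he hB₀ θ) _ hz).differentiableAt ((isOpen_Str _).mem_nhds hz)
    refine ContinuousAt.comp (f := fun x : ℝ => ((x : ℂ) + φ * Complex.I)) h1.continuousAt ?_
    fun_prop
  exact this.aestronglyMeasurable

/-- **the Mellin transforms of a family on the critical line** -/
theorem mel_fam (K : Type) [Field K] [NumberField K] : ∃ C : ℝ, 0 < C ∧
    ∀ (𝔣 𝔡 : Ideal (𝓞 K)) (e : InfinitePlace K → ℕ) (I : Type) [Fintype I]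
      (ψ : I → Ideal (𝓞 K) →*₀ ℂ), Fam 𝔣 𝔡 e ψ → 𝔣 ≠ ⊥ → 𝔣 ≤ 𝔡 → 𝔡 ^ 3 ≤ 𝔣 →
      ∀ t φ : ℝ, |φ| < Real.pi / 2 →
      ∑ i, ‖mellin (Ftot (ψ i) e (rp K)) (1 / 2 + t * Complex.I)‖ ^ 2 ≤
        C * (Real.cos φ)⁻¹ ^ (4 * Module.finrank ℚ K) * (tau 𝔣 : ℝ) ^ 2 *
          (Ideal.absNorm 𝔡 : ℝ) * Real.exp (-((Module.finrank ℚ K : ℝ) * t * φ)) *
          (Real.log (RR 𝔣) + 8) ^ 2 := by
  classical
  obtain ⟨C, hC, hG⟩ := Gz_fam K
  set hh : ℝ := (Fintype.card (ClassGroup (𝓞 K)) : ℝ) with hhh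
  have hh0 : 0 < hh := by
    have : 0 < Fintype.card (ClassGroup (𝓞 K)) := Fintype.card_pos
    rw [hhh]
    exact_mod_cast this
  refine ⟨hh ^ 2 * C, by positivity, ?_⟩
  intro 𝔣 𝔡 e I hI ψ hF hf0 h1 h3 t φ hφ
  have hn : (0 : ℝ) < Module.finrank ℚ K := by exact_mod_cast Module.finrank_pos (R := ℚ) (M := K)
  set n : ℕ := Module.finrank ℚ K with hn'
  have hd0 : 𝔡 ≠ ⊥ := fun h5 => hf0 (by rw [h5] at h1; exact le_bot_iff.mp h1)
  have hNd := absNorm_pos0 hd0
  have hρ : 0 ≤ Real.log (RR 𝔣) := Real.log_nonneg (one_le_RR hf0)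
  have hφ' := abs_lt.mp hφ
  have hcosφ : 0 < Real.cos φ := Real.cos_pos_of_mem_Ioo ⟨hφ'.1, hφ'.2⟩
  set s : ℂ := 1 / 2 + t * Complex.I with hs
  set W : ℝ := C * (Real.cos φ)⁻¹ ^ (4 * n) * (tau 𝔣 : ℝ) ^ 2 * (Ideal.absNorm 𝔡 : ℝ) with hW
  have hW0 : 0 ≤ W := by positivity
  set E : ℝ := Real.exp (-((n : ℝ) * t * φ)) with hE
  have hE0 : 0 < E := Real.exp_pos _
  rcases isEmpty_or_nonempty I with hemp | ⟨⟨i₀⟩⟩
  · rw [Finset.univ_eq_empty, Finset.sum_empty]
    positivity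
  have he := (hF.mod i₀).sig_le
  have hΨ : ∀ i (𝔟 : Ideal (𝓞 K)) x, ‖Ps (ψ i) e 𝔟 x‖ ≤ 1 := fun i 𝔟 x =>
    norm_Ps_le (hF.mod i).norm_le_one 𝔟 x
  -- pointwise bounds
  have him : ∀ x y : ℝ, ((x : ℂ) + y * Complex.I).im = y := fun x y => by simp
  have hre : ∀ x y : ℝ, ((x : ℂ) + y * Complex.I).re = x := fun x y => by simp
  have hθabs : ∀ θ ∈ Icc (0 : Fin (rank K) → ℝ) 1, ∀ i, |θ i| ≤ 1 := by
    intro θ hθ i
    rw [abs_of_nonneg (hθ.1 i)]
    exact hθ.2 i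
  have hpt : ∀ (c : ClassGroup (𝓞 K)) (i : I) (θ : Fin (rank K) → ℝ), θ ∈ Icc (0 : Fin (rank K) → ℝ) 1 →
      ∀ x y : ℝ, |y| ≤ |φ| → ‖Gz e (Ps (ψ i) e (rp K c)) s θ (x + y * Complex.I)‖ ≤
        √(W * Real.exp (n * |t| * |φ|) * (Ideal.absNorm (rp K c) : ℝ)⁻¹) * ww 𝔣 (rp K c) x := by
    intro c i θ hθ x y hy
    have hyS : ((x : ℂ) + y * Complex.I) ∈ Str (Real.pi / 2) := by
      change |((x : ℂ) + y * Complex.I).im| < Real.pi / 2
      rw [him]
      exact lt_of_le_of_lt hy hφ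
    have h5 := hG 𝔣 𝔡 (rp K c) e I ψ hF (rp_ne_bot c) hf0 h1 h3 _ hyS θ (hθabs θ hθ) t
    rw [him, hre] at h5
    have hNc := absNorm_pos0 (rp_ne_bot (K := K) c)
    have h6 : ‖Gz e (Ps (ψ i) e (rp K c)) s θ (x + y * Complex.I)‖ ^ 2 ≤
        (W * Real.exp (n * |t| * |φ|) * (Ideal.absNorm (rp K c) : ℝ)⁻¹) * ww 𝔣 (rp K c) x ^ 2 := by
      refine (Finset.single_le_sum (f := fun i => ‖Gz e (Ps (ψ i) e (rp K c)) s θ
        (x + y * Complex.I)‖ ^ 2) (fun _ _ => by positivity) (Finset.mem_univ i)).trans (h5.trans ?_)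
      have hcy : Real.cos φ ≤ Real.cos y := by
        rw [← Real.cos_abs φ, ← Real.cos_abs y]
        exact Real.cos_le_cos_of_nonneg_of_le_pi (abs_nonneg y) (by linarith [Real.pi_pos]) hy
      have hcy2 : (Real.cos y)⁻¹ ^ (4 * n) ≤ (Real.cos φ)⁻¹ ^ (4 * n) :=
        pow_le_pow_left₀ (inv_nonneg.mpr (hcosφ.le.trans hcy)) (inv_anti₀ hcosφ hcy) _
      have hex : Real.exp (-((n : ℝ) * t * y)) ≤ Real.exp (n * |t| * |φ|) := by
        apply Real.exp_le_exp.mpr
        have h7 : -((n : ℝ) * t * y) ≤ |(n : ℝ) * t * y| := neg_le_abs _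
        rw [abs_mul, abs_mul, Nat.abs_cast] at h7
        exact h7.trans (by gcongr)
      rw [hW]
      have hww := ww_nonneg (K := K) 𝔣 (rp K c) x
      calc _ ≤ C * (Real.cos φ)⁻¹ ^ (4 * n) * (tau 𝔣 : ℝ) ^ 2 * (Ideal.absNorm 𝔡 : ℝ) *
            Real.exp (n * |t| * |φ|) * ((Ideal.absNorm (rp K c) : ℝ)⁻¹ * ww 𝔣 (rp K c) x ^ 2) := by
            gcongr
        _ = _ := by ring
    have h7 := Real.sqrt_le_sqrt h6
    rw [Real.sqrt_sq (norm_nonneg _), Real.sqrt_mul (by positivity), Real.sqrt_sq (ww_nonneg _ _ _)] at h7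
    exact h7
  -- the dominating functions
  set Bc : ClassGroup (𝓞 K) → ℝ → ℝ := fun c x =>
    √(W * Real.exp (n * |t| * |φ|) * (Ideal.absNorm (rp K c) : ℝ)⁻¹) * ww 𝔣 (rp K c) x with hBc
  have hBi : ∀ c, Integrable (Bc c) := fun c => (int_ww hf0 (rp K c)).1.const_mul _
  have hBt : ∀ c, Tendsto (Bc c) atTop (𝓝 0) := fun c => by
    have h5 := (tendsto_ww_top 𝔣 (rp K c)).const_mul
      (√(W * Real.exp (n * |t| * |φ|) * (Ideal.absNorm (rp K c) : ℝ)⁻¹))
    rw [mul_zero] at h5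
    exact h5
  have hBb : ∀ c, Tendsto (Bc c) atBot (𝓝 0) := fun c => by
    have h5 := (tendsto_ww_bot 𝔣 (rp K c)).const_mul
      (√(W * Real.exp (n * |t| * |φ|) * (Ideal.absNorm (rp K c) : ℝ)⁻¹))
    rw [mul_zero] at h5
    exact h5
  have hline : ∀ (c : ClassGroup (𝓞 K)) (i : I), ∀ x : ℝ, ∀ θ ∈ Icc (0 : Fin (rank K) → ℝ) 1,
      ‖Gz e (Ps (ψ i) e (rp K c)) s θ (x : ℂ)‖ ≤ Bc c x := by
    intro c i x θ hθ
    have h5 := hpt c i θ hθ x 0 (by rw [abs_zero]; exact abs_nonneg _)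
    have e0 : ((x : ℂ) + ((0 : ℝ) : ℂ) * Complex.I) = (x : ℂ) := by simp
    rw [e0] at h5
    exact h5
  have hmel := fun (c : ClassGroup (𝓞 K)) (i : I) =>
    mellin_hf_line he (hΨ i (rp K c)) s (hBi c) (hline c i)
  -- the mellin transforms
  set M : I → ℂ := fun i => mellin (Ftot (ψ i) e (rp K)) s with hM
  set J : ClassGroup (𝓞 K) → I → (Fin (rank K) → ℝ) → ℂ := fun c i θ =>
    ∫ x : ℝ, Gz e (Ps (ψ i) e (rp K c)) s θ (x : ℂ) with hJ
  set ac : ClassGroup (𝓞 K) → ℂ := fun c =>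
    ((Ideal.absNorm (rp K c) : ℝ) : ℂ) ^ s * (((n : ℝ) / 2 : ℝ) : ℂ) with hac
  set Q : Set (Fin (rank K) → ℝ) := Icc 0 1 with hQ
  have hMeq : ∀ i, M i = ∑ c, ac c * ∫ θ in Q, J c i θ := by
    intro i
    have h5 : M i = ∑ c, ((Ideal.absNorm (rp K c) : ℝ) : ℂ) ^ s *
        mellin (hf e (Ps (ψ i) e (rp K c))) s := by
      rw [hM]
      unfold Ftot
      exact mellin_sum_scaled (f := fun c => hf e (Ps (ψ i) e (rp K c)))
        (a := fun c => (Ideal.absNorm (rp K c) : ℝ)) (fun c => absNorm_pos0 (rp_ne_bot c))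
        (fun c => (hmel c i).1)
    rw [h5]
    refine Finset.sum_congr rfl fun c _ => ?_
    rw [(hmel c i).2.2, hac, hJ]
    ring
  set T : ℝ := ∑ i, ‖M i‖ ^ 2 with hT
  have hT0 : 0 ≤ T := Finset.sum_nonneg fun _ _ => by positivity
  -- duality
  have hTeq : (T : ℂ) = ∑ c, ac c * ∫ θ in Q, ∑ i, (starRingEnd ℂ) (M i) * J c i θ := by
    have h5 : ∀ c, ∫ θ in Q, ∑ i, (starRingEnd ℂ) (M i) * J c i θ =
        ∑ i, (starRingEnd ℂ) (M i) * ∫ θ in Q, J c i θ := by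
      intro c
      rw [integral_finsetSum _ fun i _ => ((hmel c i).2.1).const_mul _]
      exact Finset.sum_congr rfl fun i _ => integral_const_mul _ _
    simp_rw [h5, Finset.mul_sum]
    rw [Finset.sum_comm, hT]
    push_cast
    refine Finset.sum_congr rfl fun i _ => ?_
    have h6 : ((‖M i‖ : ℝ) : ℂ) ^ 2 = (starRingEnd ℂ) (M i) * M i := by
      rw [mul_comm, Complex.mul_conj, Complex.normSq_eq_norm_sq]
      push_cast
      rfl
    have h7 : (starRingEnd ℂ) (M i) * M i =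
        (starRingEnd ℂ) (M i) * ∑ c, ac c * ∫ θ in Q, J c i θ :=
      congrArg (fun z => (starRingEnd ℂ) (M i) * z) (hMeq i)
    rw [h6, h7, Finset.mul_sum]
    refine Finset.sum_congr rfl fun c _ => ?_
    ring
  -- the inner bound
  have hinner : ∀ c, ∀ θ ∈ Q, ‖∑ i, (starRingEnd ℂ) (M i) * J c i θ‖ ≤
      √T * (√(W * E) * √((Ideal.absNorm (rp K c) : ℝ)⁻¹)) * (2 / (n : ℝ) * (Real.log (RR 𝔣) + 8)) := by
    intro c θ hθ
    have hNc := absNorm_pos0 (rp_ne_bot (K := K) c)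
    have h5 : ∀ i, J c i θ = ∫ x : ℝ, Gz e (Ps (ψ i) e (rp K c)) s θ (x + φ * Complex.I) := by
      intro i
      exact Gz_shift he (hΨ i (rp K c)) s θ hφ (hBi c) (hBt c) (hBb c)
        (fun x y hy => hpt c i θ hθ x y hy)
    have hint : ∀ i, Integrable fun x : ℝ => Gz e (Ps (ψ i) e (rp K c)) s θ (x + φ * Complex.I) :=
      fun i => Gz_int he (hΨ i (rp K c)) s θ hφ (hBi c) (fun x => hpt c i θ hθ x φ le_rfl)
    have h6 : ∑ i, (starRingEnd ℂ) (M i) * J c i θ = ∫ x : ℝ, ∑ i, (starRingEnd ℂ) (M i) *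
        Gz e (Ps (ψ i) e (rp K c)) s θ (x + φ * Complex.I) := by
      rw [integral_finsetSum _ fun i _ => (hint i).const_mul _]
      refine Finset.sum_congr rfl fun i _ => ?_
      rw [h5 i, integral_const_mul]
    rw [h6]
    have h7 : ∀ x : ℝ, ‖∑ i, (starRingEnd ℂ) (M i) *
        Gz e (Ps (ψ i) e (rp K c)) s θ (x + φ * Complex.I)‖ ≤
        √T * (√(W * E) * √((Ideal.absNorm (rp K c) : ℝ)⁻¹)) * ww 𝔣 (rp K c) x := by
      intro x
      have hφS : ((x : ℂ) + φ * Complex.I) ∈ Str (Real.pi / 2) := by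
        change |((x : ℂ) + φ * Complex.I).im| < Real.pi / 2
        rw [him]
        exact hφ
      have h8 := hG 𝔣 𝔡 (rp K c) e I ψ hF (rp_ne_bot c) hf0 h1 h3 _ hφS θ (hθabs θ hθ) t
      rw [him, hre] at h8
      have h9 : ‖∑ i, (starRingEnd ℂ) (M i) *
          Gz e (Ps (ψ i) e (rp K c)) s θ (x + φ * Complex.I)‖ ^ 2 ≤
          T * ∑ i, ‖Gz e (Ps (ψ i) e (rp K c)) s θ (x + φ * Complex.I)‖ ^ 2 := by
        have a1 : ‖∑ i, (starRingEnd ℂ) (M i) *
            Gz e (Ps (ψ i) e (rp K c)) s θ (x + φ * Complex.I)‖ ≤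
            ∑ i, ‖M i‖ * ‖Gz e (Ps (ψ i) e (rp K c)) s θ (x + φ * Complex.I)‖ := by
          refine (norm_sum_le _ _).trans (le_of_eq ?_)
          refine Finset.sum_congr rfl fun i _ => ?_
          rw [norm_mul, RCLike.norm_conj]
        refine (pow_le_pow_left₀ (norm_nonneg _) a1 2).trans ?_
        exact Finset.sum_mul_sq_le_sq_mul_sq Finset.univ (fun i => ‖M i‖) _
      have h10 : ‖∑ i, (starRingEnd ℂ) (M i) *
          Gz e (Ps (ψ i) e (rp K c)) s θ (x + φ * Complex.I)‖ ^ 2 ≤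
          (√T * (√(W * E) * √((Ideal.absNorm (rp K c) : ℝ)⁻¹)) * ww 𝔣 (rp K c) x) ^ 2 := by
        refine h9.trans ((mul_le_mul_of_nonneg_left h8 hT0).trans (le_of_eq ?_))
        rw [mul_pow, mul_pow, mul_pow, Real.sq_sqrt hT0, Real.sq_sqrt (by positivity),
          Real.sq_sqrt (by positivity), hW, hE]
        ring
      exact le_of_sq_le_sq h10 (mul_nonneg (by positivity) (ww_nonneg _ _ _))
    refine (norm_integral_le_of_norm_le ((int_ww hf0 (rp K c)).1.const_mul _)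
      (Eventually.of_forall h7)).trans (le_of_eq ?_)
    rw [integral_const_mul, (int_ww hf0 (rp K c)).2]
  have hfin : T ≤ √T * (hh * √(W * E) * (Real.log (RR 𝔣) + 8)) := by
    have h5 : T = ‖(T : ℂ)‖ := by rw [Complex.norm_real, Real.norm_of_nonneg hT0]
    rw [h5, hTeq]
    have h6 : ∀ c ∈ (Finset.univ : Finset (ClassGroup (𝓞 K))),
        ‖ac c * ∫ θ in Q, ∑ i, (starRingEnd ℂ) (M i) * J c i θ‖ ≤
        √T * √(W * E) * (Real.log (RR 𝔣) + 8) := by
      intro c _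
      have hNc := absNorm_pos0 (rp_ne_bot (K := K) c)
      have h7 := norm_setIntegral_le_of_norm_le_const (μ := volume) (s := Q)
        (by rw [hQ, volume_cube]; exact ENNReal.one_lt_top) (hinner c)
      have h8 : (volume : Measure (Fin (rank K) → ℝ)).real Q = 1 := by
        rw [hQ, Measure.real, volume_cube]
        simp
      rw [h8, mul_one] at h7
      have h9 : ‖ac c‖ = √(Ideal.absNorm (rp K c) : ℝ) * ((n : ℝ) / 2) := by
        rw [hac]
        simp only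
        rw [norm_mul, Complex.norm_real, Real.norm_of_nonneg (by positivity),
          Complex.norm_cpow_eq_rpow_re_of_pos hNc, Real.sqrt_eq_rpow]
        congr 2
        rw [hs]
        simp
      rw [norm_mul, h9]
      have h10 : √(Ideal.absNorm (rp K c) : ℝ) * √((Ideal.absNorm (rp K c) : ℝ)⁻¹) = 1 := by
        rw [← Real.sqrt_mul hNc.le, mul_inv_cancel₀ hNc.ne', Real.sqrt_one]
      calc √(Ideal.absNorm (rp K c) : ℝ) * ((n : ℝ) / 2) *
            ‖∫ θ in Q, ∑ i, (starRingEnd ℂ) (M i) * J c i θ‖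
          ≤ √(Ideal.absNorm (rp K c) : ℝ) * ((n : ℝ) / 2) *
            (√T * (√(W * E) * √((Ideal.absNorm (rp K c) : ℝ)⁻¹)) *
              (2 / (n : ℝ) * (Real.log (RR 𝔣) + 8))) :=
            mul_le_mul_of_nonneg_left h7 (by positivity)
        _ = (√(Ideal.absNorm (rp K c) : ℝ) * √((Ideal.absNorm (rp K c) : ℝ)⁻¹)) *
            (√T * √(W * E) * (Real.log (RR 𝔣) + 8)) * ((n : ℝ) / 2 * (2 / (n : ℝ))) := by ring
        _ = _ := by
            rw [h10]
            field_simp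
    refine (norm_sum_le_of_le _ h6).trans (le_of_eq ?_)
    rw [Finset.sum_const, Finset.card_univ, nsmul_eq_mul, ← hhh, ← hTeq, ← h5]
    ring
  have hfin2 : T ≤ (hh * √(W * E) * (Real.log (RR 𝔣) + 8)) ^ 2 := by
    set S : ℝ := hh * √(W * E) * (Real.log (RR 𝔣) + 8) with hS
    have hS0 : 0 ≤ S := by positivity
    have h5 : √T ^ 2 = T := Real.sq_sqrt hT0
    have h6 : √T ≤ S := by
      rcases (Real.sqrt_nonneg T).eq_or_lt with h7 | h7
      · rw [← h7]; exact hS0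
      · rw [← h5] at hfin
        have : √T * √T ≤ √T * S := by
          calc √T * √T = √T ^ 2 := (sq _).symm
            _ ≤ _ := by
              refine hfin.trans (le_of_eq ?_)
              rw [h5]
        exact le_of_mul_le_mul_left this h7
    rw [← h5]
    exact pow_le_pow_left₀ (Real.sqrt_nonneg _) h6 2
  refine hfin2.trans (le_of_eq ?_)
  rw [mul_pow, mul_pow, Real.sq_sqrt (by positivity), hW]
  ring

end Pool.Agent.A856.HW
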