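import Pool.Agent.A856.HW.Wt

/-!
# Mellin transforms on the critical line and rotation of the contour

Owner helper856 (Hecke L-functions with powerful conductor).
-/

set_option autoImplicit false
set_option linter.unusedSectionVars false
set_option linter.unusedVariables false
set_option maxHeartbeats 4000000

open NumberField Complex Filter Topology Set MeasureTheory
open NumberField.Units NumberField.Units.dirichletUnitTheorem

namespace Pool.Agent.A856.HW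

open Pool.Agent.Y773 (Reps rp rp_ne_bot reps_rp FT absNorm_span_nat integral_exp_sub
  integrable_exp_sub volume_cube)
open Pool.Agent.Y773.G

variable {K : Type} [Field K] [NumberField K]

/-- the integrand -/
noncomputable def Gz (e : InfinitePlace K → ℕ) (Ψ : 𝓞 K → ℂ) (s : ℂ) (θ : Fin (rank K) → ℝ)
    (z : ℂ) : ℂ := thc e Ψ z θ * cexp (Module.finrank ℚ K * s * z / 2)

lemma norm_exp_line (n : ℕ) (t : ℝ) (z : ℂ) :
    ‖cexp (n * (1 / 2 + t * I) * z / 2)‖ = Real.exp (n * z.re / 4) * Real.exp (-(n * t * z.im / 2)) := by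
  rw [Complex.norm_exp, ← Real.exp_add]
  congr 1
  have h1 : (n : ℂ) * (1 / 2 + t * I) * z / 2 = ((n / 4 : ℝ) : ℂ) * z + ((n * t / 2 : ℝ) : ℂ) * (I * z) := by
    push_cast
    ring
  rw [h1, Complex.add_re, Complex.re_ofReal_mul, Complex.re_ofReal_mul]
  simp
  ring

/-- the dominating function in the variable `x` -/
noncomputable def ww (𝔣 𝔟 : Ideal (𝓞 K)) (x : ℝ) : ℝ :=
  gD (Real.log (RR 𝔣)) ((Module.finrank ℚ K : ℝ) / 2 * x + Real.log (Ideal.absNorm 𝔟 : ℝ))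

lemma ww_nonneg (𝔣 𝔟 : Ideal (𝓞 K)) (x : ℝ) : 0 ≤ ww 𝔣 𝔟 x := gD_nonneg _ _

lemma int_ww {𝔣 : Ideal (𝓞 K)} (hf : 𝔣 ≠ ⊥) (𝔟 : Ideal (𝓞 K)) : Integrable (ww 𝔣 𝔟) ∧
    ∫ x, ww 𝔣 𝔟 x = 2 / (Module.finrank ℚ K : ℝ) * (Real.log (RR 𝔣) + 8) := by
  have hn : (0 : ℝ) < Module.finrank ℚ K := by exact_mod_cast Module.finrank_pos (R := ℚ) (M := K)
  have hρ : 0 ≤ Real.log (RR 𝔣) := Real.log_nonneg (one_le_RR hf)
  obtain ⟨h1, h2⟩ := int_gD hρ
  have h3 : Integrable fun y => gD (Real.log (RR 𝔣)) (y + Real.log (Ideal.absNorm 𝔟 : ℝ)) :=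
    h1.comp_add_right _
  have h4 : (0 : ℝ) < (Module.finrank ℚ K : ℝ) / 2 := by positivity
  constructor
  · exact h3.comp_mul_left' h4.ne'
  · unfold ww
    rw [Measure.integral_comp_mul_left
      (fun y => gD (Real.log (RR 𝔣)) (y + Real.log (Ideal.absNorm 𝔟 : ℝ))),
      integral_add_right_eq_self (gD (Real.log (RR 𝔣))), h2, smul_eq_mul, abs_of_pos (by positivity),
      inv_div]

lemma tendsto_ww_top (𝔣 𝔟 : Ideal (𝓞 K)) : Tendsto (ww 𝔣 𝔟) atTop (𝓝 0) := by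
  have hn : (0 : ℝ) < Module.finrank ℚ K := by exact_mod_cast Module.finrank_pos (R := ℚ) (M := K)
  refine tendsto_gD_top.comp (tendsto_atTop_add_const_right _ _ ?_)
  exact tendsto_id.const_mul_atTop (by positivity)

lemma tendsto_ww_bot (𝔣 𝔟 : Ideal (𝓞 K)) : Tendsto (ww 𝔣 𝔟) atBot (𝓝 0) := by
  have hn : (0 : ℝ) < Module.finrank ℚ K := by exact_mod_cast Module.finrank_pos (R := ℚ) (M := K)
  refine tendsto_gD_bot.comp (tendsto_atBot_add_const_right _ _ ?_)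
  exact tendsto_id.const_mul_atBot (by positivity)

/-- the weights -/
lemma min_mul_le {𝔣 𝔟 : Ideal (𝓞 K)} (hf : 𝔣 ≠ ⊥) (hb : 𝔟 ≠ ⊥) (x : ℝ) :
    min (min (XL 𝔟 x) (XL 𝔟 x ^ 2)) (RR 𝔣) * Real.exp ((Module.finrank ℚ K : ℝ) * x / 4) ^ 2 ≤
      (Ideal.absNorm 𝔟 : ℝ)⁻¹ * ww 𝔣 𝔟 x ^ 2 := by
  have hNb := absNorm_pos0 hb
  have hR0 : 0 < RR 𝔣 := lt_of_lt_of_le one_pos (one_le_RR hf)
  set n : ℝ := (Module.finrank ℚ K : ℝ) with hn
  set y : ℝ := n / 2 * x + Real.log (Ideal.absNorm 𝔟 : ℝ) with hy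
  have hX : XL 𝔟 x = Real.exp (-y) := by
    unfold XL
    rw [hy, neg_add, Real.exp_add, Real.exp_neg (Real.log _), Real.exp_log hNb, div_eq_mul_inv]
    congr 2
    ring
  have hE : Real.exp (n * x / 4) ^ 2 = (Ideal.absNorm 𝔟 : ℝ)⁻¹ * Real.exp y := by
    rw [hy, Real.exp_add, Real.exp_log hNb, ← Real.exp_nat_mul]
    field_simp
    congr 1
    push_cast
    ring
  rw [hE, hX]
  have h1 : min (min (Real.exp (-y)) (Real.exp (-y) ^ 2)) (RR 𝔣) * Real.exp y ≤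
      (min 1 (min (Real.exp (-y / 2)) (Real.exp ((Real.log (RR 𝔣) + y) / 2)))) ^ 2 := by
    have hpos : 0 ≤ min (min (Real.exp (-y)) (Real.exp (-y) ^ 2)) (RR 𝔣) :=
      le_min (le_min (Real.exp_pos _).le (by positivity)) hR0.le
    have a1 : min (min (Real.exp (-y)) (Real.exp (-y) ^ 2)) (RR 𝔣) * Real.exp y ≤ 1 ^ 2 := by
      calc _ ≤ Real.exp (-y) * Real.exp y :=
            mul_le_mul_of_nonneg_right ((min_le_left _ _).trans (min_le_left _ _)) (Real.exp_pos _).le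
        _ = 1 ^ 2 := by rw [← Real.exp_add]; simp
    have a2 : min (min (Real.exp (-y)) (Real.exp (-y) ^ 2)) (RR 𝔣) * Real.exp y ≤
        Real.exp (-y / 2) ^ 2 := by
      calc _ ≤ Real.exp (-y) ^ 2 * Real.exp y :=
            mul_le_mul_of_nonneg_right ((min_le_left _ _).trans (min_le_right _ _)) (Real.exp_pos _).le
        _ = _ := by
            rw [← Real.exp_nat_mul, ← Real.exp_nat_mul, ← Real.exp_add]
            congr 1
            push_cast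
            ring
    have a3 : min (min (Real.exp (-y)) (Real.exp (-y) ^ 2)) (RR 𝔣) * Real.exp y ≤
        Real.exp ((Real.log (RR 𝔣) + y) / 2) ^ 2 := by
      calc _ ≤ RR 𝔣 * Real.exp y :=
            mul_le_mul_of_nonneg_right (min_le_right _ _) (Real.exp_pos _).le
        _ = _ := by
            rw [← Real.exp_nat_mul]
            have : ((2 : ℕ) : ℝ) * ((Real.log (RR 𝔣) + y) / 2) = Real.log (RR 𝔣) + y := by
              push_cast; ring
            rw [this, Real.exp_add (Real.log (RR 𝔣)) y, Real.exp_log hR0]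
    rcases min_choice (1 : ℝ) (min (Real.exp (-y / 2)) (Real.exp ((Real.log (RR 𝔣) + y) / 2)))
      with h | h <;> rw [h]
    · exact a1
    · rcases min_choice (Real.exp (-y / 2)) (Real.exp ((Real.log (RR 𝔣) + y) / 2))
        with h' | h' <;> rw [h']
      · exact a2
      · exact a3
  have h2 : (min 1 (min (Real.exp (-y / 2)) (Real.exp ((Real.log (RR 𝔣) + y) / 2)))) ^ 2 ≤
      ww 𝔣 𝔟 x ^ 2 := by
    refine pow_le_pow_left₀ (le_min zero_le_one (le_min (Real.exp_pos _).le (Real.exp_pos _).le)) ?_ 2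
    exact min_le_gD
  calc _ = (Ideal.absNorm 𝔟 : ℝ)⁻¹ * (min (min (Real.exp (-y)) (Real.exp (-y) ^ 2)) (RR 𝔣) *
        Real.exp y) := by ring
    _ ≤ _ := mul_le_mul_of_nonneg_left (h1.trans h2) (by positivity)

/-- the bound for the integrands of a family -/
theorem Gz_fam (K : Type) [Field K] [NumberField K] : ∃ C : ℝ, 0 < C ∧
    ∀ (𝔣 𝔡 𝔟 : Ideal (𝓞 K)) (e : InfinitePlace K → ℕ) (I : Type) [Fintype I]
      (ψ : I → Ideal (𝓞 K) →*₀ ℂ), Fam 𝔣 𝔡 e ψ → 𝔟 ≠ ⊥ → 𝔣 ≠ ⊥ → 𝔣 ≤ 𝔡 → 𝔡 ^ 3 ≤ 𝔣 →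
      ∀ z ∈ Str (Real.pi / 2), ∀ θ : Fin (rank K) → ℝ, (∀ i, |θ i| ≤ 1) → ∀ t : ℝ,
      ∑ i, ‖Gz e (Ps (ψ i) e 𝔟) (1 / 2 + t * Complex.I) θ z‖ ^ 2 ≤
        C * (Real.cos z.im)⁻¹ ^ (4 * Module.finrank ℚ K) * (tau 𝔣 : ℝ) ^ 2 *
          (Ideal.absNorm 𝔡 : ℝ) * Real.exp (-((Module.finrank ℚ K : ℝ) * t * z.im)) *
          ((Ideal.absNorm 𝔟 : ℝ)⁻¹ * ww 𝔣 𝔟 z.re ^ 2) := by
  obtain ⟨C, hC, h⟩ := thc_fam K
  refine ⟨C, hC, fun 𝔣 𝔡 𝔟 e I hI ψ hF hb hf h1 h3 z hz θ hθ t => ?_⟩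
  have h5 := h 𝔣 𝔡 𝔟 e I ψ hF hb h1 h3 z hz θ hθ
  have hcos := cos_pos_of hz
  set n : ℕ := Module.finrank ℚ K with hn
  have hG : ∀ i, ‖Gz e (Ps (ψ i) e 𝔟) (1 / 2 + t * Complex.I) θ z‖ ^ 2 =
      ‖thc e (Ps (ψ i) e 𝔟) z θ‖ ^ 2 * (Real.exp ((n : ℝ) * z.re / 4) ^ 2 *
        Real.exp (-((n : ℝ) * t * z.im))) := by
    intro i
    unfold Gz
    rw [norm_mul, norm_exp_line, mul_pow, mul_pow, ← Real.exp_nat_mul (-(↑n * t * z.im / 2))]
    congr 3
    push_cast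
    ring
  simp_rw [hG]
  rw [← Finset.sum_mul]
  have h6 := min_mul_le (K := K) hf hb z.re
  calc _ ≤ (C * (Real.cos z.im)⁻¹ ^ (4 * n) * (tau 𝔣 : ℝ) ^ 2 *
          (Ideal.absNorm 𝔡 : ℝ) * min (min (XL 𝔟 z.re) (XL 𝔟 z.re ^ 2)) (RR 𝔣)) *
          (Real.exp ((n : ℝ) * z.re / 4) ^ 2 * Real.exp (-((n : ℝ) * t * z.im))) :=
        mul_le_mul_of_nonneg_right h5 (by positivity)
    _ = C * (Real.cos z.im)⁻¹ ^ (4 * n) * (tau 𝔣 : ℝ) ^ 2 *
          (Ideal.absNorm 𝔡 : ℝ) * Real.exp (-((n : ℝ) * t * z.im)) *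
          (min (min (XL 𝔟 z.re) (XL 𝔟 z.re ^ 2)) (RR 𝔣) *
          Real.exp ((n : ℝ) * z.re / 4) ^ 2) := by ring
    _ ≤ _ := mul_le_mul_of_nonneg_left h6 (by positivity)

/-- **rotation of the contour** -/
lemma Gz_shift {e : InfinitePlace K → ℕ} (he : ∀ w, e w ≤ 1) {Ψ : 𝓞 K → ℂ} {B₀ : ℝ}
    (hB₀ : ∀ x, ‖Ψ x‖ ≤ B₀) (s : ℂ) (θ : Fin (rank K) → ℝ) {φ : ℝ} (hφ : |φ| < Real.pi / 2)
    {B : ℝ → ℝ} (hB : Integrable B) (hBt : Tendsto B atTop (𝓝 0)) (hBb : Tendsto B atBot (𝓝 0))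
    (hbd : ∀ x y : ℝ, |y| ≤ |φ| → ‖Gz e Ψ s θ (x + y * Complex.I)‖ ≤ B x) :
    ∫ x : ℝ, Gz e Ψ s θ (x : ℂ) = ∫ x : ℝ, Gz e Ψ s θ (x + φ * Complex.I) := by
  have hd : ∀ z ∈ Str (Real.pi / 2), DifferentiableAt ℂ (Gz e Ψ s θ) z := by
    intro z hz
    unfold Gz
    refine DifferentiableAt.mul ?_ (by fun_prop)
    exact ((differentiableOn_thc he hB₀ θ) z hz).differentiableAt ((isOpen_Str _).mem_nhds hz)
  have him : ∀ x y : ℝ, |y| ≤ |φ| → ((x : ℂ) + y * Complex.I) ∈ Str (Real.pi / 2) := by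
    intro x y hy
    change |((x : ℂ) + y * Complex.I).im| < Real.pi / 2
    have : ((x : ℂ) + y * Complex.I).im = y := by simp
    rw [this]
    exact lt_of_le_of_lt hy hφ
  have h0 : ∫ x : ℝ, Gz e Ψ s θ (x : ℂ) = ∫ x : ℝ, Gz e Ψ s θ (x + ((0 : ℝ) : ℂ) * Complex.I) := by
    congr 1
    funext x
    congr 1
    simp
  rw [h0]
  rcases le_total 0 φ with h | h
  · refine strip_shift (Gz e Ψ s θ) 0 φ h B hB hBt hBb (fun x y h1 h2 => hd _ (him x y ?_))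
      (fun x y h1 h2 => hbd x y ?_)
    · rw [abs_of_nonneg h1, abs_of_nonneg h]; exact h2
    · rw [abs_of_nonneg h1, abs_of_nonneg h]; exact h2
  · refine (strip_shift (Gz e Ψ s θ) φ 0 h B hB hBt hBb (fun x y h1 h2 => hd _ (him x y ?_))
      (fun x y h1 h2 => hbd x y ?_)).symm
    · rw [abs_of_nonpos h2, abs_of_nonpos h]; linarith
    · rw [abs_of_nonpos h2, abs_of_nonpos h]; linarith

/-- the Mellin transform as a double integral -/
lemma mellin_hf_line {e : InfinitePlace K → ℕ} (he : ∀ w, e w ≤ 1) {Ψ : 𝓞 K → ℂ} {B₀ : ℝ}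
    (hB₀ : ∀ x, ‖Ψ x‖ ≤ B₀) (s : ℂ) {B : ℝ → ℝ} (hB : Integrable B)
    (hbd : ∀ x : ℝ, ∀ θ ∈ Icc (0 : Fin (rank K) → ℝ) 1, ‖Gz e Ψ s θ (x : ℂ)‖ ≤ B x) :
    MellinConvergent (hf e Ψ) s ∧
    IntegrableOn (fun θ => ∫ x : ℝ, Gz e Ψ s θ (x : ℂ)) (Icc (0 : Fin (rank K) → ℝ) 1) ∧
    mellin (hf e Ψ) s = ((Module.finrank ℚ K : ℝ) / 2 : ℝ) *
      ∫ θ in Icc (0 : Fin (rank K) → ℝ) 1, ∫ x : ℝ, Gz e Ψ s θ (x : ℂ) := by
  have hn : (0 : ℝ) < Module.finrank ℚ K := by exact_mod_cast Module.finrank_pos (R := ℚ) (M := K)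
  set n : ℝ := ((Module.finrank ℚ K : ℕ) : ℝ) with hn'
  set Q : Set (Fin (rank K) → ℝ) := Icc 0 1 with hQ
  -- the product integrability
  have hcont : Continuous fun p : ℝ × (Fin (rank K) → ℝ) => Gz e Ψ s p.2 ((p.1 : ℝ) : ℂ) := by
    unfold Gz
    simp_rw [thc_real]
    have h4 : Continuous (Pool.Agent.Y773.el K) := (Pool.Agent.Y773.el K).continuous_of_finiteDimensional
    exact ((continuous_th he hB₀).comp h4).mul (by fun_prop)
  have hmeas : (volume : Measure ℝ).prod (volume.restrict Q) =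
      ((volume : Measure ℝ).prod (volume : Measure (Fin (rank K) → ℝ))).restrict (univ ×ˢ Q) := by
    rw [← Measure.prod_restrict, Measure.restrict_univ]
  have hQfin : (volume : Measure (Fin (rank K) → ℝ)) Q < ⊤ := by
    rw [hQ, volume_cube]
    exact ENNReal.one_lt_top
  have hfinm : IsFiniteMeasure ((volume : Measure (Fin (rank K) → ℝ)).restrict Q) :=
    ⟨by rw [Measure.restrict_apply_univ]; exact hQfin⟩
  have hint : Integrable (fun p : ℝ × (Fin (rank K) → ℝ) => Gz e Ψ s p.2 ((p.1 : ℝ) : ℂ))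
      ((volume : Measure ℝ).prod (volume.restrict Q)) := by
    have h5 : Integrable (fun p : ℝ × (Fin (rank K) → ℝ) => B p.1 * (1 : ℝ))
        ((volume : Measure ℝ).prod (volume.restrict Q)) := hB.mul_prod (integrable_const 1)
    refine h5.mono' hcont.aestronglyMeasurable ?_
    rw [hmeas]
    refine ae_restrict_of_forall_mem (MeasurableSet.univ.prod measurableSet_Icc) fun p hp => ?_
    rw [mul_one]
    exact hbd p.1 p.2 hp.2
  have hH : Integrable fun x : ℝ => ∫ θ in Q, Gz e Ψ s θ (x : ℂ) := hint.integral_prod_left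
  -- the substitution
  have h6 : ∀ v : ℝ, (Real.exp v : ℂ) * (((Real.exp v : ℝ) : ℂ) ^ (s - 1) • hf e Ψ (Real.exp v)) =
      (fun τ : ℝ => ∫ θ in Q, Gz e Ψ s θ (τ : ℂ)) (2 / n * v) := by
    intro v
    unfold Gz
    beta_reduce
    rw [integral_mul_const, hf_eq, Real.log_exp, smul_eq_mul]
    have hev : ((Real.exp v : ℝ) : ℂ) ≠ 0 := by exact_mod_cast (Real.exp_pos v).ne'
    have h7 : (Real.exp v : ℂ) * (((Real.exp v : ℝ) : ℂ) ^ (s - 1)) =
        cexp (Module.finrank ℚ K * s * ((2 / n * v : ℝ) : ℂ) / 2) := by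
      rw [Complex.cpow_def_of_ne_zero hev, ← Complex.ofReal_log (Real.exp_pos v).le, Real.log_exp,
        Complex.ofReal_exp, ← Complex.exp_add]
      congr 1
      have hnc : (n : ℂ) ≠ 0 := by exact_mod_cast hn.ne'
      have hnn : (Module.finrank ℚ K : ℂ) = (n : ℂ) := by rw [hn']; push_cast; rfl
      rw [hnn]
      push_cast
      field_simp
      ring
    rw [← mul_assoc, h7]
    have h8 : ∀ θ : Fin (rank K) → ℝ,
        th e Ψ (Pool.Agent.Y773.el K (2 / (Module.finrank ℚ K : ℝ) * v, θ)) =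
        thc e Ψ ((2 / n * v : ℝ) : ℂ) θ := fun θ => (thc_real e Ψ _ θ).symm
    rw [integral_congr_ae (Eventually.of_forall h8)]
    ring
  refine ⟨?_, hint.integral_prod_right, ?_⟩
  · unfold MellinConvergent
    rw [← integrable_exp_sub]
    refine (hH.comp_mul_left' (R := 2 / n) (by positivity)).congr (Eventually.of_forall fun v => ?_)
    exact (h6 v).symm
  · unfold mellin
    rw [← integral_exp_sub, integral_congr_ae (Eventually.of_forall h6)]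
    have h8 := Measure.integral_comp_mul_left (fun τ : ℝ => ∫ θ in Q, Gz e Ψ s θ (τ : ℂ)) (2 / n)
    refine h8.trans ?_
    rw [abs_of_pos (by positivity), inv_div, Complex.real_smul]
    congr 1
    exact integral_integral_swap hint

end Pool.Agent.A856.HW
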