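import Pool.Agent.A856.HW.GaC
import Pool.Agent.A856.HW.Lat

/-!
# Poisson summation for products of two translates of a complex Gaussian

Owner helper856 (Hecke L-functions with powerful conductor).
-/

set_option autoImplicit false

open NumberField Complex Filter Topology MeasureTheory

namespace Pool.Agent.A856.HW

open Pool.Agent.Y773 (Idx db lp FT GD poisson ghat ech norm_ech)
open Pool.Agent.Y773.G

variable {K : Type} [Field K] [NumberField K]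

/-- the complex gaussian -/
noncomputable def GMc (e : InfinitePlace K → ℕ) (a : InfinitePlace K → ℂ) (x : K) : ℂ :=
  ∏ φ : K →+* ℂ, gc (eM e φ) (a (InfinitePlace.mk φ) * ((rr φ x : ℝ) : ℂ))

/-- the product of two translates, as a function on the real space -/
noncomputable def WW (e : InfinitePlace K → ℕ) (a : InfinitePlace K → ℂ) (h : K)
    (u : (K →+* ℂ) → ℝ) : ℂ :=
  ∏ φ : K →+* ℂ, wc (eM e φ) (a (InfinitePlace.mk φ)) (rr φ h) (u φ)

lemma WW_eq (e : InfinitePlace K → ℕ) (a : InfinitePlace K → ℂ) (h x : K) :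
    WW e a h (fun φ => rr φ x) = GMc e a (x + h) * (starRingEnd ℂ) (GMc e a x) := by
  unfold WW GMc wc
  rw [map_prod, ← Finset.prod_mul_distrib]
  refine Finset.prod_congr rfl fun φ _ => ?_
  rw [rr_add]

/-- the conditions on the parameters -/
structure Adm (κ : ℝ) (a : InfinitePlace K → ℂ) : Prop where
  pos : 0 < κ
  le : κ ≤ 1
  ne : ∀ w, a w ≠ 0
  re : ∀ w, κ * ‖a w‖ ^ 2 ≤ ((a w) ^ 2).re

lemma norm_gc_le {e : ℕ} (he : e ≤ 1) {α : ℂ} {κ : ℝ} (hκ : 0 < κ) (hκ1 : κ ≤ 1)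
    (hr : κ * ‖α‖ ^ 2 ≤ (α ^ 2).re) (x : ℝ) :
    ‖gc e (α * (x : ℂ))‖ ≤ κ⁻¹ * Real.exp (-(2 * κ * ‖α‖ ^ 2) * x ^ 2) := by
  unfold gc
  rw [norm_mul, norm_pow, norm_mul, Complex.norm_real, Real.norm_eq_abs, Complex.norm_exp]
  have e1 : (-(Real.pi : ℂ) * (α * (x : ℂ)) ^ 2).re = -Real.pi * ((α ^ 2).re * x ^ 2) := by
    have : -(Real.pi : ℂ) * (α * (x : ℂ)) ^ 2 = ((-Real.pi * x ^ 2 : ℝ) : ℂ) * α ^ 2 := by
      push_cast; ring
    rw [this, Complex.re_ofReal_mul]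
    ring
  rw [e1]
  set T : ℝ := ‖α‖ ^ 2 * x ^ 2 with hT
  have hT0 : 0 ≤ T := by positivity
  have h1 : κ * T ≤ (α ^ 2).re * x ^ 2 := by
    rw [hT, ← mul_assoc]
    exact mul_le_mul_of_nonneg_right hr (sq_nonneg x)
  have hpi := Real.pi_gt_three
  have h2 : Real.exp (-Real.pi * ((α ^ 2).re * x ^ 2)) ≤ Real.exp (-(3 * (κ * T))) := by
    apply Real.exp_le_exp.mpr
    have : 0 ≤ κ * T := by positivity
    nlinarith
  have h3 : (‖α‖ * |x|) ^ e ≤ κ⁻¹ * Real.exp (κ * T) := by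
    have hκi : 1 ≤ κ⁻¹ := (one_le_inv₀ hκ).mpr hκ1
    have h4 : κ * T + 1 ≤ Real.exp (κ * T) := Real.add_one_le_exp _
    have h5 : 0 ≤ κ * T := by positivity
    interval_cases e
    · rw [pow_zero]
      nlinarith
    · rw [pow_one]
      have h6 : ‖α‖ * |x| ≤ 1 + T := by
        have : (‖α‖ * |x|) ^ 2 = T := by rw [mul_pow, sq_abs]
        nlinarith [sq_nonneg (‖α‖ * |x| - 1), mul_nonneg (norm_nonneg α) (abs_nonneg x)]
      have h7 : 1 + T ≤ κ⁻¹ * (1 + κ * T) := by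
        have : κ⁻¹ * (1 + κ * T) = κ⁻¹ + T := by field_simp
        rw [this]
        linarith
      refine h6.trans (h7.trans ?_)
      gcongr
      linarith
  calc (‖α‖ * |x|) ^ e * Real.exp (-Real.pi * ((α ^ 2).re * x ^ 2))
      ≤ (κ⁻¹ * Real.exp (κ * T)) * Real.exp (-(3 * (κ * T))) := by gcongr
    _ = κ⁻¹ * Real.exp (-(2 * κ * ‖α‖ ^ 2) * x ^ 2) := by
        rw [mul_assoc, ← Real.exp_add]
        congr 2
        rw [hT]
        ring

/-- pointwise bound for the gaussian -/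
lemma norm_GMc_le {e : InfinitePlace K → ℕ} (he : ∀ w, e w ≤ 1) {κ : ℝ} {a : InfinitePlace K → ℂ}
    (ha : Adm κ a) {r : ℝ} (hr : ∀ w, r ≤ ‖a w‖ ^ 2) (x : K) :
    ‖GMc e a x‖ ≤ κ⁻¹ ^ (Module.finrank ℚ K) * Real.exp (-(2 * κ * r) * QQ x) := by
  unfold GMc QQ
  rw [norm_prod, Finset.mul_sum, Real.exp_sum]
  have h1 : κ⁻¹ ^ (Module.finrank ℚ K) = ∏ _φ : K →+* ℂ, κ⁻¹ := by
    rw [Finset.prod_const, Finset.card_univ, card_emb]
  rw [h1, ← Finset.prod_mul_distrib]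
  refine Finset.prod_le_prod (fun _ _ => norm_nonneg _) fun φ _ => ?_
  refine (norm_gc_le (eM_le he φ) ha.pos ha.le (ha.re _) _).trans ?_
  refine mul_le_mul_of_nonneg_left (Real.exp_le_exp.mpr ?_) (inv_pos.mpr ha.pos).le
  have h2 := hr (InfinitePlace.mk φ)
  have h3 := sq_nonneg (rr φ x)
  have h4 := ha.pos
  have : κ * r * (rr φ x) ^ 2 ≤ κ * ‖a (InfinitePlace.mk φ)‖ ^ 2 * (rr φ x) ^ 2 := by gcongr
  nlinarith

/-- the constant in the bound for the Fourier transform -/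
noncomputable def cF (K : Type) [Field K] [NumberField K] (κ : ℝ) (a : InfinitePlace K → ℂ) : ℝ :=
  (κ⁻¹ ^ 2) ^ (Module.finrank ℚ K) * ∏ φ : K →+* ℂ, ‖a (InfinitePlace.mk φ)‖⁻¹

lemma cF_nonneg {κ : ℝ} {a : InfinitePlace K → ℂ} : 0 ≤ cF K κ a := by
  unfold cF
  exact mul_nonneg (by positivity) (Finset.prod_nonneg fun _ _ => by positivity)

/-- the Fourier transform of `WW` -/
lemma norm_ft_WW {e : InfinitePlace K → ℕ} (he : ∀ w, e w ≤ 1) {κ : ℝ} {a : InfinitePlace K → ℂ}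
    (ha : Adm κ a) {r R : ℝ} (hr : ∀ w, r ≤ ‖a w‖ ^ 2) (hR : ∀ w, ‖a w‖ ^ 2 ≤ R)
    (h : K) (ξ : (K →+* ℂ) → ℝ) :
    ‖∫ u : (K →+* ℂ) → ℝ, cexp (-(2 * Real.pi * I * ((∑ φ, ξ φ * u φ : ℝ) : ℂ))) * WW e a h u‖ ≤
      cF K κ a * Real.exp (-(κ ^ 2 / 8 * r) * QQ h) *
        Real.exp (-(κ ^ 2 / 8 * R⁻¹) * ∑ φ, ξ φ ^ 2) := by
  have h1 : ∀ u : (K →+* ℂ) → ℝ, cexp (-(2 * Real.pi * I * ((∑ φ, ξ φ * u φ : ℝ) : ℂ))) * WW e a h u =
      ∏ φ : K →+* ℂ, (cexp (-(2 * Real.pi * I * (ξ φ * u φ))) *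
        wc (eM e φ) (a (InfinitePlace.mk φ)) (rr φ h) (u φ)) := by
    intro u
    rw [Finset.prod_mul_distrib, ← Complex.exp_sum]
    unfold WW
    congr 2
    push_cast
    rw [Finset.mul_sum, ← Finset.sum_neg_distrib]
  simp_rw [h1]
  rw [integral_fintype_prod_volume_eq_prod
    (fun φ (x : ℝ) => cexp (-(2 * Real.pi * I * (ξ φ * x))) *
        wc (eM e φ) (a (InfinitePlace.mk φ)) (rr φ h) x), norm_prod]
  have h2 : cF K κ a * Real.exp (-(κ ^ 2 / 8 * r) * QQ h) *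
        Real.exp (-(κ ^ 2 / 8 * R⁻¹) * ∑ φ, ξ φ ^ 2) =
      ∏ φ : K →+* ℂ, (κ⁻¹ ^ 2 * ‖a (InfinitePlace.mk φ)‖⁻¹ * (Real.exp (-(κ ^ 2 / 8 * r) * (rr φ h) ^ 2) *
        Real.exp (-(κ ^ 2 / 8 * R⁻¹) * (ξ φ) ^ 2))) := by
    unfold cF QQ
    rw [Finset.prod_mul_distrib, Finset.prod_mul_distrib, Finset.prod_mul_distrib,
      Finset.prod_const, Finset.card_univ, card_emb, Finset.mul_sum, Finset.mul_sum,
      Real.exp_sum, Real.exp_sum]
    ring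
  rw [h2]
  refine Finset.prod_le_prod (fun _ _ => norm_nonneg _) fun φ _ => ?_
  refine (norm_ft_wc (eM_le he φ) (ha.ne _) ha.pos ha.le (ha.re _) _ _).trans ?_
  refine mul_le_mul_of_nonneg_left ?_ (by positivity)
  rw [← Real.exp_add]
  apply Real.exp_le_exp.mpr
  have hp : 0 < ‖a (InfinitePlace.mk φ)‖ := norm_pos_iff.mpr (ha.ne _)
  have hA : 0 < ‖a (InfinitePlace.mk φ)‖ ^ 2 := by positivity
  have h3 : r * (rr φ h) ^ 2 ≤ ‖a (InfinitePlace.mk φ)‖ ^ 2 * (rr φ h) ^ 2 :=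
    mul_le_mul_of_nonneg_right (hr _) (sq_nonneg _)
  have h4 : R⁻¹ * ξ φ ^ 2 ≤ ξ φ ^ 2 / ‖a (InfinitePlace.mk φ)‖ ^ 2 := by
    rw [div_eq_inv_mul]
    exact mul_le_mul_of_nonneg_right (inv_anti₀ hA (hR _)) (sq_nonneg _)
  have h5 : 0 ≤ κ ^ 2 / 8 := by positivity
  nlinarith [mul_le_mul_of_nonneg_left h3 h5, mul_le_mul_of_nonneg_left h4 h5]

lemma continuous_WW (e : InfinitePlace K → ℕ) (a : InfinitePlace K → ℂ) (h : K) :
    Continuous (WW e a h) := by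
  unfold WW wc
  refine continuous_finsetProd _ fun φ _ => ?_
  refine ((continuous_gc _).comp ?_).mul (Complex.continuous_conj.comp ((continuous_gc _).comp ?_))
  · fun_prop
  · fun_prop

lemma exists_lower {a : InfinitePlace K → ℂ} (ha : ∀ w, a w ≠ 0) :
    ∃ r : ℝ, 0 < r ∧ ∀ w, r ≤ ‖a w‖ ^ 2 := by
  obtain ⟨i, hi⟩ := Finite.exists_min (fun w => ‖a w‖ ^ 2)
  exact ⟨‖a i‖ ^ 2, by have := norm_pos_iff.mpr (ha i); positivity, hi⟩

lemma exists_upper (a : InfinitePlace K → ℂ) :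
    ∃ R : ℝ, ∀ w, ‖a w‖ ^ 2 ≤ R := by
  obtain ⟨i, hi⟩ := Finite.exists_max (fun w => ‖a w‖ ^ 2)
  exact ⟨‖a i‖ ^ 2, hi⟩

lemma gd_WW {e : InfinitePlace K → ℕ} (he : ∀ w, e w ≤ 1) {κ : ℝ} {a : InfinitePlace K → ℂ}
    (ha : Adm κ a) (h : K) : GD (WW e a h) := by
  obtain ⟨r, hr0, hr⟩ := exists_lower ha.ne
  refine ⟨(κ⁻¹ ^ 2) ^ (Module.finrank ℚ K), 2 * κ * r, by have := ha.pos; positivity, fun u => ?_⟩
  unfold WW wc
  rw [norm_prod]
  have h1 : ∏ φ : K →+* ℂ, ‖gc (eM e φ) (a (InfinitePlace.mk φ) * ((u φ + rr φ h : ℝ) : ℂ)) *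
      (starRingEnd ℂ) (gc (eM e φ) (a (InfinitePlace.mk φ) * (u φ : ℂ)))‖ ≤
      ∏ φ : K →+* ℂ, (κ⁻¹ ^ 2 * Real.exp (-(2 * κ * r) * (u φ) ^ 2)) := by
    refine Finset.prod_le_prod (fun _ _ => norm_nonneg _) fun φ _ => ?_
    rw [norm_mul, RCLike.norm_conj]
    have h2 := norm_gc_le (eM_le he φ) ha.pos ha.le (ha.re (InfinitePlace.mk φ)) (u φ + rr φ h)
    have h3 := norm_gc_le (eM_le he φ) ha.pos ha.le (ha.re (InfinitePlace.mk φ)) (u φ)
    have hκ := ha.pos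
    have h4 : ‖gc (eM e φ) (a (InfinitePlace.mk φ) * ((u φ + rr φ h : ℝ) : ℂ))‖ ≤ κ⁻¹ := by
      refine h2.trans ?_
      have : Real.exp (-(2 * κ * ‖a (InfinitePlace.mk φ)‖ ^ 2) * (u φ + rr φ h) ^ 2) ≤ 1 := by
        rw [Real.exp_le_one_iff]
        have : 0 ≤ 2 * κ * ‖a (InfinitePlace.mk φ)‖ ^ 2 * (u φ + rr φ h) ^ 2 := by positivity
        linarith
      calc _ ≤ κ⁻¹ * 1 := by gcongr
        _ = κ⁻¹ := mul_one _
    have h5 : ‖gc (eM e φ) (a (InfinitePlace.mk φ) * (u φ : ℂ))‖ ≤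
        κ⁻¹ * Real.exp (-(2 * κ * r) * (u φ) ^ 2) := by
      refine h3.trans ?_
      refine mul_le_mul_of_nonneg_left (Real.exp_le_exp.mpr ?_) (inv_pos.mpr hκ).le
      have : κ * r * (u φ) ^ 2 ≤ κ * ‖a (InfinitePlace.mk φ)‖ ^ 2 * (u φ) ^ 2 := by
        have := hr (InfinitePlace.mk φ)
        gcongr
      nlinarith
    calc _ ≤ κ⁻¹ * (κ⁻¹ * Real.exp (-(2 * κ * r) * (u φ) ^ 2)) := by gcongr
      _ = _ := by ring
  refine h1.trans ?_
  rw [Finset.prod_mul_distrib, Finset.prod_const, Finset.card_univ, card_emb, ← Real.exp_sum,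
    ← Finset.mul_sum]
  refine mul_le_mul_of_nonneg_left (Real.exp_le_exp.mpr ?_) (by positivity)
  have h2 := Pool.Agent.Y773.norm_sq_le_sum u
  have : 0 < 2 * κ * r := by have := ha.pos; positivity
  nlinarith

/-- the Fourier coefficients -/
noncomputable def ck (V : ℝ) (e : InfinitePlace K → ℕ) (a : InfinitePlace K → ℂ) (h : K) (m : ℕ)
    (k : Idx K → ℤ) : ℂ :=
  ((V⁻¹ : ℝ) : ℂ) * (((m : ℝ) ^ (Module.finrank ℚ K))⁻¹ : ℝ) *
    ∫ u : (K →+* ℂ) → ℝ, cexp (-(2 * Real.pi * I * ((∑ φ, rr (cj φ) (xi k) / m * u φ : ℝ) : ℂ))) *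
      WW e a h u

lemma sum_cj_sq (x : K) (m : ℕ) : ∑ φ : K →+* ℂ, (rr (cj φ) x / m) ^ 2 = QQ x / (m : ℝ) ^ 2 := by
  unfold QQ
  rw [sum_cj (fun φ => (rr φ x / (m : ℝ)) ^ 2), Finset.sum_div]
  exact Finset.sum_congr rfl fun φ _ => div_pow _ _ _

lemma norm_ck_le {V : ℝ} (hV0 : 0 < V) {e : InfinitePlace K → ℕ} (he : ∀ w, e w ≤ 1) {κ : ℝ}
    {a : InfinitePlace K → ℂ} (ha : Adm κ a) {r R : ℝ} (hr : ∀ w, r ≤ ‖a w‖ ^ 2)
    (hR : ∀ w, ‖a w‖ ^ 2 ≤ R) (h : K) {m : ℕ} (hm : 0 < m) (k : Idx K → ℤ) :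
    ‖ck V e a h m k‖ ≤ V⁻¹ * ((m : ℝ) ^ (Module.finrank ℚ K))⁻¹ * (cF K κ a *
      Real.exp (-(κ ^ 2 / 8 * r) * QQ h)) *
      Real.exp (-(κ ^ 2 / 8 * R⁻¹) * (QQ (xi k : K) / (m : ℝ) ^ 2)) := by
  have hm' : (0 : ℝ) < m := by exact_mod_cast hm
  unfold ck
  rw [norm_mul, norm_mul, Complex.norm_real, Complex.norm_real,
    Real.norm_of_nonneg (inv_pos.mpr hV0).le, Real.norm_of_nonneg (by positivity)]
  have h1 := norm_ft_WW he ha hr hR h (fun φ => rr (cj φ) (xi k) / m)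
  rw [sum_cj_sq] at h1
  calc _ ≤ V⁻¹ * ((m : ℝ) ^ (Module.finrank ℚ K))⁻¹ * (cF K κ a * Real.exp (-(κ ^ 2 / 8 * r) * QQ h) *
        Real.exp (-(κ ^ 2 / 8 * R⁻¹) * (QQ (xi k : K) / (m : ℝ) ^ 2))) :=
        mul_le_mul_of_nonneg_left h1 (by positivity)
    _ = _ := by ring

/-- all integers, scaled: a simple summability statement -/
lemma summable_dual {m : ℕ} (hm : 0 < m) {B : ℝ} (hB : 0 < B) :
    Summable fun k : Idx K → ℤ => Real.exp (-B * (QQ (xi k : K) / (m : ℝ) ^ 2)) := by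
  have hm' : (0 : ℝ) < m := by exact_mod_cast hm
  obtain ⟨C, hC, h⟩ := sum_dual K
  have h2 := (h ⊤ (by simp) 1 one_pos (B / (m : ℝ) ^ 2) (by positivity)).1
  have h3 : Function.Injective fun k : Idx K → ℤ =>
      (⟨k, fun γ _ => by rw [Nat.cast_one]; exact one_dvd _⟩ :
        {k : Idx K → ℤ // ∀ γ ∈ (⊤ : Ideal (𝓞 K)), ((1 : ℕ) : ℤ) ∣ ∑ j, k j * co γ j}) := by
    intro k l hkl
    exact congrArg Subtype.val hkl
  refine (h2.comp_injective h3).congr fun k => ?_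
  simp only [Function.comp_apply]
  congr 1
  push_cast
  field_simp

/-- Poisson summation for one residue class -/
lemma poisson_WW {V : ℝ} (hV0 : 0 < V) (hV : ∀ f : ((K →+* ℂ) → ℝ) → ℂ,
      ∫ v : Idx K → ℝ, f (embE K v) = ((V⁻¹ : ℝ) : ℂ) * ∫ u, f u)
    {e : InfinitePlace K → ℕ} (he : ∀ w, e w ≤ 1) {κ : ℝ} {a : InfinitePlace K → ℂ}
    (ha : Adm κ a) (h : K) {m : ℕ} (hm : 0 < m) (r : 𝓞 K) :
    (Summable fun k : Idx K → ℤ => ck V e a h m k) ∧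
    ∑' z : 𝓞 K, WW e a h (fun φ => rr φ ((r + m * z : 𝓞 K) : K)) =
      ∑' k : Idx K → ℤ, ck V e a h m k *
        cexp (2 * Real.pi * I * ((∑ j, k j * co r j : ℤ) : ℂ) / m) := by
  classical
  have hm' : (0 : ℝ) < m := by exact_mod_cast hm
  obtain ⟨r0, hr0, hr⟩ := exists_lower ha.ne
  obtain ⟨R0, hR0⟩ := exists_upper a
  have hR0p : 0 < R0 := lt_of_lt_of_le hr0 ((hr (Classical.arbitrary _)).trans (hR0 _))
  have hκ := ha.pos
  set L : (Idx K → ℝ) →ₗ[ℝ] ((K →+* ℂ) → ℝ) := (m : ℝ) • emb K with hL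
  have hLi : Function.Injective L := by
    intro u v huv
    have h1 : (m : ℝ) • emb K u = (m : ℝ) • emb K v := huv
    exact emb_injective (smul_right_injective _ hm'.ne' h1)
  set H : (Idx K → ℝ) → ℂ := fun v => WW e a h (L v) with hH
  have hGD : GD H := (gd_WW he ha h).comp_linear L hLi
  have hcont : Continuous H := (continuous_WW e a h).comp (L.continuous_of_finiteDimensional)
  have hhat : ∀ k : Idx K → ℤ, ghat H k = ck V e a h m k := by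
    intro k
    unfold ghat
    set G1 : ((K →+* ℂ) → ℝ) → ℂ := fun u' =>
          cexp (-(2 * Real.pi * I * ((∑ φ, rr (cj φ) (xi k) / m * u' φ : ℝ) : ℂ))) *
          WW e a h u' with hG1
    have e1 : ∀ v : Idx K → ℝ, ech (-k) v * H v = (fun u => G1 ((m : ℝ) • u)) (embE K v) := by
      intro v
      simp only [hH, hL, hG1, LinearMap.smul_apply]
      rw [embE_apply]
      congr 1
      unfold ech
      congr 1
      have h2 : ∑ φ : K →+* ℂ, rr (cj φ) (xi k) / m * ((m : ℝ) • emb K v) φ =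
          ∑ j, (k j : ℝ) * v j := by
        rw [← rr_xi]
        refine Finset.sum_congr rfl fun φ _ => ?_
        rw [Pi.smul_apply, smul_eq_mul]
        field_simp
      rw [h2]
      push_cast
      simp only [Pi.neg_apply, Int.cast_neg, neg_mul, Finset.sum_neg_distrib]
      ring
    rw [integral_congr_ae (Eventually.of_forall e1)]
    refine (hV (fun u => G1 ((m : ℝ) • u))).trans ?_
    have h3 := Measure.integral_comp_smul (volume : Measure ((K →+* ℂ) → ℝ)) G1 (m : ℝ)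
    rw [h3]
    unfold ck
    rw [← hG1]
    rw [mul_assoc]
    congr 1
    rw [Module.finrank_pi, Fintype.card_eq_nat_card, ← Fintype.card_eq_nat_card, card_emb,
      abs_of_pos (by positivity), Complex.real_smul]
  have hsc : Summable fun k : Idx K → ℤ => ck V e a h m k := by
    refine Summable.of_norm_bounded (g := fun k : Idx K → ℤ =>
      V⁻¹ * ((m : ℝ) ^ (Module.finrank ℚ K))⁻¹ * (cF K κ a *
      Real.exp (-(κ ^ 2 / 8 * r0) * QQ h)) *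
      Real.exp (-(κ ^ 2 / 8 * R0⁻¹) * (QQ (xi k : K) / (m : ℝ) ^ 2)))
      ((summable_dual hm (by positivity)).mul_left _) fun k => norm_ck_le hV0 he ha hr hR0 h hm k
  refine ⟨hsc, ?_⟩
  have hhat' : ghat H = fun k : Idx K → ℤ => ck V e a h m k := funext hhat
  have hsum : Summable (ghat H) := by rw [hhat']; exact hsc
  have hP := poisson hGD hcont hsum ((m : ℝ)⁻¹ • lp (co r))
  have hl : ∑' z : 𝓞 K, WW e a h (fun φ => rr φ ((r + m * z : 𝓞 K) : K)) =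
      ∑' k : Idx K → ℤ, H ((m : ℝ)⁻¹ • lp (co r) + lp k) := by
    rw [← (coE K).symm.tsum_eq]
    refine tsum_congr fun k => ?_
    simp only [hH, hL, LinearMap.smul_apply]
    congr 1
    funext w
    have h1 := congrFun (rr_eq_emb ((coE K).symm k)) w
    rw [← coE_apply, Equiv.apply_symm_apply] at h1
    have h2 := congrFun (rr_eq_emb r) w
    rw [map_add, map_smul, Pi.smul_apply, Pi.add_apply, Pi.smul_apply, ← h1, ← h2, smul_eq_mul,
      smul_eq_mul]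
    have h3 : ((r + m * (coE K).symm k : 𝓞 K) : K) = (r : K) + m * ((coE K).symm k : 𝓞 K) := by
      push_cast
      rfl
    rw [h3, rr_add, rr_nat_mul]
    field_simp
  rw [hl, hP, hhat']
  refine tsum_congr fun k => ?_
  congr 1
  unfold ech
  congr 1
  change 2 * Real.pi * I * ((∑ i, (k i : ℝ) * ((m : ℝ)⁻¹ * (co r i : ℝ)) : ℝ) : ℂ) = _
  push_cast
  rw [mul_div_assoc, Finset.sum_div]
  congr 1
  refine Finset.sum_congr rfl fun j _ => ?_
  field_simp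

/-- the finite Fourier transform -/
noncomputable def Fk (m : ℕ) (f : 𝓞 K → ℂ) (k : Idx K → ℤ) : ℂ :=
  ∑ᶠ r : 𝓞 K ⧸ Ideal.span {(m : 𝓞 K)}, f (Quotient.out r) *
      cexp (2 * Real.pi * I * ((∑ j, k j * co (Quotient.out r) j : ℤ) : ℂ) / m)

lemma summable_GMc {e : InfinitePlace K → ℕ} (he : ∀ w, e w ≤ 1) {κ : ℝ}
    {a : InfinitePlace K → ℂ} (ha : Adm κ a) : Summable fun x : 𝓞 K => GMc e a (x : K) := by
  obtain ⟨r0, hr0, hr⟩ := exists_lower ha.ne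
  have hκ := ha.pos
  exact Summable.of_norm_bounded ((summable_QQ (B := 2 * κ * r0) (by positivity)).mul_left _)
    fun x => norm_GMc_le he ha hr _

lemma norm_GMc_le' {e : InfinitePlace K → ℕ} (he : ∀ w, e w ≤ 1) {κ : ℝ}
    {a : InfinitePlace K → ℂ} (ha : Adm κ a) (x : K) :
    ‖GMc e a x‖ ≤ κ⁻¹ ^ (Module.finrank ℚ K) := by
  have h1 := norm_GMc_le he ha (r := 0) (fun w => by positivity) x
  simpa using h1

lemma summable_WW {e : InfinitePlace K → ℕ} (he : ∀ w, e w ≤ 1) {κ : ℝ}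
    {a : InfinitePlace K → ℂ} (ha : Adm κ a) (h : K) :
    Summable fun x : 𝓞 K => WW e a h (fun φ => rr φ (x : K)) := by
  refine Summable.of_norm_bounded ((summable_GMc he ha).norm.mul_left (κ⁻¹ ^ (Module.finrank ℚ K)))
    fun x => ?_
  rw [WW_eq, norm_mul, RCLike.norm_conj]
  exact mul_le_mul_of_nonneg_right (norm_GMc_le' he ha _) (norm_nonneg _)

/-- **Poisson summation** for periodic functions -/
lemma poisson_per {V : ℝ} (hV0 : 0 < V) (hV : ∀ f : ((K →+* ℂ) → ℝ) → ℂ,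
      ∫ v : Idx K → ℝ, f (embE K v) = ((V⁻¹ : ℝ) : ℂ) * ∫ u, f u)
    {e : InfinitePlace K → ℕ} (he : ∀ w, e w ≤ 1) {κ : ℝ} {a : InfinitePlace K → ℂ}
    (ha : Adm κ a) (h : K) {m : ℕ} (hm : 0 < m) {f : 𝓞 K → ℂ} {B : ℝ} (hB : ∀ x, ‖f x‖ ≤ B)
    (hper : ∀ x z : 𝓞 K, f (x + m * z) = f x) :
    ∑' x : 𝓞 K, f x * WW e a h (fun φ => rr φ (x : K)) =
      ∑' k : Idx K → ℤ, ck V e a h m k * Fk m f k := by
  classical
  have := finite_quot (K := K) hm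
  have := Fintype.ofFinite (𝓞 K ⧸ Ideal.span {(m : 𝓞 K)})
  have hs : Summable fun x : 𝓞 K => f x * WW e a h (fun φ => rr φ (x : K)) := by
    refine Summable.of_norm_bounded ((summable_WW he ha h).norm.mul_left B) fun x => ?_
    rw [norm_mul]
    exact mul_le_mul_of_nonneg_right (hB x) (norm_nonneg _)
  have h1 : ∑' x : 𝓞 K, f x * WW e a h (fun φ => rr φ (x : K)) =
      ∑ r : 𝓞 K ⧸ Ideal.span {(m : 𝓞 K)}, f (Quotient.out r) *
        ∑' z : 𝓞 K, WW e a h (fun φ => rr φ ((Quotient.out r + m * z : 𝓞 K) : K)) := by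
    rw [← (resE hm).tsum_eq]
    have hs2 := (resE hm).summable_iff.mpr hs
    refine (hs2.tsum_prod' (fun r => hs2.prod_factor r)).trans ?_
    rw [tsum_fintype]
    refine Finset.sum_congr rfl fun r _ => ?_
    rw [← tsum_mul_left]
    refine tsum_congr fun z => ?_
    simp only [Function.comp_apply]
    rw [resE_apply, hper]
  rw [h1]
  simp_rw [fun r : 𝓞 K => (poisson_WW hV0 hV he ha h hm r).2]
  have hsc := (poisson_WW hV0 hV he ha h hm 0).1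
  have h4 : ∀ r : 𝓞 K, Summable fun k : Idx K → ℤ => ck V e a h m k *
      cexp (2 * Real.pi * I * ((∑ j, k j * co r j : ℤ) : ℂ) / m) := by
    intro r
    refine Summable.of_norm_bounded hsc.norm fun k => ?_
    rw [norm_mul]
    have : (2 * Real.pi * I * ((∑ j, k j * co r j : ℤ) : ℂ) / m) =
        ((2 * Real.pi * ((∑ j, k j * co r j : ℤ) : ℝ) / m : ℝ) : ℂ) * I := by
      push_cast
      ring
    rw [this, Complex.norm_exp_ofReal_mul_I, mul_one]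
  calc ∑ r : 𝓞 K ⧸ Ideal.span {(m : 𝓞 K)}, f (Quotient.out r) * ∑' k : Idx K → ℤ,
        ck V e a h m k *
        cexp (2 * Real.pi * I * ((∑ j, k j * co (Quotient.out r) j : ℤ) : ℂ) / m)
      = ∑ r : 𝓞 K ⧸ Ideal.span {(m : 𝓞 K)}, ∑' k : Idx K → ℤ, f (Quotient.out r) *
        (ck V e a h m k *
        cexp (2 * Real.pi * I * ((∑ j, k j * co (Quotient.out r) j : ℤ) : ℂ) / m)) := by
        refine Finset.sum_congr rfl fun r _ => ?_
        rw [tsum_mul_left]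
    _ = ∑' k : Idx K → ℤ, ∑ r : 𝓞 K ⧸ Ideal.span {(m : 𝓞 K)}, f (Quotient.out r) *
        (ck V e a h m k *
        cexp (2 * Real.pi * I * ((∑ j, k j * co (Quotient.out r) j : ℤ) : ℂ) / m)) := by
        rw [Summable.tsum_finsetSum (fun r _ => (h4 _).mul_left _)]
    _ = _ := by
        refine tsum_congr fun k => ?_
        unfold Fk
        rw [finsum_eq_sum_of_fintype, Finset.mul_sum]
        refine Finset.sum_congr rfl fun r _ => ?_
        ring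

/-- **the bound for the correlation sums** -/
theorem corr_bound (K : Type) [Field K] [NumberField K] : ∃ C : ℝ, 0 < C ∧
    ∀ (e : InfinitePlace K → ℕ), (∀ w, e w ≤ 1) → ∀ (κ : ℝ) (a : InfinitePlace K → ℂ), Adm κ a →
    ∀ r R : ℝ, (∀ w, r ≤ ‖a w‖ ^ 2) → 0 < R → (∀ w, ‖a w‖ ^ 2 ≤ R) →
    ∀ (h : 𝓞 K) (m : ℕ), 0 < m → ∀ (𝔠 : Ideal (𝓞 K)), 𝔠 ≠ ⊥ →
    ∀ (f : 𝓞 K → ℂ) (B M : ℝ), (∀ x, ‖f x‖ ≤ B) → (∀ x z : 𝓞 K, f (x + m * z) = f x) →
    0 ≤ M → (∀ k, ‖Fk m f k‖ ≤ M) →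
    (∀ k, Fk m f k ≠ 0 → ∀ γ ∈ 𝔠, (m : ℤ) ∣ ∑ j, k j * co γ j) →
    ‖∑' x : 𝓞 K, f x * (GMc e a ((x : K) + h) * (starRingEnd ℂ) (GMc e a (x : K)))‖ ≤
      C * (((m : ℝ) ^ (Module.finrank ℚ K))⁻¹ * M * cF K κ a * Real.exp (-(κ ^ 2 / 8 * r) * QQ (h : K)) *
        (1 + (κ ^ 2 / 8 * R⁻¹) ^ (-(dg K) / 2) * (Ideal.absNorm 𝔠 : ℝ))) := by
  obtain ⟨V, hV0, hV⟩ := exists_vol K
  obtain ⟨C₁, hC₁, hdual⟩ := sum_dual K
  refine ⟨V⁻¹ * C₁, by positivity, ?_⟩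
  intro e he κ a ha r R hr hR0 hR h m hm 𝔠 h𝔠 f B M hB hper hM hFM hFk
  have hκ := ha.pos
  have hm' : (0 : ℝ) < m := by exact_mod_cast hm
  simp_rw [← WW_eq]
  rw [poisson_per hV0 hV he ha (h : K) hm hB hper]
  set P : (Idx K → ℤ) → Prop := fun k => ∀ γ ∈ 𝔠, (m : ℤ) ∣ ∑ j, k j * co γ j with hP
  have hsupp : Function.support (fun k : Idx K → ℤ => ck V e a (h : K) m k * Fk m f k) ⊆
      {k | P k} := by
    intro k hk
    exact hFk k (right_ne_zero_of_mul hk)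
  rw [← tsum_subtype_eq_of_support_subset hsupp]
  obtain ⟨hs1, hs2⟩ := hdual 𝔠 h𝔠 m hm (κ ^ 2 / 8 * R⁻¹) (by positivity)
  set A : ℝ := V⁻¹ * ((m : ℝ) ^ (Module.finrank ℚ K))⁻¹ * (cF K κ a *
      Real.exp (-(κ ^ 2 / 8 * r) * QQ (h : K))) with hA
  have hA0 : 0 ≤ A := by
    have := cF_nonneg (K := K) (κ := κ) (a := a)
    positivity
  have h3 := (hs1.mul_left (A * M)).hasSum
  refine (tsum_of_norm_bounded h3 (fun k => ?_)).trans ?_
  · rw [norm_mul]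
    have h4 := norm_ck_le hV0 he ha hr hR (h : K) hm k.1
    calc ‖ck V e a (h : K) m k.1‖ * ‖Fk m f k.1‖ ≤
        (A * Real.exp (-(κ ^ 2 / 8 * R⁻¹) * (QQ (xi k.1 : K) / (m : ℝ) ^ 2))) * M :=
          mul_le_mul h4 (hFM _) (norm_nonneg _) (by positivity)
      _ = _ := by ring
  · rw [tsum_mul_left]
    calc A * M * ∑' k : {k : Idx K → ℤ // P k},
          Real.exp (-(κ ^ 2 / 8 * R⁻¹) * (QQ (xi k.1 : K) / (m : ℝ) ^ 2))
        ≤ A * M * (C₁ * (1 + (κ ^ 2 / 8 * R⁻¹) ^ (-(dg K) / 2) * (Ideal.absNorm 𝔠 : ℝ))) :=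
          mul_le_mul_of_nonneg_left hs2 (by positivity)
      _ = _ := by rw [hA]; ring

end Pool.Agent.A856.HW
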