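import Pool.Agent.A856.HW.FinD

/-!
# Class sums and correlations

Owner helper856 (Hecke L-functions with powerful conductor).
-/

set_option autoImplicit false
set_option linter.unusedSectionVars false

open NumberField Complex Filter Topology UniqueFactorizationMonoid

namespace Pool.Agent.A856.HW

open Pool.Agent.Y773 (Idx db lp PerI SQ mk_out out_mk)
open Pool.Agent.Y773.G

variable {K : Type} [Field K] [NumberField K]

/-- decomposition of the integers along an ideal -/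
noncomputable def ideE (𝔠 : Ideal (𝓞 K)) : (𝓞 K ⧸ 𝔠) × 𝔠 ≃ 𝓞 K :=
  Equiv.ofBijective (fun p => Quotient.out p.1 + (p.2 : 𝓞 K)) (by
    have hmk : ∀ (q : 𝓞 K ⧸ 𝔠) (y : 𝔠), Ideal.Quotient.mk 𝔠 (Quotient.out q + (y : 𝓞 K)) = q := by
      intro q y
      rw [map_add, mk_out, Ideal.Quotient.eq_zero_iff_mem.mpr y.2, add_zero]
    constructor
    · rintro ⟨q, y⟩ ⟨q', y'⟩ h
      simp only at h
      have h1 : q = q' := by rw [← hmk q y, h, hmk]
      subst h1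
      have h2 := add_left_cancel h
      rw [Subtype.ext h2]
    · intro x
      refine ⟨(Ideal.Quotient.mk 𝔠 x, ⟨x - Quotient.out (Ideal.Quotient.mk 𝔠 x), ?_⟩), ?_⟩
      · have := 𝔠.neg_mem (out_mk (𝔠 := 𝔠) x)
        rwa [neg_sub] at this
      · simp only
        ring)

lemma ideE_apply (𝔠 : Ideal (𝓞 K)) (q : 𝓞 K ⧸ 𝔠) (y : 𝔠) :
    ideE 𝔠 (q, y) = Quotient.out q + (y : 𝓞 K) := rfl

/-- the sum over a class -/
noncomputable def Acl (𝔠 : Ideal (𝓞 K)) (F : 𝓞 K → ℂ) (x : 𝓞 K) : ℂ := ∑' y : 𝔠, F (x + (y : 𝓞 K))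

lemma Acl_per (𝔠 : Ideal (𝓞 K)) (F : 𝓞 K → ℂ) {x x' : 𝓞 K} (h : x - x' ∈ 𝔠) :
    Acl 𝔠 F x = Acl 𝔠 F x' := by
  unfold Acl
  rw [← (Equiv.addLeft (⟨x - x', h⟩ : 𝔠)).tsum_eq (fun y : 𝔠 => F (x' + (y : 𝓞 K)))]
  refine tsum_congr fun y => ?_
  simp only [Equiv.coe_addLeft, Submodule.coe_add]
  congr 1
  ring

lemma tsum_classes {𝔠 : Ideal (𝓞 K)} [Fintype (𝓞 K ⧸ 𝔠)] {g : 𝓞 K → ℂ} (hg : Summable g) :
    ∑' x, g x = ∑ q : 𝓞 K ⧸ 𝔠, ∑' y : 𝔠, g (Quotient.out q + (y : 𝓞 K)) := by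
  rw [← (ideE 𝔠).tsum_eq]
  have hs2 := (ideE 𝔠).summable_iff.mpr hg
  refine (hs2.tsum_prod' (fun r => hs2.prod_factor r)).trans ?_
  rw [tsum_fintype]
  rfl

lemma summable_shift {F : 𝓞 K → ℂ} (hF : Summable fun x => ‖F x‖) (𝔠 : Ideal (𝓞 K)) (x : 𝓞 K) :
    Summable fun y : 𝔠 => ‖F (x + (y : 𝓞 K))‖ := by
  refine hF.comp_injective (i := fun y : 𝔠 => x + (y : 𝓞 K)) fun y y' h => ?_
  exact Subtype.ext (add_left_cancel h)

lemma summable_pairs {F : 𝓞 K → ℂ} (hF : Summable fun x => ‖F x‖) (𝔠 : Ideal (𝓞 K)) :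
    Summable fun p : 𝓞 K × 𝔠 => ‖F (p.1 + (p.2 : 𝓞 K)) * (starRingEnd ℂ) (F p.1)‖ := by
  refine (summable_prod_of_nonneg fun p => norm_nonneg _).mpr ⟨fun x => ?_, ?_⟩
  · simp only [norm_mul]
    exact (summable_shift hF 𝔠 x).mul_right _
  · simp only [norm_mul, RCLike.norm_conj]
    simp_rw [tsum_mul_right]
    refine Summable.of_nonneg_of_le (fun x => mul_nonneg (tsum_nonneg fun _ => norm_nonneg _)
      (norm_nonneg _)) (fun x => ?_) (hF.mul_left (∑' x, ‖F x‖))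
    refine mul_le_mul_of_nonneg_right ?_ (norm_nonneg _)
    exact tsum_comp_le_tsum_of_inj hF (fun _ => norm_nonneg _)
      (i := fun y : 𝔠 => x + (y : 𝓞 K)) fun y y' h => Subtype.ext (add_left_cancel h)

/-- the correlation sums -/
noncomputable def TT' (F : 𝓞 K → ℂ) (h : 𝓞 K) : ℂ := ∑' x : 𝓞 K, F (x + h) * (starRingEnd ℂ) (F x)

/-- **sums over classes and correlations** -/
theorem class_sum {𝔠 : Ideal (𝓞 K)} [Fintype (𝓞 K ⧸ 𝔠)] {F : 𝓞 K → ℂ}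
    (hF : Summable fun x => ‖F x‖) :
    (Summable fun h : 𝔠 => ‖TT' F h‖) ∧
    ((∑ q : 𝓞 K ⧸ 𝔠, ‖Acl 𝔠 F (Quotient.out q)‖ ^ 2 : ℝ) : ℂ) = ∑' h : 𝔠, TT' F h := by
  have hp := summable_pairs hF 𝔠
  have hp' := hp.of_norm
  have hsw := hp'.prod_symm
  have hsw2 := hp.prod_symm
  constructor
  · refine Summable.of_nonneg_of_le (fun _ => norm_nonneg _) (fun h => ?_)
      (((summable_prod_of_nonneg fun p => norm_nonneg _).mp hsw2).2)
    unfold TT'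
    refine norm_tsum_le_tsum_norm ?_
    exact ((summable_prod_of_nonneg fun p => norm_nonneg _).mp hsw2).1 h
  · have h1 : ∑' h : 𝔠, TT' F h = ∑' x : 𝓞 K, ∑' h : 𝔠, F (x + (h : 𝓞 K)) * (starRingEnd ℂ) (F x) := by
      unfold TT'
      exact Summable.tsum_comm (f := fun (x : 𝓞 K) (h : 𝔠) =>
        F (x + (h : 𝓞 K)) * (starRingEnd ℂ) (F x)) hp'
    have h2 : ∀ x : 𝓞 K, ∑' h : 𝔠, F (x + (h : 𝓞 K)) * (starRingEnd ℂ) (F x) =
        Acl 𝔠 F x * (starRingEnd ℂ) (F x) := by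
      intro x
      unfold Acl
      rw [tsum_mul_right]
    rw [h1]
    simp_rw [h2]
    have h3 : Summable fun x : 𝓞 K => Acl 𝔠 F x * (starRingEnd ℂ) (F x) := by
      have h4 := hp'.prod
      simp only at h4
      simp_rw [h2] at h4
      exact h4
    rw [tsum_classes (𝔠 := 𝔠) h3]
    push_cast
    refine Finset.sum_congr rfl fun q _ => ?_
    have h5 : ∀ y : 𝔠, Acl 𝔠 F (Quotient.out q + (y : 𝓞 K)) = Acl 𝔠 F (Quotient.out q) := by
      intro y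
      refine Acl_per 𝔠 F ?_
      rw [add_sub_cancel_left]
      exact y.2
    simp_rw [h5]
    rw [tsum_mul_left, ← Complex.conj_tsum]
    have h6 : ∑' y : 𝔠, F (Quotient.out q + (y : 𝓞 K)) = Acl 𝔠 F (Quotient.out q) := rfl
    rw [h6, Complex.mul_conj, Complex.normSq_eq_norm_sq]
    push_cast
    rfl

end Pool.Agent.A856.HW
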