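import Pool.Agent.A856.HW.SumA

/-!
# The mean square over classes

Owner helper856 (Hecke L-functions with powerful conductor).
-/

set_option autoImplicit false
set_option linter.unusedSectionVars false
set_option linter.unusedVariables false
set_option maxHeartbeats 4000000

open NumberField Complex Filter Topology UniqueFactorizationMonoid

namespace Pool.Agent.A856.HW

open Pool.Agent.Y773 (Idx db lp PerI SQ mk_out out_mk)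
open Pool.Agent.Y773.G

variable {K : Type} [Field K] [NumberField K]

/-- the summand -/
noncomputable def Fx' (e : InfinitePlace K → ℕ) (a : InfinitePlace K → ℂ) (Ψ : 𝓞 K → ℂ) (x : 𝓞 K) : ℂ :=
  Ψ x * GMc e a (x : K)

lemma TT'_eq (e : InfinitePlace K → ℕ) (a : InfinitePlace K → ℂ) (Ψ : 𝓞 K → ℂ) (h : 𝓞 K) :
    TT' (Fx' e a Ψ) h = ∑' x : 𝓞 K, cor Ψ h x *
      (GMc e a ((x : K) + h) * (starRingEnd ℂ) (GMc e a (x : K))) := by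
  unfold TT' Fx' cor
  refine tsum_congr fun x => ?_
  have : ((x + h : 𝓞 K) : K) = (x : K) + (h : K) := map_add (algebraMap (𝓞 K) K) _ _
  rw [this, map_mul]
  ring

lemma absNorm_pos0 {𝔞 : Ideal (𝓞 K)} (h : 𝔞 ≠ ⊥) : (0 : ℝ) < (Ideal.absNorm 𝔞 : ℝ) := by
  have : Ideal.absNorm 𝔞 ≠ 0 := by rw [Ne, Ideal.absNorm_eq_zero_iff]; exact h
  exact_mod_cast Nat.pos_of_ne_zero this

lemma one_le_absNorm {𝔞 : Ideal (𝓞 K)} (h : 𝔞 ≠ ⊥) : (1 : ℝ) ≤ (Ideal.absNorm 𝔞 : ℝ) := by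
  have : Ideal.absNorm 𝔞 ≠ 0 := by rw [Ne, Ideal.absNorm_eq_zero_iff]; exact h
  exact_mod_cast Nat.one_le_iff_ne_zero.mpr this

lemma summable_Fx' {e : InfinitePlace K → ℕ} (he : ∀ w, e w ≤ 1) {κ : ℝ}
    {a : InfinitePlace K → ℂ} (ha : Adm κ a) {Ψ : 𝓞 K → ℂ} (hΨ : ∀ x, ‖Ψ x‖ ≤ 1) :
    Summable fun x => ‖Fx' e a Ψ x‖ := by
  refine Summable.of_nonneg_of_le (fun _ => norm_nonneg _) (fun x => ?_) (summable_GMc he ha).norm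
  unfold Fx'
  rw [norm_mul]
  calc _ ≤ 1 * ‖GMc e a (x : K)‖ := mul_le_mul_of_nonneg_right (hΨ x) (norm_nonneg _)
    _ = _ := one_mul _

lemma rpow_sq_half {κ : ℝ} (hκ : 0 < κ) (n : ℕ) : (κ ^ 2) ^ (-(n : ℝ) / 2) = κ⁻¹ ^ n := by
  rw [← Real.rpow_natCast κ 2, ← Real.rpow_mul hκ.le]
  have : ((2 : ℕ) : ℝ) * (-(n : ℝ) / 2) = -(n : ℝ) := by push_cast; ring
  rw [this, Real.rpow_neg hκ.le, Real.rpow_natCast, inv_pow]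

/-- the bound for one correlation sum, after simplification -/
lemma corr_simp {C₁ κ r Λ N𝔟 N𝔡 N𝔧 N𝔨 N𝔣 τ m E : ℝ} {n : ℕ} (hC₁ : 0 < C₁) (hκ : 0 < κ)
    (hκ1 : κ ≤ 1) (hr : 0 < r) (hΛ : 1 ≤ Λ) (hb : 0 < N𝔟) (hd : 0 < N𝔡) (hj : 0 < N𝔧) (hk : 0 < N𝔨)
    (hf : 0 < N𝔣) (hτ : 0 < τ) (hm : 0 < m) (hE : 0 ≤ E) (hN : N𝔣 ≤ N𝔡 * N𝔧 * N𝔨) :
    C₁ * (((m : ℝ) ^ n)⁻¹ * (τ * 2 ^ n * m ^ n / (N𝔟 * N𝔨)) *
      ((κ⁻¹ ^ 2) ^ n * r ^ (-(n : ℝ) / 2)) * E *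
        (1 + (κ ^ 2 / 8 * (Λ * r)⁻¹) ^ (-(n : ℝ) / 2) * (N𝔟 * (N𝔡 * N𝔨)))) ≤
    (C₁ * 2 ^ n * (8 * Λ) ^ ((n : ℝ) / 2)) * κ⁻¹ ^ (3 * n) * τ *
      (N𝔡 * (r ^ (-(n : ℝ) / 2) / N𝔟 * N𝔧 / N𝔣 + 1)) * E := by
  have h1 : (κ ^ 2 / 8 * (Λ * r)⁻¹) ^ (-(n : ℝ) / 2) =
      κ⁻¹ ^ n * (8 * Λ) ^ ((n : ℝ) / 2) * r ^ ((n : ℝ) / 2) := by
    have e1 : κ ^ 2 / 8 * (Λ * r)⁻¹ = κ ^ 2 * ((8 * Λ)⁻¹ * r⁻¹) := by
      field_simp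
    rw [e1, Real.mul_rpow (by positivity) (by positivity), rpow_sq_half hκ,
      Real.mul_rpow (by positivity) (by positivity), Real.inv_rpow (by positivity),
      Real.inv_rpow hr.le, ← Real.rpow_neg (by positivity), ← Real.rpow_neg hr.le]
    have : -(-(n : ℝ) / 2) = (n : ℝ) / 2 := by ring
    rw [this]
    ring
  have h2 : r ^ (-(n : ℝ) / 2) * r ^ ((n : ℝ) / 2) = 1 := by
    rw [← Real.rpow_add hr]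
    have : -(n : ℝ) / 2 + (n : ℝ) / 2 = 0 := by ring
    rw [this, Real.rpow_zero]
  set Y := r ^ (-(n : ℝ) / 2) with hY
  have hY0 : 0 < Y := Real.rpow_pos_of_pos hr _
  set L := (8 * Λ) ^ ((n : ℝ) / 2) with hL
  have hL1 : 1 ≤ L := Real.one_le_rpow (by linarith) (by positivity)
  have hκi : 1 ≤ κ⁻¹ := (one_le_inv₀ hκ).mpr hκ1
  rw [h1]
  set Q := r ^ ((n : ℝ) / 2) with hQ
  have h3 : 1 / N𝔨 ≤ N𝔡 * N𝔧 / N𝔣 := by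
    rw [div_le_div_iff₀ hk hf]
    linarith
  have h4 : ((m : ℝ) ^ n)⁻¹ * (τ * 2 ^ n * m ^ n / (N𝔟 * N𝔨)) = τ * 2 ^ n / (N𝔟 * N𝔨) := by
    field_simp
  rw [h4]
  have h5 : 1 ≤ κ⁻¹ ^ n * L := one_le_mul_of_one_le_of_one_le (one_le_pow₀ hκi) hL1
  calc C₁ * (τ * 2 ^ n / (N𝔟 * N𝔨) * ((κ⁻¹ ^ 2) ^ n * Y) * E *
        (1 + κ⁻¹ ^ n * L * Q * (N𝔟 * (N𝔡 * N𝔨))))
      ≤ C₁ * (τ * 2 ^ n / (N𝔟 * N𝔨) * ((κ⁻¹ ^ 2) ^ n * Y) * E *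
        (κ⁻¹ ^ n * L * 1 + κ⁻¹ ^ n * L * Q * (N𝔟 * (N𝔡 * N𝔨)))) := by
        gcongr
        linarith
    _ = (C₁ * 2 ^ n * L) * κ⁻¹ ^ (3 * n) * τ * (Y / N𝔟 * (1 / N𝔨) + (Y * Q) * N𝔡) * E := by
        have e1 : κ⁻¹ ^ (3 * n) = (κ⁻¹ ^ 2) ^ n * κ⁻¹ ^ n := by
          rw [← pow_mul, ← pow_add]; congr 1; ring
        rw [e1]
        field_simp
    _ ≤ (C₁ * 2 ^ n * L) * κ⁻¹ ^ (3 * n) * τ * (Y / N𝔟 * (N𝔡 * N𝔧 / N𝔣) + 1 * N𝔡) * E := by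
        rw [h2]
        gcongr
    _ = _ := by ring

lemma cF_le {κ r : ℝ} {a : InfinitePlace K → ℂ} (hκ : 0 < κ) (hr : 0 < r)
    (har : ∀ w, r ≤ ‖a w‖ ^ 2) : cF K κ a ≤ (κ⁻¹ ^ 2) ^ (Module.finrank ℚ K) *
      r ^ (-((Module.finrank ℚ K : ℕ) : ℝ) / 2) := by
  unfold cF
  refine mul_le_mul_of_nonneg_left ?_ (by positivity)
  have h1 : ∀ φ : K →+* ℂ, ‖a (InfinitePlace.mk φ)‖⁻¹ ≤ r ^ (-(1 : ℝ) / 2) := by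
    intro φ
    have h2 : r ^ ((1 : ℝ) / 2) ≤ ‖a (InfinitePlace.mk φ)‖ := by
      rw [← Real.sqrt_eq_rpow]
      exact Real.sqrt_le_iff.mpr ⟨norm_nonneg _, har _⟩
    have h3 : 0 < r ^ ((1 : ℝ) / 2) := Real.rpow_pos_of_pos hr _
    have e1 : r ^ (-(1 : ℝ) / 2) = (r ^ ((1 : ℝ) / 2))⁻¹ := by
      rw [← Real.rpow_neg hr.le]; congr 1; ring
    rw [e1]
    exact inv_anti₀ h3 h2
  calc ∏ φ : K →+* ℂ, ‖a (InfinitePlace.mk φ)‖⁻¹ ≤ ∏ _φ : K →+* ℂ, r ^ (-(1 : ℝ) / 2) :=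
        Finset.prod_le_prod (fun _ _ => by positivity) fun φ _ => h1 φ
    _ = _ := by
        rw [Finset.prod_const, Finset.card_univ, card_emb, ← Real.rpow_natCast, ← Real.rpow_mul hr.le]
        congr 1
        ring

/-- **the mean square over the classes** -/
theorem cls_bound (K : Type) [Field K] [NumberField K] (Λ : ℝ) (hΛ : 1 ≤ Λ) : ∃ C : ℝ, 0 < C ∧
    ∀ e : InfinitePlace K → ℕ, (∀ w, e w ≤ 1) → ∀ (κ : ℝ) (a : InfinitePlace K → ℂ), Adm κ a →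
    ∀ r : ℝ, 0 < r → (∀ w, r ≤ ‖a w‖ ^ 2) → (∀ w, ‖a w‖ ^ 2 ≤ Λ * r) →
    ∀ (𝔣 𝔡 𝔟 : Ideal (𝓞 K)) (χ Ψ : 𝓞 K → ℂ), Chr 𝔣 χ → PsT 𝔣 𝔟 χ Ψ → Ψ 0 = 0 → 𝔣 ≤ 𝔡 →
      𝔡 ^ 3 ≤ 𝔣 → ∀ 𝔠 : Ideal (𝓞 K), 𝔠 = Ideal.span {(2 : 𝓞 K)} * (𝔟 * 𝔡) →
      ∀ [Fintype (𝓞 K ⧸ 𝔠)], ∑ q : 𝓞 K ⧸ 𝔠, ‖Acl 𝔠 (Fx' e a Ψ) (Quotient.out q)‖ ^ 2 ≤
      C * κ⁻¹ ^ (4 * Module.finrank ℚ K) * (tau 𝔣 : ℝ) ^ 2 *
        (r ^ (-(dg K) / 2) / (Ideal.absNorm 𝔟 : ℝ)) *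
        (1 + r ^ (-(dg K) / 2) / (Ideal.absNorm 𝔟 : ℝ) * (Ideal.absNorm 𝔡 : ℝ) /
          (Ideal.absNorm 𝔣 : ℝ)) := by
  classical
  obtain ⟨C₁, hC₁, hcorr⟩ := corr_bound K
  obtain ⟨C₂, hC₂, hid⟩ := sum_ideal K
  set n := Module.finrank ℚ K with hn
  have hdg : dg K = (n : ℝ) := rfl
  set L8 : ℝ := (8 : ℝ) ^ ((n : ℝ) / 2) with hL8
  have hL8p : 0 < L8 := by positivity
  set C₃ : ℝ := C₁ * 2 ^ n * (8 * Λ) ^ ((n : ℝ) / 2) with hC₃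
  have hC₃p : 0 < C₃ := by positivity
  refine ⟨C₂ * L8 * (1 + C₃), by positivity, ?_⟩
  intro e he κ a ha r hr har haR 𝔣 𝔡 𝔟 χ Ψ H P hΨ0 h1 h3 𝔠 h𝔠 hfin
  have hκ := ha.pos
  have hκ1 := ha.le
  have hκi : 1 ≤ κ⁻¹ := (one_le_inv₀ hκ).mpr hκ1
  have hf0 := H.ne
  have hb0 := P.ne
  have hd0 : 𝔡 ≠ ⊥ := fun h => hf0 (by rw [h] at h1; exact le_bot_iff.mp h1)
  have hNb := absNorm_pos0 hb0
  have hNf := absNorm_pos0 hf0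
  have hNd := absNorm_pos0 hd0
  set N𝔟 : ℝ := (Ideal.absNorm 𝔟 : ℝ) with hN𝔟
  set N𝔣 : ℝ := (Ideal.absNorm 𝔣 : ℝ) with hN𝔣
  set N𝔡 : ℝ := (Ideal.absNorm 𝔡 : ℝ) with hN𝔡
  rw [hdg]
  set Y : ℝ := r ^ (-(n : ℝ) / 2) with hY
  have hY0 : 0 < Y := Real.rpow_pos_of_pos hr _
  set X : ℝ := Y / N𝔟 with hX
  have hX0 : 0 < X := by positivity
  have hτ1 : (1 : ℝ) ≤ tau 𝔣 := by exact_mod_cast one_le_tau hf0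
  set τ : ℝ := (tau 𝔣 : ℝ) with hτ
  have hτ0 : 0 < τ := by linarith
  set F := Fx' e a Ψ with hF
  have hFs : Summable fun x => ‖F x‖ := summable_Fx' he ha (P.norm_le H)
  obtain ⟨hs1, hs2⟩ := class_sum (𝔠 := 𝔠) hFs
  -- the modulus
  set m : ℕ := Ideal.absNorm (𝔟 * 𝔣) with hm
  have hbf0 : 𝔟 * 𝔣 ≠ ⊥ := mul_ne_zero hb0 hf0
  have hm0 : 0 < m := Nat.pos_of_ne_zero (by rw [hm, Ne, Ideal.absNorm_eq_zero_iff]; exact hbf0)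
  have hmmem : (m : 𝓞 K) ∈ 𝔟 * 𝔣 := Ideal.absNorm_mem _
  have hmR : (0 : ℝ) < m := by exact_mod_cast hm0
  set B : ℝ := κ ^ 2 / 8 * r with hB
  have hB0 : 0 < B := by positivity
  have hBn : B ^ (-(n : ℝ) / 2) = κ⁻¹ ^ n * (L8 * Y) := by
    have e1 : B = κ ^ 2 * ((8 : ℝ)⁻¹ * r) := by rw [hB]; ring
    rw [e1, Real.mul_rpow (by positivity) (by positivity), rpow_sq_half hκ,
      Real.mul_rpow (by positivity) hr.le, Real.inv_rpow (by norm_num), ← Real.rpow_neg (by norm_num)]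
    have : -(-(n : ℝ) / 2) = (n : ℝ) / 2 := by ring
    rw [this]
  -- one correlation
  have hmain : ∀ h ∈ 𝔠, ∃ 𝔧 : {𝔢 : Ideal (𝓞 K) // 𝔢 ∣ 𝔣}, 𝔧.1 ≤ 𝔡 ∧ h ∈ 𝔟 * 𝔧.1 ∧
      ‖TT' F h‖ ≤ C₃ * κ⁻¹ ^ (3 * n) * τ *
        (N𝔡 * (X * (Ideal.absNorm 𝔧.1 : ℝ) / N𝔣 + 1)) * Real.exp (-B * QQ (h : K)) := by
    intro h hh
    rw [h𝔠] at hh
    obtain ⟨h', hh', rfl⟩ := Ideal.mem_span_singleton_mul.mp hh
    obtain ⟨𝔧, 𝔨, hj1, hj2, hj3, hk0, hN, hFk1, hFk2⟩ := fin_main H P h1 h3 hm0 hmmem hh'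
    refine ⟨⟨𝔧, hj1⟩, hj2, hj3, ?_⟩
    have hj0 : 𝔧 ≠ ⊥ := fun h => hf0 (by
      rw [h] at hj1
      exact zero_dvd_iff.mp hj1)
    have hNk := absNorm_pos0 hk0
    have hNj := absNorm_pos0 hj0
    have hcp : ∀ x z : 𝓞 K, cor Ψ (2 * h') (x + m * z) = cor Ψ (2 * h') x := by
      intro x z
      refine P.cor_per _ _ _ ?_
      rw [add_sub_cancel_left]
      exact Ideal.mul_mem_right _ _ hmmem
    have h5 := hcorr e he κ a ha r (Λ * r) har (by positivity) haR (2 * h') m hm0 (𝔟 * (𝔡 * 𝔨))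
      (mul_ne_zero hb0 (mul_ne_zero hd0 hk0)) (cor Ψ (2 * h')) 1 _ (P.norm_cor H _) hcp
      (by positivity) hFk1 hFk2
    rw [← TT'_eq] at h5
    refine h5.trans ?_
    have h6 := cF_le hκ hr har
    have hNmul : ((Ideal.absNorm (𝔟 * (𝔡 * 𝔨)) : ℕ) : ℝ) = N𝔟 * (N𝔡 * (Ideal.absNorm 𝔨 : ℝ)) := by
      rw [map_mul, map_mul]
      push_cast
      rfl
    have hNR : N𝔣 ≤ N𝔡 * (Ideal.absNorm 𝔧 : ℝ) * (Ideal.absNorm 𝔨 : ℝ) := by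
      rw [hN𝔣, hN𝔡]
      exact_mod_cast hN
    refine le_trans ?_ (corr_simp (n := n) hC₁ hκ hκ1 hr hΛ hNb hNd hNj hNk hNf hτ0 hmR
      (Real.exp_pos _).le hNR)
    rw [hNmul, ← hn, hdg]
    have hcF0 := cF_nonneg (K := K) (κ := κ) (a := a)
    gcongr
  -- the zero term
  have hzero : ‖TT' F 0‖ ≤ κ⁻¹ ^ (2 * n) * (C₂ * (κ⁻¹ ^ n * (L8 * Y) / N𝔟)) := by
    obtain ⟨hsi, hbi⟩ := hid 𝔟 hb0 B hB0
    rw [hdg, hBn] at hbi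
    have h5 : ∀ x : 𝓞 K, ‖F (x + 0) * (starRingEnd ℂ) (F x)‖ ≤ κ⁻¹ ^ (2 * n) *
        Set.indicator {x : 𝓞 K | x ∈ 𝔟 ∧ x ≠ 0} (fun x : 𝓞 K => Real.exp (-B * QQ (x : K))) x := by
      intro x
      rw [add_zero, norm_mul, RCLike.norm_conj]
      by_cases hx : x ∈ 𝔟 ∧ x ≠ 0
      · rw [Set.indicator_of_mem (show x ∈ {x : 𝓞 K | x ∈ 𝔟 ∧ x ≠ 0} from hx)]
        have h6 : ‖F x‖ ≤ κ⁻¹ ^ n * Real.exp (-(2 * κ * r) * QQ (x : K)) := by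
          rw [hF]
          unfold Fx'
          rw [norm_mul]
          calc _ ≤ 1 * ‖GMc e a (x : K)‖ :=
                mul_le_mul_of_nonneg_right (P.norm_le H x) (norm_nonneg _)
            _ ≤ _ := by rw [one_mul]; exact norm_GMc_le he ha har _
        calc ‖F x‖ * ‖F x‖ ≤ (κ⁻¹ ^ n * Real.exp (-(2 * κ * r) * QQ (x : K))) *
              (κ⁻¹ ^ n * Real.exp (-(2 * κ * r) * QQ (x : K))) := by gcongr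
          _ = κ⁻¹ ^ (2 * n) * Real.exp (-(4 * κ * r) * QQ (x : K)) := by
              rw [two_mul n, pow_add]
              have : Real.exp (-(4 * κ * r) * QQ (x : K)) = Real.exp (-(2 * κ * r) * QQ (x : K)) *
                  Real.exp (-(2 * κ * r) * QQ (x : K)) := by
                rw [← Real.exp_add]; congr 1; ring
              rw [this]; ring
          _ ≤ _ := by
              have h7 := QQ_nonneg (x : K)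
              have h8 : B ≤ 4 * κ * r := by
                have : κ ^ 2 / 8 ≤ 4 * κ := by nlinarith
                rw [hB]
                gcongr
              have h9 : Real.exp (-(4 * κ * r) * QQ (x : K)) ≤ Real.exp (-B * QQ (x : K)) := by
                apply Real.exp_le_exp.mpr
                nlinarith [mul_le_mul_of_nonneg_right h8 h7]
              exact mul_le_mul_of_nonneg_left h9 (by positivity)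
      · rw [Set.indicator_of_notMem (show x ∉ {x : 𝓞 K | x ∈ 𝔟 ∧ x ≠ 0} from hx), mul_zero]
        have h6 : F x = 0 := by
          rw [hF]
          unfold Fx'
          by_cases hxb : x ∈ 𝔟
          · have : x = 0 := by
              by_contra h7
              exact hx ⟨hxb, h7⟩
            rw [this, hΨ0, zero_mul]
          · rw [P.zero x hxb, zero_mul]
        rw [h6, norm_zero, mul_zero]
    have hsi2 : Summable (Set.indicator {x : 𝓞 K | x ∈ 𝔟 ∧ x ≠ 0}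
        (fun x : 𝓞 K => Real.exp (-B * QQ (x : K)))) :=
      (summable_subtype_iff_indicator (s := {x : 𝓞 K | x ∈ 𝔟 ∧ x ≠ 0})
        (f := fun x : 𝓞 K => Real.exp (-B * QQ (x : K)))).mp hsi
    have h6 := tsum_of_norm_bounded ((hsi2.mul_left (κ⁻¹ ^ (2 * n))).hasSum) h5
    unfold TT'
    refine h6.trans ?_
    rw [tsum_mul_left]
    refine mul_le_mul_of_nonneg_left ?_ (by positivity)
    rw [← tsum_subtype]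
    exact hbi
  -- the sum over `h`
  have hfD : Finite {𝔢 : Ideal (𝓞 K) // 𝔢 ∣ 𝔣} := finite_dvd hf0
  have := Fintype.ofFinite {𝔢 : Ideal (𝓞 K) // 𝔢 ∣ 𝔣}
  have hτcard : (Fintype.card {𝔢 : Ideal (𝓞 K) // 𝔢 ∣ 𝔣} : ℝ) = τ := by
    rw [hτ, tau, Nat.card_eq_fintype_card]
  have hj0 : ∀ 𝔧 : {𝔢 : Ideal (𝓞 K) // 𝔢 ∣ 𝔣}, 𝔧.1 ≠ ⊥ := by
    rintro ⟨𝔧, hj⟩ h
    simp only at h
    rw [h] at hj
    exact hf0 (zero_dvd_iff.mp hj)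
  set I : {𝔢 : Ideal (𝓞 K) // 𝔢 ∣ 𝔣} → 𝓞 K → ℝ := fun 𝔧 =>
    Set.indicator {x : 𝓞 K | x ∈ 𝔟 * 𝔧.1 ∧ x ≠ 0} (fun x : 𝓞 K => Real.exp (-B * QQ (x : K))) with hI
  have hI0 : ∀ 𝔧 x, 0 ≤ I 𝔧 x := fun 𝔧 x => Set.indicator_nonneg (fun _ _ => (Real.exp_pos _).le) x
  set Bd : {𝔢 : Ideal (𝓞 K) // 𝔢 ∣ 𝔣} → ℝ := fun 𝔧 => if 𝔧.1 ≤ 𝔡 then C₃ * κ⁻¹ ^ (3 * n) * τ *
        (N𝔡 * (X * (Ideal.absNorm 𝔧.1 : ℝ) / N𝔣 + 1)) else 0 with hBd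
  have hBd0 : ∀ 𝔧, 0 ≤ Bd 𝔧 := by
    intro 𝔧
    rw [hBd]
    simp only
    split_ifs
    · positivity
    · exact le_rfl
  have hIs : ∀ 𝔧, Summable (I 𝔧) ∧ ∑' x, I 𝔧 x ≤
      C₂ * (κ⁻¹ ^ n * (L8 * Y) / (N𝔟 * (Ideal.absNorm 𝔧.1 : ℝ))) := by
    intro 𝔧
    obtain ⟨hsi, hbi⟩ := hid (𝔟 * 𝔧.1) (mul_ne_zero hb0 (hj0 𝔧)) B hB0
    rw [hdg, hBn, map_mul] at hbi
    push_cast at hbi
    constructor
    · exact (summable_subtype_iff_indicator (s := {x : 𝓞 K | x ∈ 𝔟 * 𝔧.1 ∧ x ≠ 0})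
        (f := fun x : 𝓞 K => Real.exp (-B * QQ (x : K)))).mp hsi
    · rw [hI]
      simp only
      rw [← tsum_subtype]
      exact hbi
  have hpt : ∀ h : 𝔠, ‖TT' F h‖ ≤ (if h = 0 then ‖TT' F 0‖ else 0) +
      ∑ 𝔧, Bd 𝔧 * I 𝔧 (h : 𝓞 K) := by
    intro h
    have hnn : 0 ≤ ∑ 𝔧, Bd 𝔧 * I 𝔧 (h : 𝓞 K) :=
      Finset.sum_nonneg fun 𝔧 _ => mul_nonneg (hBd0 𝔧) (hI0 𝔧 _)
    by_cases hh : h = 0
    · rw [if_pos hh, hh]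
      rw [hh] at hnn
      simpa using hnn
    · rw [if_neg hh, zero_add]
      obtain ⟨𝔧, hj1, hj2, hj3⟩ := hmain h h.2
      refine le_trans ?_ (Finset.single_le_sum
        (fun 𝔧 _ => mul_nonneg (hBd0 𝔧) (hI0 𝔧 (h : 𝓞 K))) (Finset.mem_univ 𝔧))
      have h5 : (h : 𝓞 K) ≠ 0 := fun h6 => hh (Subtype.ext h6)
      have h6 : I 𝔧 (h : 𝓞 K) = Real.exp (-B * QQ (((h : 𝓞 K)) : K)) := by
        rw [hI]
        exact Set.indicator_of_mem (show (h : 𝓞 K) ∈ {x : 𝓞 K | x ∈ 𝔟 * 𝔧.1 ∧ x ≠ 0} from ⟨hj2, h5⟩) _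
      rw [h6, hBd]
      simp only
      rw [if_pos hj1]
      exact hj3
  have hsumI : Summable fun h : 𝔠 => ∑ 𝔧, Bd 𝔧 * I 𝔧 (h : 𝓞 K) := by
    refine summable_sum fun 𝔧 _ => ?_
    exact ((hIs 𝔧).1.comp_injective Subtype.val_injective).mul_left _
  have hsum0 : HasSum (fun h : 𝔠 => if h = 0 then ‖TT' F 0‖ else 0) ‖TT' F 0‖ := hasSum_ite_eq 0 _
  have htot : ‖∑' h : 𝔠, TT' F h‖ ≤ ‖TT' F 0‖ + ∑' h : 𝔠, ∑ 𝔧, Bd 𝔧 * I 𝔧 (h : 𝓞 K) :=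
    tsum_of_norm_bounded (hsum0.add hsumI.hasSum) hpt
  have hswap : ∑' h : 𝔠, ∑ 𝔧, Bd 𝔧 * I 𝔧 (h : 𝓞 K) ≤ ∑ 𝔧, Bd 𝔧 *
      (C₂ * (κ⁻¹ ^ n * (L8 * Y) / (N𝔟 * (Ideal.absNorm 𝔧.1 : ℝ)))) := by
    rw [Summable.tsum_finsetSum (f := fun 𝔧 (h : 𝔠) => Bd 𝔧 * I 𝔧 (h : 𝓞 K))
      (fun 𝔧 _ => ((hIs 𝔧).1.comp_injective Subtype.val_injective).mul_left _)]
    refine Finset.sum_le_sum fun 𝔧 _ => ?_
    rw [tsum_mul_left]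
    refine mul_le_mul_of_nonneg_left ?_ (hBd0 𝔧)
    refine le_trans ?_ (hIs 𝔧).2
    exact tsum_comp_le_tsum_of_inj (hIs 𝔧).1 (hI0 𝔧) Subtype.val_injective
  have hterm : ∀ 𝔧 : {𝔢 : Ideal (𝓞 K) // 𝔢 ∣ 𝔣}, Bd 𝔧 *
      (C₂ * (κ⁻¹ ^ n * (L8 * Y) / (N𝔟 * (Ideal.absNorm 𝔧.1 : ℝ)))) ≤
      (C₂ * L8 * C₃) * κ⁻¹ ^ (4 * n) * τ * X * (1 + X * N𝔡 / N𝔣) := by
    intro 𝔧
    have hNj := absNorm_pos0 (hj0 𝔧)
    rw [hBd]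
    simp only
    split_ifs with hjd
    · have h5 : N𝔡 ≤ (Ideal.absNorm 𝔧.1 : ℝ) := by
        have h6 := Ideal.absNorm_dvd_absNorm_of_le hjd
        have h7 : Ideal.absNorm 𝔧.1 ≠ 0 := by rw [Ne, Ideal.absNorm_eq_zero_iff]; exact hj0 𝔧
        rw [hN𝔡]
        exact_mod_cast Nat.le_of_dvd (Nat.pos_of_ne_zero h7) h6
      have h8 : N𝔡 / (Ideal.absNorm 𝔧.1 : ℝ) ≤ 1 := (div_le_one hNj).mpr h5
      calc _ = (C₂ * L8 * C₃) * κ⁻¹ ^ (4 * n) * τ * X *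
            (N𝔡 / (Ideal.absNorm 𝔧.1 : ℝ) + X * N𝔡 / N𝔣) := by
            have e1 : κ⁻¹ ^ (4 * n) = κ⁻¹ ^ (3 * n) * κ⁻¹ ^ n := by
              rw [← pow_add]; congr 1; ring
            rw [e1, hX]
            field_simp
            ring
        _ ≤ _ := by gcongr
    · rw [zero_mul]
      positivity
  have hfinal : ∑ q : 𝓞 K ⧸ 𝔠, ‖Acl 𝔠 F (Quotient.out q)‖ ^ 2 ≤
      ‖TT' F 0‖ + ∑ 𝔧 : {𝔢 : Ideal (𝓞 K) // 𝔢 ∣ 𝔣},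
        (C₂ * L8 * C₃) * κ⁻¹ ^ (4 * n) * τ * X * (1 + X * N𝔡 / N𝔣) := by
    have h5 : (∑ q : 𝓞 K ⧸ 𝔠, ‖Acl 𝔠 F (Quotient.out q)‖ ^ 2) = ‖∑' h : 𝔠, TT' F h‖ := by
      rw [← hs2, Complex.norm_real, Real.norm_of_nonneg (Finset.sum_nonneg fun _ _ => by positivity)]
    rw [h5]
    refine htot.trans ?_
    gcongr
    exact hswap.trans (Finset.sum_le_sum fun 𝔧 _ => hterm 𝔧)
  refine hfinal.trans ?_
  rw [Finset.sum_const, Finset.card_univ, nsmul_eq_mul, hτcard]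
  have h9 : ‖TT' F 0‖ ≤ (C₂ * L8) * κ⁻¹ ^ (4 * n) * τ ^ 2 * X * (1 + X * N𝔡 / N𝔣) := by
    refine hzero.trans ?_
    have e1 : κ⁻¹ ^ (2 * n) * (C₂ * (κ⁻¹ ^ n * (L8 * Y) / N𝔟)) =
        (C₂ * L8) * κ⁻¹ ^ (3 * n) * 1 * X * 1 := by
      have e2 : κ⁻¹ ^ (3 * n) = κ⁻¹ ^ (2 * n) * κ⁻¹ ^ n := by
        rw [← pow_add]; congr 1; ring
      rw [e2, hX]
      field_simp
    rw [e1]
    have e3 : κ⁻¹ ^ (3 * n) ≤ κ⁻¹ ^ (4 * n) := pow_le_pow_right₀ hκi (by omega)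
    have e4 : (1 : ℝ) ≤ τ ^ 2 := one_le_pow₀ hτ1
    have e5 : (1 : ℝ) ≤ 1 + X * N𝔡 / N𝔣 := by
      have : 0 ≤ X * N𝔡 / N𝔣 := by positivity
      linarith
    gcongr
  calc _ ≤ (C₂ * L8) * κ⁻¹ ^ (4 * n) * τ ^ 2 * X * (1 + X * N𝔡 / N𝔣) +
        τ * ((C₂ * L8 * C₃) * κ⁻¹ ^ (4 * n) * τ * X * (1 + X * N𝔡 / N𝔣)) := by gcongr
    _ = _ := by ring

end Pool.Agent.A856.HW
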