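import Pool.Agent.A856.HW.FamA

/-!
# The trivial bounds, and the theta bound for a family

Owner helper856 (Hecke L-functions with powerful conductor).
-/

set_option autoImplicit false
set_option linter.unusedSectionVars false
set_option linter.unusedVariables false
set_option maxHeartbeats 4000000

open NumberField Complex Filter Topology UniqueFactorizationMonoid

namespace Pool.Agent.A856.HW

open Pool.Agent.Y773 (Idx db lp PerI SQ mk_out out_mk)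
open Pool.Agent.Y773.G

variable {K : Type} [Field K] [NumberField K]

lemma QQ_add_le (x h : K) : QQ h ≤ 2 * (QQ (x + h) + QQ x) := by
  unfold QQ
  rw [← Finset.sum_add_distrib, Finset.mul_sum]
  refine Finset.sum_le_sum fun φ _ => ?_
  rw [rr_add]
  nlinarith [sq_nonneg (2 * rr φ x + rr φ h)]

/-- the `ℓ¹` bound -/
theorem l1_bound (K : Type) [Field K] [NumberField K] : ∃ C : ℝ, 0 < C ∧
    ∀ e : InfinitePlace K → ℕ, (∀ w, e w ≤ 1) → ∀ (κ : ℝ) (a : InfinitePlace K → ℂ), Adm κ a →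
    ∀ r : ℝ, 0 < r → (∀ w, r ≤ ‖a w‖ ^ 2) →
    ∀ (𝔣 𝔟 : Ideal (𝓞 K)) (χ Ψ : 𝓞 K → ℂ), Chr 𝔣 χ → PsT 𝔣 𝔟 χ Ψ → Ψ 0 = 0 →
      ∑' x, ‖Fx' e a Ψ x‖ ≤ C * κ⁻¹ ^ (2 * Module.finrank ℚ K) *
        (r ^ (-(dg K) / 2) / (Ideal.absNorm 𝔟 : ℝ)) := by
  obtain ⟨C₂, hC₂, hid⟩ := sum_ideal K
  set n := Module.finrank ℚ K with hn
  have hdg : dg K = (n : ℝ) := rfl
  refine ⟨C₂, hC₂, ?_⟩
  intro e he κ a ha r hr har 𝔣 𝔟 χ Ψ H P hΨ0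
  have hκ := ha.pos
  have hκ1 := ha.le
  have hκi : 1 ≤ κ⁻¹ := (one_le_inv₀ hκ).mpr hκ1
  have hb0 := P.ne
  have hNb := absNorm_pos0 hb0
  set N𝔟 : ℝ := (Ideal.absNorm 𝔟 : ℝ) with hN𝔟
  rw [hdg]
  set Y : ℝ := r ^ (-(n : ℝ) / 2) with hY
  have hY0 : 0 < Y := Real.rpow_pos_of_pos hr _
  set B : ℝ := κ ^ 2 * r with hB
  have hB0 : 0 < B := by positivity
  have hBn : B ^ (-(n : ℝ) / 2) = κ⁻¹ ^ n * Y := by
    rw [hB, Real.mul_rpow (by positivity) hr.le, rpow_sq_half hκ]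
  obtain ⟨hsi, hbi⟩ := hid 𝔟 hb0 B hB0
  rw [hdg, hBn] at hbi
  have h5 : ∀ x : 𝓞 K, ‖Fx' e a Ψ x‖ ≤ κ⁻¹ ^ n *
      Set.indicator {x : 𝓞 K | x ∈ 𝔟 ∧ x ≠ 0} (fun x : 𝓞 K => Real.exp (-B * QQ (x : K))) x := by
    intro x
    unfold Fx'
    by_cases hx : x ∈ 𝔟 ∧ x ≠ 0
    · rw [Set.indicator_of_mem (show x ∈ {x : 𝓞 K | x ∈ 𝔟 ∧ x ≠ 0} from hx), norm_mul]
      calc _ ≤ 1 * ‖GMc e a (x : K)‖ :=
            mul_le_mul_of_nonneg_right (P.norm_le H x) (norm_nonneg _)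
        _ ≤ κ⁻¹ ^ n * Real.exp (-(2 * κ * r) * QQ (x : K)) := by
            rw [one_mul]; exact norm_GMc_le he ha har _
        _ ≤ _ := by
            have h7 := QQ_nonneg (x : K)
            have h8 : B ≤ 2 * κ * r := by
              have : κ ^ 2 ≤ 2 * κ := by nlinarith
              rw [hB]
              gcongr
            have h9 : Real.exp (-(2 * κ * r) * QQ (x : K)) ≤ Real.exp (-B * QQ (x : K)) := by
              apply Real.exp_le_exp.mpr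
              nlinarith [mul_le_mul_of_nonneg_right h8 h7]
            exact mul_le_mul_of_nonneg_left h9 (by positivity)
    · rw [Set.indicator_of_notMem (show x ∉ {x : 𝓞 K | x ∈ 𝔟 ∧ x ≠ 0} from hx), mul_zero]
      have h6 : Ψ x = 0 := by
        by_cases hxb : x ∈ 𝔟
        · have : x = 0 := by
            by_contra h7
            exact hx ⟨hxb, h7⟩
          rw [this, hΨ0]
        · exact P.zero x hxb
      rw [h6, zero_mul, norm_zero]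
  have hsi2 : Summable (Set.indicator {x : 𝓞 K | x ∈ 𝔟 ∧ x ≠ 0}
      (fun x : 𝓞 K => Real.exp (-B * QQ (x : K)))) :=
    (summable_subtype_iff_indicator (s := {x : 𝓞 K | x ∈ 𝔟 ∧ x ≠ 0})
      (f := fun x : 𝓞 K => Real.exp (-B * QQ (x : K)))).mp hsi
  have hsF := summable_Fx' he ha (P.norm_le H)
  refine (hsF.tsum_le_tsum h5 (hsi2.mul_left _)).trans ?_
  rw [tsum_mul_left, ← tsum_subtype]
  calc κ⁻¹ ^ n * _ ≤ κ⁻¹ ^ n * (C₂ * (κ⁻¹ ^ n * Y / N𝔟)) :=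
        mul_le_mul_of_nonneg_left hbi (by positivity)
    _ = _ := by
        rw [two_mul, pow_add]
        ring

/-- the trivial bound for the sum over the classes, 1 -/
lemma cls_l1 {𝔠 : Ideal (𝓞 K)} [Fintype (𝓞 K ⧸ 𝔠)] {F : 𝓞 K → ℂ}
    (hF : Summable fun x => ‖F x‖) :
    ∑ q : 𝓞 K ⧸ 𝔠, ‖Acl 𝔠 F (Quotient.out q)‖ ^ 2 ≤ (∑' x, ‖F x‖) ^ 2 := by
  have h1 : ∀ q : 𝓞 K ⧸ 𝔠, ‖Acl 𝔠 F (Quotient.out q)‖ ≤
      ∑' y : 𝔠, ‖F (Quotient.out q + (y : 𝓞 K))‖ := by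
    intro q
    unfold Acl
    exact norm_tsum_le_tsum_norm (summable_shift hF 𝔠 _)
  have h2 : ∑ q : 𝓞 K ⧸ 𝔠, ∑' y : 𝔠, ‖F (Quotient.out q + (y : 𝓞 K))‖ = ∑' x, ‖F x‖ := by
    have h3 : Summable fun x => ((‖F x‖ : ℝ) : ℂ) := Complex.summable_ofReal.mpr hF
    have h4 := tsum_classes (𝔠 := 𝔠) h3
    rw [← Complex.ofReal_tsum] at h4
    have h5 : ∀ q : 𝓞 K ⧸ 𝔠, ∑' y : 𝔠, ((‖F (Quotient.out q + (y : 𝓞 K))‖ : ℝ) : ℂ) =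
        ((∑' y : 𝔠, ‖F (Quotient.out q + (y : 𝓞 K))‖ : ℝ) : ℂ) := fun q =>
      (Complex.ofReal_tsum _).symm
    simp_rw [h5] at h4
    rw [← Complex.ofReal_sum] at h4
    exact (Complex.ofReal_injective h4).symm
  have h6 : ∀ q ∈ (Finset.univ : Finset (𝓞 K ⧸ 𝔠)), 0 ≤ ‖Acl 𝔠 F (Quotient.out q)‖ :=
    fun q _ => norm_nonneg _
  have h7 : ∑ q : 𝓞 K ⧸ 𝔠, ‖Acl 𝔠 F (Quotient.out q)‖ ^ 2 ≤
      (∑ q : 𝓞 K ⧸ 𝔠, ‖Acl 𝔠 F (Quotient.out q)‖) ^ 2 := by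
    rw [sq, Finset.sum_mul]
    refine Finset.sum_le_sum fun q hq => ?_
    rw [sq]
    exact mul_le_mul_of_nonneg_left (Finset.single_le_sum h6 hq) (norm_nonneg _)
  refine h7.trans ?_
  refine pow_le_pow_left₀ (Finset.sum_nonneg h6) ?_ 2
  rw [← h2]
  exact Finset.sum_le_sum fun q _ => h1 q

/-- the trivial bound for the sum over the classes, 2 -/
theorem cls_triv (K : Type) [Field K] [NumberField K] : ∃ C : ℝ, 0 < C ∧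
    ∀ e : InfinitePlace K → ℕ, (∀ w, e w ≤ 1) → ∀ (κ : ℝ) (a : InfinitePlace K → ℂ), Adm κ a →
    ∀ r : ℝ, 0 < r → (∀ w, r ≤ ‖a w‖ ^ 2) →
    ∀ (𝔣 𝔡 𝔟 : Ideal (𝓞 K)) (χ Ψ : 𝓞 K → ℂ), Chr 𝔣 χ → PsT 𝔣 𝔟 χ Ψ → Ψ 0 = 0 → 𝔡 ≠ ⊥ →
      ∀ 𝔠 : Ideal (𝓞 K), 𝔠 = Ideal.span {(2 : 𝓞 K)} * (𝔟 * 𝔡) →
      ∀ [Fintype (𝓞 K ⧸ 𝔠)], ∑ q : 𝓞 K ⧸ 𝔠, ‖Acl 𝔠 (Fx' e a Ψ) (Quotient.out q)‖ ^ 2 ≤
      C * κ⁻¹ ^ (4 * Module.finrank ℚ K) *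
        (r ^ (-(dg K) / 2) / (Ideal.absNorm 𝔟 : ℝ)) *
        (1 + r ^ (-(dg K) / 2) / (Ideal.absNorm 𝔟 : ℝ) / (Ideal.absNorm 𝔡 : ℝ)) := by
  classical
  obtain ⟨C₂, hC₂, hid⟩ := sum_ideal K
  set n := Module.finrank ℚ K with hn
  have hdg : dg K = (n : ℝ) := rfl
  set L4 : ℝ := (4 : ℝ) ^ ((n : ℝ) / 2) with hL4
  have hL4p : 1 ≤ L4 := Real.one_le_rpow (by norm_num) (by positivity)
  refine ⟨C₂ * L4 * (1 + C₂ * L4), by positivity, ?_⟩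
  intro e he κ a ha r hr har 𝔣 𝔡 𝔟 χ Ψ H P hΨ0 hd0 𝔠 h𝔠 hfin
  have hκ := ha.pos
  have hκ1 := ha.le
  have hκi : 1 ≤ κ⁻¹ := (one_le_inv₀ hκ).mpr hκ1
  have hb0 := P.ne
  have hNb := absNorm_pos0 hb0
  have hNd := absNorm_pos0 hd0
  set N𝔟 : ℝ := (Ideal.absNorm 𝔟 : ℝ) with hN𝔟
  set N𝔡 : ℝ := (Ideal.absNorm 𝔡 : ℝ) with hN𝔡
  rw [hdg]
  set Y : ℝ := r ^ (-(n : ℝ) / 2) with hY
  have hY0 : 0 < Y := Real.rpow_pos_of_pos hr _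
  set X : ℝ := Y / N𝔟 with hX
  have hX0 : 0 < X := by positivity
  set B : ℝ := κ ^ 2 / 4 * r with hB
  have hB0 : 0 < B := by positivity
  have hBn : B ^ (-(n : ℝ) / 2) = κ⁻¹ ^ n * (L4 * Y) := by
    have e1 : B = κ ^ 2 * ((4 : ℝ)⁻¹ * r) := by rw [hB]; ring
    rw [e1, Real.mul_rpow (by positivity) (by positivity), rpow_sq_half hκ,
      Real.mul_rpow (by positivity) hr.le, Real.inv_rpow (by norm_num), ← Real.rpow_neg (by norm_num)]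
    have : -(-(n : ℝ) / 2) = (n : ℝ) / 2 := by ring
    rw [this]
  set F := Fx' e a Ψ with hF
  have hFs : Summable fun x => ‖F x‖ := summable_Fx' he ha (P.norm_le H)
  obtain ⟨hs1, hs2⟩ := class_sum (𝔠 := 𝔠) hFs
  have hcle : 𝔠 ≤ 𝔟 * 𝔡 := by rw [h𝔠]; exact Ideal.mul_le_right
  -- pointwise bounds
  have hF0 : ∀ x : 𝓞 K, ¬ (x ∈ 𝔟 ∧ x ≠ 0) → F x = 0 := by
    intro x hx
    rw [hF]
    unfold Fx'
    by_cases hxb : x ∈ 𝔟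
    · have : x = 0 := by
        by_contra h7
        exact hx ⟨hxb, h7⟩
      rw [this, hΨ0, zero_mul]
    · rw [P.zero x hxb, zero_mul]
  have hFb : ∀ x : 𝓞 K, ‖F x‖ ≤ κ⁻¹ ^ n * Real.exp (-(2 * κ * r) * QQ (x : K)) := by
    intro x
    rw [hF]
    unfold Fx'
    rw [norm_mul]
    calc _ ≤ 1 * ‖GMc e a (x : K)‖ :=
          mul_le_mul_of_nonneg_right (P.norm_le H x) (norm_nonneg _)
      _ ≤ _ := by rw [one_mul]; exact norm_GMc_le he ha har _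
  -- one correlation
  obtain ⟨hsi, hbi⟩ := hid 𝔟 hb0 B hB0
  rw [hdg, hBn] at hbi
  have hsi2 : Summable (Set.indicator {x : 𝓞 K | x ∈ 𝔟 ∧ x ≠ 0}
      (fun x : 𝓞 K => Real.exp (-B * QQ (x : K)))) :=
    (summable_subtype_iff_indicator (s := {x : 𝓞 K | x ∈ 𝔟 ∧ x ≠ 0})
      (f := fun x : 𝓞 K => Real.exp (-B * QQ (x : K)))).mp hsi
  have hone : ∀ h : 𝓞 K, ‖TT' F h‖ ≤ κ⁻¹ ^ (3 * n) * (C₂ * L4 * X) * Real.exp (-B * QQ (h : K)) := by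
    intro h
    have h5 : ∀ x : 𝓞 K, ‖F (x + h) * (starRingEnd ℂ) (F x)‖ ≤
        (κ⁻¹ ^ (2 * n) * Real.exp (-B * QQ (h : K))) *
        Set.indicator {x : 𝓞 K | x ∈ 𝔟 ∧ x ≠ 0} (fun x : 𝓞 K => Real.exp (-B * QQ (x : K))) x := by
      intro x
      rw [norm_mul, RCLike.norm_conj]
      by_cases hx : x ∈ 𝔟 ∧ x ≠ 0
      · rw [Set.indicator_of_mem (show x ∈ {x : 𝓞 K | x ∈ 𝔟 ∧ x ≠ 0} from hx)]
        have e1 : ((x + h : 𝓞 K) : K) = (x : K) + (h : K) := map_add (algebraMap (𝓞 K) K) _ _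
        have e2 := QQ_add_le (x : K) (h : K)
        have e3 := QQ_nonneg ((x : K) + (h : K))
        have e4 := QQ_nonneg (x : K)
        have e5 := QQ_nonneg (h : K)
        have h8 : B ≤ κ / 4 * r := by
          have : κ ^ 2 / 4 ≤ κ / 4 := by nlinarith
          rw [hB]
          gcongr
        calc ‖F (x + h)‖ * ‖F x‖ ≤ (κ⁻¹ ^ n * Real.exp (-(2 * κ * r) * QQ ((x + h : 𝓞 K) : K))) *
              (κ⁻¹ ^ n * Real.exp (-(2 * κ * r) * QQ (x : K))) := by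
              gcongr
              · exact hFb _
              · exact hFb _
          _ = κ⁻¹ ^ (2 * n) * Real.exp (-(2 * (κ * r)) * (QQ ((x : K) + h) + QQ (x : K))) := by
              rw [e1, two_mul n, pow_add]
              have : Real.exp (-(2 * (κ * r)) * (QQ ((x : K) + h) + QQ (x : K))) =
                  Real.exp (-(2 * κ * r) * QQ ((x : K) + h)) *
                  Real.exp (-(2 * κ * r) * QQ (x : K)) := by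
                rw [← Real.exp_add]; congr 1; ring
              rw [this]; ring
          _ ≤ κ⁻¹ ^ (2 * n) * Real.exp (-B * QQ (h : K) + -B * QQ (x : K)) := by
              refine mul_le_mul_of_nonneg_left (Real.exp_le_exp.mpr ?_) (by positivity)
              have hκr : 0 < κ * r := by positivity
              have m1 := mul_le_mul_of_nonneg_left e2 hκr.le
              have m2 := mul_le_mul_of_nonneg_right h8 e5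
              have m3 := mul_le_mul_of_nonneg_right h8 e4
              have m4 := mul_nonneg hκr.le e3
              have m5 := mul_nonneg hκr.le e4
              nlinarith
          _ = _ := by rw [Real.exp_add]; ring
      · rw [Set.indicator_of_notMem (show x ∉ {x : 𝓞 K | x ∈ 𝔟 ∧ x ≠ 0} from hx), mul_zero,
          hF0 x hx, norm_zero, mul_zero]
    have h6 := tsum_of_norm_bounded
      ((hsi2.mul_left (κ⁻¹ ^ (2 * n) * Real.exp (-B * QQ (h : K)))).hasSum) h5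
    unfold TT'
    refine h6.trans ?_
    rw [tsum_mul_left, ← tsum_subtype]
    calc _ ≤ (κ⁻¹ ^ (2 * n) * Real.exp (-B * QQ (h : K))) * (C₂ * (κ⁻¹ ^ n * (L4 * Y) / N𝔟)) :=
          mul_le_mul_of_nonneg_left hbi (by positivity)
      _ = _ := by
          have e2 : κ⁻¹ ^ (3 * n) = κ⁻¹ ^ (2 * n) * κ⁻¹ ^ n := by
            rw [← pow_add]; congr 1; ring
          rw [e2, hX]
          field_simp
  -- the sum over `h`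
  obtain ⟨hsd, hbd⟩ := hid (𝔟 * 𝔡) (mul_ne_zero hb0 hd0) B hB0
  rw [hdg, hBn, map_mul] at hbd
  push_cast at hbd
  have hsd2 : Summable (Set.indicator {x : 𝓞 K | x ∈ 𝔟 * 𝔡 ∧ x ≠ 0}
      (fun x : 𝓞 K => Real.exp (-B * QQ (x : K)))) :=
    (summable_subtype_iff_indicator (s := {x : 𝓞 K | x ∈ 𝔟 * 𝔡 ∧ x ≠ 0})
      (f := fun x : 𝓞 K => Real.exp (-B * QQ (x : K)))).mp hsd
  set J : 𝓞 K → ℝ := Set.indicator {x : 𝓞 K | x ∈ 𝔟 * 𝔡 ∧ x ≠ 0}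
      (fun x : 𝓞 K => Real.exp (-B * QQ (x : K))) with hJ
  have hJ0 : ∀ x, 0 ≤ J x := fun x => Set.indicator_nonneg (fun _ _ => (Real.exp_pos _).le) x
  set W : ℝ := κ⁻¹ ^ (3 * n) * (C₂ * L4 * X) with hW
  have hW0 : 0 ≤ W := by positivity
  have hpt : ∀ h : 𝔠, ‖TT' F h‖ ≤ (if h = 0 then W else 0) + W * J (h : 𝓞 K) := by
    intro h
    by_cases hh : h = 0
    · rw [if_pos hh, hh]
      have h5 := hone 0
      have h6 : Real.exp (-B * QQ (((0 : 𝓞 K)) : K)) ≤ 1 := by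
        rw [Real.exp_le_one_iff]
        have := QQ_nonneg (((0 : 𝓞 K)) : K)
        nlinarith
      have h7 := hJ0 ((0 : 𝔠) : 𝓞 K)
      have h8 : ‖TT' F ((0 : 𝔠) : 𝓞 K)‖ ≤ W := by
        rw [ZeroMemClass.coe_zero]
        calc _ ≤ W * _ := h5
          _ ≤ W * 1 := by gcongr
          _ = W := mul_one _
      nlinarith [mul_nonneg hW0 h7]
    · rw [if_neg hh, zero_add]
      have h5 : (h : 𝓞 K) ≠ 0 := fun h6 => hh (Subtype.ext h6)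
      have h6 : J (h : 𝓞 K) = Real.exp (-B * QQ (((h : 𝓞 K)) : K)) := by
        rw [hJ]
        exact Set.indicator_of_mem
          (show (h : 𝓞 K) ∈ {x : 𝓞 K | x ∈ 𝔟 * 𝔡 ∧ x ≠ 0} from ⟨hcle h.2, h5⟩) _
      rw [h6]
      exact hone h
  have hsum0 : HasSum (fun h : 𝔠 => if h = 0 then W else 0) W := hasSum_ite_eq 0 _
  have hsumJ : Summable fun h : 𝔠 => W * J (h : 𝓞 K) :=
    (hsd2.comp_injective Subtype.val_injective).mul_left _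
  have htot : ‖∑' h : 𝔠, TT' F h‖ ≤ W + ∑' h : 𝔠, W * J (h : 𝓞 K) :=
    tsum_of_norm_bounded (hsum0.add hsumJ.hasSum) hpt
  have h5 : (∑ q : 𝓞 K ⧸ 𝔠, ‖Acl 𝔠 F (Quotient.out q)‖ ^ 2) = ‖∑' h : 𝔠, TT' F h‖ := by
    rw [← hs2, Complex.norm_real, Real.norm_of_nonneg (Finset.sum_nonneg fun _ _ => by positivity)]
  rw [h5]
  refine htot.trans ?_
  rw [tsum_mul_left]
  have h6 : ∑' h : 𝔠, J (h : 𝓞 K) ≤ C₂ * (κ⁻¹ ^ n * (L4 * Y) / (N𝔟 * N𝔡)) := by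
    refine le_trans (tsum_comp_le_tsum_of_inj hsd2 hJ0 Subtype.val_injective) ?_
    rw [hJ, ← tsum_subtype]
    exact hbd
  calc W + W * ∑' h : 𝔠, J (h : 𝓞 K) ≤ W + W * (C₂ * (κ⁻¹ ^ n * (L4 * Y) / (N𝔟 * N𝔡))) := by
        gcongr
    _ = κ⁻¹ ^ (3 * n) * 1 * (C₂ * L4 * X) * 1 + κ⁻¹ ^ (4 * n) * (C₂ * L4 * X) * (C₂ * L4) * (X / N𝔡) := by
        have e1 : κ⁻¹ ^ (4 * n) = κ⁻¹ ^ (3 * n) * κ⁻¹ ^ n := by
          rw [← pow_add]; congr 1; ring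
        rw [e1, hW, hX]
        field_simp
    _ ≤ κ⁻¹ ^ (3 * n) * κ⁻¹ ^ n * (C₂ * L4 * X) * (1 + X / N𝔡) +
        κ⁻¹ ^ (4 * n) * (C₂ * L4 * X) * (C₂ * L4) * (1 + X / N𝔡) := by
        have e3 : (1 : ℝ) ≤ κ⁻¹ ^ n := one_le_pow₀ hκi
        have e5 : (1 : ℝ) ≤ 1 + X / N𝔡 := by
          have : 0 ≤ X / N𝔡 := by positivity
          linarith
        have e6 : X / N𝔡 ≤ 1 + X / N𝔡 := by linarith
        gcongr
    _ = _ := by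
        have e1 : κ⁻¹ ^ (4 * n) = κ⁻¹ ^ (3 * n) * κ⁻¹ ^ n := by
          rw [← pow_add]; congr 1; ring
        rw [e1]
        ring

/-- **the theta bound for a family** -/
theorem fam_theta (K : Type) [Field K] [NumberField K] (Λ M₀ : ℝ) (hΛ : 1 ≤ Λ) (hM₀ : 0 ≤ M₀) :
    ∃ C : ℝ, 0 < C ∧
    ∀ (κ : ℝ) (a : InfinitePlace K → ℂ), Adm κ a →
    ∀ r : ℝ, 0 < r → (∀ w, r ≤ ‖a w‖ ^ 2) → (∀ w, ‖a w‖ ^ 2 ≤ Λ * r) →
    ∀ (𝔣 𝔡 𝔟 : Ideal (𝓞 K)) (e : InfinitePlace K → ℕ) (I : Type) [Fintype I]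
      (ψ : I → Ideal (𝓞 K) →*₀ ℂ), Fam 𝔣 𝔡 e ψ → 𝔟 ≠ ⊥ → 𝔣 ≤ 𝔡 → 𝔡 ^ 3 ≤ 𝔣 →
      r ^ (-(dg K) / 2) / (Ideal.absNorm 𝔟 : ℝ) ≤ M₀ * √(Ideal.absNorm 𝔣 : ℝ) →
      ∑ i, ‖∑' x : 𝓞 K, Fx' e a (Ps (ψ i) e 𝔟) x‖ ^ 2 ≤
        C * κ⁻¹ ^ (4 * Module.finrank ℚ K) * (tau 𝔣 : ℝ) ^ 2 * (Ideal.absNorm 𝔡 : ℝ) *
        min (r ^ (-(dg K) / 2) / (Ideal.absNorm 𝔟 : ℝ))
          ((r ^ (-(dg K) / 2) / (Ideal.absNorm 𝔟 : ℝ)) ^ 2) := by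
  classical
  obtain ⟨C₁, hC₁, hcls⟩ := cls_bound K Λ hΛ
  obtain ⟨C₂, hC₂, hl1⟩ := l1_bound K
  obtain ⟨C₃, hC₃, htriv⟩ := cls_triv K
  set n := Module.finrank ℚ K with hn
  have hmu : 0 < mu K := by
    unfold mu
    have : 0 < Fintype.card (ClassGroup (𝓞 K)) := Fintype.card_pos
    positivity
  refine ⟨(mu K : ℝ) * 2 ^ n * (C₁ * (1 + M₀) + C₂ ^ 2 + C₃ * (1 + M₀)), by positivity, ?_⟩
  intro κ a ha r hr har haR 𝔣 𝔡 𝔟 e I hI ψ h hb0 h1 h3 hX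
  have hNb := absNorm_pos0 hb0
  have hκ := ha.pos
  have hκi : 1 ≤ κ⁻¹ := (one_le_inv₀ hκ).mpr ha.le
  have hY0 : 0 < r ^ (-(dg K) / 2) := Real.rpow_pos_of_pos hr _
  set X : ℝ := r ^ (-(dg K) / 2) / (Ideal.absNorm 𝔟 : ℝ) with hXdef
  have hX0 : 0 < X := by positivity
  have hmin0 : 0 ≤ min X (X ^ 2) := le_min hX0.le (by positivity)
  rcases isEmpty_or_nonempty I with hemp | ⟨⟨i₀⟩⟩
  · rw [Finset.univ_eq_empty, Finset.sum_empty]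
    positivity
  have he := (h.mod i₀).sig_le
  have hf0 := (h.chr i₀).ne
  have hd0 : 𝔡 ≠ ⊥ := fun h5 => hf0 (by rw [h5] at h1; exact le_bot_iff.mp h1)
  have hNf := absNorm_pos0 hf0
  have hNd := absNorm_pos0 hd0
  have hτ1 : (1 : ℝ) ≤ tau 𝔣 := by exact_mod_cast one_le_tau hf0
  obtain ⟨𝔠, h𝔠⟩ : ∃ 𝔠 : Ideal (𝓞 K), 𝔠 = Ideal.span {(2 : 𝓞 K)} * (𝔟 * 𝔡) := ⟨_, rfl⟩
  have h20 : Ideal.span {(2 : 𝓞 K)} ≠ ⊥ := by
    rw [Ne, Ideal.span_singleton_eq_bot]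
    exact two_ne_zero
  have hc0 : 𝔠 ≠ ⊥ := by
    rw [h𝔠]
    exact mul_ne_zero h20 (mul_ne_zero hb0 hd0)
  have hfin : Finite (𝓞 K ⧸ 𝔠) := Ideal.finiteQuotientOfFreeOfNeBot _ hc0
  have := Fintype.ofFinite (𝓞 K ⧸ 𝔠)
  have hΨ0 : Ps (ψ i₀) e 𝔟 0 = 0 := ((h.mod i₀).nice hb0).zero
  have hA := hcls e he κ a ha r hr har haR 𝔣 𝔡 𝔟 (chi (ψ i₀) e) (Ps (ψ i₀) e 𝔟) (h.chr i₀)
    (h.psT hb0 i₀) hΨ0 h1 h3 𝔠 h𝔠
  have hB := htriv e he κ a ha r hr har 𝔣 𝔡 𝔟 (chi (ψ i₀) e) (Ps (ψ i₀) e 𝔟) (h.chr i₀)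
    (h.psT hb0 i₀) hΨ0 hd0 𝔠 h𝔠
  have hFs : Summable fun x => ‖Fx' e a (Ps (ψ i₀) e 𝔟) x‖ :=
    summable_Fx' he ha ((h.psT hb0 i₀).norm_le (h.chr i₀))
  have hC := (cls_l1 (𝔠 := 𝔠) hFs).trans (pow_le_pow_left₀ (tsum_nonneg fun _ => norm_nonneg _)
    (hl1 e he κ a ha r hr har 𝔣 𝔟 (chi (ψ i₀) e) (Ps (ψ i₀) e 𝔟) (h.chr i₀)
    (h.psT hb0 i₀) hΨ0) 2)
  have hbes := fam_bessel h hb0 h1 h3 i₀ (g := fun x : 𝓞 K => GMc e a (x : K))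
    ((summable_GMc he ha).norm) h𝔠
  rw [← hXdef] at hA hB hC
  set S : ℝ := ∑ q : 𝓞 K ⧸ 𝔠, ‖Acl 𝔠 (Fx' e a (Ps (ψ i₀) e 𝔟)) (Quotient.out q)‖ ^ 2 with hS
  have hbes' : ∑ i, ‖∑' x : 𝓞 K, Fx' e a (Ps (ψ i) e 𝔟) x‖ ^ 2 ≤
      (mu K : ℝ) * (2 ^ n * (Ideal.absNorm 𝔡 : ℝ)) * S := hbes
  refine hbes'.trans ?_
  have hsq : (0 : ℝ) < √(Ideal.absNorm 𝔣 : ℝ) := Real.sqrt_pos.mpr hNf
  have hsq2 : √(Ideal.absNorm 𝔣 : ℝ) * √(Ideal.absNorm 𝔣 : ℝ) = (Ideal.absNorm 𝔣 : ℝ) :=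
    Real.mul_self_sqrt hNf.le
  set P4 : ℝ := κ⁻¹ ^ (4 * n) with hP4
  have hP40 : 0 < P4 := by positivity
  have hτ2 : (1 : ℝ) ≤ (tau 𝔣 : ℝ) ^ 2 := one_le_pow₀ hτ1
  set D : ℝ := C₁ * (1 + M₀) + C₂ ^ 2 + C₃ * (1 + M₀) with hD
  -- the first bound
  have hS1 : S ≤ D * P4 * (tau 𝔣 : ℝ) ^ 2 * X := by
    rcases le_total (Ideal.absNorm 𝔡 : ℝ) (√(Ideal.absNorm 𝔣 : ℝ)) with hle | hle
    · have e1 : X * (Ideal.absNorm 𝔡 : ℝ) / (Ideal.absNorm 𝔣 : ℝ) ≤ M₀ := by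
        rw [div_le_iff₀ hNf]
        calc X * (Ideal.absNorm 𝔡 : ℝ) ≤ (M₀ * √(Ideal.absNorm 𝔣 : ℝ)) * √(Ideal.absNorm 𝔣 : ℝ) := by
              gcongr
          _ = _ := by rw [mul_assoc, hsq2]
      calc S ≤ C₁ * P4 * (tau 𝔣 : ℝ) ^ 2 * X * (1 + X * (Ideal.absNorm 𝔡 : ℝ) / (Ideal.absNorm 𝔣 : ℝ)) :=
            hA
        _ ≤ C₁ * P4 * (tau 𝔣 : ℝ) ^ 2 * X * (1 + M₀) := by gcongr
        _ = (C₁ * (1 + M₀)) * P4 * (tau 𝔣 : ℝ) ^ 2 * X := by ring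
        _ ≤ _ := by
            gcongr
            rw [hD]
            have : 0 ≤ C₂ ^ 2 + C₃ * (1 + M₀) := by positivity
            linarith
    · have e1 : X / (Ideal.absNorm 𝔡 : ℝ) ≤ M₀ := by
        rw [div_le_iff₀ hNd]
        exact hX.trans (mul_le_mul_of_nonneg_left hle hM₀)
      calc S ≤ C₃ * P4 * X * (1 + X / (Ideal.absNorm 𝔡 : ℝ)) := hB
        _ ≤ C₃ * P4 * X * (1 + M₀) := by gcongr
        _ = (C₃ * (1 + M₀)) * P4 * 1 * X := by ring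
        _ ≤ _ := by
            gcongr
            rw [hD]
            have : 0 ≤ C₁ * (1 + M₀) + C₂ ^ 2 := by positivity
            linarith
  have hS2 : S ≤ D * P4 * (tau 𝔣 : ℝ) ^ 2 * X ^ 2 := by
    calc S ≤ (C₂ * κ⁻¹ ^ (2 * n) * X) ^ 2 := hC
      _ = C₂ ^ 2 * P4 * 1 * X ^ 2 := by
          rw [hP4, mul_pow, mul_pow, ← pow_mul]
          have : 2 * n * 2 = 4 * n := by ring
          rw [this]
          ring
      _ ≤ _ := by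
          gcongr
          rw [hD]
          have : 0 ≤ C₁ * (1 + M₀) + C₃ * (1 + M₀) := by positivity
          linarith
  have hS3 : S ≤ D * P4 * (tau 𝔣 : ℝ) ^ 2 * min X (X ^ 2) := by
    rcases min_choice X (X ^ 2) with h5 | h5 <;> rw [h5]
    · exact hS1
    · exact hS2
  calc (mu K : ℝ) * (2 ^ n * (Ideal.absNorm 𝔡 : ℝ)) * S
      ≤ (mu K : ℝ) * (2 ^ n * (Ideal.absNorm 𝔡 : ℝ)) * (D * P4 * (tau 𝔣 : ℝ) ^ 2 * min X (X ^ 2)) :=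
        mul_le_mul_of_nonneg_left hS3 (by positivity)
    _ = _ := by ring

end Pool.Agent.A856.HW
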