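import Pool.Agent.A856.HW.Cos

/-!
# The divisor bound for ideals

Owner helper856 (Hecke L-functions with powerful conductor).
-/

set_option autoImplicit false
set_option linter.unusedSectionVars false
set_option linter.unusedVariables false
set_option maxHeartbeats 4000000

open NumberField Complex Filter Topology Set MeasureTheory
open UniqueFactorizationMonoid

namespace Pool.Agent.A856.HW

variable {K : Type} [Field K] [NumberField K]

open Classical in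
/-- the number of divisors is at most the product over the primes -/
lemma tau_le_prod {𝔣 : Ideal (𝓞 K)} (hf : 𝔣 ≠ ⊥) :
    tau 𝔣 ≤ ∏ 𝔭 ∈ (normalizedFactors 𝔣).toFinset, ((normalizedFactors 𝔣).count 𝔭 + 1) := by
  rw [← Multiset.card_Iic]
  unfold tau
  rw [← Nat.card_eq_finsetCard]
  refine Nat.card_le_card_of_injective (fun 𝔢 : {𝔢 : Ideal (𝓞 K) // 𝔢 ∣ 𝔣} =>
    (⟨normalizedFactors 𝔢.1, ?_⟩ : Finset.Iic (normalizedFactors 𝔣))) ?_
  · rw [Finset.mem_Iic]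
    have h0 : 𝔢.1 ≠ 0 := fun h => hf (by
      have := 𝔢.2
      rw [h, zero_dvd_iff] at this
      exact this)
    exact (dvd_iff_normalizedFactors_le_normalizedFactors h0 hf).mp 𝔢.2
  · intro 𝔢 𝔢' h
    have h0 : 𝔢.1 ≠ 0 := fun h => hf (by
      have := 𝔢.2
      rw [h, zero_dvd_iff] at this
      exact this)
    have h0' : 𝔢'.1 ≠ 0 := fun h => hf (by
      have := 𝔢'.2
      rw [h, zero_dvd_iff] at this
      exact this)
    have h1 : normalizedFactors 𝔢.1 = normalizedFactors 𝔢'.1 := congrArg Subtype.val h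
    apply Subtype.ext
    rw [← associated_iff_eq]
    exact (associated_iff_normalizedFactors_eq_normalizedFactors h0 h0').mpr h1

/-- the elementary inequality -/
lemma pow_bound {ε : ℝ} (hε : 0 < ε) : ∃ B : ℝ, 1 ≤ B ∧ ∀ a : ℕ, (a : ℝ) + 1 ≤ B * (2 : ℝ) ^ (ε * a) := by
  have hl : 0 < Real.log 2 := Real.log_pos (by norm_num)
  refine ⟨1 + (ε * Real.log 2)⁻¹, by linarith [inv_pos.mpr (mul_pos hε hl)], fun a => ?_⟩
  have h1 : (2 : ℝ) ^ (ε * a) = Real.exp (ε * Real.log 2 * a) := by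
    rw [Real.rpow_def_of_pos (by norm_num)]
    congr 1
    ring
  rw [h1]
  have h2 := Real.add_one_le_exp (ε * Real.log 2 * a)
  have hp : 0 < ε * Real.log 2 := mul_pos hε hl
  have ha : (0 : ℝ) ≤ a := Nat.cast_nonneg a
  have h3 : (1 + (ε * Real.log 2)⁻¹) * (ε * Real.log 2 * a + 1) ≤
      (1 + (ε * Real.log 2)⁻¹) * Real.exp (ε * Real.log 2 * a) := by
    apply mul_le_mul_of_nonneg_left h2
    positivity
  refine le_trans ?_ h3
  have h4 : (1 + (ε * Real.log 2)⁻¹) * (ε * Real.log 2 * a + 1) =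
      ε * Real.log 2 * a + 1 + (a + (ε * Real.log 2)⁻¹) := by
    field_simp
  rw [h4]
  have : 0 ≤ ε * Real.log 2 * a := by positivity
  have : 0 ≤ (ε * Real.log 2)⁻¹ := by positivity
  linarith

/-- **the divisor bound** -/
theorem tau_bound (K : Type) [Field K] [NumberField K] {ε : ℝ} (hε : 0 < ε) : ∃ C : ℝ, 0 < C ∧
    ∀ 𝔣 : Ideal (𝓞 K), 𝔣 ≠ ⊥ → (tau 𝔣 : ℝ) ≤ C * (Ideal.absNorm 𝔣 : ℝ) ^ ε := by
  classical
  obtain ⟨B, hB, hpow⟩ := pow_bound hε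
  obtain ⟨P, hP⟩ := exists_nat_ge ((2 : ℝ) ^ (1 / ε))
  have hfin : {𝔭 : Ideal (𝓞 K) | Ideal.absNorm 𝔭 ≤ P ∧ 𝔭 ≠ ⊥}.Finite := by
    refine Set.Finite.subset (s := {𝔭 : Ideal (𝓞 K) | Ideal.absNorm 𝔭 ≤ P}) ?_ ?_
    · exact Ideal.finite_setOf_absNorm_le P
    · rintro 𝔭 ⟨h1, h2⟩
      exact h1
  set T : Finset (Ideal (𝓞 K)) := hfin.toFinset with hT
  refine ⟨B ^ T.card, by positivity, fun 𝔣 hf => ?_⟩
  set M := normalizedFactors 𝔣 with hM
  have hprod : 𝔣 = ∏ 𝔭 ∈ M.toFinset, 𝔭 ^ M.count 𝔭 := by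
    rw [← Finset.prod_multiset_count]
    exact (associated_iff_eq.mp (prod_normalizedFactors hf)).symm
  have hprime : ∀ 𝔭 ∈ M.toFinset, 𝔭 ≠ ⊥ ∧ 2 ≤ Ideal.absNorm 𝔭 := by
    intro 𝔭 h
    have h1 := prime_of_normalized_factor 𝔭 (Multiset.mem_toFinset.mp h)
    have h2 : 𝔭 ≠ ⊥ := h1.ne_zero
    refine ⟨h2, ?_⟩
    have h3 : Ideal.absNorm 𝔭 ≠ 0 := fun h => h2 (Ideal.absNorm_eq_zero_iff.mp h)
    have h4 : Ideal.absNorm 𝔭 ≠ 1 := fun h => h1.not_isUnit (by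
      rw [Ideal.absNorm_eq_one_iff] at h
      rw [h, ← Ideal.one_eq_top]
      exact isUnit_one)
    omega
  have h1 : (tau 𝔣 : ℝ) ≤ ∏ 𝔭 ∈ M.toFinset, ((M.count 𝔭 : ℝ) + 1) := by
    have := tau_le_prod hf
    calc (tau 𝔣 : ℝ) ≤ ((∏ 𝔭 ∈ M.toFinset, (M.count 𝔭 + 1) : ℕ) : ℝ) := by exact_mod_cast this
      _ = _ := by push_cast; rfl
  have h2 : (Ideal.absNorm 𝔣 : ℝ) ^ ε = ∏ 𝔭 ∈ M.toFinset, (Ideal.absNorm 𝔭 : ℝ) ^ (ε * M.count 𝔭) := by
    conv_lhs => rw [hprod, map_prod]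
    push_cast
    rw [← Real.finsetProd_rpow _ _ (fun 𝔭 _ => by positivity)]
    refine Finset.prod_congr rfl fun 𝔭 _ => ?_
    rw [map_pow]
    push_cast
    rw [← Real.rpow_natCast, ← Real.rpow_mul (Nat.cast_nonneg _), mul_comm]
  have h3 : ∀ 𝔭 ∈ M.toFinset, ((M.count 𝔭 : ℝ) + 1) ≤
      (if 𝔭 ∈ T then B else 1) * (Ideal.absNorm 𝔭 : ℝ) ^ (ε * M.count 𝔭) := by
    intro 𝔭 h𝔭
    obtain ⟨hne, h2le⟩ := hprime 𝔭 h𝔭
    have h2le' : (2 : ℝ) ≤ Ideal.absNorm 𝔭 := by exact_mod_cast h2le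
    have hc : (0 : ℝ) ≤ M.count 𝔭 := Nat.cast_nonneg _
    split_ifs with hT'
    · refine (hpow _).trans ?_
      apply mul_le_mul_of_nonneg_left _ (by linarith)
      exact Real.rpow_le_rpow (by norm_num) h2le' (by positivity)
    · rw [one_mul]
      have h5 : (P : ℝ) < Ideal.absNorm 𝔭 := by
        rw [hT, Set.Finite.mem_toFinset] at hT'
        simp only [Set.mem_ofPred_eq, not_and] at hT'
        have : ¬ Ideal.absNorm 𝔭 ≤ P := fun h => (hT' h) hne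
        exact_mod_cast not_le.mp this
      have h6 : (2 : ℝ) ≤ (Ideal.absNorm 𝔭 : ℝ) ^ ε := by
        have h7 : ((2 : ℝ) ^ (1 / ε)) ^ ε = 2 := by
          rw [← Real.rpow_mul (by norm_num), one_div, inv_mul_cancel₀ hε.ne', Real.rpow_one]
        rw [← h7]
        exact Real.rpow_le_rpow (by positivity) (hP.trans h5.le) hε.le
      rw [Real.rpow_mul (by positivity), Real.rpow_natCast]
      refine le_trans ?_ (pow_le_pow_left₀ (by norm_num) h6 _)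
      have := Nat.lt_two_pow_self (n := M.count 𝔭)
      exact_mod_cast this
  calc (tau 𝔣 : ℝ) ≤ ∏ 𝔭 ∈ M.toFinset, ((M.count 𝔭 : ℝ) + 1) := h1
    _ ≤ ∏ 𝔭 ∈ M.toFinset, ((if 𝔭 ∈ T then B else 1) * (Ideal.absNorm 𝔭 : ℝ) ^ (ε * M.count 𝔭)) :=
        Finset.prod_le_prod (fun _ _ => by positivity) h3
    _ = (∏ 𝔭 ∈ M.toFinset, (if 𝔭 ∈ T then B else 1)) * (Ideal.absNorm 𝔣 : ℝ) ^ ε := by
        rw [Finset.prod_mul_distrib, h2]
    _ ≤ B ^ T.card * (Ideal.absNorm 𝔣 : ℝ) ^ ε := by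
        apply mul_le_mul_of_nonneg_right _ (by positivity)
        rw [← Finset.prod_filter, Finset.prod_const]
        apply pow_le_pow_right₀ hB
        apply Finset.card_le_card
        intro 𝔭 h
        exact (Finset.mem_filter.mp h).2

end Pool.Agent.A856.HW
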