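import Pool.Agent.A856.HW.SumC

/-!
# The theta function with a complex parameter

Owner helper856 (Hecke L-functions with powerful conductor).
-/

set_option autoImplicit false
set_option linter.unusedSectionVars false
set_option linter.unusedVariables false
set_option maxHeartbeats 4000000

open NumberField Complex Filter Topology MeasureTheory Set
open NumberField.Units NumberField.Units.dirichletUnitTheorem

namespace Pool.Agent.A856.HW

open Pool.Agent.Y773 (Idx db lp FT absNorm_span_nat mk_out out_mk)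
open Pool.Agent.Y773.G

variable {K : Type} [Field K] [NumberField K]

/-- the unit coordinates -/
noncomputable def lth (θ : Fin (rank K) → ℝ) (w : InfinitePlace K) : ℝ :=
  ∑ i, θ i * (2 * Real.log (w ((fundSystem K i : (𝓞 K)ˣ) : K)))

lemma el_eq (p : ℝ) (θ : Fin (rank K) → ℝ) (w : InfinitePlace K) :
    Pool.Agent.Y773.el K (p, θ) w = p + lth θ w := by
  simp only [Pool.Agent.Y773.el, LinearMap.coe_mk, AddHom.coe_mk]
  rfl

lemma lth_neg (θ : Fin (rank K) → ℝ) (w : InfinitePlace K) : lth (-θ) w = -lth θ w := by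
  unfold lth
  rw [← Finset.sum_neg_distrib]
  refine Finset.sum_congr rfl fun i _ => ?_
  rw [Pi.neg_apply]
  ring

lemma exists_lth_bound (K : Type) [Field K] [NumberField K] :
    ∃ b : ℝ, 0 ≤ b ∧ ∀ θ : Fin (rank K) → ℝ, (∀ i, |θ i| ≤ 1) → ∀ w : InfinitePlace K,
      |lth θ w| ≤ b := by
  classical
  set b : ℝ := ∑ w : InfinitePlace K, ∑ i,
    |2 * Real.log (w ((fundSystem K i : (𝓞 K)ˣ) : K))| with hb
  refine ⟨b, Finset.sum_nonneg fun w _ => Finset.sum_nonneg fun i _ => abs_nonneg _, ?_⟩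
  intro θ hθ w
  unfold lth
  refine (Finset.abs_sum_le_sum_abs _ _).trans ?_
  have h5 : ∑ i, |2 * Real.log (w ((fundSystem K i : (𝓞 K)ˣ) : K))| ≤ b :=
    Finset.single_le_sum (f := fun w : InfinitePlace K => ∑ i,
      |2 * Real.log (w ((fundSystem K i : (𝓞 K)ˣ) : K))|)
      (fun w _ => Finset.sum_nonneg fun i _ => abs_nonneg _) (Finset.mem_univ w)
  refine le_trans (Finset.sum_le_sum fun i _ => ?_) h5
  rw [abs_mul]
  calc _ ≤ 1 * |2 * Real.log (w ((fundSystem K i : (𝓞 K)ˣ) : K))| :=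
        mul_le_mul_of_nonneg_right (hθ i) (abs_nonneg _)
    _ = _ := one_mul _

/-- the parameters -/
noncomputable def aC (p : ℂ) (θ : Fin (rank K) → ℝ) (w : InfinitePlace K) : ℂ :=
  cexp ((p + lth θ w) / 2)

lemma aC_sq (p : ℂ) (θ : Fin (rank K) → ℝ) (w : InfinitePlace K) :
    aC p θ w ^ 2 = cexp (p + lth θ w) := by
  unfold aC
  rw [← Complex.exp_nat_mul]
  congr 1
  push_cast
  ring

lemma norm_aC_sq (p : ℂ) (θ : Fin (rank K) → ℝ) (w : InfinitePlace K) :
    ‖aC p θ w‖ ^ 2 = Real.exp (p.re + lth θ w) := by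
  rw [← norm_pow, aC_sq, Complex.norm_exp]
  simp

lemma adm_aC {κ : ℝ} {p : ℂ} (hκ : 0 < κ) (h : κ ≤ Real.cos p.im) (θ : Fin (rank K) → ℝ) :
    Adm κ (aC p θ) where
  pos := hκ
  le := h.trans (Real.cos_le_one _)
  ne w := Complex.exp_ne_zero _
  re w := by
    rw [norm_aC_sq, aC_sq, Complex.exp_re]
    have e1 : (p + (lth θ w : ℂ)).re = p.re + lth θ w := by simp
    have e2 : (p + (lth θ w : ℂ)).im = p.im := by simp
    rw [e1, e2, mul_comm]
    exact mul_le_mul_of_nonneg_left h (Real.exp_pos _).le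

/-- the theta function with a complex parameter -/
noncomputable def thc (e : InfinitePlace K → ℕ) (Ψ : 𝓞 K → ℂ) (p : ℂ) (θ : Fin (rank K) → ℝ) : ℂ :=
  ∑' x : 𝓞 K, Fx' e (aC p θ) Ψ x

lemma GMc_real (e : InfinitePlace K → ℕ) (a : InfinitePlace K → ℝ) (x : K) :
    GMc e (fun w => ((a w : ℝ) : ℂ)) x = ((GM e a x : ℝ) : ℂ) := by
  unfold GMc GM Pool.Agent.Y773.G0
  push_cast
  refine Finset.prod_congr rfl fun φ _ => ?_
  unfold gc Pool.Agent.Y773.g0
  push_cast
  rfl

lemma thc_real (e : InfinitePlace K → ℕ) (Ψ : 𝓞 K → ℂ) (p : ℝ) (θ : Fin (rank K) → ℝ) :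
    thc e Ψ (p : ℂ) θ = th e Ψ (Pool.Agent.Y773.el K (p, θ)) := by
  unfold thc th
  refine tsum_congr fun x => ?_
  unfold Fx'
  congr 1
  rw [← GMc_real]
  congr 1
  funext w
  unfold aC
  rw [el_eq]
  push_cast
  rfl

/-- conjugation -/
lemma conj_gc (e : ℕ) (z : ℂ) : (starRingEnd ℂ) (gc e z) = gc e ((starRingEnd ℂ) z) := by
  unfold gc
  rw [map_mul, map_pow, ← Complex.exp_conj]
  simp

lemma conj_GMc (e : InfinitePlace K → ℕ) (a : InfinitePlace K → ℂ) (x : K) :
    (starRingEnd ℂ) (GMc e a x) = GMc e (fun w => (starRingEnd ℂ) (a w)) x := by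
  unfold GMc
  rw [map_prod]
  refine Finset.prod_congr rfl fun φ _ => ?_
  rw [conj_gc, map_mul, Complex.conj_ofReal]

lemma conj_aC (p : ℂ) (θ : Fin (rank K) → ℝ) (w : InfinitePlace K) :
    (starRingEnd ℂ) (aC p θ w) = aC ((starRingEnd ℂ) p) θ w := by
  unfold aC
  rw [← Complex.exp_conj, map_div₀, map_add, Complex.conj_ofReal]
  congr 2
  exact map_ofNat (starRingEnd ℂ) 2

lemma thc_conj (e : InfinitePlace K → ℕ) (Ψ : 𝓞 K → ℂ) (c : ℂ) (p : ℂ) (θ : Fin (rank K) → ℝ) :
    thc e (fun x => c * (starRingEnd ℂ) (Ψ x)) p θ =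
      c * (starRingEnd ℂ) (thc e Ψ ((starRingEnd ℂ) p) θ) := by
  unfold thc
  rw [Complex.conj_tsum, ← tsum_mul_left]
  refine tsum_congr fun x => ?_
  unfold Fx'
  rw [map_mul, conj_GMc]
  have : (fun w => (starRingEnd ℂ) (aC (K := K) ((starRingEnd ℂ) p) θ w)) = aC p θ := by
    funext w
    rw [conj_aC, Complex.conj_conj]
  rw [this]
  ring

/-- the strip -/
def Str (c : ℝ) : Set ℂ := {p : ℂ | |p.im| < c}

lemma isOpen_Str (c : ℝ) : IsOpen (Str c) :=
  isOpen_lt (continuous_abs.comp Complex.continuous_im) continuous_const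

lemma convex_Str (c : ℝ) : Convex ℝ (Str c) := by
  have h1 : Str c = Complex.imLm ⁻¹' (Set.Ioo (-c) c) := by
    ext p
    simp only [Str, Set.mem_ofPred_eq, mem_preimage, mem_Ioo, Complex.imLm_coe]
    exact abs_lt
  rw [h1]
  exact (convex_Ioo (-c) c).linear_preimage Complex.imLm

lemma cos_pos_of {p : ℂ} (h : p ∈ Str (Real.pi / 2)) : 0 < Real.cos p.im := by
  have h1 : |p.im| < Real.pi / 2 := h
  rw [abs_lt] at h1
  exact Real.cos_pos_of_mem_Ioo ⟨h1.1, h1.2⟩

/-- analyticity in the parameter -/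
lemma differentiableOn_thc {e : InfinitePlace K → ℕ} (he : ∀ w, e w ≤ 1) {Ψ : 𝓞 K → ℂ} {B : ℝ}
    (hB : ∀ x, ‖Ψ x‖ ≤ B) (θ : Fin (rank K) → ℝ) :
    DifferentiableOn ℂ (fun p => thc e Ψ p θ) (Str (Real.pi / 2)) := by
  intro p₀ hp₀
  have hB0 : 0 ≤ B := (norm_nonneg _).trans (hB 0)
  set κ : ℝ := Real.cos p₀.im / 2 with hκ
  have hcos := cos_pos_of hp₀
  have hκ0 : 0 < κ := by positivity
  -- the neighbourhood
  set U : Set ℂ := {p : ℂ | κ < Real.cos p.im ∧ p₀.re - 1 < p.re} with hU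
  have hUo : IsOpen U := by
    refine IsOpen.inter ?_ ?_
    · exact isOpen_lt continuous_const (Real.continuous_cos.comp Complex.continuous_im)
    · exact isOpen_lt continuous_const Complex.continuous_re
  have hp₀U : p₀ ∈ U := ⟨by rw [hκ]; linarith, by simp⟩
  -- lower bound for the coordinates
  set m : ℝ := -∑ w : InfinitePlace K, |lth θ w| with hm
  have hml : ∀ w, m ≤ lth θ w := by
    intro w
    have h1 : |lth θ w| ≤ ∑ w : InfinitePlace K, |lth θ w| :=
      Finset.single_le_sum (f := fun w : InfinitePlace K => |lth θ w|)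
        (fun _ _ => abs_nonneg _) (Finset.mem_univ w)
    have h2 := neg_abs_le (lth θ w)
    rw [hm]
    linarith
  set r : ℝ := Real.exp (p₀.re - 1 + m) with hr
  have hr0 : 0 < r := Real.exp_pos _
  have hd : DifferentiableOn ℂ (fun p => thc e Ψ p θ) U := by
    unfold thc
    refine differentiableOn_tsum_of_summable_norm (u := fun x : 𝓞 K =>
      B * (κ⁻¹ ^ (Module.finrank ℚ K) * Real.exp (-(2 * κ * r) * QQ (x : K)))) ?_ ?_ hUo ?_
    · exact ((summable_QQ (by positivity)).mul_left _).mul_left _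
    · intro x
      refine (Differentiable.differentiableOn ?_)
      unfold Fx' GMc gc aC
      fun_prop
    · intro x p hp
      unfold Fx'
      rw [norm_mul]
      refine mul_le_mul (hB x) ?_ (norm_nonneg _) hB0
      refine norm_GMc_le he (adm_aC hκ0 hp.1.le θ) (fun w => ?_) _
      rw [norm_aC_sq]
      apply Real.exp_le_exp.mpr
      have := hml w
      have := hp.2
      linarith
  exact ((hd p₀ hp₀U).differentiableAt (hUo.mem_nhds hp₀U)).differentiableWithinAt

/-- uniqueness of analytic continuation from the real line -/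
lemma eqOn_of_real {f g : ℂ → ℂ} {c : ℝ} (hc : 0 < c) (hf : DifferentiableOn ℂ f (Str c))
    (hg : DifferentiableOn ℂ g (Str c)) (h : ∀ x : ℝ, f x = g x) : ∀ p ∈ Str c, f p = g p := by
  have hfa := hf.analyticOnNhd (isOpen_Str c)
  have hga := hg.analyticOnNhd (isOpen_Str c)
  have h0 : (0 : ℂ) ∈ Str c := by simp [Str, hc]
  have hfr : ∃ᶠ z in 𝓝[≠] (0 : ℂ), f z = g z := by
    have ht : Tendsto (fun x : ℝ => (x : ℂ)) (𝓝[≠] 0) (𝓝[≠] ((0 : ℝ) : ℂ)) := by
      refine tendsto_nhdsWithin_of_tendsto_nhds_of_eventually_within _ ?_ ?_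
      · exact (Complex.continuous_ofReal.tendsto 0).mono_left nhdsWithin_le_nhds
      · filter_upwards [self_mem_nhdsWithin] with x hx
        simpa using hx
    rw [Complex.ofReal_zero] at ht
    exact ht.frequently (Eventually.frequently (Eventually.of_forall h))
  exact hfa.eqOn_of_preconnected_of_frequently_eq hga (convex_Str c).isPreconnected h0 hfr

/-- **the functional equation with complex parameter** -/
theorem thc_poisson (K : Type) [Field K] [NumberField K] : ∃ V : ℝ, 0 < V ∧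
    ∀ (e : InfinitePlace K → ℕ), (∀ w, e w ≤ 1) → ∀ (Ψ : 𝓞 K → ℂ) (B : ℝ), (∀ x, ‖Ψ x‖ ≤ B) →
    ∀ m D : ℕ, 0 < m → 0 < D → (D : 𝓞 K) ∈ differentIdeal ℤ (𝓞 K) →
    (∀ x z : 𝓞 K, Ψ (x + m * z) = Ψ x) → ∀ (θ : Fin (rank K) → ℝ), ∀ p ∈ Str (Real.pi / 2),
      thc e Ψ p θ = (((V⁻¹ : ℝ) : ℂ) * ((m : ℂ) ^ (Module.finrank ℚ K))⁻¹ *
          (-I) ^ (∑ φ : K →+* ℂ, eM e φ)) * cexp (-(Module.finrank ℚ K : ℂ) * p / 2) *
        thc e (FT D m Ψ) (-p - 2 * Real.log (m * D)) (-θ) := by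
  obtain ⟨V, hV0, hV⟩ := th_poisson K
  refine ⟨V, hV0, fun e he Ψ B hB m D hm hD hDD hper θ => ?_⟩
  have hB0 : 0 ≤ B := (norm_nonneg _).trans (hB 0)
  have hFTb := norm_FT_le (D := D) hm hB0 hB
  have hmap : ∀ p ∈ Str (Real.pi / 2), -p - 2 * (Real.log (m * D) : ℂ) ∈ Str (Real.pi / 2) := by
    intro p hp
    have h1 : |p.im| < Real.pi / 2 := hp
    have h2 : (-p - 2 * (Real.log (m * D) : ℂ)).im = -p.im := by
      have : (2 * (Real.log (m * D) : ℂ)).im = 0 := by
        have : (2 * (Real.log (m * D) : ℂ)) = ((2 * Real.log (m * D) : ℝ) : ℂ) := by push_cast; rfl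
        rw [this, Complex.ofReal_im]
      rw [Complex.sub_im, this, Complex.neg_im, sub_zero]
    change |(-p - 2 * (Real.log (m * D) : ℂ)).im| < Real.pi / 2
    rw [h2, abs_neg]
    exact h1
  refine eqOn_of_real (by positivity) (differentiableOn_thc he hB θ) ?_ fun x => ?_
  · refine DifferentiableOn.mul (Differentiable.differentiableOn (by fun_prop)) ?_
    have h3 := differentiableOn_thc he hFTb (-θ)
    exact h3.comp (Differentiable.differentiableOn (by fun_prop)) hmap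
  · have h1 : (-(x : ℂ) - 2 * (Real.log (m * D) : ℂ)) = ((-x - 2 * Real.log (m * D) : ℝ) : ℂ) := by
      push_cast
      rfl
    rw [h1, thc_real, thc_real, hV e he Ψ B hB m D hm hD hDD hper, sum_el]
    congr 1
    · congr 1
      rw [Complex.ofReal_exp]
      congr 1
      push_cast
      ring
    · congr 1
      funext w
      rw [el_eq, el_eq, lth_neg]
      ring

end Pool.Agent.A856.HW
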