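import Pool.Agent.A856.HW.GaN

/-!
# The bound for the theta functions of a family, for all parameters

Owner helper856 (Hecke L-functions with powerful conductor).
-/

set_option autoImplicit false
set_option linter.unusedSectionVars false
set_option linter.unusedVariables false
set_option maxHeartbeats 4000000

open NumberField Complex Filter Topology Set MeasureTheory
open NumberField.Units NumberField.Units.dirichletUnitTheorem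

namespace Pool.Agent.A856.HW

open Pool.Agent.Y773 (Reps rp rp_ne_bot reps_rp mm mm_pos mm_mem Dd Dd_pos Dd_mem FT absNorm_span_nat)
open Pool.Agent.Y773.G

variable {K : Type} [Field K] [NumberField K]

/-- the length -/
noncomputable def XL (𝔟 : Ideal (𝓞 K)) (x : ℝ) : ℝ :=
  Real.exp (-(Module.finrank ℚ K : ℝ) * x / 2) / (Ideal.absNorm 𝔟 : ℝ)

/-- the conductor -/
noncomputable def RR (𝔣 : Ideal (𝓞 K)) : ℝ :=
  ((Ideal.absNorm 𝔣 * Ideal.absNorm (differentIdeal ℤ (𝓞 K)) : ℕ) : ℝ)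

lemma XL_pos {𝔟 : Ideal (𝓞 K)} (hb : 𝔟 ≠ ⊥) (x : ℝ) : 0 < XL 𝔟 x := by
  unfold XL
  have := absNorm_pos0 hb
  positivity

lemma one_le_RR {𝔣 : Ideal (𝓞 K)} (hf : 𝔣 ≠ ⊥) : 1 ≤ RR 𝔣 := by
  unfold RR
  have h4 : Ideal.absNorm 𝔣 * Ideal.absNorm (differentIdeal ℤ (𝓞 K)) ≠ 0 :=
    mul_ne_zero (fun h1 => hf (Ideal.absNorm_eq_zero_iff.mp h1))
      (fun h1 => differentIdeal_ne_bot (Ideal.absNorm_eq_zero_iff.mp h1))
  exact_mod_cast Nat.one_le_iff_ne_zero.mpr h4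

/-- **duality** for one character -/
theorem thc_dual (K : Type) [Field K] [NumberField K] : ∃ C : ℝ, 0 < C ∧
    ∀ 𝔣 𝔟 : Ideal (𝓞 K), 𝔣 ≠ ⊥ → 𝔟 ≠ ⊥ → ∃ (𝔟' : Ideal (𝓞 K)) (c : ℝ), 𝔟' ≠ ⊥ ∧
      (∀ x : ℝ, XL 𝔟' (-x - c) = RR 𝔣 / XL 𝔟 x) ∧
      ∀ (ψ : Ideal (𝓞 K) →*₀ ℂ) (e : InfinitePlace K → ℕ), IsPrimChar K 𝔣 ψ → IsModChar 𝔣 e ψ →
      ∀ p ∈ Str (Real.pi / 2), ∀ θ : Fin (rank K) → ℝ,
      ‖thc e (Ps ψ e 𝔟) p θ‖ = C * (XL 𝔟 p.re / √(RR 𝔣)) *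
        ‖thc e (Ps ψ e 𝔟') ((starRingEnd ℂ) (-p - c)) (-θ)‖ := by
  obtain ⟨V, hV, hpo⟩ := thc_poisson K
  obtain ⟨V₁, hV₁, hga⟩ := gauss_norm K
  refine ⟨V₁ / V, by positivity, fun 𝔣 𝔟 hf hb => ?_⟩
  set m : ℕ := Ideal.absNorm (𝔟 * 𝔣) with hm
  have hbf0 : 𝔟 * 𝔣 ≠ ⊥ := mul_ne_zero hb hf
  have hm0 : 0 < m := Nat.pos_of_ne_zero (by rw [hm, Ne, Ideal.absNorm_eq_zero_iff]; exact hbf0)
  have hmmem : (m : 𝓞 K) ∈ 𝔟 * 𝔣 := Ideal.absNorm_mem _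
  have hD0 : 0 < Dd K := Dd_pos
  obtain ⟨𝔟', h𝔟'⟩ := exists_compl (𝔣 := 𝔣) (𝔟 := 𝔟) (m := m) (D := Dd K) hmmem Dd_mem
  have hmD : 0 < m * Dd K := Nat.mul_pos hm0 hD0
  have hmDR : (0 : ℝ) < (m : ℝ) * (Dd K : ℝ) := by exact_mod_cast hmD
  have hb'0 : 𝔟' ≠ ⊥ := by
    rintro rfl
    rw [Ideal.bot_mul] at h𝔟'
    exact span_m_ne_bot hmD h𝔟'.symm
  have hNb := absNorm_pos0 hb
  have hNf := absNorm_pos0 hf
  have hNb' := absNorm_pos0 hb'0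
  have hRR : 0 < RR 𝔣 := lt_of_lt_of_le one_pos (one_le_RR hf)
  have hnorm : ((m : ℝ) * (Dd K : ℝ)) ^ (Module.finrank ℚ K) =
      (Ideal.absNorm 𝔟' : ℝ) * ((Ideal.absNorm 𝔟 : ℝ) * RR 𝔣) := by
    have h3 := congrArg Ideal.absNorm h𝔟'
    rw [map_mul, map_mul, map_mul, absNorm_span_nat] at h3
    unfold RR
    have h4 : (((m * Dd K : ℕ) ^ (Module.finrank ℚ K) : ℕ) : ℝ) = ((Ideal.absNorm 𝔟' *
      (Ideal.absNorm 𝔟 * Ideal.absNorm 𝔣 * Ideal.absNorm (differentIdeal ℤ (𝓞 K))) : ℕ) : ℝ) := by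
      rw [h3]
    push_cast at h4 ⊢
    rw [h4]
    ring
  refine ⟨𝔟', 2 * Real.log (m * Dd K), hb'0, ?_, ?_⟩
  · intro x
    unfold XL
    have e1 : Real.exp (-(Module.finrank ℚ K : ℝ) * (-x - 2 * Real.log (m * Dd K)) / 2) =
        Real.exp ((Module.finrank ℚ K : ℝ) * x / 2) *
          ((m : ℝ) * (Dd K : ℝ)) ^ (Module.finrank ℚ K) := by
      rw [← Real.rpow_natCast ((m : ℝ) * (Dd K : ℝ)), Real.rpow_def_of_pos hmDR, ← Real.exp_add]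
      congr 1
      ring
    rw [e1, hnorm]
    have e2 : -(Module.finrank ℚ K : ℝ) * x / 2 = -((Module.finrank ℚ K : ℝ) * x / 2) := by ring
    rw [e2, Real.exp_neg]
    have := Real.exp_pos ((Module.finrank ℚ K : ℝ) * x / 2)
    field_simp
  · intro ψ e hp h p hpS θ
    obtain ⟨τ, hτ, hFT⟩ := hga 𝔣 ψ e hp h
    have hper : ∀ x z : 𝓞 K, Ps ψ e 𝔟 (x + m * z) = Ps ψ e 𝔟 x := h.per_m hb hmmem
    have h1 := hpo e h.sig_le (Ps ψ e 𝔟) 1 (norm_Ps_le h.norm_le_one 𝔟) m (Dd K) hm0 hD0 Dd_mem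
      hper θ p hpS
    have h2 : FT (Dd K) m (Ps ψ e 𝔟) = fun x => (τ * ((m : ℂ) ^ (Module.finrank ℚ K) /
          ((Ideal.absNorm 𝔟 : ℂ) * (Ideal.absNorm 𝔣 : ℂ)))) * (starRingEnd ℂ) (Ps ψ e 𝔟' x) :=
      funext fun x => hFT 𝔟 𝔟' m (Dd K) hm0 hD0 h𝔟' hmmem Dd_mem x
    rw [h1, h2, thc_conj]
    have hI : ‖(-I : ℂ) ^ (∑ φ : K →+* ℂ, eM e φ)‖ = 1 := by
      rw [norm_pow, norm_neg, Complex.norm_I, one_pow]
    have hexp : ‖cexp (-(Module.finrank ℚ K : ℂ) * p / 2)‖ =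
        Real.exp (-(Module.finrank ℚ K : ℝ) * p.re / 2) := by
      rw [Complex.norm_exp]
      congr 1
      have : -(Module.finrank ℚ K : ℂ) * p / 2 = ((-(Module.finrank ℚ K : ℝ) / 2 : ℝ) : ℂ) * p := by
        push_cast
        ring
      rw [this, Complex.re_ofReal_mul]
      ring
    rw [norm_mul, norm_mul, norm_mul, norm_mul, hI, hexp, norm_mul, norm_mul, norm_div, norm_mul,
      norm_pow, norm_inv, norm_pow, RCLike.norm_conj, Complex.norm_real,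
      Real.norm_of_nonneg (inv_pos.mpr hV).le, Complex.norm_natCast, Complex.norm_natCast,
      Complex.norm_natCast]
    have hpc : (-p - ((2 * Real.log (m * Dd K) : ℝ) : ℂ)) = (-p - 2 * (Real.log (m * Dd K) : ℂ)) := by
      push_cast
      rfl
    rw [hpc]
    set T := ‖thc e (Ps ψ e 𝔟') ((starRingEnd ℂ) (-p - 2 * (Real.log (m * Dd K) : ℂ))) (-θ)‖ with hT
    have hmn : (0 : ℝ) < (m : ℝ) ^ (Module.finrank ℚ K) := by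
      have : (0 : ℝ) < m := by exact_mod_cast hm0
      positivity
    have hsR : 0 < √(RR 𝔣) := Real.sqrt_pos.mpr hRR
    have hτ' : ‖τ‖ = V₁ * (Ideal.absNorm 𝔣 : ℝ) / √(RR 𝔣) := by
      rw [eq_div_iff hsR.ne']
      exact hτ
    rw [hτ']
    unfold XL
    field_simp

/-- **the bound for the theta functions of a family** -/
theorem thc_fam (K : Type) [Field K] [NumberField K] : ∃ C : ℝ, 0 < C ∧
    ∀ (𝔣 𝔡 𝔟 : Ideal (𝓞 K)) (e : InfinitePlace K → ℕ) (I : Type) [Fintype I]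
      (ψ : I → Ideal (𝓞 K) →*₀ ℂ), Fam 𝔣 𝔡 e ψ → 𝔟 ≠ ⊥ → 𝔣 ≤ 𝔡 → 𝔡 ^ 3 ≤ 𝔣 →
      ∀ p ∈ Str (Real.pi / 2), ∀ θ : Fin (rank K) → ℝ, (∀ i, |θ i| ≤ 1) →
      ∑ i, ‖thc e (Ps (ψ i) e 𝔟) p θ‖ ^ 2 ≤
        C * (Real.cos p.im)⁻¹ ^ (4 * Module.finrank ℚ K) * (tau 𝔣 : ℝ) ^ 2 *
          (Ideal.absNorm 𝔡 : ℝ) * min (min (XL 𝔟 p.re) (XL 𝔟 p.re ^ 2)) (RR 𝔣) := by
  classical
  obtain ⟨b, hb0, hb⟩ := exists_lth_bound K
  obtain ⟨C₁, hC₁, hdual⟩ := thc_dual K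
  set n := Module.finrank ℚ K with hn
  have hdg : dg K = (n : ℝ) := rfl
  set Nd : ℝ := (Ideal.absNorm (differentIdeal ℤ (𝓞 K)) : ℝ) with hNd
  have hNd0 : 0 < Nd := absNorm_pos0 differentIdeal_ne_bot
  set M : ℝ := Real.exp (n * b / 2) with hM
  have hM1 : 1 ≤ M := Real.one_le_exp (by positivity)
  obtain ⟨C₂, hC₂, hth⟩ := fam_theta K (Real.exp (2 * b)) (M * √Nd) (Real.one_le_exp (by positivity))
    (by positivity)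
  -- the first range
  have hfirst : ∀ (𝔣 𝔡 𝔟 : Ideal (𝓞 K)) (e : InfinitePlace K → ℕ) (I : Type) [Fintype I]
      (ψ : I → Ideal (𝓞 K) →*₀ ℂ), Fam 𝔣 𝔡 e ψ → 𝔟 ≠ ⊥ → 𝔣 ≠ ⊥ → 𝔣 ≤ 𝔡 → 𝔡 ^ 3 ≤ 𝔣 →
      ∀ p ∈ Str (Real.pi / 2), ∀ θ : Fin (rank K) → ℝ, (∀ i, |θ i| ≤ 1) →
      XL 𝔟 p.re ≤ √(RR 𝔣) →
      ∑ i, ‖thc e (Ps (ψ i) e 𝔟) p θ‖ ^ 2 ≤
        C₂ * M ^ 2 * (Real.cos p.im)⁻¹ ^ (4 * n) * (tau 𝔣 : ℝ) ^ 2 *
          (Ideal.absNorm 𝔡 : ℝ) * min (XL 𝔟 p.re) (XL 𝔟 p.re ^ 2) := by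
    intro 𝔣 𝔡 𝔟 e I hI ψ h hb0' hf0 h1 h3 p hp θ hθ hX
    have hcos := cos_pos_of hp
    have hNb := absNorm_pos0 hb0'
    set r : ℝ := Real.exp (p.re - b) with hr
    have hlo : ∀ w, r ≤ ‖aC (K := K) p θ w‖ ^ 2 := by
      intro w
      rw [norm_aC_sq]
      apply Real.exp_le_exp.mpr
      have := abs_le.mp (hb θ hθ w)
      linarith [this.1]
    have hup : ∀ w, ‖aC (K := K) p θ w‖ ^ 2 ≤ Real.exp (2 * b) * r := by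
      intro w
      rw [norm_aC_sq, hr, ← Real.exp_add]
      apply Real.exp_le_exp.mpr
      have := abs_le.mp (hb θ hθ w)
      linarith [this.2]
    have hrn : r ^ (-(dg K) / 2) / (Ideal.absNorm 𝔟 : ℝ) = M * XL 𝔟 p.re := by
      have e1 : Real.exp ((p.re - b) * (-(n : ℝ) / 2)) =
          Real.exp (n * b / 2) * Real.exp (-(n : ℝ) * p.re / 2) := by
        rw [← Real.exp_add]; congr 1; ring
      unfold XL
      rw [hdg, hr, ← Real.exp_mul, e1, hM]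
      ring
    have hXp := XL_pos hb0' p.re
    have hcond : r ^ (-(dg K) / 2) / (Ideal.absNorm 𝔟 : ℝ) ≤ M * √Nd * √(Ideal.absNorm 𝔣 : ℝ) := by
      rw [hrn, mul_assoc]
      refine mul_le_mul_of_nonneg_left ?_ (by positivity)
      refine hX.trans (le_of_eq ?_)
      unfold RR
      push_cast
      rw [mul_comm, Real.sqrt_mul hNd0.le]
    have h5 := hth (Real.cos p.im) (aC p θ) (adm_aC hcos le_rfl θ) r (Real.exp_pos _) hlo hup 𝔣 𝔡 𝔟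
      e I ψ h hb0' h1 h3 hcond
    rw [hrn] at h5
    refine (le_trans (le_of_eq rfl) h5).trans ?_
    have h6 : min (M * XL 𝔟 p.re) ((M * XL 𝔟 p.re) ^ 2) ≤
        M ^ 2 * min (XL 𝔟 p.re) (XL 𝔟 p.re ^ 2) := by
      rw [mul_min_of_nonneg _ _ (by positivity : (0 : ℝ) ≤ M ^ 2)]
      refine min_le_min ?_ (le_of_eq (by ring))
      have : M ≤ M ^ 2 := by nlinarith
      gcongr
    calc C₂ * (Real.cos p.im)⁻¹ ^ (4 * n) * (tau 𝔣 : ℝ) ^ 2 * (Ideal.absNorm 𝔡 : ℝ) *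
          min (M * XL 𝔟 p.re) ((M * XL 𝔟 p.re) ^ 2)
        ≤ C₂ * (Real.cos p.im)⁻¹ ^ (4 * n) * (tau 𝔣 : ℝ) ^ 2 * (Ideal.absNorm 𝔡 : ℝ) *
          (M ^ 2 * min (XL 𝔟 p.re) (XL 𝔟 p.re ^ 2)) := by
          gcongr
      _ = _ := by ring
  refine ⟨C₂ * M ^ 2 * (1 + C₁ ^ 2), by positivity, ?_⟩
  intro 𝔣 𝔡 𝔟 e I hI ψ h hb0' h1 h3 p hp θ hθ
  have hcos := cos_pos_of hp
  rcases isEmpty_or_nonempty I with hemp | ⟨⟨i₀⟩⟩
  · rw [Finset.univ_eq_empty, Finset.sum_empty]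
    have hXp := XL_pos hb0' p.re
    have : 0 ≤ min (min (XL 𝔟 p.re) (XL 𝔟 p.re ^ 2)) (RR 𝔣) :=
      le_min (le_min hXp.le (by positivity)) (by unfold RR; positivity)
    positivity
  have hf0 := (h.chr i₀).ne
  have hd0 : 𝔡 ≠ ⊥ := fun h5 => hf0 (by rw [h5] at h1; exact le_bot_iff.mp h1)
  have hNd' := absNorm_pos0 hd0
  have hXp := XL_pos hb0' p.re
  have hR1 := one_le_RR hf0
  have hR0 : 0 < RR 𝔣 := by linarith
  have hsR : 0 < √(RR 𝔣) := Real.sqrt_pos.mpr hR0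
  have hsR2 : √(RR 𝔣) * √(RR 𝔣) = RR 𝔣 := Real.mul_self_sqrt hR0.le
  have hsR1 : 1 ≤ √(RR 𝔣) := Real.one_le_sqrt.mpr hR1
  set X := XL 𝔟 p.re with hX
  set P : ℝ := (Real.cos p.im)⁻¹ ^ (4 * n) * (tau 𝔣 : ℝ) ^ 2 * (Ideal.absNorm 𝔡 : ℝ) with hP
  have hP0 : 0 ≤ P := by positivity
  rcases le_or_gt X (√(RR 𝔣)) with hle | hgt
  · have h5 := hfirst 𝔣 𝔡 𝔟 e I ψ h hb0' hf0 h1 h3 p hp θ hθ hle
    rw [← hX] at h5
    have h6 : min X (X ^ 2) ≤ min (min X (X ^ 2)) (RR 𝔣) := by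
      refine le_min le_rfl ((min_le_left _ _).trans (hle.trans ?_))
      nlinarith
    calc ∑ i, ‖thc e (Ps (ψ i) e 𝔟) p θ‖ ^ 2 ≤ C₂ * M ^ 2 * (Real.cos p.im)⁻¹ ^ (4 * n) *
          (tau 𝔣 : ℝ) ^ 2 * (Ideal.absNorm 𝔡 : ℝ) * min X (X ^ 2) := h5
      _ = (C₂ * M ^ 2 * 1) * P * min X (X ^ 2) := by rw [hP]; ring
      _ ≤ (C₂ * M ^ 2 * (1 + C₁ ^ 2)) * P * min (min X (X ^ 2)) (RR 𝔣) := by
          have : (1 : ℝ) ≤ 1 + C₁ ^ 2 := by nlinarith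
          have h7 : 0 ≤ min X (X ^ 2) := le_min hXp.le (by positivity)
          gcongr
      _ = _ := by rw [hP]; ring
  · obtain ⟨𝔟', c, hb'0, hXX, hdu⟩ := hdual 𝔣 𝔟 hf0 hb0'
    set p' : ℂ := (starRingEnd ℂ) (-p - c) with hp'
    have hre : p'.re = -p.re - c := by rw [hp']; simp
    have him : p'.im = p.im := by rw [hp']; simp
    have hp'S : p' ∈ Str (Real.pi / 2) := by
      change |p'.im| < Real.pi / 2
      rw [him]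
      exact hp
    have hX' : XL 𝔟' p'.re = RR 𝔣 / X := by rw [hre, hXX]
    have hX'p := XL_pos hb'0 p'.re
    have hle' : XL 𝔟' p'.re ≤ √(RR 𝔣) := by
      rw [hX', div_le_iff₀ hXp]
      nlinarith
    have h5 := hfirst 𝔣 𝔡 𝔟' e I ψ h hb'0 hf0 h1 h3 p' hp'S (-θ)
      (fun i => by rw [Pi.neg_apply, abs_neg]; exact hθ i) hle'
    rw [him, hX'] at h5
    have h6 : ∑ i, ‖thc e (Ps (ψ i) e 𝔟) p θ‖ ^ 2 =
        (C₁ * (X / √(RR 𝔣))) ^ 2 * ∑ i, ‖thc e (Ps (ψ i) e 𝔟') p' (-θ)‖ ^ 2 := by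
      rw [Finset.mul_sum]
      refine Finset.sum_congr rfl fun i _ => ?_
      rw [hdu (ψ i) e (h.prim i) (h.mod i) p hp θ, mul_pow]
    rw [h6]
    have h7 : (X / √(RR 𝔣)) ^ 2 * min (RR 𝔣 / X) ((RR 𝔣 / X) ^ 2) ≤ min (min X (X ^ 2)) (RR 𝔣) := by
      have e1 : (X / √(RR 𝔣)) ^ 2 = X ^ 2 / RR 𝔣 := by
        rw [div_pow, Real.sq_sqrt hR0.le]
      have e2 : X ^ 2 / RR 𝔣 * (RR 𝔣 / X) = X := by field_simp
      have e3 : X ^ 2 / RR 𝔣 * (RR 𝔣 / X) ^ 2 = RR 𝔣 := by field_simp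
      rw [e1, mul_min_of_nonneg _ _ (by positivity), e2, e3]
      refine le_min (le_min (min_le_left _ _) ((min_le_left _ _).trans ?_)) (min_le_right _ _)
      nlinarith
    calc (C₁ * (X / √(RR 𝔣))) ^ 2 * ∑ i, ‖thc e (Ps (ψ i) e 𝔟') p' (-θ)‖ ^ 2
        ≤ (C₁ * (X / √(RR 𝔣))) ^ 2 * (C₂ * M ^ 2 * (Real.cos p.im)⁻¹ ^ (4 * n) *
          (tau 𝔣 : ℝ) ^ 2 * (Ideal.absNorm 𝔡 : ℝ) * min (RR 𝔣 / X) ((RR 𝔣 / X) ^ 2)) :=
          mul_le_mul_of_nonneg_left h5 (by positivity)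
      _ = (C₂ * M ^ 2 * C₁ ^ 2) * P *
          ((X / √(RR 𝔣)) ^ 2 * min (RR 𝔣 / X) ((RR 𝔣 / X) ^ 2)) := by rw [hP]; ring
      _ ≤ (C₂ * M ^ 2 * (1 + C₁ ^ 2)) * P * min (min X (X ^ 2)) (RR 𝔣) := by
          have h8 : 0 ≤ (X / √(RR 𝔣)) ^ 2 * min (RR 𝔣 / X) ((RR 𝔣 / X) ^ 2) := by
            have : 0 ≤ min (RR 𝔣 / X) ((RR 𝔣 / X) ^ 2) := le_min (by positivity) (by positivity)
            positivity
          have : C₁ ^ 2 ≤ 1 + C₁ ^ 2 := by linarith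
          gcongr
      _ = _ := by rw [hP]; ring

end Pool.Agent.A856.HW
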