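import Pool.Agent.A856.HW.ThD

/-!
# Weights, and the shift of a line of integration

Owner helper856 (Hecke L-functions with powerful conductor).
-/

set_option autoImplicit false
set_option linter.unusedSectionVars false
set_option linter.unusedVariables false
set_option maxHeartbeats 4000000

open Complex Filter Topology Set MeasureTheory

namespace Pool.Agent.A856.HW

/-- shift of a line of integration (as in `Pool.Agent.H906R3.K6.U2`) -/
theorem strip_shift (g : ℂ → ℂ) (a b : ℝ) (hab : a ≤ b) (B : ℝ → ℝ) (hB : Integrable B)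
    (hB0 : Tendsto B atTop (𝓝 0)) (hB1 : Tendsto B atBot (𝓝 0))
    (hd : ∀ t y : ℝ, a ≤ y → y ≤ b → DifferentiableAt ℂ g (t + y * I))
    (hb : ∀ t y : ℝ, a ≤ y → y ≤ b → ‖g (t + y * I)‖ ≤ B t) :
    ∫ t : ℝ, g (t + a * I) = ∫ t : ℝ, g (t + b * I) := by
  have hint : ∀ c : ℝ, a ≤ c → c ≤ b → Integrable (fun t : ℝ => g (t + c * I)) := by
    intro c hc1 hc2
    refine hB.mono' ?_ (Eventually.of_forall fun t => hb t c hc1 hc2)
    have : Continuous (fun t : ℝ => g (t + c * I)) := by
      rw [continuous_iff_continuousAt]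
      intro t
      refine ContinuousAt.comp (f := fun t : ℝ => ((t : ℂ) + c * I)) (hd t c hc1 hc2).continuousAt ?_
      fun_prop
    exact this.aestronglyMeasurable
  have key : ∀ T : ℝ, 0 ≤ T →
      (∫ t in (-T)..T, g (t + a * I)) - (∫ t in (-T)..T, g (t + b * I))
      + I • (∫ y in a..b, g (T + y * I)) - I • (∫ y in a..b, g ((-T : ℝ) + y * I)) = 0 := by
    intro T hT
    have h := Complex.integral_boundary_rect_eq_zero_of_differentiableOn g
      (⟨-T, a⟩ : ℂ) (⟨T, b⟩ : ℂ) (by
        intro z hz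
        rw [mem_reProdIm] at hz
        have h2 : z.im ∈ uIcc a b := hz.2
        rw [uIcc_of_le hab] at h2
        have h3 := hd z.re z.im h2.1 h2.2
        rw [re_add_im] at h3
        exact h3.differentiableWithinAt)
    exact h
  have hlim1 : Tendsto (fun T : ℝ => ∫ t in (-T)..T, g (t + a * I)) atTop
      (𝓝 (∫ t : ℝ, g (t + a * I))) :=
    intervalIntegral_tendsto_integral (hint a le_rfl hab) tendsto_neg_atTop_atBot tendsto_id
  have hlim2 : Tendsto (fun T : ℝ => ∫ t in (-T)..T, g (t + b * I)) atTop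
      (𝓝 (∫ t : ℝ, g (t + b * I))) :=
    intervalIntegral_tendsto_integral (hint b hab le_rfl) tendsto_neg_atTop_atBot tendsto_id
  have hlim3 : Tendsto (fun T : ℝ => ∫ y in a..b, g (T + y * I)) atTop (𝓝 0) := by
    rw [tendsto_zero_iff_norm_tendsto_zero]
    refine squeeze_zero (g := fun T => B T * |b - a|) (fun _ => norm_nonneg _) ?_ ?_
    · intro T
      refine intervalIntegral.norm_integral_le_of_norm_le_const ?_
      intro y hy
      rw [uIoc_of_le hab] at hy
      exact hb T y hy.1.le hy.2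
    · simpa using hB0.mul_const (|b - a|)
  have hlim4 : Tendsto (fun T : ℝ => ∫ y in a..b, g ((-T : ℝ) + y * I)) atTop (𝓝 0) := by
    rw [tendsto_zero_iff_norm_tendsto_zero]
    refine squeeze_zero (g := fun T => B (-T) * |b - a|) (fun _ => norm_nonneg _) ?_ ?_
    · intro T
      refine intervalIntegral.norm_integral_le_of_norm_le_const ?_
      intro y hy
      rw [uIoc_of_le hab] at hy
      exact hb (-T) y hy.1.le hy.2
    · simpa using (hB1.comp tendsto_neg_atTop_atBot).mul_const (|b - a|)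
  have hlim := (((hlim1.sub hlim2).add (hlim3.const_smul I)).sub (hlim4.const_smul I))
  have hz : Tendsto (fun T : ℝ => (∫ t in (-T)..T, g (t + a * I)) - (∫ t in (-T)..T, g (t + b * I))
      + I • (∫ y in a..b, g (T + y * I)) - I • (∫ y in a..b, g ((-T : ℝ) + y * I)))
      atTop (𝓝 0) := by
    refine Tendsto.congr' ?_ tendsto_const_nhds
    filter_upwards [eventually_ge_atTop (0 : ℝ)] with T hT
    exact (key T hT).symm
  have := tendsto_nhds_unique hlim hz
  simp only [smul_zero, add_zero, sub_zero] at this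
  exact sub_eq_zero.mp this

/-- the basic weight -/
noncomputable def ge (y : ℝ) : ℝ := Real.exp (-|y| / 2)

lemma int_ge : Integrable ge ∧ ∫ y, ge y = 4 := by
  have h1 : ∫ y : ℝ, ge y = 4 := by
    unfold ge
    have h2 := integral_comp_abs (f := fun y : ℝ => Real.exp (-y / 2))
    rw [h2]
    have h3 := integral_exp_mul_Ioi (a := -(1 / 2 : ℝ)) (by norm_num) 0
    have h4 : ∀ x : ℝ, Real.exp (-x / 2) = Real.exp (-(1 / 2 : ℝ) * x) := fun x => by
      congr 1; ring
    simp_rw [h4]
    rw [h3]
    norm_num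
  refine ⟨?_, h1⟩
  by_contra hne
  rw [integral_undef hne] at h1
  norm_num at h1

lemma tendsto_ge_top : Tendsto ge atTop (𝓝 0) := by
  unfold ge
  refine Real.tendsto_exp_atBot.comp ?_
  have h1 : Tendsto (fun y : ℝ => |y|) atTop atTop := tendsto_abs_atTop_atTop
  have h2 := (tendsto_neg_atTop_atBot.comp h1).atBot_mul_const (show (0 : ℝ) < 1 / 2 by norm_num)
  refine h2.congr fun y => ?_
  simp only [Function.comp_apply]
  ring

lemma tendsto_ge_bot : Tendsto ge atBot (𝓝 0) := by
  unfold ge
  refine Real.tendsto_exp_atBot.comp ?_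
  have h1 : Tendsto (fun y : ℝ => |y|) atBot atTop := tendsto_abs_atBot_atTop
  have h2 := (tendsto_neg_atTop_atBot.comp h1).atBot_mul_const (show (0 : ℝ) < 1 / 2 by norm_num)
  refine h2.congr fun y => ?_
  simp only [Function.comp_apply]
  ring

/-- the dominating function -/
noncomputable def gD (ρ y : ℝ) : ℝ := (Icc (-ρ) 0).indicator (fun _ => (1 : ℝ)) y + ge y + ge (y + ρ)

lemma gD_nonneg (ρ y : ℝ) : 0 ≤ gD ρ y := by
  unfold gD ge
  have : 0 ≤ (Icc (-ρ) 0).indicator (fun _ => (1 : ℝ)) y :=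
    indicator_nonneg (fun _ _ => zero_le_one) y
  positivity

lemma int_gD {ρ : ℝ} (hρ : 0 ≤ ρ) : Integrable (gD ρ) ∧ ∫ y, gD ρ y = ρ + 8 := by
  have h1 : Integrable ((Icc (-ρ) 0).indicator (fun _ : ℝ => (1 : ℝ))) := by
    rw [integrable_indicator_iff measurableSet_Icc]
    exact integrableOn_const (by simp)
  have h2 := int_ge.1
  have h3 : Integrable (fun y => ge (y + ρ)) := h2.comp_add_right ρ
  have h12 : Integrable (fun y : ℝ => (Icc (-ρ) 0).indicator (fun _ => (1 : ℝ)) y + ge y) := h1.add h2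
  constructor
  · exact h12.add h3
  · unfold gD
    rw [integral_add h12 h3, integral_add h1 h2, int_ge.2,
      integral_add_right_eq_self ge ρ, int_ge.2, integral_indicator measurableSet_Icc]
    rw [setIntegral_const, Measure.real, Real.volume_Icc, ENNReal.toReal_ofReal (by linarith)]
    simp
    ring

lemma tendsto_gD_top {ρ : ℝ} : Tendsto (gD ρ) atTop (𝓝 0) := by
  unfold gD
  have h1 : Tendsto (fun y : ℝ => (Icc (-ρ) 0).indicator (fun _ => (1 : ℝ)) y) atTop (𝓝 0) := by
    refine tendsto_const_nhds.congr' ?_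
    filter_upwards [eventually_gt_atTop (0 : ℝ)] with y hy
    rw [indicator_of_notMem]
    rintro ⟨-, h⟩
    linarith
  have h3 : Tendsto (fun y : ℝ => ge (y + ρ)) atTop (𝓝 0) :=
    tendsto_ge_top.comp (tendsto_atTop_add_const_right _ _ tendsto_id)
  simpa using (h1.add tendsto_ge_top).add h3

lemma tendsto_gD_bot {ρ : ℝ} : Tendsto (gD ρ) atBot (𝓝 0) := by
  unfold gD
  have h1 : Tendsto (fun y : ℝ => (Icc (-ρ) 0).indicator (fun _ => (1 : ℝ)) y) atBot (𝓝 0) := by
    refine tendsto_const_nhds.congr' ?_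
    filter_upwards [eventually_lt_atBot (-ρ)] with y hy
    rw [indicator_of_notMem]
    rintro ⟨h, -⟩
    linarith
  have h3 : Tendsto (fun y : ℝ => ge (y + ρ)) atBot (𝓝 0) :=
    tendsto_ge_bot.comp (tendsto_atBot_add_const_right _ _ tendsto_id)
  simpa using (h1.add tendsto_ge_bot).add h3

/-- the weight is dominated -/
lemma min_le_gD {ρ y : ℝ} : min 1 (min (Real.exp (-y / 2)) (Real.exp ((ρ + y) / 2))) ≤ gD ρ y := by
  have hge : ∀ z, 0 ≤ ge z := fun z => (Real.exp_pos _).le
  have hin : 0 ≤ (Icc (-ρ) 0).indicator (fun _ => (1 : ℝ)) y :=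
    indicator_nonneg (fun _ _ => zero_le_one) y
  unfold gD
  rcases lt_or_ge 0 y with h | h
  · have h1 : ge y = Real.exp (-y / 2) := by
      unfold ge
      rw [abs_of_pos h]
    have := (min_le_right (1 : ℝ) (min (Real.exp (-y / 2)) (Real.exp ((ρ + y) / 2)))).trans
      (min_le_left _ _)
    have := hge (y + ρ)
    linarith
  · rcases lt_or_ge y (-ρ) with h2 | h2
    · have h1 : ge (y + ρ) = Real.exp ((ρ + y) / 2) := by
        unfold ge
        rw [abs_of_neg (by linarith)]
        congr 1
        ring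
      have := (min_le_right (1 : ℝ) (min (Real.exp (-y / 2)) (Real.exp ((ρ + y) / 2)))).trans
        (min_le_right _ _)
      have := hge y
      linarith
    · rw [indicator_of_mem (show y ∈ Icc (-ρ) 0 from ⟨h2, h⟩)]
      have := min_le_left (1 : ℝ) (min (Real.exp (-y / 2)) (Real.exp ((ρ + y) / 2)))
      have := hge y
      have := hge (y + ρ)
      linarith

end Pool.Agent.A856.HW
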